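import Pool.Agent.Work.MP_80812c_nt.T3.Mult

-- merged part: Pool.Agent.Work.MP_80812c_nt.T3.Mom
section
-- merged part: Pool.Agent.Work.MP_80812c_nt.T3.Nm
section
/-!
Norm bounds for the kernels, the iterated integrals and the functional `HS`.

PLAN. Tools: `Sm.mul'`, `Sm.add'`, `Sm.of_le`, `sm_C`, `sm_of_deriv`, `deriv_prim`, `const_prim`,
`Sm.small` (with `M = 0`, `σ = 1`) of `../Ser.lean`, `../Ell.lean`; `geo_mul` of `../ZeroD.lean`.
`G1 = Geo (-1)`, `G2 = Geo 1` by `rfl`; for `ρ ≤ 1/2` their norms are at most 2, the norm of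
`k2 c` is at most `2 + 1.9 * 20 = 40`, `nm ρ (shf f) ≤ 3 * nm ρ f` for `1/3 ≤ ρ` (see `sm_kern`).
`HS_bound`: induction on `u` generalizing `G`, `40^(k+1) + 40 * 80^k ≤ 80^(k+1)`.
`‖2 t ω - 1‖^2 = (t - 1)^2 + 3 t^2 ≤ 3`, `‖t ω + 1‖^2 = 1 + t + t^2`, `‖t ω - 1‖^2 = 1 - t + t^2`
(`om_re`, `om_im`).
-/

namespace MC3

open Finset MCV PowerSeries

theorem Geo_mul (c : ℂ) : (1 - C c * X) * Geo c = 1 := geo_mul c

theorem sm_Geo {c : ℂ} {ρ : ℝ} (h0 : 0 ≤ ρ) (h : ‖c‖ * ρ < 1) :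
    Sm ρ (Geo c) ∧ nm ρ (Geo c) ≤ (1 - ‖c‖ * ρ)⁻¹ := by
  have h1 : 0 ≤ ‖c‖ * ρ := by positivity
  rw [← tsum_geometric_of_lt_one h1 h]
  exact Sm.of_le h0 (summable_geometric_of_lt_one h1 h) fun t => by
    rw [Geo, coeff_mk, norm_pow, mul_pow]

theorem prL_bound {ρ : ℝ} (h0 : 0 ≤ ρ) (h1 : ρ ≤ 1) {f : ℂ⟦X⟧} (hf : Sm ρ f) :
    Sm ρ (prL f) ∧ nm ρ (prL f) ≤ nm ρ f := by
  have := sm_of_deriv h0 h1 (const_prim f) (by rwa [deriv_prim])
  rwa [deriv_prim] at this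

theorem Nm_Geo {c : ℂ} {ρ K : ℝ} (h0 : 0 ≤ ρ) (hK : 0 < K) (h : K⁻¹ ≤ 1 - ‖c‖ * ρ) :
    Sm ρ (Geo c) ∧ nm ρ (Geo c) ≤ K := by
  have h1 := inv_pos.2 hK
  have h2 := sm_Geo (c := c) h0 (by linarith)
  exact ⟨h2.1, h2.2.trans ((inv_le_comm₀ (by linarith) hK).2 h)⟩

theorem Nm_mul {ρ K : ℝ} (h0 : 0 ≤ ρ) {g f : ℂ⟦X⟧} (hg : Sm ρ g ∧ nm ρ g ≤ K) (hf : Sm ρ f) :
    Sm ρ (g * f) ∧ nm ρ (g * f) ≤ K * nm ρ f :=
  ⟨(hg.1.mul' h0 hf).1,
    (hg.1.mul' h0 hf).2.trans (mul_le_mul_of_nonneg_right hg.2 (nm_nonneg h0 f))⟩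

theorem Nm_G1 {ρ : ℝ} (h0 : 0 ≤ ρ) (h1 : ρ ≤ 1 / 2) : Sm ρ G1 ∧ nm ρ G1 ≤ 2 :=
  Nm_Geo (c := -1) h0 two_pos (by rw [norm_neg, norm_one]; linarith)

theorem Nm_G2 {ρ : ℝ} (h0 : 0 ≤ ρ) (h1 : ρ ≤ 1 / 2) : Sm ρ G2 ∧ nm ρ G2 ≤ 2 :=
  Nm_Geo (c := 1) h0 two_pos (by rw [norm_one]; linarith)

theorem Nm_G12 {ρ : ℝ} (h0 : 0 ≤ ρ) (h1 : ρ ≤ 1 / 2) : Sm ρ (G1 + G2) ∧ nm ρ (G1 + G2) ≤ 40 := by
  have a := Nm_G1 h0 h1
  have b := Nm_G2 h0 h1
  have c := a.1.add' h0 b.1
  exact ⟨c.1, by linarith [a.2, b.2, c.2]⟩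

theorem Nm_k2 {c : ℂ} (hc : ‖c‖ ≤ 19 / 10) {ρ : ℝ} (h0 : 0 ≤ ρ) (h1 : ρ ≤ 1 / 2) :
    Sm ρ (k2 c) ∧ nm ρ (k2 c) ≤ 40 := by
  have a := Nm_G1 h0 h1
  have b := Nm_Geo (c := c) (K := 20) h0 (by norm_num) (by nlinarith [norm_nonneg c])
  have d := Nm_mul h0 ⟨(sm_C (y := 0) ρ c).1, (sm_C (y := 0) ρ c).2.1.le.trans hc⟩ b.1
  have e := a.1.add' h0 d.1
  exact ⟨e.1, e.2.trans (by linarith [a.2, b.2, d.2])⟩

theorem Nm_neg {ρ K : ℝ} {g : ℂ⟦X⟧} (hg : Sm ρ g ∧ nm ρ g ≤ K) : Sm ρ (-g) ∧ nm ρ (-g) ≤ K := by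
  simpa only [Sm, nm, map_neg, norm_neg] using hg

theorem Nm_shf {ρ : ℝ} (h0 : 1 / 3 ≤ ρ) {f : ℂ⟦X⟧} (hf : Sm ρ f) :
    Sm ρ (shf f) ∧ nm ρ (shf f) ≤ 3 * nm ρ f := by
  have h2 : 0 ≤ ρ := by linarith
  have h3 : Summable fun t => ‖coeff (t + 1) f‖ * ρ ^ (t + 1) :=
    (summable_nat_add_iff (f := fun t => ‖coeff t f‖ * ρ ^ t) 1).2 hf
  have h4 := Sm.of_le (f := shf f) h2 (h3.mul_left 3) fun t => by
    rw [shf, coeff_mk, pow_succ]
    have : 0 ≤ ‖coeff (t + 1) f‖ * ρ ^ t := by positivity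
    nlinarith
  refine ⟨h4.1, h4.2.trans ?_⟩
  rw [tsum_mul_left, nm, Summable.tsum_eq_zero_add hf]
  have : 0 ≤ ‖coeff 0 f‖ * ρ ^ 0 := by positivity
  linarith

theorem Nm_G1shf {ρ : ℝ} (h0 : 1 / 3 ≤ ρ) (h1 : ρ ≤ 1 / 2) {f : ℂ⟦X⟧} (hf : Sm ρ f) :
    Sm ρ (G1 * shf f) ∧ nm ρ (G1 * shf f) ≤ 40 * nm ρ f := by
  have h2 : 0 ≤ ρ := by linarith
  have a := Nm_shf h0 hf
  have b := Nm_mul h2 (Nm_G1 h2 h1) a.1
  exact ⟨b.1, by linarith [a.2, b.2, nm_nonneg h2 f]⟩

theorem Nm_fin (a : Fin 3) : a = 0 ∨ a = 1 ∨ a = 2 := by omega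



theorem kn_bound {c : ℂ} (hc : ‖c‖ ≤ 19 / 10) {ρ : ℝ} (h0 : 1 / 3 ≤ ρ) (h1 : ρ ≤ 1 / 2) (a : Fin 3)
    {f : ℂ⟦X⟧} (hf : Sm ρ f) : Sm ρ (kn c a f) ∧ nm ρ (kn c a f) ≤ 40 * nm ρ f := by
  have h2 : 0 ≤ ρ := by linarith
  rcases Nm_fin a with rfl | rfl | rfl
  · exact Nm_G1shf h0 h1 hf
  · exact Nm_mul h2 (Nm_G12 h2 h1) hf
  · exact Nm_mul h2 (Nm_k2 hc h2 h1) hf

theorem kx_bound {c : ℂ} (hc : ‖c‖ ≤ 19 / 10) {ρ : ℝ} (h0 : 1 / 3 ≤ ρ) (h1 : ρ ≤ 1 / 2) (a : Fin 3)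
    {f : ℂ⟦X⟧} (hf : Sm ρ f) : Sm ρ (kx c a f) ∧ nm ρ (kx c a f) ≤ 40 * nm ρ f := by
  have h2 : 0 ≤ ρ := by linarith
  rcases Nm_fin a with rfl | rfl | rfl
  · exact Nm_mul h2 (Nm_G12 h2 h1) hf
  · exact Nm_G1shf h0 h1 hf
  · exact Nm_mul h2 (Nm_neg (Nm_k2 hc h2 h1)) hf

theorem It_bound {c : ℂ} (hc : ‖c‖ ≤ 19 / 10) {ρ : ℝ} (h0 : 1 / 3 ≤ ρ) (h1 : ρ ≤ 1 / 2)
    (u : List (Fin 3)) : Sm ρ (It c u) ∧ nm ρ (It c u) ≤ 40 ^ u.length := by
  have h2 : 0 ≤ ρ := by linarith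
  induction u with
  | nil => simpa [It] using And.intro (sm_C (y := 0) ρ 1).1 (sm_C (y := 0) ρ 1).2.1.le
  | cons a u ih =>
    have k1 := kn_bound hc h0 h1 a ih.1
    have k2 := prL_bound h2 (by linarith) k1.1
    refine ⟨k2.1, (k2.2.trans k1.2).trans ?_⟩
    rw [List.length_cons, pow_succ]
    linarith [ih.2]

theorem const_prL (f : ℂ⟦X⟧) : constantCoeff (prL f) = 0 := const_prim f

theorem deriv_prL (f : ℂ⟦X⟧) : derivative ℂ (prL f) = f := deriv_prim f

theorem prL_deriv (f : ℂ⟦X⟧) : prL (derivative ℂ f) = f - C (constantCoeff f) := by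
  refine derivative.ext ?_ ?_
  · rw [deriv_prL, map_sub, derivative_C, sub_zero]
  · rw [const_prL, map_sub, constantCoeff_C, sub_self]

theorem const_It (c : ℂ) {u : List (Fin 3)} (hu : u ≠ []) : constantCoeff (It c u) = 0 := by
  cases u with
  | nil => exact absurd rfl hu
  | cons a u => exact const_prL _

theorem Nm_third : ‖(1 / 3 : ℂ)‖ = 1 / 3 := by simp



theorem EE_le {f : ℂ⟦X⟧} (hf : Sm (1 / 3) f) : ‖EE f‖ ≤ nm (1 / 3) f := by
  rw [EE_eq hf]
  simpa using hf.small (M := 0) (y := 1 / 3) (by norm_num) zero_le_one le_rfl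
    (by rw [Nm_third, one_mul]) (by simp)

theorem EE_mul {f g : ℂ⟦X⟧} (hf : Sm (1 / 3) f) (hg : Sm (1 / 3) g) : EE (f * g) = EE f * EE g := by
  rw [EE_eq hf, EE_eq hg, EE_eq (hf.mul' (by norm_num) hg).1,
    ev_mul (Nm_third ▸ hf) (Nm_third ▸ hg)]

theorem EE_C (a : ℂ) : EE (C a) = a := by
  rw [EE_eq (sm_C (y := 0) _ a).1, (sm_C 0 a).2.2]

theorem EE_one : EE 1 = 1 := by
  simpa using EE_C 1

theorem EE_X : EE X = 1 / 3 := by
  rw [EE_eq (sm_X (y := 0) _).1, (sm_X 0).2]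

theorem EE_Geo {c : ℂ} (hc : ‖c‖ ≤ 19 / 10) : (1 - c / 3) * EE (Geo c) = 1 := by
  have h0 : (0 : ℝ) ≤ 1 / 3 := by norm_num
  have h1 := (sm_Geo (c := c) h0 (by linarith)).1
  have h2 := (sm_C (y := 0) (1 / 3) c).1
  have h3 := (sm_X (y := 0) (1 / 3)).1
  have h4 : Sm (1 / 3) (1 - C c * X) :=
    (Bs _ h0).sub_mem (Bs _ h0).one_mem ((Bs _ h0).mul_mem h2 h3)
  have h5 := EE_mul h4 h1
  rw [Geo_mul, EE_one, map_sub, EE_one, EE_mul h2 h3, EE_C, EE_X] at h5
  linear_combination -h5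

theorem EE_XX : EE XX = 1 / 2 := by
  have h0 : (0 : ℝ) ≤ 1 / 3 := by norm_num
  have h1 : (1 - -1 / 3) * EE G1 = 1 := EE_Geo (c := -1) (by norm_num)
  have h2 := (sm_C (y := 0) (1 / 3) 2).1
  have h3 := (sm_X (y := 0) (1 / 3)).1
  rw [XX, show (2 : ℂ⟦X⟧) = C 2 from (map_ofNat C 2).symm,
    EE_mul (h2.mul' h0 h3).1 (Nm_G1 h0 (by norm_num)).1, EE_mul h2 h3, EE_C, EE_X]
  linear_combination (1 / 2) * h1

theorem HS_bound {c c' : ℂ} (hc : ‖c‖ ≤ 19 / 10) (hc' : ‖c'‖ ≤ 19 / 10) (u : List (Fin 3))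
    {G : ℂ⟦X⟧} (hG : Sm (1 / 3) G) : ‖HS c c' u G‖ ≤ 80 ^ u.length * nm (1 / 3) G := by
  have h0 : (0 : ℝ) ≤ 1 / 3 := by norm_num
  have h1 : (1 / 3 : ℝ) ≤ 1 / 2 := by norm_num
  induction u generalizing G with
  | nil => simpa [HS_nil] using EE_le hG
  | cons b v ih =>
    have k1 := kx_bound hc le_rfl h1 b hG
    have k2 := prL_bound h0 (by norm_num) k1.1
    have k3 := It_bound hc' le_rfl h1 (b :: v)
    have k4 := (EE_le k3.1).trans k3.2
    have k5 := mul_le_mul k4 (EE_le hG) (norm_nonneg _) (by positivity)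
    have k6 := (ih k2.1).trans
      (mul_le_mul_of_nonneg_left (k2.2.trans k1.2) (by positivity))
    have k7 : (40 : ℝ) ^ v.length ≤ 80 ^ v.length := by gcongr; norm_num
    have k8 := mul_le_mul_of_nonneg_right k7 (nm_nonneg h0 G)
    rw [HS_cons]
    refine (norm_add_le _ _).trans ?_
    rw [List.length_cons, pow_succ] at k5
    rw [norm_mul, List.length_cons, pow_succ]
    linarith

theorem isOpen_UU : IsOpen UU := by
  have h1 : IsOpen {z : ℂ | ‖2 * z - 1‖ < 19 / 10} := isOpen_lt (by fun_prop) (by fun_prop)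
  have h2 : IsOpen {z : ℂ | ‖z + 1‖ < 19 / 10 * ‖z - 1‖} := isOpen_lt (by fun_prop) (by fun_prop)
  exact h1.inter h2

theorem UU_ne {z : ℂ} (hz : z ∈ UU) : z - 1 ≠ 0 := by
  intro h
  have := hz.2
  rw [h, norm_zero, mul_zero] at this
  exact absurd this (not_lt.2 (norm_nonneg _))

theorem UU_c0 {z : ℂ} (hz : z ∈ UU) : ‖c0 z‖ ≤ 19 / 10 := hz.1.le

theorem UU_c1 {z : ℂ} (hz : z ∈ UU) : ‖c1 z‖ ≤ 19 / 10 := by
  rw [c1, norm_div, div_le_iff₀ (norm_pos_iff.2 (UU_ne hz))]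
  exact hz.2.le

theorem ray_mem_UU {t : ℝ} (h0 : 0 ≤ t) (h1 : t ≤ 1) : (t : ℂ) * om ∈ UU := by
  have h3 : √3 ^ 2 = 3 := Real.sq_sqrt (by norm_num)
  have a : ‖2 * ((t : ℂ) * om) - 1‖ ^ 2 = (t - 1) ^ 2 + 3 * t ^ 2 := by
    rw [Complex.sq_norm, Complex.normSq_apply]
    simp [om_re, om_im]
    linear_combination t ^ 2 * h3
  have b : ‖(t : ℂ) * om + 1‖ ^ 2 = 1 + t + t ^ 2 := by
    rw [Complex.sq_norm, Complex.normSq_apply]
    simp [om_re, om_im]
    linear_combination t ^ 2 / 4 * h3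
  have c : ‖(t : ℂ) * om - 1‖ ^ 2 = 1 - t + t ^ 2 := by
    rw [Complex.sq_norm, Complex.normSq_apply]
    simp [om_re, om_im]
    linear_combination t ^ 2 / 4 * h3
  constructor
  · refine lt_of_pow_lt_pow_left₀ 2 (by norm_num) ?_
    rw [a]
    nlinarith
  · refine lt_of_pow_lt_pow_left₀ 2 (by positivity) ?_
    rw [mul_pow, b, c]
    nlinarith [sq_nonneg (t - 9 / 10)]

theorem om_mem_UU : om ∈ UU := by simpa using ray_mem_UU zero_le_one le_rfl

end MC3
end

-- merged part: Pool.Agent.Work.MP_80812c_nt.T3.Lz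
section
/-!
Two letter values and functions.

PLAN. `WV_mul`: `VV_mul`, `pow_add`. `ev_mem_WV`: `ev_mem`. `Lz_deriv`: `Rad.hasDerivAt`,
`hasDerivAt_Y`, `ev_ell_ode`, `norm_Y_lt`, `two_sub_ne` of `../Link.lean` (see the proof of `ev_LL`).
`Lz_cont`: `‖x / (2 - x)‖ < 1` iff `x.re < 1`. `const_of_deriv`:
`intervalIntegral.integral_eq_sub_of_hasDerivAt_of_le` on `[0, t]` with the zero function.
`landen`: `rescale (-1) (ell w) ∈ AA (Nat.size w)` by strong induction: for `g = rescale (-1) f`,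
`rescale (-1) (II 1 f) = -II 1 g` and, if `f` has no constant term,
`rescale (-1) (II 0 f) = II 0 g + II 1 g` (`derivative.ext`; `rescale (-1)` swaps `G1` and `G2`;
`shf g * G2 = shf g * G1 + (G1 + G2) * g` from `X_mul_shf`, `G1_mul`, `G2_mul`); `II_mem`,
`size_half`. Then `ev (-y) f = ev y (rescale (-1) f)` termwise and
`(1 - om) / (2 - (1 - om)) = -y0` (`om_sq`).
-/

namespace MC3

open Finset MCV PowerSeries

theorem WV_mul {i j : ℕ} {x y : ℂ} (hx : x ∈ WV i) (hy : y ∈ WV j) : x * y ∈ WV (i + j) := by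
  have h := VV_mul (show x * (-Complex.I) ^ i ∈ VV i from hx) (show y * (-Complex.I) ^ j ∈ VV j from hy)
  show x * y * (-Complex.I) ^ (i + j) ∈ VV (i + j)
  convert h using 1
  ring

theorem ev_mem_WV {j : ℕ} {f : ℂ⟦X⟧} (hf : f ∈ AA j) : ev y0 f ∈ WV j := by
  exact ev_mem hf

theorem WV_le_WW {j K : ℕ} (h : j < K) {x : ℂ} (hx : x ∈ WV j) : x ∈ WW K := by
  refine le_sup (f := fun j => (VV j).map (LinearMap.mulRight ℚ (Complex.I ^ j))) (mem_range.2 h)
    ⟨_, (show x * (-Complex.I) ^ j ∈ VV j from hx), ?_⟩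
  rw [LinearMap.mulRight_apply, mul_assoc, ← mul_pow]
  simp

theorem Lz_om (w : ℕ) : Lz w om ∈ WV (Nat.size w) := by
  exact ev_mem_WV (Submodule.subset_span ⟨w, rfl, rfl⟩)

theorem Lz_rd (f : ℂ⟦X⟧) :
    derivative ℂ (rescale (-1) f) = -rescale (-1) (derivative ℂ f) := by
  ext t
  rw [coeff_derivative, map_neg, coeff_rescale, coeff_rescale, coeff_derivative]
  ring

theorem Lz_rc (f : ℂ⟦X⟧) : constantCoeff (rescale (-1) f) = constantCoeff f := by
  rw [← coeff_zero_eq_constantCoeff_apply, coeff_rescale]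
  simp

theorem Lz_G1 : rescale (-1) G1 = G2 := by
  ext t
  rw [coeff_rescale, G1, G2, coeff_mk, coeff_mk, ← mul_pow]
  simp

theorem Lz_G2 : rescale (-1) G2 = G1 := by
  ext t
  rw [coeff_rescale, G1, G2, coeff_mk, coeff_mk, ← mul_pow]
  simp

theorem Lz_shf (f : ℂ⟦X⟧) : rescale (-1) (shf f) = -shf (rescale (-1) f) := by
  ext t
  rw [coeff_rescale, map_neg, shf, shf, coeff_mk, coeff_mk, coeff_rescale]
  ring

theorem Lz_II1 (f : ℂ⟦X⟧) : rescale (-1) (II 1 f) = -II 1 (rescale (-1) f) := by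
  refine derivative.ext ?_ (by rw [Lz_rc, map_neg, const_II, const_II, neg_zero])
  rw [Lz_rd, map_neg, deriv_II, deriv_II, kern, kern, if_neg one_ne_zero, if_neg one_ne_zero,
    map_mul, map_add, Lz_G1, Lz_G2, add_comm]

theorem Lz_II0 {f : ℂ⟦X⟧} (hf : constantCoeff f = 0) :
    rescale (-1) (II 0 f) = II 0 (rescale (-1) f) + II 1 (rescale (-1) f) := by
  refine derivative.ext ?_ (by rw [Lz_rc, map_add, const_II, const_II, const_II, add_zero])
  have h := X_mul_shf (f := rescale (-1) f) (by rw [Lz_rc, hf])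
  rw [Lz_rd, map_add, deriv_II, deriv_II, deriv_II, kern, kern, kern, if_pos rfl, if_pos rfl,
    if_neg one_ne_zero, map_mul, Lz_shf, Lz_G1]
  linear_combination (G1 + G2) * h + shf (rescale (-1) f) * G2_mul - shf (rescale (-1) f) * G1_mul

theorem Lz_resc (w : ℕ) : rescale (-1) (ell w) ∈ AA (Nat.size w) := by
  induction w using Nat.strong_induction_on with
  | _ w ih =>
    by_cases hw : w = 0
    · rw [hw, ell_zero, map_one, Nat.size_zero]
      exact one_mem_AA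
    have h1 := ih (w / 2) (by omega)
    have h2 := II_mem (a := 1) (by norm_num) (by simp) h1
    rw [ell_pos hw, size_half hw]
    rcases Nat.mod_two_eq_zero_or_one w with h | h
    · rw [h, Lz_II0 (const_half hw h)]
      refine add_mem (II_mem (by norm_num) (fun _ => ?_) h1) h2
      exact (Nat.size_pos.2 (show 0 < w / 2 by omega)).ne'
    · rw [h, Lz_II1]
      exact neg_mem h2

theorem landen (w : ℕ) : Lz w (1 - om) ∈ WV (Nat.size w) := by
  have h1 : (1 - om) / (2 - (1 - om)) = -y0 := by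
    have h2 := two_sub_ne norm_om.le
    have h3 : 2 - (1 - om) ≠ 0 := fun h => by
      have := congrArg Complex.re h
      simp [om_re] at this
      norm_num at this
    rw [y0, ← neg_div, div_eq_div_iff h3 h2]
    linear_combination 2 * om_sq
  have h2 : ev (-y0) (ell w) = ev y0 (rescale (-1) (ell w)) := by
    refine tsum_congr fun t => ?_
    rw [coeff_rescale, neg_pow]
    ring
  rw [Lz, h1, h2]
  exact ev_mem_WV (Lz_resc w)

theorem Lz_nil (x : ℂ) : Lz 0 x = 1 := by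
  rw [Lz, ell_zero, ev_one]

theorem Lz_zero {w : ℕ} (hw : w ≠ 0) : Lz w 0 = 0 := by
  rw [Lz, zero_div, ev_zero_left, const_ell hw]

theorem Lz_deriv {w : ℕ} (hw : w ≠ 0) {x : ℂ} (hx : ‖x‖ < 1) : ∃ d : ℂ, HasDerivAt (Lz w) d x ∧
    (if w % 2 = 0 then x else 1 - x) * d = Lz (w / 2) x := by
  refine ⟨_, HasDerivAt.comp (h₂ := fun z => ev z (ell w)) (h := fun z : ℂ => z / (2 - z)) _
    ((rad_ell w).hasDerivAt (norm_Y_lt hx)) (hasDerivAt_Y (two_sub_ne hx.le)), ?_⟩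
  exact ev_ell_ode hw hx

theorem Lz_cont (w : ℕ) {x : ℂ} (hx : x.re < 1) : ContinuousAt (Lz w) x := by
  have h1 : ‖x‖ < ‖2 - x‖ := by
    refine lt_of_pow_lt_pow_left₀ 2 (norm_nonneg _) ?_
    rw [← Complex.normSq_eq_norm_sq, ← Complex.normSq_eq_norm_sq, Complex.normSq_apply,
      Complex.normSq_apply]
    simp only [Complex.sub_re, Complex.sub_im, Complex.re_ofNat, Complex.im_ofNat]
    nlinarith
  have h2 : 0 < ‖2 - x‖ := (norm_nonneg x).trans_lt h1
  have h3 : ‖x / (2 - x)‖ < 1 := by rwa [norm_div, div_lt_one h2]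
  exact (HasDerivAt.comp (h₂ := fun z => ev z (ell w)) (h := fun z : ℂ => z / (2 - z)) _
    ((rad_ell w).hasDerivAt h3) (hasDerivAt_Y (norm_pos_iff.1 h2))).continuousAt

theorem const_of_deriv {F : ℝ → ℂ} (h1 : ContinuousOn F (Set.Icc 0 1))
    (h2 : ∀ t ∈ Set.Ioo (0 : ℝ) 1, HasDerivAt F 0 t) : ∀ t ∈ Set.Icc (0 : ℝ) 1, F t = F 0 := by
  intro t ht
  have h := intervalIntegral.integral_eq_sub_of_hasDerivAt_of_le (f := F) (f' := fun _ => 0) ht.1
    (h1.mono (Set.Icc_subset_Icc_right ht.2))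
    (fun x hx => h2 x ⟨hx.1, hx.2.trans_le ht.2⟩) intervalIntegrable_const
  rw [intervalIntegral.integral_zero] at h
  exact sub_eq_zero.1 h.symm

end MC3
end

-- merged part: Pool.Agent.Work.MP_80812c_nt.T3.Base
section
/-!
The values at `z = 0`: multiple zeta values are combinations of two letter values at `ω`.

PLAN. `c0 0 = c1 0 = -1` and `k2 (-1) = 0`. If `2 ∈ u` then `It (-1) u = 0` and
`HS (-1) (-1) u G = 0` for all `G` (induction on `u` generalizing `G`). Otherwise let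
`num [] = 0`, `num (a :: u) = 2 * num u + a`; for `Adm u`, `2 ∉ u`: `Nat.size (num u) = u.length`
(`size_half`; `num u ≠ 0` if `u ≠ []`), `It (-1) u = ell (num u)` (`ell_pos`, `II`, `kern`), and
`prL (kx (-1) b (ell m)) = ell (2 * m + (1 - b))` when that index is not zero. Put
`ψ m [] x = Lz m (1 - x)`, `ψ m (b :: v) x = Lz m (1 - x) * Lz (num (b :: v)) x + ψ (2 * m + (1 - b)) v x`.
Then `HS (-1) (-1) u (ell m) = ψ m u (1 / 2)` (`EE_eq`, `sm_ell`, `(1/2) / (2 - 1/2) = 1/3`), as long as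
`m ≠ 0` or `u.head? ≠ some 1`. On the segment `x t = 1/2 + t * (om - 1/2)`, `0 < t < 1`, both `‖x‖ < 1`
and `‖1 - x‖ < 1`; by induction on `u` generalizing `m`, the derivative of `ψ m u` at `x` is
`-d * Lz (num u) x`, where `d` is the derivative of `Lz m` at `1 - x` (zero for `m = 0`): telescoping
by `Lz_deriv`, after cancelling `x ≠ 0` or `1 - x ≠ 0`. So `ψ 0 u` is constant (`const_of_deriv`,
`Lz_cont`), and `ψ m u om ∈ WV (Nat.size m + u.length)` by `landen`, `Lz_om`, `WV_mul`.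
-/

namespace MC3

open Finset MCV PowerSeries

/-- The binary code of a word. -/
def Base_num : List (Fin 3) → ℕ
  | [] => 0
  | a :: u => 2 * Base_num u + a.1

/-- The function that is constant along the segment. -/
noncomputable def Base_psi : List (Fin 3) → ℕ → ℂ → ℂ
  | [], m, x => Lz m (1 - x)
  | b :: v, m, x => Lz m (1 - x) * Lz (Base_num (b :: v)) x + Base_psi v (2 * m + (1 - b.1)) x

theorem Base_adm {a : Fin 3} {v : List (Fin 3)} (h : Adm (a :: v)) : Adm v := by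
  cases v with
  | nil => trivial
  | cons b v => exact h

theorem Base_num_ne : ∀ {a : Fin 3} {v : List (Fin 3)}, Adm (a :: v) → Base_num (a :: v) ≠ 0
  | a, [], h => by
    have h' : a ≠ 0 := h
    have : a.1 ≠ 0 := fun e => h' (Fin.ext e)
    simp only [Base_num]
    omega
  | a, b :: v, h => by
    have := Base_num_ne (a := b) (v := v) h
    rw [Base_num]
    omega

theorem Base_lt {a : Fin 3} {v : List (Fin 3)} (h : (2 : Fin 3) ∉ a :: v) : a.1 < 2 := by
  have h' : a ≠ 2 := fun e => h (e ▸ List.mem_cons_self)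
  have : a.1 ≠ 2 := fun e => h' (Fin.ext e)
  have := a.2
  omega

theorem Base_cases {a : Fin 3} (h : a.1 < 2) : a = 0 ∨ a = 1 := by
  have : a.1 = 0 ∨ a.1 = 1 := by omega
  rcases this with e | e
  · exact Or.inl (Fin.ext e)
  · exact Or.inr (Fin.ext e)

theorem Base_tail {a : Fin 3} {v : List (Fin 3)} (h : (2 : Fin 3) ∉ a :: v) : (2 : Fin 3) ∉ v :=
  fun e => h (List.mem_cons_of_mem _ e)

theorem Base_div {a : Fin 3} {v : List (Fin 3)} (h : (2 : Fin 3) ∉ a :: v) :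
    Base_num (a :: v) / 2 = Base_num v ∧ Base_num (a :: v) % 2 = a.1 := by
  have := Base_lt h
  rw [Base_num]
  omega

theorem Base_size : ∀ u : List (Fin 3), Adm u → (2 : Fin 3) ∉ u →
    Nat.size (Base_num u) = u.length
  | [], _, _ => by simp [Base_num]
  | a :: v, h, h2 => by
    rw [size_half (Base_num_ne h), (Base_div h2).1, Base_size v (Base_adm h) (Base_tail h2),
      List.length_cons]

theorem Base_It (c : ℂ) : ∀ u : List (Fin 3), Adm u → (2 : Fin 3) ∉ u →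
    It c u = ell (Base_num u)
  | [], _, _ => by rw [Base_num, ell_zero, It]
  | a :: v, h, h2 => by
    rw [ell_pos (Base_num_ne h), (Base_div h2).1, (Base_div h2).2, It,
      Base_It c v (Base_adm h) (Base_tail h2), prL_apply, II, kern]
    rcases Base_cases (Base_lt h2) with rfl | rfl
    · rw [kn_zero, if_pos (by simp), mul_comm]
    · rw [kn_one, if_neg (by simp)]

theorem Base_idx {b : Fin 3} {v : List (Fin 3)} {m : ℕ} (h2 : (2 : Fin 3) ∉ b :: v)
    (hm : m ≠ 0 ∨ (b :: v).head? ≠ some 1) : 2 * m + (1 - b.1) ≠ 0 := by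
  rcases hm with hm | hm
  · omega
  · rcases Base_cases (Base_lt h2) with rfl | rfl
    · simp
    · simp at hm

theorem Base_J (c : ℂ) {b : Fin 3} (hb : b.1 < 2) {m : ℕ} (hm : 2 * m + (1 - b.1) ≠ 0) :
    prL (kx c b (ell m)) = ell (2 * m + (1 - b.1)) := by
  have e1 : (2 * m + (1 - b.1)) / 2 = m := by omega
  have e2 : (2 * m + (1 - b.1)) % 2 = 1 - b.1 := by omega
  rw [ell_pos hm, e1, e2, prL_apply, II, kern]
  rcases Base_cases hb with rfl | rfl
  · rw [kx_zero, if_neg (by simp)]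
  · rw [kx_one, if_pos (by simp), mul_comm]

theorem Base_EE (m : ℕ) : EE (ell m) = Lz m (1 / 2) := by
  rw [EE_eq (sm_ell (by norm_num) (by norm_num) m), Lz]
  norm_num

theorem Base_HS (c c' : ℂ) : ∀ u : List (Fin 3), Adm u → (2 : Fin 3) ∉ u → ∀ m : ℕ,
    (m ≠ 0 ∨ u.head? ≠ some 1) → HS c c' u (ell m) = Base_psi u m (1 / 2)
  | [], _, _, m, _ => by
    rw [HS_nil, Base_psi, Base_EE]
    norm_num
  | b :: v, h, h2, m, hm => by
    have hi := Base_idx h2 hm
    rw [HS_cons, Base_It c' _ h h2, Base_J c (Base_lt h2) hi,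
      Base_HS c c' v (Base_adm h) (Base_tail h2) _ (Or.inl hi), Base_psi, Base_EE, Base_EE,
      mul_comm]
    norm_num

theorem Base_deriv {x : ℂ} (hx : ‖x‖ < 1) (hx' : ‖1 - x‖ < 1) : ∀ u : List (Fin 3), Adm u →
    (2 : Fin 3) ∉ u → ∀ m : ℕ, (m ≠ 0 ∨ u.head? ≠ some 1) → ∀ d : ℂ,
      HasDerivAt (Lz m) d (1 - x) → HasDerivAt (Base_psi u m) (-d * Lz (Base_num u) x) x
  | [], _, _, m, _, d, hd => by
    have h1 : HasDerivAt (fun y : ℂ => Lz m (1 - y)) (-d) x := hd.comp_const_sub 1 x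
    rw [Base_num, Lz_nil, mul_one]
    exact h1
  | b :: v, h, h2, m, hm, d, hd => by
    have hi := Base_idx h2 hm
    have hb := Base_lt h2
    have h1 : HasDerivAt (fun y : ℂ => Lz m (1 - y)) (-d) x := hd.comp_const_sub 1 x
    obtain ⟨d', hd', ed'⟩ := Lz_deriv hi hx'
    obtain ⟨e, he, ee⟩ := Lz_deriv (Base_num_ne h) hx
    have h3 := Base_deriv hx hx' v (Base_adm h) (Base_tail h2) _ (Or.inl hi) d' hd'
    have e1 : (2 * m + (1 - b.1)) / 2 = m := by omega
    have e2 : (2 * m + (1 - b.1)) % 2 = 1 - b.1 := by omega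
    rw [e1, e2] at ed'
    rw [(Base_div h2).1, (Base_div h2).2] at ee
    have key : Lz m (1 - x) * e = d' * Lz (Base_num v) x := by
      rw [← ed', ← ee]
      rcases Base_cases hb with rfl | rfl
      · rw [if_neg (by simp), if_pos (by simp)]
        ring
      · rw [if_pos (by simp), if_neg (by simp)]
        ring
    have h4 := (h1.mul he).add h3
    have e3 : -d * Lz (Base_num (b :: v)) x + Lz m (1 - x) * e + -d' * Lz (Base_num v) x =
        -d * Lz (Base_num (b :: v)) x := by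
      rw [key]
      ring
    rw [e3] at h4
    exact h4

theorem Base_cont {x : ℂ} (hx : x.re < 1) (hx' : (1 - x).re < 1) : ∀ (u : List (Fin 3)) (m : ℕ),
    ContinuousAt (Base_psi u m) x
  | [], m => by
    have h1 : ContinuousAt (fun y : ℂ => Lz m (1 - y)) x :=
      ContinuousAt.comp (f := fun y : ℂ => 1 - y) (Lz_cont m hx') (by fun_prop)
    exact h1
  | b :: v, m => by
    have h1 : ContinuousAt (fun y : ℂ => Lz m (1 - y)) x :=
      ContinuousAt.comp (f := fun y : ℂ => 1 - y) (Lz_cont m hx') (by fun_prop)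
    exact (h1.mul (Lz_cont _ hx)).add (Base_cont hx hx' v _)

theorem Base_mem : ∀ u : List (Fin 3), Adm u → (2 : Fin 3) ∉ u → ∀ m : ℕ,
    (m ≠ 0 ∨ u.head? ≠ some 1) → Base_psi u m om ∈ WV (Nat.size m + u.length)
  | [], _, _, m, _ => landen m
  | b :: v, h, h2, m, hm => by
    have hi := Base_idx h2 hm
    have hb := Base_lt h2
    have e1 : (2 * m + (1 - b.1)) / 2 = m := by omega
    have h3 := Base_mem v (Base_adm h) (Base_tail h2) _ (Or.inl hi)
    have h4 := WV_mul (landen m) (Lz_om (Base_num (b :: v)))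
    rw [Base_size _ h h2] at h4
    rw [size_half hi, e1, add_assoc, add_comm 1, ← List.length_cons (a := b)] at h3
    exact add_mem h4 h3

theorem Base_seg (t : ℝ) : ((1 / 2 : ℂ) + t * (om - 1 / 2)).re = 1 / 2 ∧
    ((1 / 2 : ℂ) + t * (om - 1 / 2)).im = t * (√3 / 2) := by
  constructor
  · simp [om_re]
  · simp [om_im]

theorem Base_norm {z : ℂ} {t : ℝ} (h0 : 0 < t) (h1 : t < 1) (hr : z.re = 1 / 2)
    (hi : z.im ^ 2 = (t * (√3 / 2)) ^ 2) : ‖z‖ < 1 := by
  have h3 : √3 ^ 2 = 3 := Real.sq_sqrt (by norm_num)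
  have : ‖z‖ ^ 2 < 1 := by
    rw [Complex.sq_norm, Complex.normSq_apply, hr, ← sq z.im, hi, mul_pow, div_pow, h3]
    nlinarith
  exact (sq_lt_one_iff₀ (norm_nonneg _)).1 this

theorem Base_const (u : List (Fin 3)) (hu : Adm u) (h2 : (2 : Fin 3) ∉ u)
    (h1 : u.head? ≠ some 1) : Base_psi u 0 om = Base_psi u 0 (1 / 2) := by
  have hs : ∀ t : ℝ, HasDerivAt (fun s : ℝ => (1 / 2 : ℂ) + s * (om - 1 / 2)) (om - 1 / 2) t := by
    intro t
    have := ((Complex.ofRealCLM.hasDerivAt (x := t)).mul_const (om - 1 / 2)).const_add (1 / 2 : ℂ)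
    simpa using this
  have key := const_of_deriv (F := fun s : ℝ => Base_psi u 0 ((1 / 2 : ℂ) + s * (om - 1 / 2)))
    (fun t _ => by
      refine ContinuousAt.continuousWithinAt ?_
      refine ContinuousAt.comp (f := fun s : ℝ => (1 / 2 : ℂ) + s * (om - 1 / 2))
        (Base_cont ?_ ?_ u 0) (hs t).continuousAt
      · rw [(Base_seg t).1]
        norm_num
      · rw [Complex.sub_re, (Base_seg t).1]
        norm_num)
    (fun t ht => by
      have n1 := Base_norm ht.1 ht.2 (Base_seg t).1 (by rw [(Base_seg t).2])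
      have n2 := Base_norm (z := 1 - ((1 / 2 : ℂ) + t * (om - 1 / 2))) ht.1 ht.2
        (by rw [Complex.sub_re, (Base_seg t).1]; norm_num)
        (by rw [Complex.sub_im, (Base_seg t).2]; simp)
      have h0 : HasDerivAt (Lz 0) 0 (1 - ((1 / 2 : ℂ) + t * (om - 1 / 2))) := by
        have : Lz 0 = fun _ => 1 := funext Lz_nil
        rw [this]
        exact hasDerivAt_const _ _
      have h3 := Base_deriv n1 n2 u hu h2 0 (Or.inr h1) 0 h0
      have h4 := h3.scomp t (hs t)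
      rw [neg_zero, zero_mul, smul_zero] at h4
      exact h4) 1 ⟨zero_le_one, le_rfl⟩
  simpa using key

theorem Base_k2 : k2 (-1) = 0 := by
  have : Geo (-1) = G1 := rfl
  rw [k2, this]
  simp

theorem Base_two : ∀ u : List (Fin 3), (2 : Fin 3) ∈ u →
    It (-1) u = 0 ∧ ∀ G, HS (-1) (-1) u G = 0
  | [], h => by simp at h
  | a :: v, h => by
    have hI : It (-1) (a :: v) = 0 := by
      rcases List.mem_cons.1 h with rfl | h'
      · rw [It, kn_two, Base_k2, zero_mul, map_zero]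
      · rw [It, (Base_two v h').1, map_zero, map_zero]
    refine ⟨hI, fun G => ?_⟩
    rw [HS_cons, hI, map_zero, zero_mul, zero_add]
    rcases List.mem_cons.1 h with rfl | h'
    · rw [kx_two, Base_k2, neg_zero, zero_mul, map_zero, map_zero]
    · exact (Base_two v h').2 _

theorem zt_zero_mem (u : List (Fin 3)) (hu : Adm u) (h1 : u.head? ≠ some 1) :
    zt 0 u ∈ WV u.length := by
  have e0 : c0 0 = -1 := by simp [c0]
  have e1 : c1 0 = -1 := by simp [c1]
  rw [zt, e0, e1]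
  by_cases h2 : (2 : Fin 3) ∈ u
  · rw [(Base_two u h2).2]
    exact zero_mem _
  · have h3 := Base_mem u hu h2 0 (Or.inr h1)
    rw [Nat.size_zero, zero_add, Base_const u hu h2 h1] at h3
    rw [← ell_zero, Base_HS _ _ u hu h2 0 (Or.inr h1)]
    exact h3

end MC3
end

-- merged part: Pool.Agent.Work.MP_80812c_nt.T3.HD
section
/-!
The derivative in the third letter, analytic part.

PLAN. For families `F F' : ℂ → ℂ⟦X⟧` put
`Bd F := ∃ B, ∀ z ∈ UU, Sm (1/2) (F z) ∧ nm (1/2) (F z) ≤ B` and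
`HD F F' := ∀ z ∈ UU, ∀ m, HasDerivAt (fun z => coeff m (F z)) (coeff m (F' z)) z`.
Key lemma: `Bd F`, `HD F F'`, `z ∈ UU` give `HasDerivAt (fun z => EE (F z)) (EE (F' z)) z`: the terms
`coeff m (F z) * (1/3)^m` are differentiable on the open set `UU` and bounded by `B * (2/3)^m`
(`Sm.coeff_le`), so `Complex.differentiableOn_tsum_of_summable_norm` and
`Complex.hasSum_deriv_of_summable_norm` apply; the series of derivatives is summable, hence
absolutely summable in `ℂ` (`summable_norm_iff`), which is `Sm (1/3) (F' z)`; `EE_eq` on `UU`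
(eventually equal near `z`). `HD` is closed under sums, products (`coeff_mul`, a finite sum),
`prL`, `shf`, constants; `HD (fun z => k2 (c z)) (fun z => C (c' z) * Geo (c z) ^ 2)` when `c` has
derivative `c'` (the coefficient is `(-1)^m + c^(m+1)`; the coefficient of `Geo c ^ 2` is
`(m+1) c^m`). `c0' = 2`, `c1' = -2 / (z - 1)^2`. `Bd` comes from `It_bound`, `kx_bound`, `prL_bound`.
Induction on `u` for `It`, and on `u` generalizing the families `G, G'` for `HS`.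
-/

namespace MC3

open Finset MCV PowerSeries

/-- Uniform bound on the parameter domain. -/
def HD_Bd (F : ℂ → ℂ⟦X⟧) : Prop := ∃ B : ℝ, ∀ z ∈ UU, Sm (1 / 2) (F z) ∧ nm (1 / 2) (F z) ≤ B

/-- Coefficientwise derivative on the parameter domain. -/
def HD_D (F F' : ℂ → ℂ⟦X⟧) : Prop :=
  ∀ z ∈ UU, ∀ m, HasDerivAt (fun z => coeff m (F z)) (coeff m (F' z)) z

theorem HD_EE {F F' : ℂ → ℂ⟦X⟧} (hB : HD_Bd F) (hD : HD_D F F') {z : ℂ} (hz : z ∈ UU) :
    HasDerivAt (fun z => EE (F z)) (EE (F' z)) z := by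
  obtain ⟨B, hB⟩ := hB
  have h3 : ‖(1 / 3 : ℂ)‖ = 1 / 3 := by simp
  have hu : Summable fun m : ℕ => B * (2 / 3 : ℝ) ^ m :=
    (summable_geometric_of_lt_one (by norm_num) (by norm_num)).mul_left B
  have hd : ∀ m : ℕ, DifferentiableOn ℂ (fun z => coeff m (F z) * (1 / 3 : ℂ) ^ m) UU :=
    fun m w hw => ((hD w hw m).mul_const _).differentiableAt.differentiableWithinAt
  have hle : ∀ (m : ℕ) (w : ℂ), w ∈ UU →
      ‖coeff m (F w) * (1 / 3 : ℂ) ^ m‖ ≤ B * (2 / 3 : ℝ) ^ m := fun m w hw => by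
    have h1 := ((hB w hw).1.coeff_le (by norm_num) m).trans (hB w hw).2
    have e : (1 / 3 : ℝ) ^ m = (1 / 2) ^ m * (2 / 3) ^ m := by
      rw [← mul_pow]
      norm_num
    rw [norm_mul, norm_pow, h3, e, ← mul_assoc]
    exact mul_le_mul_of_nonneg_right h1 (by positivity)
  have h1 := (Complex.differentiableOn_tsum_of_summable_norm hu hd isOpen_UU hle).differentiableAt
    (isOpen_UU.mem_nhds hz)
  have h2 := Complex.hasSum_deriv_of_summable_norm hu hd isOpen_UU hle hz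
  have e : (fun m : ℕ => deriv (fun z => coeff m (F z) * (1 / 3 : ℂ) ^ m) z) =
      fun m => coeff m (F' z) * (1 / 3 : ℂ) ^ m :=
    funext fun m => ((hD z hz m).mul_const _).deriv
  rw [e] at h2
  have hs : Sm (1 / 3) (F' z) := by
    have := summable_norm_iff.2 h2.summable
    simp only [norm_mul, norm_pow, h3] at this
    exact this
  have h4 := h1.hasDerivAt
  rw [← h2.tsum_eq] at h4
  rw [EE_eq hs]
  refine h4.congr_of_eventuallyEq ?_
  filter_upwards [isOpen_UU.mem_nhds hz] with w hw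
  exact EE_eq ((hB w hw).1.mono (by norm_num) (by norm_num))

theorem HD_congr {F F' G' : ℂ → ℂ⟦X⟧} (h : HD_D F F') (e : ∀ z, G' z = F' z) : HD_D F G' := by
  have : G' = F' := funext e
  rw [this]
  exact h

theorem HD_const (f : ℂ⟦X⟧) : HD_D (fun _ => f) (fun _ => 0) := fun z _ m => by
  rw [map_zero]
  exact hasDerivAt_const z _

theorem HD_neg {F F' : ℂ → ℂ⟦X⟧} (h : HD_D F F') : HD_D (fun z => -F z) (fun z => -F' z) :=
  fun z hz m => by
    simp only [map_neg]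
    exact (h z hz m).neg

theorem HD_mul {F F' G G' : ℂ → ℂ⟦X⟧} (h : HD_D F F') (h' : HD_D G G') :
    HD_D (fun z => F z * G z) (fun z => F' z * G z + F z * G' z) := fun z hz m => by
  simp only [map_add, coeff_mul]
  rw [← sum_add_distrib]
  exact HasDerivAt.fun_sum fun p _ => (h z hz p.1).mul (h' z hz p.2)

theorem HD_cmul (f : ℂ⟦X⟧) {G G' : ℂ → ℂ⟦X⟧} (h : HD_D G G') :
    HD_D (fun z => f * G z) (fun z => f * G' z) :=
  HD_congr (HD_mul (HD_const f) h) fun z => by rw [zero_mul, zero_add]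

theorem HD_shf {F F' : ℂ → ℂ⟦X⟧} (h : HD_D F F') :
    HD_D (fun z => shf (F z)) (fun z => shf (F' z)) := fun z hz m => by
  simp only [shf, coeff_mk]
  exact h z hz (m + 1)

theorem HD_prL {F F' : ℂ → ℂ⟦X⟧} (h : HD_D F F') :
    HD_D (fun z => prL (F z)) (fun z => prL (F' z)) := fun z hz m => by
  cases m with
  | zero =>
    simp only [coeff_zero_eq_constantCoeff, const_prL]
    exact hasDerivAt_const z _
  | succ m =>
    simp only [prL_apply, prim, coeff_succ_X_mul, coeff_mk]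
    exact (h z hz m).div_const _

theorem HD_coeff_sq (c : ℂ) (m : ℕ) : coeff m (Geo c ^ 2) = ((m : ℂ) + 1) * c ^ m := by
  rw [sq, coeff_mul]
  have : ∀ p ∈ antidiagonal m, coeff p.1 (Geo c) * coeff p.2 (Geo c) = c ^ m := fun p hp => by
    rw [Geo, coeff_mk, coeff_mk, ← pow_add, mem_antidiagonal.1 hp]
  rw [sum_congr rfl this, sum_const, Nat.card_antidiagonal, nsmul_eq_mul]
  push_cast
  ring

theorem HD_k2 {c c' : ℂ → ℂ} (h : ∀ z ∈ UU, HasDerivAt c (c' z) z) :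
    HD_D (fun z => k2 (c z)) (fun z => C (c' z) * Geo (c z) ^ 2) := fun z hz m => by
  have e : ∀ w, coeff m (k2 (c w)) = (-1) ^ m + c w ^ (m + 1) := fun w => by
    rw [k2, map_add, coeff_C_mul, G1, Geo, coeff_mk, coeff_mk, pow_succ']
  simp only [e]
  rw [coeff_C_mul, HD_coeff_sq]
  have := ((h z hz).fun_pow (m + 1)).const_add ((-1 : ℂ) ^ m)
  refine this.congr_deriv ?_
  push_cast
  ring

theorem HD_e0 : HD_D (fun z => k2 (c0 z)) e0 := by
  refine HD_k2 (c := c0) (c' := fun _ => 2) fun z _ => ?_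
  have := ((hasDerivAt_id z).const_mul (2 : ℂ)).sub_const 1
  rw [mul_one] at this
  exact this

theorem HD_e1 : HD_D (fun z => -k2 (c1 z)) e1 := by
  have h : HD_D (fun z => k2 (c1 z)) (fun z => C (-(2 / (z - 1) ^ 2)) * Geo (c1 z) ^ 2) := by
    refine HD_k2 (c := c1) (c' := fun z => -(2 / (z - 1) ^ 2)) fun z hz => ?_
    have := ((hasDerivAt_id z).add_const (1 : ℂ)).fun_div ((hasDerivAt_id z).sub_const 1)
      (UU_ne hz)
    refine HasDerivAt.congr_deriv this ?_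
    simp only [id]
    ring
  refine HD_congr (HD_neg h) fun z => ?_
  rw [e1, map_neg, neg_mul, neg_neg]

theorem HD_kn {c : ℂ → ℂ} {d G G' : ℂ → ℂ⟦X⟧} (hd : HD_D (fun z => k2 (c z)) d)
    (h : HD_D G G') (a : Fin 3) : HD_D (fun z => kn (c z) a (G z))
      (fun z => (if a = 2 then d z * G z else 0) + kn (c z) a (G' z)) := by
  fin_cases a
  · exact HD_congr (HD_cmul G1 (HD_shf h)) fun z => by simp [kn_zero]
  · exact HD_congr (HD_cmul (G1 + G2) h) fun z => by simp [kn_one]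
  · exact HD_congr (HD_mul hd h) fun z => by simp [kn_two]

theorem HD_kx {c : ℂ → ℂ} {d G G' : ℂ → ℂ⟦X⟧} (hd : HD_D (fun z => -k2 (c z)) d)
    (h : HD_D G G') (a : Fin 3) : HD_D (fun z => kx (c z) a (G z))
      (fun z => (if a = 2 then d z * G z else 0) + kx (c z) a (G' z)) := by
  fin_cases a
  · exact HD_congr (HD_cmul (G1 + G2) h) fun z => by simp [kx_zero]
  · exact HD_congr (HD_cmul G1 (HD_shf h)) fun z => by simp [kx_one]
  · exact HD_congr (HD_mul hd h) fun z => by simp [kx_two]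

theorem HD_It (u : List (Fin 3)) :
    HD_D (fun z => It (c0 z) u) (fun z => DI (c0 z) (e0 z) u) := by
  induction u with
  | nil => exact HD_const 1
  | cons a u ih => exact HD_prL (HD_kn HD_e0 ih a)

theorem HD_Bd_It (u : List (Fin 3)) : HD_Bd (fun z => It (c0 z) u) :=
  ⟨40 ^ u.length, fun _ hz => It_bound (UU_c0 hz) (by norm_num) le_rfl u⟩

theorem HD_Bd_step {G : ℂ → ℂ⟦X⟧} (h : HD_Bd G) (b : Fin 3) :
    HD_Bd (fun z => prL (kx (c1 z) b (G z))) := by
  obtain ⟨B, hB⟩ := h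
  refine ⟨40 * B, fun z hz => ?_⟩
  have h1 := kx_bound (UU_c1 hz) (ρ := 1 / 2) (by norm_num) le_rfl b (hB z hz).1
  have h2 := prL_bound (ρ := 1 / 2) (by norm_num) (by norm_num) h1.1
  have h3 := (hB z hz).2
  exact ⟨h2.1, by linarith [h1.2, h2.2]⟩

theorem HD_HS {z : ℂ} (hz : z ∈ UU) (u : List (Fin 3)) : ∀ {G G' : ℂ → ℂ⟦X⟧}, HD_Bd G →
    HD_D G G' → HasDerivAt (fun z => HS (c1 z) (c0 z) u (G z))
      (DH (c1 z) (c0 z) (e1 z) (e0 z) u (G z) (G' z)) z := by
  induction u with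
  | nil => exact fun hB hD => HD_EE hB hD hz
  | cons b v ih =>
    intro G G' hB hD
    simp only [HS_cons]
    exact ((HD_EE (HD_Bd_It (b :: v)) (HD_It (b :: v)) hz).fun_mul (HD_EE hB hD hz)).fun_add
      (ih (HD_Bd_step hB b) (HD_prL (HD_kx HD_e1 hD b)))

theorem hasDerivAt_zt {z : ℂ} (hz : z ∈ UU) (u : List (Fin 3)) :
    HasDerivAt (fun z => zt z u) (DH (c1 z) (c0 z) (e1 z) (e0 z) u 1 0) z := by
  have h1 := sm_C (y := 0) (1 / 2) 1
  rw [map_one] at h1
  exact HD_HS hz u (G := fun _ => 1) (G' := fun _ => 0) ⟨_, fun _ _ => ⟨h1.1, le_rfl⟩⟩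
    (HD_const 1)

end MC3
end

-- merged part: Pool.Agent.Work.MP_80812c_nt.T3.Gain
section
/-!
The rows of moments are close to a space of small dimension.

PLAN. `tail_bound`: coefficientwise (`Sm.of_le`, `PowerSeries.coeff_trunc`). For the row `(u, j)` and
the column `(w, i)` put `T = XX^j * It c0 u`, `R = (1 - XX)^i * It c1 w`,
`Λ0 f = HS c0 c1 w (prL (dX * XX^i * f))`, `Λ1 f = HS c1 c0 u (prL (dX * (1 - XX)^j * f))` (linear
in `f`). The moment is `Λ0 T + Λ1 R`; `p = Λ0 (trunc S T) + Λ1 (trunc S R)` is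
`∑ s < S, coeff s T * Λ0 (X^s) + ∑ s < S, Λ1 (X^s) * coeff s R`, a combination of the `2 S` vectors
`(w, i) ↦ Λ0 (X^s)` and `(w, i) ↦ coeff s R`, which do not depend on `(u, j)`
(`finrank_span_le_card`, `finrank_range_le_card` with index `Fin S ⊕ Fin S`). Bounds: `HS_bound`,
`prL_bound`, `It_bound`, `Sm.mul'`, `Sm.nm_pow`, `nm (1/2) XX ≤ 2`, `nm (1/2) (1 - XX) ≤ 3`,
`nm (1/3) f ≤ nm (1/2) f`, `3^i * 3^j ≤ 9^n`; `sz w ≤ N1` is not needed: take `C0` as a bound over the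
finitely many `w`, `u` (`Finite.exists_le`) or use `sz w ≤ w`.
-/

namespace MC3

open Finset MCV PowerSeries

theorem tail_bound {f : ℂ⟦X⟧} (hf : Sm (1 / 2) f) (S : ℕ) :
    (Sm (1 / 3) (trunc S f : ℂ⟦X⟧) ∧ nm (1 / 3) (trunc S f : ℂ⟦X⟧) ≤ nm (1 / 2) f) ∧
      Sm (1 / 3) (f - (trunc S f : ℂ⟦X⟧)) ∧
        nm (1 / 3) (f - (trunc S f : ℂ⟦X⟧)) ≤ (2 / 3) ^ S * nm (1 / 2) f := by
  have h3 : (0 : ℝ) ≤ 1 / 3 := by norm_num
  have hm : ∀ t : ℕ, ‖coeff t f‖ * (1 / 3 : ℝ) ^ t ≤ ‖coeff t f‖ * (1 / 2) ^ t := fun t => by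
    gcongr
    norm_num
  refine ⟨Sm.of_le h3 hf fun t => ?_, ?_⟩
  · rw [Polynomial.coeff_coe, coeff_trunc]
    split_ifs
    · exact hm t
    · rw [norm_zero, zero_mul]
      positivity
  · rw [nm, nm, ← tsum_mul_left]
    refine Sm.of_le h3 (Summable.mul_left _ hf) fun t => ?_
    rw [map_sub, Polynomial.coeff_coe, coeff_trunc]
    split_ifs with h
    · rw [sub_self, norm_zero, zero_mul]
      positivity
    · rw [sub_zero, mul_left_comm]
      have h1 : (2 / 3 : ℝ) ^ t ≤ (2 / 3) ^ S :=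
        pow_le_pow_of_le_one (by norm_num) (by norm_num) (not_lt.1 h)
      have h2 : (1 / 3 : ℝ) ^ t = (2 / 3) ^ t * (1 / 2) ^ t := by
        rw [← mul_pow]
        norm_num
      rw [h2]
      gcongr

theorem Gain_trunc (f : ℂ⟦X⟧) (S : ℕ) :
    (trunc S f : ℂ⟦X⟧) = ∑ s : Fin S, coeff s.1 f • (X : ℂ⟦X⟧) ^ s.1 := by
  rw [Fin.sum_univ_eq_sum_range (fun s => coeff s f • (X : ℂ⟦X⟧) ^ s) S]
  ext t
  rw [Polynomial.coeff_coe, coeff_trunc, map_sum]
  simp only [coeff_smul, coeff_X_pow, smul_eq_mul, mul_ite, mul_one, mul_zero]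
  rw [Finset.sum_ite_eq]
  simp only [mem_range]

theorem Gain_mono {f : ℂ⟦X⟧} (hf : Sm (1 / 2) f) :
    Sm (1 / 3) f ∧ nm (1 / 3) f ≤ nm (1 / 2) f :=
  Sm.of_le (by norm_num) hf fun t => by
    gcongr
    norm_num

theorem Gain_XX : Sm (1 / 2) XX ∧ nm (1 / 2) XX ≤ 2 := by
  have h0 : (0 : ℝ) ≤ 1 / 2 := by norm_num
  have hX : nm (1 / 2) (X : ℂ⟦X⟧) = 1 / 2 := by
    rw [nm, tsum_eq_single 1 fun t ht => by simp [coeff_X, ht]]
    simp
  have h2 : (2 : ℂ⟦X⟧) = C 2 := (map_ofNat C 2).symm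
  have hC := sm_C (y := 0) (1 / 2) 2
  have hG := sm_Geo (c := -1) h0 (by norm_num)
  have hG1 : G1 = Geo (-1) := rfl
  have h3 := Sm.mul' h0 hC.1 (sm_X (y := 0) (1 / 2)).1
  have h4 := Sm.mul' h0 h3.1 hG.1
  rw [XX, h2, hG1]
  refine ⟨h4.1, h4.2.trans ?_⟩
  have h5 : nm (1 / 2) (C (2 : ℂ) * X) ≤ 1 := by
    refine h3.2.trans ?_
    rw [hC.2.1, hX]
    norm_num
  have h6 : nm (1 / 2) (Geo (-1)) ≤ 2 := by
    refine hG.2.trans ?_
    norm_num
  have h7 := nm_nonneg h0 (Geo (-1))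
  nlinarith

theorem Gain_YY : Sm (1 / 2) (1 - XX) ∧ nm (1 / 2) (1 - XX) ≤ 3 := by
  have h0 : (0 : ℝ) ≤ 1 / 2 := by norm_num
  have hC := sm_C (y := 0) (1 / 2) 1
  have hN := sm_C (y := 0) (1 / 2) (-1)
  have h1 := Sm.mul' h0 hN.1 Gain_XX.1
  have h2 := Sm.add' h0 hC.1 h1.1
  have e : (1 : ℂ⟦X⟧) - XX = C 1 + C (-1) * XX := by
    rw [map_neg, map_one]
    ring
  rw [e]
  refine ⟨h2.1, h2.2.trans ?_⟩
  have h3 := h1.2
  rw [hN.2.1] at h3
  rw [hC.2.1]
  have h4 := Gain_XX.2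
  simp only [norm_neg, norm_one] at h3 ⊢
  linarith

theorem Gain_pow {Y g : ℂ⟦X⟧} {ρ B : ℝ} (h0 : 0 ≤ ρ) (hY : Sm ρ Y) (hY3 : nm ρ Y ≤ 3)
    (hg : Sm ρ g) (hB : nm ρ g ≤ B) (i : ℕ) :
    Sm ρ (Y ^ i * g) ∧ nm ρ (Y ^ i * g) ≤ 3 ^ i * B := by
  have h1 := Sm.mul' h0 ((Bs ρ h0).pow_mem hY i) hg
  refine ⟨h1.1, h1.2.trans ?_⟩
  have h2 : nm ρ (Y ^ i) ≤ 3 ^ i :=
    (hY.nm_pow h0 i).trans (pow_le_pow_left₀ (nm_nonneg h0 _) hY3 i)
  exact mul_le_mul h2 hB (nm_nonneg h0 _) (by positivity)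

/-- The linear functional attached to a word and a power. -/
noncomputable def Gain_L (c c' : ℂ) (w : List (Fin 3)) (Y : ℂ⟦X⟧) (i : ℕ) : ℂ⟦X⟧ →ₗ[ℂ] ℂ :=
  HS c c' w ∘ₗ prL ∘ₗ LinearMap.mulLeft ℂ (derivative ℂ XX * Y ^ i)

theorem Gain_L_apply (c c' : ℂ) (w : List (Fin 3)) (Y : ℂ⟦X⟧) (i : ℕ) (f : ℂ⟦X⟧) :
    Gain_L c c' w Y i f = HS c c' w (prL (derivative ℂ XX * Y ^ i * f)) := rfl

theorem Gain_L_bound {c c' : ℂ} (hc : ‖c‖ ≤ 19 / 10) (hc' : ‖c'‖ ≤ 19 / 10) (w : List (Fin 3))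
    {Y : ℂ⟦X⟧} (hY : Sm (1 / 2) Y) (hY3 : nm (1 / 2) Y ≤ 3) (i : ℕ) {f : ℂ⟦X⟧}
    (hf : Sm (1 / 3) f) {B : ℝ} (hB : nm (1 / 3) f ≤ B) :
    ‖Gain_L c c' w Y i f‖ ≤ 80 ^ w.length * (nm (1 / 3) (derivative ℂ XX) * (3 ^ i * B)) := by
  have h0 : (0 : ℝ) ≤ 1 / 3 := by norm_num
  have hD : Sm (1 / 3) (derivative ℂ XX) := Gain_XX.1.deriv h0 (by norm_num)
  have h1 := Gain_pow h0 (Gain_mono hY).1 ((Gain_mono hY).2.trans hY3) hf hB i
  have h2 := Sm.mul' h0 hD h1.1
  have h3 := prL_bound h0 (by norm_num) h2.1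
  rw [Gain_L_apply, mul_assoc]
  refine (HS_bound hc hc' w h3.1).trans ?_
  refine mul_le_mul_of_nonneg_left (h3.2.trans (h2.2.trans ?_)) (by positivity)
  exact mul_le_mul_of_nonneg_left h1.2 (nm_nonneg h0 _)

theorem Gain_sz {N : ℕ} (w : Fin N) : (wd w.1).length ≤ N :=
  (sz_le_iff N w.1).2 (w.2.trans (Nat.lt_pow_self (by norm_num)))

theorem Gain_num {D q : ℝ} (hD : 0 ≤ D) (hq : 0 ≤ q) {a b A B i j n : ℕ} (ha : a ≤ A) (hb : b ≤ B)
    (hi : i < n) (hj : j < n) :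
    (80 : ℝ) ^ a * (D * (3 ^ i * (q * (3 ^ j * 40 ^ b)))) ≤ q * (D * (80 ^ A * 80 ^ B) * 9 ^ n) := by
  have h1 : (80 : ℝ) ^ a ≤ 80 ^ A := pow_le_pow_right₀ (by norm_num) ha
  have h2 : (40 : ℝ) ^ b ≤ 80 ^ B :=
    (pow_le_pow_left₀ (by norm_num) (by norm_num) b).trans (pow_le_pow_right₀ (by norm_num) hb)
  have h3 : (3 : ℝ) ^ i ≤ 3 ^ n := pow_le_pow_right₀ (by norm_num) hi.le
  have h4 : (3 : ℝ) ^ j ≤ 3 ^ n := pow_le_pow_right₀ (by norm_num) hj.le
  have h5 : (9 : ℝ) ^ n = 3 ^ n * 3 ^ n := by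
    rw [← mul_pow]
    norm_num
  calc (80 : ℝ) ^ a * (D * (3 ^ i * (q * (3 ^ j * 40 ^ b))))
      ≤ 80 ^ A * (D * (3 ^ n * (q * (3 ^ n * 80 ^ B)))) := by gcongr
    _ = _ := by rw [h5]; ring

theorem gain (N1 N2 : ℕ) : ∃ C0 : ℝ, 1 ≤ C0 ∧ ∀ n S : ℕ,
    ∃ E : Submodule ℂ (Fin N1 × Fin n → ℂ), Module.finrank ℂ E ≤ 2 * S ∧
      ∀ (u : Fin N2) (j : Fin n), ∃ p ∈ E, ∀ t : Fin N1 × Fin n, ‖p t‖ ≤ C0 * 9 ^ n ∧
        ‖MomL (wd t.1) (wd u) (t.2 + j) - p t‖ ≤ (2 / 3) ^ S * (C0 * 9 ^ n) := by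
  have h0 : (0 : ℝ) ≤ 1 / 2 := by norm_num
  have hc0 := UU_c0 om_mem_UU
  have hc1 := UU_c1 om_mem_UU
  set D : ℝ := nm (1 / 3) (derivative ℂ XX) with hD
  have hD0 : 0 ≤ D := nm_nonneg (by norm_num) _
  set K : ℝ := D * (80 ^ N1 * 80 ^ N2) with hK
  have hK0 : 0 ≤ K := by positivity
  refine ⟨1 + 2 * K, by linarith, fun n S => ?_⟩
  let v : Fin S ⊕ Fin S → (Fin N1 × Fin n → ℂ) := Sum.elim
    (fun s t => Gain_L (c0 om) (c1 om) (wd t.1) XX t.2 (X ^ s.1))
    (fun s t => coeff s.1 ((1 - XX) ^ t.2.1 * It (c1 om) (wd t.1)))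
  refine ⟨Submodule.span ℂ (Set.range v), ?_, fun u j => ?_⟩
  · refine (finrank_range_le_card v).trans ?_
    simp [two_mul]
  set T : ℂ⟦X⟧ := XX ^ j.1 * It (c0 om) (wd u) with hT
  have hTb : Sm (1 / 2) T ∧ nm (1 / 2) T ≤ 3 ^ j.1 * 40 ^ (wd u).length :=
    Gain_pow h0 Gain_XX.1 (Gain_XX.2.trans (by norm_num))
      (It_bound hc0 (by norm_num) le_rfl _).1 (It_bound hc0 (by norm_num) le_rfl _).2 _
  refine ⟨fun t => Gain_L (c0 om) (c1 om) (wd t.1) XX t.2 (trunc S T : ℂ⟦X⟧) +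
    Gain_L (c1 om) (c0 om) (wd u) (1 - XX) j
      (trunc S ((1 - XX) ^ t.2.1 * It (c1 om) (wd t.1)) : ℂ⟦X⟧), ?_, fun t => ?_⟩
  · have e : (fun t : Fin N1 × Fin n =>
        Gain_L (c0 om) (c1 om) (wd t.1) XX t.2 (trunc S T : ℂ⟦X⟧) +
        Gain_L (c1 om) (c0 om) (wd u) (1 - XX) j
          (trunc S ((1 - XX) ^ t.2.1 * It (c1 om) (wd t.1)) : ℂ⟦X⟧)) =
        ∑ s : Fin S, coeff s.1 T • v (Sum.inl s) +
        ∑ s : Fin S, Gain_L (c1 om) (c0 om) (wd u) (1 - XX) j (X ^ s.1) • v (Sum.inr s) := by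
      funext t
      rw [Gain_trunc, Gain_trunc, map_sum, map_sum]
      simp only [map_smul, Pi.add_apply, Finset.sum_apply, Pi.smul_apply, v, Sum.elim_inl,
        Sum.elim_inr, smul_eq_mul]
      congr 1
      exact sum_congr rfl fun s _ => mul_comm _ _
    rw [e]
    exact Submodule.add_mem _
      (Submodule.sum_mem _ fun s _ => Submodule.smul_mem _ _ (Submodule.subset_span ⟨_, rfl⟩))
      (Submodule.sum_mem _ fun s _ => Submodule.smul_mem _ _ (Submodule.subset_span ⟨_, rfl⟩))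
  set R : ℂ⟦X⟧ := (1 - XX) ^ t.2.1 * It (c1 om) (wd t.1) with hR
  have hRb : Sm (1 / 2) R ∧ nm (1 / 2) R ≤ 3 ^ t.2.1 * 40 ^ (wd t.1).length :=
    Gain_pow h0 Gain_YY.1 Gain_YY.2
      (It_bound hc1 (by norm_num) le_rfl _).1 (It_bound hc1 (by norm_num) le_rfl _).2 _
  have hM : MomL (wd t.1) (wd u) (t.2 + j) = Gain_L (c0 om) (c1 om) (wd t.1) XX t.2 T +
      Gain_L (c1 om) (c0 om) (wd u) (1 - XX) j R := by
    have e1 : derivative ℂ XX * XX ^ (t.2.1 + j.1) * It (c0 om) (wd u) =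
        derivative ℂ XX * XX ^ t.2.1 * (XX ^ j.1 * It (c0 om) (wd u)) := by
      rw [pow_add]; simp only [mul_assoc]
    have e2 : derivative ℂ XX * (1 - XX) ^ (t.2.1 + j.1) * It (c1 om) (wd t.1) =
        derivative ℂ XX * (1 - XX) ^ j.1 * ((1 - XX) ^ t.2.1 * It (c1 om) (wd t.1)) := by
      rw [add_comm, pow_add]; simp only [mul_assoc]
    rw [MomL, Gain_L_apply, Gain_L_apply, hT, hR, e1, e2]
  have key : ∀ {q : ℝ} {f g : ℂ⟦X⟧}, 0 ≤ q → Sm (1 / 3) f → nm (1 / 3) f ≤ q * nm (1 / 2) T →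
      Sm (1 / 3) g → nm (1 / 3) g ≤ q * nm (1 / 2) R →
      ‖Gain_L (c0 om) (c1 om) (wd t.1) XX t.2 f + Gain_L (c1 om) (c0 om) (wd u) (1 - XX) j g‖ ≤
        q * ((1 + 2 * K) * 9 ^ n) := by
    intro q f g hq hf hf' hg hg'
    have a1 := (Gain_L_bound hc0 hc1 (wd t.1) Gain_XX.1 (Gain_XX.2.trans (by norm_num)) t.2 hf
      (hf'.trans (mul_le_mul_of_nonneg_left hTb.2 hq))).trans
      (Gain_num hD0 hq (Gain_sz t.1) (Gain_sz u) t.2.2 j.2)
    have a2 := (Gain_L_bound hc1 hc0 (wd u) Gain_YY.1 Gain_YY.2 j hg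
      (hg'.trans (mul_le_mul_of_nonneg_left hRb.2 hq))).trans
      (Gain_num hD0 hq (Gain_sz u) (Gain_sz t.1) j.2 t.2.2)
    rw [mul_comm ((80 : ℝ) ^ N2), ← hK] at a2
    rw [← hK] at a1
    have a3 : 0 ≤ q * 9 ^ n := by positivity
    refine (norm_add_le _ _).trans ?_
    nlinarith
  have tT := tail_bound hTb.1 S
  have tR := tail_bound hRb.1 S
  refine ⟨?_, ?_⟩
  · have := key zero_le_one tT.1.1 (by rw [one_mul]; exact tT.1.2) tR.1.1
      (by rw [one_mul]; exact tR.1.2)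
    rwa [one_mul] at this
  · have := key (by positivity) tT.2.1 tT.2.2 tR.2.1 tR.2.2
    rw [hM]
    convert this using 2
    rw [map_sub, map_sub]
    ring

end MC3
end

-- merged part: Pool.Agent.Work.MP_80812c_nt.T3.Mom
section
/-!
The moments satisfy the recursion `mu3` with `y = 1 - ω = 1 / ω`.

PLAN (checked numerically). Put `dX = derivative ℂ XX = 2 * G1 ^ 2` (`deriv_XX`).
(a) `kn_mul`, `kx_mul`: `(C (lv y a) - x) * k f = C (ss a) * dX * f`, `x = XX` resp. `1 - XX`; use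
`kern_eq`-like identities, `G1_mul`, `G2_mul`, `Geo_mul`, `om_sq`, `X_mul_shf`.
(b) `split`: in the domain `ℂ⟦X⟧`, if `C l - x ≠ 0`, `(C l - x) * h = C s * dX * ((x^(m+1) - C e) * f)` and
`(l^(m+1) - e) • ((C l - x) * J - C s * dX * f) = 0` then
`h = (l^(m+1) - e) • J - s • ∑ i ∈ range (m+1), l^(m-i) • (dX * x^i * f)` (cancel `C l - x`,
`Commute.geom_sum₂`-type identity). `C (lv y a) - x ≠ 0` follows from (a) with `f = X`.
(c) With `e = if w = 0 then 1 else 0`, `p0 = XX^(m+1) - C e`, `p1 = (1 - XX)^(m+1) - C e`,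
`F0 = p0 * It c0 u`, `F1 = p1 * It c1 w`: `prL_deriv` gives
`(m+1) • prL (dX * XX^m * It c0 u) = F0 - C (F0 0) - prL (p0 * kn c0 b (It c0 u'))` (last term only
for `u = b :: u'`), `(m+1) • prL (dX * (1-XX)^m * It c1 w) = -F1 + prL (p1 * kn c1 a (It c1 w'))`,
`F1 0 = 0`, `F0 0 = -1` if `w = u = 0` and `0` otherwise. Unfold `HS c0 c1 w F0` and `HS c1 c0 u F1`
once (`HS_cons`, `HS_nil`): the boundary terms `EE (It c1 w) * EE F0` and `EE (It c0 u) * EE F1`
are equal (`EE_mul`, `EE_XX`). `kx c a = sg a • kn c (sw a)` and `kn c a = sg a • kx c (sw a)`.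
What is left is, for `w = a :: w'` (then `e = 0`),
`HS c0 c1 w' (prL (kx c0 a F0)) + HS c1 c0 u (prL (p1 * kn c1 a (It c1 w')))`, and, with a minus sign,
`HS c0 c1 w (prL (p0 * kn c0 b (It c0 u'))) + HS c1 c0 u' (prL (kx c1 b F1))`; expand each of the
four series by (b); where `xi3` is set to zero the factor `l^(m+1) - e` vanishes. `const_It`: for
`dg w = 0`, `w ≠ 0` one has `w / 3 ≠ 0`. Induction: `pair_ind3`.
-/

namespace MC3

open Finset MCV PowerSeries

theorem Mom_k2 {z : ℂ} (hz : z * (1 - z) = 1) :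
    (C (1 - z) - XX) * k2 (2 * z - 1) = derivative ℂ XX := by
  have h1 := G1_mul
  have h2 := Geo_mul (2 * z - 1)
  have h3 : (C z : ℂ⟦X⟧) * (1 - C z) = 1 := by simpa using congrArg (C (R := ℂ)) hz
  rw [deriv_XX, k2, XX]
  simp only [map_sub, map_mul, map_one, map_ofNat] at h2 ⊢
  generalize Geo (2 * z - 1) = g at h2
  have hA : 1 - C z - 2 * X * G1 = (1 - C z) * (1 - (2 * C z - 1) * X) * G1 := by
    linear_combination -(1 - C z) * h1 + 2 * X * G1 * h3
  have hB : G1 + (2 * C z - 1) * g = 2 * C z * G1 * g := by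
    linear_combination -G1 * h2 - (2 * C z - 1) * g * h1
  rw [hA, hB]
  linear_combination 2 * G1 ^ 2 * C z * (1 - C z) * h2 + 2 * G1 ^ 2 * h3

theorem Mom_c1 : c1 om = 2 * (1 - om) - 1 := by
  rw [c1, div_eq_iff fun h => om_ne_one (by linear_combination -h)]
  linear_combination 2 * om_sq

theorem kn_mul (a : Fin 3) {f : ℂ⟦X⟧} (hf : a = 0 → constantCoeff f = 0) :
    (C (lv (1 - om) a) - XX) * kn (c0 om) a f = C (ss ℂ a) * derivative ℂ XX * f := by
  have h1 := kern_eq (a := 1) (f := f) (by simp)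
  have h2 := Mom_k2 (z := om) (by linear_combination -om_sq)
  fin_cases a
  · have := kern_eq (a := 0) fun _ => hf rfl
    simp only [kern, if_true] at this
    simp only [Fin.zero_eta, kn_zero, lv, ss, Matrix.cons_val_zero, map_zero, map_neg, map_one]
    linear_combination -this
  · simpa [kern, kn_one, lv, ss] using h1
  · simp only [Fin.reduceFinMk, kn_two, lv, ss, c0, Matrix.cons_val, map_one]
    linear_combination f * h2

theorem kx_mul (a : Fin 3) {f : ℂ⟦X⟧} (hf : a = 1 → constantCoeff f = 0) :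
    (C (lv (1 - om) a) - (1 - XX)) * kx (c1 om) a f = C (ss ℂ a) * derivative ℂ XX * f := by
  have h1 := kern_eq (a := 1) (f := f) (by simp)
  have h2 := Mom_k2 (z := 1 - om) (by linear_combination -om_sq)
  fin_cases a
  · simp only [kern, one_ne_zero, if_false] at h1
    simp only [Fin.zero_eta, kx_zero, lv, ss, Matrix.cons_val_zero, map_zero, map_neg, map_one]
    linear_combination -h1
  · have := kern_eq (a := 0) fun _ => hf rfl
    simp only [kern, if_true] at this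
    simp only [Fin.mk_one, kx_one, lv, ss, Matrix.cons_val_one, Matrix.cons_val_zero, map_one]
    linear_combination this
  · simp only [Fin.reduceFinMk, kx_two, lv, ss, Mom_c1, Matrix.cons_val, map_one]
    simp only [map_sub, map_one] at h2 ⊢
    linear_combination f * h2

theorem Mom_split {x d h J f : ℂ⟦X⟧} {l s e : ℂ} {m : ℕ} (hx : derivative ℂ x ≠ 0)
    (hh : (C l - x) * h = C s * d * ((x ^ (m + 1) - C e) * f))
    (hJ : l ^ (m + 1) - e = 0 ∨ (C l - x) * J = C s * d * f) :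
    h = (l ^ (m + 1) - e) • J - s • ∑ i ∈ range (m + 1), l ^ (m - i) • (d * x ^ i * f) := by
  have hne : C l - x ≠ 0 := fun k => hx (by rw [← sub_eq_zero.1 k, derivative_C])
  have h1 : C (l ^ (m + 1) - e) * ((C l - x) * J - C s * d * f) = 0 := by
    rcases hJ with k | k <;> simp [k]
  have h2 := geom_sum₂_mul x (C l) (m + 1)
  have h3 : ∑ i ∈ range (m + 1), l ^ (m - i) • (d * x ^ i * f) =
      d * f * ∑ i ∈ range (m + 1), x ^ i * C l ^ (m + 1 - 1 - i) := by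
    rw [mul_sum]
    refine sum_congr rfl fun i _ => ?_
    rw [smul_eq_C_mul, map_pow, Nat.add_sub_cancel]
    ring
  refine mul_left_cancel₀ hne ?_
  rw [h3, smul_eq_C_mul, smul_eq_C_mul]
  rw [map_sub, map_pow] at h1 ⊢
  linear_combination hh - h1 - C s * d * f * h2

theorem Mom_dX : derivative ℂ XX ≠ 0 := by
  rw [deriv_XX]
  refine mul_ne_zero (fun k => ?_) (pow_ne_zero 2 (right_ne_zero_of_mul_eq_one G1_mul))
  simpa [map_ofNat] using congrArg (constantCoeff (R := ℂ)) k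

theorem Mom_d1 : derivative ℂ (1 - XX) = -derivative ℂ XX := by
  rw [map_sub, Derivation.map_one_eq_zero, zero_sub]

theorem Mom_core {l : Fin 3} {w u : List (Fin 3)} {e : ℂ} {m : ℕ} {h0 h1 : ℂ⟦X⟧}
    (k0 : (C (lv (1 - om) l) - XX) * h0 =
      C (ss ℂ l) * derivative ℂ XX * ((XX ^ (m + 1) - C e) * It (c0 om) u))
    (k1 : (C (lv (1 - om) l) - (1 - XX)) * h1 =
      C (ss ℂ l) * derivative ℂ XX * (((1 - XX) ^ (m + 1) - C e) * It (c1 om) w))
    (j0 : lv (1 - om) l ^ (m + 1) - e = 0 ∨ (l = 0 → u ≠ []))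
    (j1 : lv (1 - om) l ^ (m + 1) - e = 0 ∨ (l = 1 → w ≠ [])) :
    HS (c0 om) (c1 om) w (prL h0) + HS (c1 om) (c0 om) u (prL h1) =
      (lv (1 - om) l ^ (m + 1) - e) * IntL l w u -
        ss ℂ l * ∑ i ∈ range (m + 1), lv (1 - om) l ^ (m - i) * MomL w u i := by
  rw [Mom_split Mom_dX k0 (j0.imp_right fun k => kn_mul l fun k' => const_It _ (k k')),
    Mom_split (Mom_d1 ▸ neg_ne_zero.2 Mom_dX) k1
      (j1.imp_right fun k => kx_mul l fun k' => const_It _ (k k'))]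
  simp only [map_sub, map_smul, map_sum, smul_eq_mul, IntL, MomL, It, mul_add, sum_add_distrib]
  ring

theorem Mom_sw (c : ℂ) (a : Fin 3) (f : ℂ⟦X⟧) :
    kx c a f = sg ℂ a • kn c (sw a) f ∧ kn c a f = sg ℂ a • kx c (sw a) f := by
  fin_cases a
  · exact ⟨(one_smul _ _).symm, (one_smul _ _).symm⟩
  · exact ⟨(one_smul _ _).symm, (one_smul _ _).symm⟩
  · refine ⟨(neg_mul _ _).trans (neg_one_smul ℂ _).symm, ?_⟩
    refine Eq.trans ?_ (neg_one_smul ℂ _).symm
    exact ((congrArg Neg.neg (neg_mul _ _)).trans (neg_neg _)).symm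

theorem Mom_pow {x : ℂ⟦X⟧} (hx : Sm (1 / 3) x) (h : EE x = 1 / 2) (n : ℕ) (e : ℂ) {f : ℂ⟦X⟧}
    (hf : Sm (1 / 3) f) : EE ((x ^ n - C e) * f) = ((1 / 2) ^ n - e) * EE f := by
  have h1 : ∀ n, Sm (1 / 3) (x ^ n) := fun n => pow_mem (S := Bs (1 / 3) (by norm_num)) hx n
  have h2 : ∀ n, EE (x ^ n) = (1 / 2) ^ n := fun n => by
    induction n with
    | zero => rw [pow_zero, pow_zero, EE_one]
    | succ n ih => rw [pow_succ, EE_mul (h1 n) hx, ih, h, pow_succ]
  rw [EE_mul (sub_mem (H := Bs (1 / 3) (by norm_num)) (h1 n) (sm_C (y := 0) _ e).1) hf, map_sub,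
    h2, EE_C]

theorem Mom_int (x f : ℂ⟦X⟧) (e : ℂ) (m : ℕ) :
    ((m : ℂ) + 1) • prL (derivative ℂ x * x ^ m * f) = (x ^ (m + 1) - C e) * f -
      C (constantCoeff ((x ^ (m + 1) - C e) * f)) - prL ((x ^ (m + 1) - C e) * derivative ℂ f) := by
  rw [← prL_deriv, ← map_sub, ← map_smul, Derivation.leibniz, map_sub (derivative ℂ), derivative_C,
    Derivation.leibniz_pow, smul_eq_C_mul]
  refine congrArg _ ?_
  simp only [map_add, map_natCast, map_one, smul_eq_mul, nsmul_eq_mul, Nat.add_sub_cancel,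
    Nat.cast_add, Nat.cast_one]
  ring

theorem Mom_step (w u : List (Fin 3)) (m : ℕ) {e : ℂ} (he : e = if w = [] then 1 else 0) :
    ((m : ℂ) + 1) * MomL w u m = (if w = [] ∧ u = [] then 1 else 0) +
      (HS (c0 om) (c1 om) w ((XX ^ (m + 1) - C e) * It (c0 om) u) -
        EE (It (c1 om) w) * EE ((XX ^ (m + 1) - C e) * It (c0 om) u) +
        HS (c1 om) (c0 om) u (prL (((1 - XX) ^ (m + 1) - C e) * derivative ℂ (It (c1 om) w)))) -
      (HS (c0 om) (c1 om) w (prL ((XX ^ (m + 1) - C e) * derivative ℂ (It (c0 om) u))) +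
        (HS (c1 om) (c0 om) u (((1 - XX) ^ (m + 1) - C e) * It (c1 om) w) -
          EE (It (c0 om) u) * EE (((1 - XX) ^ (m + 1) - C e) * It (c1 om) w))) := by
  have h0 := congrArg (HS (c0 om) (c1 om) w) (Mom_int XX (It (c0 om) u) e m)
  have h1 := congrArg (HS (c1 om) (c0 om) u) (Mom_int (1 - XX) (It (c1 om) w) e m)
  have h2 : constantCoeff (((1 - XX) ^ (m + 1) - C e) * It (c1 om) w) = 0 := by
    by_cases k : w = []
    · simp [he, k, const_XX]
    · rw [map_mul, const_It _ k, mul_zero]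
  have h3 : HS (c0 om) (c1 om) w (C (constantCoeff ((XX ^ (m + 1) - C e) * It (c0 om) u))) =
      -if w = [] ∧ u = [] then 1 else 0 := by
    by_cases k : w = []
    · by_cases k' : u = []
      · simp [he, k, k', const_XX, HS_nil, It, EE_one]
      · simp [const_It _ k', k']
    · simp [he, k, const_XX]
  have s0 : Sm (1 / 3) XX := sm_XX (by norm_num) (by norm_num)
  have h4 := Mom_pow s0 EE_XX (m + 1) e (It_bound (UU_c0 om_mem_UU) le_rfl (by norm_num) u).1
  have h5 := Mom_pow (sub_mem (H := Bs (1 / 3) (by norm_num)) (one_mem _) s0)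
    (by rw [map_sub, EE_one, EE_XX]; norm_num) (m + 1) e
    (It_bound (UU_c1 om_mem_UU) le_rfl (by norm_num) w).1
  rw [h2, map_zero, sub_zero, Mom_d1, neg_mul, neg_mul, map_neg, map_smul, map_neg, map_sub] at h1
  rw [map_smul, map_sub, map_sub, h3] at h0
  rw [MomL, h4, h5]
  linear_combination h0 - h1

theorem Mom_nil {w : ℕ} : wd w = [] ↔ w = 0 :=
  ⟨fun h => by_contra fun k => by simp [wd_pos k] at h, fun h => h ▸ wd_zero⟩

theorem Mom_adm {w : ℕ} (hw : w ≠ 0) (h : dg w = 0) : wd (w / 3) ≠ [] := by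
  have := congrArg Fin.val h
  simp only [dg, Fin.val_zero] at this
  rw [Ne, Mom_nil]
  omega

theorem Mom_A {a : Fin 3} {w : List (Fin 3)} (h : a = 0 → w ≠ []) (u : List (Fin 3)) (m : ℕ) :
    HS (c0 om) (c1 om) w (prL (kx (c0 om) a ((XX ^ (m + 1) - C 0) * It (c0 om) u))) +
      HS (c1 om) (c0 om) u (prL (((1 - XX) ^ (m + 1) - C 0) * kn (c1 om) a (It (c1 om) w))) =
      sg ℂ a * ((lv (1 - om) (sw a) ^ (m + 1) - 0) * (if a = 1 then 0 else IntL (sw a) w u) -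
        ss ℂ (sw a) * ∑ i ∈ range (m + 1), lv (1 - om) (sw a) ^ (m - i) * MomL w u i) := by
  have h0 : ∀ a : Fin 3, (sw a = 1 → a = 0) ∧ (sw a = 0 → a = 1) := by decide
  have h1 : sw a = 1 → w ≠ [] := fun k => h ((h0 a).1 k)
  have h2 : a = 1 → lv (1 - om) (sw a) ^ (m + 1) - 0 = 0 := by
    rintro rfl
    simp [lv, sw]
  rw [(Mom_sw _ a _).1, (Mom_sw _ a _).2, mul_smul_comm, map_smul, map_smul, map_smul, map_smul,
    ← smul_add, Mom_core (kn_mul _ fun _ => by simp [const_XX])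
      (by rw [mul_left_comm, kx_mul _ fun k => const_It _ (h1 k)]; ring)
      ((em (a = 1)).imp h2 fun k k' => absurd ((h0 a).2 k') k) (Or.inr h1), smul_eq_mul]
  split_ifs with k
  · rw [h2 k, zero_mul, zero_mul]
  · rfl

theorem Mom_B {b : Fin 3} {u : List (Fin 3)} (h : b = 0 → u ≠ []) (w : List (Fin 3)) (m : ℕ)
    {e : ℂ} (he : e = if w = [] then 1 else 0) :
    HS (c0 om) (c1 om) w (prL ((XX ^ (m + 1) - C e) * kn (c0 om) b (It (c0 om) u))) +
      HS (c1 om) (c0 om) u (prL (kx (c1 om) b (((1 - XX) ^ (m + 1) - C e) * It (c1 om) w))) =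
      (lv (1 - om) b ^ (m + 1) - e) *
        (if (w ≠ [] ∧ b = 0) ∨ (w = [] ∧ b = 1) then 0 else IntL b w u) -
        ss ℂ b * ∑ i ∈ range (m + 1), lv (1 - om) b ^ (m - i) * MomL w u i := by
  have h2 : (w ≠ [] ∧ b = 0) ∨ (w = [] ∧ b = 1) → lv (1 - om) b ^ (m + 1) - e = 0 := by
    rintro (⟨k, rfl⟩ | ⟨k, rfl⟩) <;> simp [lv, he, k]
  rw [Mom_core (by rw [mul_left_comm, kn_mul _ fun k => const_It _ (h k)]; ring)
    (kx_mul _ fun _ => by
      by_cases k : w = []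
      · simp [he, k, const_XX]
      · rw [map_mul, const_It _ k, mul_zero]) (Or.inr h)
    ((em (w = [] ∧ b = 1)).imp (fun k => h2 (Or.inr k)) fun k k1 k2 => k ⟨k2, k1⟩)]
  split_ifs with k
  · rw [h2 k, zero_mul, zero_mul]
  · rfl

theorem mom_eq (w u : ℕ) : MomL (wd w) (wd u) = mu3 (1 - om) xi3 w u := by
  induction w, u using pair_ind3 with
  | _ w u h1 h2 =>
    funext m
    have h3 := Mom_step (wd w) (wd u) m (e := if w = 0 then 1 else 0) (by simp only [Mom_nil])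
    have h4 : ((m : ℂ) + 1) ≠ 0 := Nat.cast_add_one_ne_zero m
    have h5 : ∀ c c' G, HS c c' [] G - EE (It c' []) * EE G = 0 := fun c c' G => by
      rw [HS_nil, It, EE_one, one_mul, sub_self]
    have h6 : ∀ c, derivative ℂ (It c []) = 0 := fun c => Derivation.map_one_eq_zero _
    have h7 : ∀ c a v, derivative ℂ (It c (a :: v)) = kn c a (It c v) := fun c a v => deriv_prL _
    refine mul_left_cancel₀ h4 ?_
    rw [h3, mu3_eq, mul_sub, mul_add]
    congr 2
    · simp only [Mom_nil]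
      split_ifs
      · simp [xi3, h4]
      · rw [mul_zero]
    · by_cases hw : w = 0
      · rw [if_neg (not_not.2 hw), hw, wd_zero, h5, h6]
        simp
      · rw [if_pos hw, if_neg hw, wd_pos hw, HS_cons, add_sub_cancel_left, h7, Mom_A (Mom_adm hw),
          h1 hw, st, mul_left_comm, mul_inv_cancel_left₀ h4]
        simp [xi3, hw]
    · by_cases hu : u = 0
      · rw [if_neg (not_not.2 hu), hu, wd_zero, h5, h6]
        simp
      · rw [if_pos hu, wd_pos hu, HS_cons, add_sub_cancel_left, h7,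
          Mom_B (Mom_adm hu) _ _ (by simp only [Mom_nil]), h2 hu, st, mul_inv_cancel_left₀ h4]
        simp [xi3, hu, Mom_nil]

end MC3
end
end

-- merged part: Pool.Agent.Work.MP_80812c_nt.T3.Fin
section
-- merged part: Pool.Agent.Work.MP_80812c_nt.T3.Theta
section
/-!
The differential equation in the third letter, algebraic part (checked numerically).

PLAN. `b = (1 - z)⁻¹`, `β0 = (1 + X) * Geo (c0 z)`, `β1 = C b * ((1 + X) * Geo (c1 z))`,
`d0 = z • e0 z`, `d1 = z • e1 z`. From `G1_mul`, `G2_mul`, `Geo_mul` and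
`shf (β * f) = C (β 0) * shf f + shf β * f` prove, for `k = kn (c0 z)`, `β = β0`, `d = d0` and for
`k = kx (c1 z)`, `β = β1`, `d = d1`, and all `f`:
`k 0 (β * f) = k 0 f + k 2 f`, `k 1 (β * f) = b • (k 1 f - k 2 f)`, `k 2 (β * f) = d * f`; also
`derivative β0 = d0`, `derivative β1 = -d1`, `β0 0 = 1`, `β1 0 = b`, `EE β0 = EE β1`
(both `4 / (4 - 2z)`; `EE_Geo`), and `k a (β * f) = β * k a f` (for the letter with `shf` only if
`f 0 = 0`). `NN_map`: a linear map commutes with `NN` (induction on `u` generalizing `φ`); `NN` is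
additive in `φ`. `DI` and `DH` are homogeneous in `(d, d', G')`.
`theta_It`: induction on `u`; for `a :: b :: v` compare derivatives and constant terms
(`derivative.ext`), using `NN_map` for `prL ∘ kn c a`; `fin_cases a`, `fin_cases b`. In the case
`a = 2`, `b = 0` one has `v ≠ []` by `Adm`, so `const_It` applies.
`theta_HS`: induction on `u` generalizing `G G'`. Use `prL (β1 * g) = β1 * prL g + prL (d1 * prL g)`
(the induction hypothesis is applied to `prL (kx c1 b G)`, which has no constant term),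
`HS .. (b :: w) G = EE (It c0 (b :: w)) * EE G + HS .. w (prL (kx c1 b G))`, `EE_mul`, linearity.
For `G = 1`: `β1 + prL d1 = C b`.
-/

namespace MC3

open Finset MCV PowerSeries

theorem Theta_corr_map {M M' : Type*} [AddCommGroup M] [Module ℂ M] [AddCommGroup M'] [Module ℂ M']
    (Ψ : M →ₗ[ℂ] M') (b0 : ℂ) (a b : Fin 3) (p q : M) :
    Ψ (corr b0 a b p q) = corr b0 a b (Ψ p) (Ψ q) := by
  unfold corr
  split_ifs <;> simp

theorem Theta_corr_add {M : Type*} [AddCommGroup M] [Module ℂ M] (b0 : ℂ) (a b : Fin 3)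
    (p q p' q' : M) : corr b0 a b (p + p') (q + q') = corr b0 a b p q + corr b0 a b p' q' := by
  unfold corr
  split_ifs
  · abel
  · abel
  · module
  · simp

theorem Theta_hd_map {M M' : Type*} [AddCommGroup M] [Module ℂ M] [AddCommGroup M'] [Module ℂ M']
    (Ψ : M →ₗ[ℂ] M') (u : List (Fin 3)) (φ : List (Fin 3) → M) :
    Ψ (hd2 u φ) = hd2 u fun v => Ψ (φ v) := by
  cases u with
  | nil => simp [hd2]
  | cons a v =>
    simp only [hd2]
    split_ifs <;> simp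

theorem Theta_NN_add {M : Type*} [AddCommGroup M] [Module ℂ M] (b0 : ℂ) (u : List (Fin 3))
    (φ ψ : List (Fin 3) → M) : NN b0 u (fun v => φ v + ψ v) = NN b0 u φ + NN b0 u ψ := by
  induction u generalizing φ ψ with
  | nil => simp [NN]
  | cons a u ih =>
    cases u with
    | nil =>
      simp only [NN]
      split_ifs
      · abel
      · simp
    | cons b v =>
      simp only [NN]
      rw [ih, Theta_corr_add]
      abel

theorem NN_map {M M' : Type*} [AddCommGroup M] [Module ℂ M] [AddCommGroup M'] [Module ℂ M']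
    (Ψ : M →ₗ[ℂ] M') (b0 : ℂ) (u : List (Fin 3)) (φ : List (Fin 3) → M) :
    Ψ (NN b0 u φ) = NN b0 u fun v => Ψ (φ v) := by
  induction u generalizing φ with
  | nil => simp [NN]
  | cons a u ih =>
    cases u with
    | nil =>
      simp only [NN]
      split_ifs <;> simp
    | cons b v =>
      simp only [NN]
      rw [map_add, ih, Theta_corr_map]

theorem Theta_adm {a : Fin 3} {u : List (Fin 3)} (h : Adm (a :: u)) : Adm u := by
  cases u with
  | nil => trivial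
  | cons b v => exact h

section
variable {k : Fin 3 → ℂ⟦X⟧ →ₗ[ℂ] ℂ⟦X⟧} {b0 : ℂ} {β f : ℂ⟦X⟧}

theorem Theta_key1 (h0 : k 0 (β * f) = k 0 f + k 2 f) (h1 : k 1 (β * f) = b0 • (k 1 f - k 2 f))
    (a b : Fin 3) (hc : a = 2 → k b (β * f) = β * k b f) :
    k a (if b = 2 then β * f else 0) =
      (if a = 2 then β * k b f else 0) + corr b0 a b (k a f) (k b f) := by
  have e : ∀ c : Fin 3, c = 0 ∨ c = 1 ∨ c = 2 := by decide
  rcases e a with rfl | rfl | rfl <;> rcases e b with rfl | rfl | rfl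
  · simp [corr]
  · simp [corr]
  · simp [corr, h0]
  · simp [corr]
  · simp [corr]
  · simp [corr, h1]
  · simp [corr, ← hc rfl, h0, sub_eq_add_neg]
  · simp [corr, ← hc rfl, h1, smul_sub]
  · simp [corr, hc rfl]

theorem Theta_key2 (h0 : k 0 (β * f) = k 0 f + k 2 f) (h1 : k 1 (β * f) = b0 • (k 1 f - k 2 f))
    (a b : Fin 3) (hc : k a (β * f) = β * k a f) :
    (if b = 2 then β * k a f else 0) =
      (if a = 2 then k b (β * f) else 0) + corr b0 a b (k a f) (k b f) := by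
  have e : ∀ c : Fin 3, c = 0 ∨ c = 1 ∨ c = 2 := by decide
  rcases e a with rfl | rfl | rfl <;> rcases e b with rfl | rfl | rfl
  · simp [corr]
  · simp [corr]
  · simp [corr, ← hc, h0]
  · simp [corr]
  · simp [corr]
  · simp [corr, ← hc, h1]
  · simp [corr, h0, sub_eq_add_neg]
  · simp [corr, h1, smul_sub]
  · simp [corr, hc]

end

theorem Theta_X_shf (f : ℂ⟦X⟧) : X * shf f = f - C (constantCoeff f) :=
  eq_sub_of_add_eq (eq_X_mul_shift_add_const f).symm

theorem Theta_shf_mul (β : ℂ⟦X⟧) {f : ℂ⟦X⟧} (h : constantCoeff f = 0) :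
    shf (β * f) = β * shf f := by
  refine mul_left_cancel₀ X_ne_zero ?_
  rw [X_mul_shf (by simp [h]), mul_left_comm, X_mul_shf h]

theorem Theta_const (c : ℂ) : constantCoeff ((1 + X) * Geo c) = 1 := by
  have := congrArg constantCoeff (Geo_mul c)
  simpa using this

theorem Theta_A (c : ℂ) (f : ℂ⟦X⟧) :
    G1 * shf ((1 + X) * Geo c * f) = G1 * shf f + k2 c * f := by
  refine mul_left_cancel₀ X_ne_zero ?_
  have h1 := Theta_X_shf ((1 + X) * Geo c * f)
  rw [map_mul, Theta_const, one_mul] at h1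
  unfold k2
  linear_combination G1 * h1 - G1 * Theta_X_shf f + (Geo c * f - f) * G1_mul + f * Geo_mul c

theorem Theta_B (c : ℂ) : (G1 + G2) * ((1 + X) * Geo c) = 2 * (G2 * Geo c) := by
  linear_combination Geo c * G1_mul - Geo c * G2_mul

theorem Theta_B' (c : ℂ) : G1 + G2 - k2 c = (1 - C c) * (G2 * Geo c) := by
  unfold k2
  linear_combination (-G2) * Geo_mul c + C c * Geo c * G2_mul

theorem Theta_D (c : ℂ) : derivative ℂ ((1 + X) * Geo c) = (1 + C c) * Geo c ^ 2 := by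
  have h1 := congrArg (derivative ℂ) (Geo_mul c)
  simp only [Derivation.leibniz, map_add, map_sub, Derivation.map_one_eq_zero, derivative_X,
    derivative_C, smul_eq_mul] at h1 ⊢
  linear_combination (1 + X) * Geo c * h1 -
    ((1 + X) * derivative ℂ (Geo c) + Geo c) * Geo_mul c

theorem Theta_sm {c : ℂ} (hc : ‖c‖ ≤ 19 / 10) :
    Sm (1 / 3) ((1 + X) * Geo c) ∧ EE ((1 + X) * Geo c) = 4 / 3 * EE (Geo c) := by
  have h0 : (0 : ℝ) ≤ 1 / 3 := by norm_num
  have h1 : Sm (1 / 3) (1 + X) := (Sm.add' h0 (sm_C (y := 0) _ 1).1 (sm_X (y := 0) _).1).1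
  have h2 : Sm (1 / 3) (Geo c) := (sm_Geo h0 (by linarith)).1
  refine ⟨(h1.mul' h0 h2).1, ?_⟩
  rw [EE_mul h1 h2, map_add, EE_one, EE_X]
  norm_num

section
variable {z : ℂ}

theorem Theta_b (hz : z - 1 ≠ 0) : (C (1 - z)⁻¹ : ℂ⟦X⟧) * (1 - C (c0 z)) = 2 ∧
    (1 - C (c1 z) : ℂ⟦X⟧) = 2 * C (1 - z)⁻¹ ∧ (1 + C (c0 z) : ℂ⟦X⟧) = C z * C 2 ∧
    (C (1 - z)⁻¹ : ℂ⟦X⟧) * (1 + C (c1 z)) = -(C z * C (2 / (z - 1) ^ 2)) := by
  have hz' : 1 - z ≠ 0 := fun h => hz (by linear_combination -h)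
  have h2 : (2 : ℂ⟦X⟧) = C 2 := (map_ofNat C 2).symm
  have h1 : (1 : ℂ⟦X⟧) = C 1 := (map_one C).symm
  rw [h2, h1]
  simp only [← map_sub, ← map_add, ← map_mul, ← map_neg, c0, c1]
  refine ⟨?_, ?_, ?_, ?_⟩ <;> congr 1 <;> field_simp <;> ring

theorem Theta_D0 (hz : z - 1 ≠ 0) : derivative ℂ ((1 + X) * Geo (c0 z)) = z • e0 z := by
  rw [Theta_D, (Theta_b hz).2.2.1, smul_eq_C_mul, e0, mul_assoc]

theorem Theta_D1 (hz : z - 1 ≠ 0) :
    derivative ℂ (C (1 - z)⁻¹ * ((1 + X) * Geo (c1 z))) = -(z • e1 z) := by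
  rw [Derivation.leibniz, derivative_C, Theta_D, smul_eq_C_mul _ z, e1, smul_zero, add_zero,
    smul_eq_mul, ← mul_assoc, (Theta_b hz).2.2.2]
  ring

theorem Theta_n0 (f : ℂ⟦X⟧) :
    kn (c0 z) 0 ((1 + X) * Geo (c0 z) * f) = kn (c0 z) 0 f + kn (c0 z) 2 f := Theta_A _ f

theorem Theta_n1 (hz : z - 1 ≠ 0) (f : ℂ⟦X⟧) :
    kn (c0 z) 1 ((1 + X) * Geo (c0 z) * f) = (1 - z)⁻¹ • (kn (c0 z) 1 f - kn (c0 z) 2 f) := by
  rw [kn_one, kn_one, kn_two, smul_eq_C_mul, ← sub_mul, Theta_B', ← mul_assoc, Theta_B]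
  linear_combination (-(G2 * Geo (c0 z) * f)) * (Theta_b hz).1

theorem Theta_x0 (hz : z - 1 ≠ 0) (f : ℂ⟦X⟧) :
    kx (c1 z) 0 (C (1 - z)⁻¹ * ((1 + X) * Geo (c1 z)) * f) = kx (c1 z) 0 f + kx (c1 z) 2 f := by
  rw [kx_zero, kx_zero, kx_two]
  linear_combination C (1 - z)⁻¹ * f * Theta_B (c1 z) - f * Theta_B' (c1 z) -
    G2 * Geo (c1 z) * f * (Theta_b hz).2.1

theorem Theta_x1 (f : ℂ⟦X⟧) :
    kx (c1 z) 1 (C (1 - z)⁻¹ * ((1 + X) * Geo (c1 z)) * f) =
      (1 - z)⁻¹ • (kx (c1 z) 1 f - kx (c1 z) 2 f) := by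
  rw [mul_assoc, ← smul_eq_C_mul, map_smul, kx_one, Theta_A, kx_one, kx_two, neg_mul,
    sub_neg_eq_add]

theorem Theta_nc (c : ℂ) (β : ℂ⟦X⟧) {f : ℂ⟦X⟧} (a : Fin 3) (h : a = 0 → constantCoeff f = 0) :
    kn c a (β * f) = β * kn c a f := by
  have e : ∀ c : Fin 3, c = 0 ∨ c = 1 ∨ c = 2 := by decide
  rcases e a with rfl | rfl | rfl
  · rw [kn_zero, kn_zero, Theta_shf_mul β (h rfl), mul_left_comm]
  · rw [kn_one, kn_one, mul_left_comm]
  · rw [kn_two, kn_two, mul_left_comm]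

theorem Theta_xc (c : ℂ) (β : ℂ⟦X⟧) {f : ℂ⟦X⟧} (a : Fin 3) (h : a = 1 → constantCoeff f = 0) :
    kx c a (β * f) = β * kx c a f := by
  have e : ∀ c : Fin 3, c = 0 ∨ c = 1 ∨ c = 2 := by decide
  rcases e a with rfl | rfl | rfl
  · rw [kx_zero, kx_zero, mul_left_comm]
  · rw [kx_one, kx_one, Theta_shf_mul β (h rfl), mul_left_comm]
  · rw [kx_two, kx_two, mul_left_comm]

theorem Theta_parts (β g : ℂ⟦X⟧) : β * prL g = prL (derivative ℂ β * prL g + β * g) := by
  have h := prL_deriv (β * prL g)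
  rw [map_mul constantCoeff, const_prL, mul_zero, map_zero, sub_zero, Derivation.leibniz, deriv_prL] at h
  rw [← h, smul_eq_mul, smul_eq_mul, add_comm, mul_comm (prL g)]

theorem Theta_EE (hz : z ∈ UU) :
    EE ((1 + X) * Geo (c0 z)) = EE (C (1 - z)⁻¹ * ((1 + X) * Geo (c1 z))) := by
  have h := UU_ne hz
  have hz' : 1 - z ≠ 0 := fun h' => h (by linear_combination -h')
  rw [← smul_eq_C_mul, map_smul, (Theta_sm (UU_c0 hz)).2, (Theta_sm (UU_c1 hz)).2, smul_eq_mul]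
  have h0 := EE_Geo (UU_c0 hz)
  have h1 := EE_Geo (UU_c1 hz)
  have e : (1 - z)⁻¹ * (1 - c0 z / 3) = 1 - c1 z / 3 := by
    unfold c0 c1
    field_simp
    ring
  linear_combination (4 / 3) * (-EE (Geo (c0 z)) * h1 + (1 - z)⁻¹ * EE (Geo (c1 z)) * h0 -
    EE (Geo (c0 z)) * EE (Geo (c1 z)) * e)

theorem Theta_DI_smul (c : ℂ) (d : ℂ⟦X⟧) (u : List (Fin 3)) : DI c (z • d) u = z • DI c d u := by
  induction u with
  | nil => simp [DI]
  | cons a u ih =>
    simp only [DI]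
    rw [ih, ← map_smul prL, map_smul]
    split_ifs <;> simp

theorem Theta_DH_smul (c c' : ℂ) (d d' : ℂ⟦X⟧) (u : List (Fin 3)) (G G' : ℂ⟦X⟧) :
    DH c c' (z • d) (z • d') u G (z • G') = z * DH c c' d d' u G G' := by
  induction u generalizing G G' with
  | nil => simp [DH]
  | cons b v ih =>
    have e : prL ((if b = 2 then z • d * G else 0) + kx c b (z • G')) =
        z • prL ((if b = 2 then d * G else 0) + kx c b G') := by
      rw [← map_smul prL, map_smul]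
      split_ifs <;> simp
    simp only [DH]
    rw [e, ih, Theta_DI_smul, map_smul, map_smul, smul_eq_mul, smul_eq_mul]
    ring

end

theorem theta_It {z : ℂ} (hz : z - 1 ≠ 0) (u : List (Fin 3)) (hu : Adm u) :
    DI (c0 z) (z • e0 z) u =
      hd2 u (fun v => (1 + X) * Geo (c0 z) * It (c0 z) v) + NN (1 - z)⁻¹ u (It (c0 z)) := by
  induction u with
  | nil => simp [DI, hd2, NN]
  | cons a u ih =>
    have ih := ih (Theta_adm hu)
    cases u with
    | nil =>
      simp only [DI, hd2, NN, It, map_zero, add_zero, mul_one]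
      split_ifs
      · rw [← Theta_D0 hz, prL_deriv, Theta_const, map_one, sub_eq_add_neg]
      · simp
    | cons b v =>
      have h1 := Theta_key1 (Theta_n0 (It (c0 z) v)) (Theta_n1 hz _) a b fun _ =>
        Theta_nc _ _ b fun hb => const_It _ (by rintro rfl; exact hu hb)
      have h2 := NN_map (prL ∘ₗ kn (c0 z) a) (1 - z)⁻¹ (b :: v) (It (c0 z))
      rw [DI, ih]
      simp only [hd2, NN.eq_3, It, LinearMap.comp_apply] at h2 ⊢
      rw [map_add (kn _ _), h1, map_add, map_add, map_add, h2, Theta_corr_map]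
      split_ifs
      · rw [Theta_parts ((1 + X) * Geo (c0 z)), Theta_D0 hz, map_add]
        abel
      · simp only [map_zero]
        abel

theorem theta_HS {z : ℂ} (hz : z ∈ UU) (u : List (Fin 3)) (hu : Adm u) {G : ℂ⟦X⟧}
    (hG : Sm (1 / 3) G) (h1 : u.head? = some 1 → constantCoeff G = 0) (G' : ℂ⟦X⟧) :
    DH (c1 z) (c0 z) (z • e1 z) (z • e0 z) u G G' = HS (c1 z) (c0 z) u G' +
      hd2 u (fun v => HS (c1 z) (c0 z) v
        (C (1 - z)⁻¹ * ((1 + X) * Geo (c1 z)) * G + prL (z • e1 z * G))) +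
      NN (1 - z)⁻¹ u fun v => HS (c1 z) (c0 z) v G := by
  have hz1 := UU_ne hz
  have h3 : (0 : ℝ) ≤ 1 / 3 := by norm_num
  have s0 := (Theta_sm (UU_c0 hz)).1
  have s1 : Sm (1 / 3) (C (1 - z)⁻¹ * ((1 + X) * Geo (c1 z))) :=
    ((sm_C (y := 0) _ _).1.mul' h3 (Theta_sm (UU_c1 hz)).1).1
  have hE := Theta_EE hz
  have hT : ∀ g, C (1 - z)⁻¹ * ((1 + X) * Geo (c1 z)) * prL g + prL (z • e1 z * prL g) =
      prL (C (1 - z)⁻¹ * ((1 + X) * Geo (c1 z)) * g) := fun g => by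
    rw [Theta_parts, Theta_D1 hz1, ← map_add]
    congr 1
    ring
  have x0 := Theta_x0 hz1
  have x1 := Theta_x1 (z := z)
  generalize C (1 - z)⁻¹ * ((1 + X) * Geo (c1 z)) = β at *
  induction u generalizing G G' with
  | nil => simp [DH, hd2, NN, HS_nil]
  | cons b v ih =>
    have hJ : Sm (1 / 3) (prL (kx (c1 z) b G)) :=
      (prL_bound h3 (by norm_num) (kx_bound (UU_c1 hz) le_rfl (by norm_num) b hG).1).1
    have hI := congrArg EE (theta_It hz1 (b :: v) hu)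
    have hm : EE ((1 + X) * Geo (c0 z) * It (c0 z) v) = EE β * EE (It (c0 z) v) := by
      rw [EE_mul s0 (It_bound (UU_c0 hz) le_rfl (by norm_num) v).1, hE]
    have hb := EE_mul s1 hG
    rw [map_add, Theta_hd_map, NN_map] at hI
    rw [DH, ih (Theta_adm hu) hJ (fun _ => const_prL _), hI, HS_cons, hT, map_add prL, map_add]
    cases v with
    | nil =>
      simp only [hd2, NN, HS_nil, It, EE_one] at hm ⊢
      split_ifs
      · rw [hm, map_add, hb]
        ring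
      · simp
    | cons c w =>
      have h4 := congrArg (HS (c1 z) (c0 z) w ∘ₗ prL) (Theta_key2 (x0 G) (x1 G) b c
        (Theta_xc _ _ b fun hb => h1 (by rw [hb]; rfl)))
      have h5 := NN_map (LinearMap.mulRight ℂ (EE G)) (1 - z)⁻¹ (c :: w)
        fun x => EE (It (c0 z) (b :: x))
      have h6 := Theta_corr_map (LinearMap.mulRight ℂ (EE G)) (1 - z)⁻¹ b c
        (EE (It (c0 z) (b :: w))) (EE (It (c0 z) (c :: w)))
      rw [map_add, Theta_corr_map] at h4
      simp only [LinearMap.mulRight_apply, LinearMap.comp_apply] at h4 h5 h6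
      simp only [hd2, NN.eq_3, HS_cons _ _ b]
      rw [HS_cons _ _ c w G, Theta_NN_add, Theta_corr_add, ← h5, ← h6]
      by_cases hb2 : b = 2 <;> by_cases hc2 : c = 2 <;>
        simp only [hb2, hc2, if_true, if_false, map_zero, map_add] at h4 hm ⊢
      · rw [HS_cons _ _ 2 w (β * G), hm, hb]
        linear_combination h4
      · rw [HS_cons _ _ c w (β * G), hm, hb]
        linear_combination h4
      · linear_combination h4
      · linear_combination h4

theorem theta_zt {z : ℂ} (hz : z ∈ UU) (u : List (Fin 3)) (hu : Adm u) (h1 : u.head? ≠ some 1) :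
    z * DH (c1 z) (c0 z) (e1 z) (e0 z) u 1 0 =
      (1 - z)⁻¹ * hd2 u (zt z) + NN (1 - z)⁻¹ u (zt z) := by
  have h2 := theta_HS hz u hu (G := 1) (sm_C (y := 0) _ 1).1 (fun h => absurd h h1) 0
  have h3 := prL_deriv (C (1 - z)⁻¹ * ((1 + X) * Geo (c1 z)))
  rw [Theta_D1 (UU_ne hz), map_neg, map_mul, Theta_const, mul_one, constantCoeff_C] at h3
  have h4 : C (1 - z)⁻¹ * ((1 + X) * Geo (c1 z)) * 1 + prL (z • e1 z * 1) =
      (1 - z)⁻¹ • (1 : ℂ⟦X⟧) := by
    rw [mul_one, mul_one, smul_eq_C_mul _ (1 - z)⁻¹]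
    linear_combination -h3
  have h5 := Theta_hd_map (LinearMap.mulLeft ℂ (1 - z)⁻¹) u (zt z)
  rw [← Theta_DH_smul, smul_zero, h2, h4, map_zero, zero_add]
  simp only [map_smul, smul_eq_mul]
  exact congrArg₂ (· + ·) h5.symm rfl

end MC3
end

-- merged part: Pool.Agent.Work.MP_80812c_nt.T3.Ode
section
/-!
The three letter values at `ω` are combinations of two letter values.

PLAN. Let `CJ j` be the rational span of the functions `z ↦ c * Lz w z` with `c ∈ WV i`,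
`i + Nat.size w = j`, and `SJ j` the rational submodule of functions `F : ℂ → ℂ` that agree with
some `f ∈ CJ j` at all points `t * om`, `0 ≤ t ≤ 1`. By span induction every `A ∈ CJ j` has
`F1, F2 ∈ CJ (j + 1)` vanishing at `0`, continuous at the points of the ray, and with derivatives
`d1, d2` at `x` (`‖x‖ < 1`) such that `x * d1 = A x - A 0`, `(1 - x) * d2 = A x` (indices `2 w`,
`2 w + 1`; `F1 = 0` for `w = 0`). `integrate`: if `F` has the derivative `F' z` at all `z ∈ UU`,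
`z * F' z = P z + (1 - z)⁻¹ * Q z` on the ray with `P, Q ∈ SJ j` and `F 0 ∈ WV (j + 1)`, then
`F ∈ SJ (j + 1)`: at `z = 0` one gets `(P + Q) 0 = 0`, and
`z * F' z = (P + Q) z + z * (1 - z)⁻¹ * Q z`; apply `const_of_deriv` to `F - F1 - F2` along the ray.
`NN_mem`: if `φ v ∈ SJ j` for all `v` with `Adm v`, `v.length + 1 = u.length` then there are
`P, Q ∈ SJ j` with `NN (1 - z)⁻¹ u (fun v => φ v z) = P z + (1 - z)⁻¹ * Q z` for all `z` (`Adm u`;
induction on `u` generalizing `φ`; the words `[a, b]` are done by hand, since for `a = 0` the two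
terms `φ [0]` cancel). Main induction on the length, for `Adm u`, `u.head? ≠ some 1`: for
`u = a :: b :: v` apply `NN_mem` to `fun w => zt · (a :: w)`; in the case `a = 2`, `b = 1` the term
`zt z (1 :: v)` of `corr` cancels against `hd2`. Finally `CJ j` evaluates at `om` into `WV j`.
-/

namespace MC3

open Finset MCV PowerSeries

/-- Combinations of two letter functions on the ray. -/
noncomputable def Ode_S (j : ℕ) : Submodule ℚ (ℝ → ℂ) :=
  Submodule.span ℚ {f | ∃ i w c, c ∈ WV i ∧ i + Nat.size w = j ∧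
    ∀ t ∈ Set.Icc (0 : ℝ) 1, f t = c * Lz w (t * om)}

theorem Ode_const {j : ℕ} {c : ℂ} (hc : c ∈ WV j) {f : ℝ → ℂ}
    (h : ∀ t ∈ Set.Icc (0 : ℝ) 1, f t = c) : f ∈ Ode_S j :=
  Submodule.subset_span ⟨j, 0, c, hc, by simp, fun t ht => by rw [h t ht, Lz_nil, mul_one]⟩

theorem Ode_eval {j : ℕ} {f : ℝ → ℂ} (hf : f ∈ Ode_S j) : f 1 ∈ WV j := by
  refine (Submodule.span_le.2 ?_ : Ode_S j ≤ (WV j).comap (LinearMap.proj 1)) hf
  rintro f ⟨i, w, c, hc, rfl, h⟩
  show f 1 ∈ WV _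
  rw [h 1 ⟨zero_le_one, le_rfl⟩, Complex.ofReal_one, one_mul]
  exact WV_mul hc (Lz_om w)

/-- Derivatives of such combinations. -/
noncomputable def Ode_P (j : ℕ) : Submodule ℚ (ℝ → ℂ) where
  carrier := {g | ∃ F ∈ Ode_S j, F 0 = 0 ∧ ContinuousOn F (Set.Icc 0 1) ∧
    ∀ t ∈ Set.Ioo (0 : ℝ) 1, HasDerivAt F (g t) t}
  add_mem' := by
    rintro g g' ⟨F, h1, h2, h3, h4⟩ ⟨F', k1, k2, k3, k4⟩
    exact ⟨F + F', add_mem h1 k1, by simp [h2, k2], h3.add k3,
      fun t ht => (h4 t ht).add (k4 t ht)⟩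
  zero_mem' := ⟨0, zero_mem _, rfl, continuousOn_const, fun t _ => hasDerivAt_const t 0⟩
  smul_mem' := by
    rintro q g ⟨F, h1, h2, h3, h4⟩
    exact ⟨q • F, Submodule.smul_mem _ q h1, by simp [h2], h3.const_smul q,
      fun t ht => (h4 t ht).const_smul q⟩

theorem Ode_ray {F : ℂ → ℂ} {d : ℂ} {t : ℝ} (h : HasDerivAt F d (t * om)) :
    HasDerivAt (fun s : ℝ => F (s * om)) (d * om) t :=
  (h.comp (t : ℂ) (hasDerivAt_mul_const om)).comp_ofReal

theorem Ode_base {i w : ℕ} {c : ℂ} (hw : w ≠ 0) (hc : c ∈ WV i) {g : ℝ → ℂ}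
    (h : ∀ t ∈ Set.Ioo (0 : ℝ) 1, ∀ d : ℂ, (if w % 2 = 0 then t * om else 1 - t * om) * d =
      Lz (w / 2) (t * om) → g t = c * (d * om)) : g ∈ Ode_P (i + Nat.size w) := by
  refine ⟨fun t => c * Lz w (t * om), Submodule.subset_span ⟨i, w, c, hc, rfl, fun _ _ => rfl⟩,
    by simp [Lz_zero hw], fun t ht => ?_, fun t ht => ?_⟩
  · refine (continuousAt_const.mul (ContinuousAt.comp (f := fun t : ℝ => (t : ℂ) * om)
      (Lz_cont w ?_) (by fun_prop))).continuousWithinAt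
    rw [Complex.re_ofReal_mul, om_re]
    linarith [ht.2]
  · obtain ⟨d, h1, h2⟩ := Lz_deriv hw (x := t * om) (by
      rw [norm_mul, norm_om, mul_one, Complex.norm_real, Real.norm_of_nonneg ht.1.le]
      exact ht.2)
    rw [h t ht d h2]
    exact (Ode_ray h1).const_mul c

theorem Ode_ne {t : ℝ} (ht : t ∈ Set.Ioo (0 : ℝ) 1) : (t : ℂ) ≠ 0 ∧ 1 - t * om ≠ 0 :=
  ⟨Complex.ofReal_ne_zero.2 ht.1.ne', fun h => UU_ne (ray_mem_UU ht.1.le ht.2.le)
    (by linear_combination -h)⟩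

theorem Ode_p1 {j : ℕ} {A : ℝ → ℂ} (hA : A ∈ Ode_S j) :
    (fun t : ℝ => (t : ℂ)⁻¹ * (A t - A 0)) ∈ Ode_P (j + 1) := by
  induction hA using Submodule.span_induction with
  | mem f hf =>
    obtain ⟨i, w, c, hc, rfl, h⟩ := hf
    have h0 := h 0 ⟨le_rfl, zero_le_one⟩
    by_cases hw : w = 0
    · refine ⟨0, zero_mem _, rfl, continuousOn_const, fun t ht => ?_⟩
      simp only [h0, h t (Set.Ioo_subset_Icc_self ht), hw, Lz_nil, sub_self, mul_zero]
      exact hasDerivAt_const t 0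
    · have h2 : 2 * w / 2 = w := by omega
      rw [add_assoc, ← congrArg Nat.size h2, ← size_half (by omega)]
      refine Ode_base (by omega) hc fun t ht d hd => ?_
      rw [if_pos (by omega), h2] at hd
      rw [h0, h t (Set.Ioo_subset_Icc_self ht), ← hd, Complex.ofReal_zero, zero_mul, Lz_zero hw]
      field_simp [(Ode_ne ht).1]
      ring
  | zero =>
    convert (Ode_P (j + 1)).zero_mem using 1
    funext t
    simp
  | add f g _ _ hf hg =>
    convert add_mem hf hg using 1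
    funext t
    simp only [Pi.add_apply]
    ring
  | smul q f _ hf =>
    convert (Ode_P (j + 1)).smul_mem q hf using 1
    funext t
    simp only [Pi.smul_apply, Rat.smul_def]
    ring

theorem Ode_p2 {j : ℕ} {A : ℝ → ℂ} (hA : A ∈ Ode_S j) :
    (fun t : ℝ => om * (1 - t * om)⁻¹ * A t) ∈ Ode_P (j + 1) := by
  induction hA using Submodule.span_induction with
  | mem f hf =>
    obtain ⟨i, w, c, hc, rfl, h⟩ := hf
    have h2 : (2 * w + 1) / 2 = w := by omega
    rw [add_assoc, ← congrArg Nat.size h2, ← size_half (by omega)]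
    refine Ode_base (by omega) hc fun t ht d hd => ?_
    rw [if_neg (by omega), h2] at hd
    rw [h t (Set.Ioo_subset_Icc_self ht), ← hd]
    linear_combination om * c * d * inv_mul_cancel₀ (Ode_ne ht).2
  | zero =>
    convert (Ode_P (j + 1)).zero_mem using 1
    funext t
    simp
  | add f g _ _ hf hg =>
    convert add_mem hf hg using 1
    funext t
    simp only [Pi.add_apply]
    ring
  | smul q f _ hf =>
    convert (Ode_P (j + 1)).smul_mem q hf using 1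
    funext t
    simp only [Pi.smul_apply, Rat.smul_def]
    ring

/-- Affine functions of a parameter with coefficients in `Ode_S`. -/
def Ode_W (j : ℕ) (H : ℝ → ℂ → ℂ) : Prop :=
  ∃ P ∈ Ode_S j, ∃ Q ∈ Ode_S j, ∀ t β, H t β = P t + β * Q t

theorem Ode_add {j : ℕ} {H H' G : ℝ → ℂ → ℂ} (h : Ode_W j H) (h' : Ode_W j H')
    (e : ∀ t β, G t β = H t β + H' t β) : Ode_W j G := by
  obtain ⟨P, h1, Q, h2, h3⟩ := h
  obtain ⟨P', k1, Q', k2, k3⟩ := h'
  refine ⟨_, add_mem h1 k1, _, add_mem h2 k2, fun t β => ?_⟩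
  rw [e, h3, k3, Pi.add_apply, Pi.add_apply]
  ring

theorem Ode_int {j : ℕ} {F F' : ℂ → ℂ} (hF : ∀ z ∈ UU, HasDerivAt F (F' z) z) {H : ℝ → ℂ → ℂ}
    (hH : Ode_W j H) (h : ∀ t ∈ Set.Icc (0 : ℝ) 1, t * om * F' (t * om) = H t (1 - t * om)⁻¹)
    (h0 : F 0 ∈ WV (j + 1)) : (fun t : ℝ => F (t * om)) ∈ Ode_S (j + 1) := by
  obtain ⟨P, h1, Q, h2, h3⟩ := hH
  obtain ⟨G, k1, k2, k3, k4⟩ := add_mem (Ode_p1 (add_mem h1 h2)) (Ode_p2 h2)
  have hd : ∀ t ∈ Set.Icc (0 : ℝ) 1, HasDerivAt (fun s : ℝ => F (s * om)) (F' (t * om) * om) t :=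
    fun t ht => Ode_ray (hF _ (ray_mem_UU ht.1 ht.2))
  have e0 : P 0 + Q 0 = 0 := by simpa [h3] using (h 0 ⟨le_rfl, zero_le_one⟩).symm
  have hc := const_of_deriv (F := fun s : ℝ => F (s * om) - G s)
    (ContinuousOn.sub (fun t ht => (hd t ht).continuousAt.continuousWithinAt) k3) fun t ht => by
      have e := h t (Set.Ioo_subset_Icc_self ht)
      obtain ⟨n1, n2⟩ := Ode_ne ht
      refine ((hd t (Set.Ioo_subset_Icc_self ht)).sub (k4 t ht)).congr_deriv ?_
      simp only [Pi.add_apply, e0, sub_zero]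
      rw [h3] at e
      refine mul_left_cancel₀ n1 ?_
      linear_combination e - (P t + Q t) * mul_inv_cancel₀ n1 + Q t * mul_inv_cancel₀ n2
  have hm := add_mem k1 (Ode_const h0 (f := fun s : ℝ => F (s * om) - G s) fun t ht => by
    rw [hc t ht]
    simp [k2])
  convert hm using 1
  funext t
  simp

theorem Ode_corr {j : ℕ} (a b : Fin 3) {f g : ℝ → ℂ} (hf : f ∈ Ode_S j) (hg : g ∈ Ode_S j) :
    Ode_W j fun t β => corr β a b (f t) (g t) := by
  unfold corr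
  split_ifs
  · exact ⟨_, add_mem hf hg, 0, zero_mem _, fun t β => by simp⟩
  · exact ⟨_, sub_mem (neg_mem hf) hg, 0, zero_mem _, fun t β => by simp⟩
  · exact ⟨0, zero_mem _, _, sub_mem hf hg, fun t β => by simp⟩
  · exact ⟨0, zero_mem _, 0, zero_mem _, fun t β => by simp⟩

theorem Ode_two {j : ℕ} (b : Fin 3) {φ : List (Fin 3) → ℝ → ℂ} (h : φ [2] ∈ Ode_S j) :
    Ode_W j fun t β => NN β [0, b] fun v => φ v t := by
  by_cases hb : b = 2
  · exact ⟨_, h, 0, zero_mem _, fun t β => by simp [NN, corr, hb]⟩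
  · exact ⟨0, zero_mem _, 0, zero_mem _, fun t β => by simp [NN, corr, hb]⟩

theorem Ode_adm {a : Fin 3} {v w : List (Fin 3)} (h : ¬(a = 0 ∧ v = [])) (hw : Adm w)
    (e : w.length = v.length) : Adm (a :: w) := by
  cases w with
  | nil => exact fun ha => h ⟨ha, List.length_eq_zero_iff.1 e.symm⟩
  | cons c w => exact hw

theorem Ode_tail {a : Fin 3} {v : List (Fin 3)} (h : Adm (a :: v)) : Adm v := by
  cases v with
  | nil => trivial
  | cons c w => exact h

theorem Ode_NN {j : ℕ} (u : List (Fin 3)) : ∀ φ : List (Fin 3) → ℝ → ℂ, Adm u →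
    (∀ v, Adm v → v.length + 1 = u.length → φ v ∈ Ode_S j) →
    Ode_W j fun t β => NN β u fun v => φ v t := by
  induction u with
  | nil => exact fun φ _ _ => ⟨0, zero_mem _, 0, zero_mem _, fun t β => by simp [NN]⟩
  | cons a u ih =>
    intro φ hu h
    cases u with
    | nil =>
      by_cases ha : a = 2
      · exact ⟨_, neg_mem (h [] trivial rfl), 0, zero_mem _, fun t β => by simp [NN, ha]⟩
      · exact ⟨0, zero_mem _, 0, zero_mem _, fun t β => by simp [NN, ha]⟩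
    | cons b v =>
      by_cases hz : a = 0 ∧ v = []
      · obtain ⟨rfl, rfl⟩ := hz
        exact Ode_two b (h [2] (by decide : (2 : Fin 3) ≠ 0) rfl)
      · exact Ode_add (ih (fun w => φ (a :: w)) hu fun w hw e =>
          h _ (Ode_adm hz hw (Nat.succ.inj e)) (congrArg (· + 1) e))
          (Ode_corr a b (h _ (Ode_adm hz (Ode_tail (a := b) hu) rfl) rfl) (h (b :: v) hu rfl))
          fun t β => rfl

theorem Ode_top {j : ℕ} {u : List (Fin 3)} {φ : List (Fin 3) → ℝ → ℂ} (hu : Adm u)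
    (h1 : u.head? ≠ some 1)
    (h : ∀ v, Adm v → v.length + 1 = u.length → v.head? ≠ some 1 → φ v ∈ Ode_S j) :
    Ode_W j fun t β => β * hd2 u (fun v => φ v t) + NN β u fun v => φ v t := by
  match u, hu, h1, h with
  | [], _, _, _ => exact ⟨0, zero_mem _, 0, zero_mem _, fun t β => by simp [NN, hd2]⟩
  | [a], _, _, h =>
    have h0 := h [] trivial rfl (by simp)
    by_cases ha : a = 2
    · exact ⟨_, neg_mem h0, _, h0, fun t β => by simp [NN, hd2, ha, add_comm]⟩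
    · exact ⟨0, zero_mem _, 0, zero_mem _, fun t β => by simp [NN, hd2, ha]⟩
  | a :: b :: v, hu, h1, h =>
    by_cases hz : a = 0 ∧ v = []
    · obtain ⟨rfl, rfl⟩ := hz
      simpa [hd2] using Ode_two b (h [2] (by decide : (2 : Fin 3) ≠ 0) rfl (by simp))
    have ha := h (a :: v) (Ode_adm hz (Ode_tail (a := b) hu) rfl) rfl h1
    refine Ode_add (Ode_NN (b :: v) (fun w => φ (a :: w)) hu fun w hw e =>
      h _ (Ode_adm hz hw (Nat.succ.inj e)) (congrArg (· + 1) e) h1)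
      (H' := fun t β => β * (if a = 2 then φ (b :: v) t else 0) +
        corr β a b (φ (a :: v) t) (φ (b :: v) t)) ?_ fun t β => add_left_comm _ _ _
    have h2 : a ≠ 1 := fun e => h1 (congrArg some e)
    by_cases hb : b = 1
    · by_cases h3 : a = 2
      · exact ⟨0, zero_mem _, _, ha, fun t β => by simp [corr, hb, h3, mul_sub]⟩
      · exact ⟨0, zero_mem _, 0, zero_mem _, fun t β => by simp [corr, hb, h2, h3]⟩
    · have h3 := h (b :: v) hu rfl fun e => hb (Option.some.inj e)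
      refine Ode_add ?_ (Ode_corr a b ha h3) fun t β => rfl
      split_ifs
      · exact ⟨0, zero_mem _, _, h3, fun t β => by simp⟩
      · exact ⟨0, zero_mem _, 0, zero_mem _, fun t β => by simp⟩

theorem Ode_main (n : ℕ) : ∀ u : List (Fin 3), u.length = n → Adm u → u.head? ≠ some 1 →
    (fun t : ℝ => zt (t * om) u) ∈ Ode_S n := by
  induction n with
  | zero =>
    intro u e hu h1
    obtain rfl := List.length_eq_zero_iff.1 e
    exact Ode_const (zt_zero_mem [] hu h1) fun _ _ => rfl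
  | succ n ih =>
    intro u e hu h1
    exact Ode_int (F := fun z => zt z u) (fun z hz => hasDerivAt_zt hz u)
      (Ode_top (φ := fun v t => zt (t * om) v) hu h1 fun v hv e' =>
        ih v (Nat.succ.inj (e'.trans e)) hv)
      (fun t ht => theta_zt (ray_mem_UU ht.1 ht.2) u hu h1) (e ▸ zt_zero_mem u hu h1)

theorem zt_om_mem (u : List (Fin 3)) (hu : Adm u) (h1 : u.head? ≠ some 1) :
    zt om u ∈ WV u.length := by
  simpa using Ode_eval (Ode_main _ u rfl hu h1)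

end MC3
end

-- merged part: Pool.Agent.Work.MP_80812c_nt.T3.Xi
section
/-!
The boundary values are combinations of two letter values.

PLAN. `IntL_mem`: `IntL l (a :: w) u = sg ℂ a * IntL (sw a) w (l :: u)` (unfold `HS_cons` on both sides,
`kx c a = sg a • kn c (sw a)`, `kn c a = sg a • kx c (sw a)`), `IntL l [] u = zt om (l :: u)`.
Induction on `w` generalizing `l u`; `Adm (a :: w)` gives `Adm w`, and `w = [] → a ≠ 0`, so
`sw a ≠ 1`; `Adm (l :: u)` gives `Adm (sw a :: l :: u)`. `xi3_mem`: `adm_wd`, `wd_pos`, `sz_pos`,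
`WV_le_WW`; `1 ∈ WV 0` (`Lz_om 0`, `Lz_nil`). For `t = false`, `w ≠ 0`, `dg w ≠ 1` the letter
`sw (dg w)` is not zero, so `Adm (sw (dg w) :: wd u)` holds, and `w / 3 = 0` gives `dg w ≠ 0`.
-/

namespace MC3

open Finset MCV PowerSeries

theorem Xi_kx (c : ℂ) (a : Fin 3) (f : ℂ⟦X⟧) : kx c a f = sg ℂ a • kn c (sw a) f := by
  fin_cases a
  · exact (one_smul ℂ _).symm
  · exact (one_smul ℂ _).symm
  · change -k2 c * f = (-1 : ℂ) • (k2 c * f)
    rw [neg_one_smul, neg_mul]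

theorem Xi_kn (c : ℂ) (a : Fin 3) (f : ℂ⟦X⟧) : kn c a f = sg ℂ a • kx c (sw a) f := by
  fin_cases a
  · exact (one_smul ℂ _).symm
  · exact (one_smul ℂ _).symm
  · change k2 c * f = (-1 : ℂ) • (-k2 c * f)
    rw [neg_one_smul, neg_mul, neg_neg]

theorem Xi_cons (l a : Fin 3) (w u : List (Fin 3)) :
    IntL l (a :: w) u = sg ℂ a * IntL (sw a) w (l :: u) := by
  have h1 : It (c1 om) (a :: w) = sg ℂ a • prL (kx (c1 om) (sw a) (It (c1 om) w)) := by
    rw [It, Xi_kn, map_smul]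
  have h2 : prL (kx (c0 om) a (It (c0 om) (l :: u))) = sg ℂ a • It (c0 om) (sw a :: l :: u) := by
    rw [Xi_kx, map_smul]
    rfl
  rw [IntL, IntL, HS_cons, HS_cons, h2, h1]
  simp only [map_smul, smul_eq_mul]
  ring

theorem Xi_nil (l : Fin 3) (u : List (Fin 3)) : IntL l [] u = zt om (l :: u) := by
  rw [IntL, zt, HS_cons, HS_nil, EE_one, mul_one]
  rfl

theorem Xi_sg (a : Fin 3) {j : ℕ} {x : ℂ} (hx : x ∈ WV j) : sg ℂ a * x ∈ WV j := by
  fin_cases a
  · exact (one_mul x).symm ▸ hx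
  · exact (one_mul x).symm ▸ hx
  · exact (neg_one_mul x).symm ▸ neg_mem hx

theorem Xi_adm {a : Fin 3} {w : List (Fin 3)} (h : Adm (a :: w)) : Adm w := by
  cases w with
  | nil => trivial
  | cons b v => exact h

theorem Xi_adm' {a : Fin 3} {w : List (Fin 3)} (ha : w = [] → a ≠ 0) (h : Adm w) :
    Adm (a :: w) := by
  cases w with
  | nil => exact ha rfl
  | cons b v => exact h

theorem Xi_sw0 {a : Fin 3} (h : a ≠ 1) : sw a ≠ 0 := by
  revert a
  decide

theorem Xi_sw1 {a : Fin 3} (h : a ≠ 0) : sw a ≠ 1 := by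
  revert a
  decide

theorem IntL_mem (w : List (Fin 3)) (hw : Adm w) (l : Fin 3) (u : List (Fin 3))
    (hu : Adm (l :: u)) (h1 : w = [] → l ≠ 1) :
    IntL l w u ∈ WV (w.length + u.length + 1) := by
  induction w generalizing l u with
  | nil =>
    rw [Xi_nil, List.length_nil, zero_add]
    exact zt_om_mem (l :: u) hu fun h => h1 rfl (Option.some.inj h)
  | cons a w ih =>
    rw [Xi_cons, show (a :: w).length + u.length + 1 = w.length + (l :: u).length + 1 by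
      simp only [List.length_cons]; omega]
    refine Xi_sg a (ih (Xi_adm hw) (sw a) (l :: u) hu fun h => Xi_sw1 ?_)
    rw [h] at hw
    exact hw

theorem xi3_mem {w u K : ℕ} (h : sz w + sz u < K) (t : Bool) : xi3 w u t ∈ WW K := by
  unfold xi3
  split_ifs with h1 h2 h3 h4 h5
  · exact zero_mem _
  · have hu : u ≠ 0 := fun e => h2 (Or.inl e)
    refine WV_le_WW ?_ (IntL_mem _ (adm_wd w) _ _ (wd_pos hu ▸ adm_wd u) fun e h6 => ?_)
    · rw [sz_pos hu] at h
      exact h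
    · refine h2 (Or.inr (Or.inr ⟨?_, h6⟩))
      by_contra h7
      rw [wd_pos h7] at e
      exact List.cons_ne_nil _ _ e
  · exact zero_mem _
  · refine WV_le_WW ?_ (IntL_mem _ (adm_wd _) _ _ (Xi_adm' (fun _ => Xi_sw0 h4) (adm_wd u))
      fun e => Xi_sw1 ?_)
    · rw [sz_pos h3] at h
      change sz (w / 3) + sz u + 1 < K
      omega
    · have h6 := adm_wd w
      rw [wd_pos h3, e] at h6
      exact h6
  · have h6 := Lz_om 0
    rw [Lz_nil, Nat.size_zero] at h6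
    exact WV_le_WW (by omega) h6
  · exact zero_mem _

end MC3
end

-- merged part: Pool.Agent.Work.MP_80812c_nt.T3.Zero
section
/-!
The zero estimate for the formal moments.

PLAN (compare `../ZeroD.lean`). `res_tp`: the hypothesis is
`(1 - X)(1 - yX) X (p' c - p c') + M c^2 = 0`, `M = ∑ C (κ a) * tp y a`; `residue_zero` at `1`, at
`y⁻¹` and at `0` gives `κ 1 (1 - y) = 0`, `κ 2 (1 - y⁻¹) = 0`, `κ 0 + κ 1 + κ 2 = 0`.
`DS_st`: the derivative of `X * mk (st ..)` has coefficients `(l^(m+1) - e) x - s ∑ l^(m-i) ν i`;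
use `geo_mul`, `(1 - C l * X) * mk (fun m => ∑ i ∈ range (m+1), l^(m-i) * ν i) = mk ν`, and
`tp y a * (1 - C (lv y a) * X) = (1 - X) * (1 - C y * X)`.
`zero_est3`: `G w (u, l) = X * mk (mu3 y (c l) w u)`, `τ2 b = C (ss K b) * tp y b`,
`τ1 a = C (-(sg K a * ss K (sw a))) * tp y (sw a)`, `e l = c l 0 0 false`,
`A (u, l) = ∑ j, C (a (u, j, l)) * X ^ (n - 1 - j)`, `Q w = - trunc n (∑ i, A i * G w i)`,
`E = 2 * n` (the coefficient of `X ^ (n + i)` is the sum in `h`). If the conclusion fails, the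
coefficient of `X ^ (n - 1 - j)` shows `∑ l, C (e l) * A (u, l) ≠ 0`, and `mult_est3` gives
`N1 * (2 * n) ≤ ρ * (n + 2 * ρ)` with `ρ = N2 * card L + N1 < 2 * N1`, so `n ≤ 2 * ρ ^ 2`.
-/

namespace MC3

open Finset MCV Polynomial

variable {K : Type*} [Field K] [CharZero K]

theorem res_tp {y : K} (h0 : y ≠ 0) (h1 : y ≠ 1) : Res y (tp y) := by
  intro κ p c hc h
  have hi : C y * C y⁻¹ = (1 : K[X]) := by rw [← map_mul, mul_inv_cancel₀ h0, map_one]
  have hy : (1 : K) - y ≠ 0 := sub_ne_zero.2 h1.symm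
  have hy' : (1 : K) - y⁻¹ ≠ 0 := sub_ne_zero.2 fun e => h1 (inv_eq_one.1 e.symm)
  obtain ⟨M, hM⟩ : ∃ M, M = ∑ a, C (κ a) * tp y a := ⟨_, rfl⟩
  rw [← hM] at h
  unfold DD at h
  have e1 := residue_zero (α := 1) (D := (1 - C y * X) * X) (p := p) (M := M) (by simpa using hy)
    hc (by rw [map_one]; linear_combination -h)
  have e2 := residue_zero (α := y⁻¹) (D := C y * ((1 - X) * X)) (p := p) (M := M)
    (by simpa [h0] using hy') hc
    (by linear_combination -h - (1 - X) * X * (derivative p * c - p * derivative c) * hi)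
  have e0 := residue_zero (α := 0) (D := -((1 - X) * (1 - C y * X))) (p := p) (M := M)
    (by simp) hc (by rw [map_zero]; linear_combination -h)
  have hM' : M = C (κ 0) * ((1 - X) * (1 - C y * X)) + C (κ 1) * (1 - C y * X) +
      C (κ 2) * (1 - X) := by
    rw [hM, Fin.sum_univ_three]
    rfl
  rw [hM'] at e0 e1 e2
  simp only [eval_add, eval_mul, eval_sub, eval_C, eval_X, eval_one, mul_inv_cancel₀ h0] at e0 e1 e2
  have k1 : κ 1 = 0 := (mul_eq_zero.1 (show κ 1 * (1 - y) = 0 by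
    linear_combination e1)).resolve_right hy
  have k2 : κ 2 = 0 := (mul_eq_zero.1 (show κ 2 * (1 - y⁻¹) = 0 by
    linear_combination e2)).resolve_right hy'
  have k0 : κ 0 = 0 := by linear_combination e0 - k1 - k2
  intro a
  fin_cases a
  exacts [k0, k1, k2]

omit [CharZero K] in
theorem Res.perm {y : K} {τ : Fin 3 → K[X]} (h : Res y τ) (ε : Fin 3 → K) (hε : ∀ a, ε a ≠ 0)
    (π : Fin 3 → Fin 3) (hπ : Function.Bijective π) : Res y fun a => C (ε a) * τ (π a) := by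
  intro κ p c hc hh a
  obtain ⟨σ, hσ⟩ : ∃ σ : Fin 3 ≃ Fin 3, ∀ b, σ b = π b := ⟨Equiv.ofBijective π hπ, fun _ => rfl⟩
  have e : ∑ b, C (κ (σ.symm b) * ε (σ.symm b)) * τ b = ∑ b, C (κ b) * (C (ε b) * τ (π b)) := by
    rw [← σ.sum_comp]
    refine sum_congr rfl fun b _ => ?_
    rw [Equiv.symm_apply_apply, hσ, map_mul, mul_assoc]
  have k := h (fun b => κ (σ.symm b) * ε (σ.symm b)) p c hc (by rw [e]; exact hh) (σ a)
  simp only [Equiv.symm_apply_apply] at k
  exact (mul_eq_zero.1 k).resolve_right (hε a)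

theorem Zero_cum {R : Type*} [CommRing R] (l : R) (ν : ℕ → R) :
    (1 - PowerSeries.C l * PowerSeries.X) *
      (PowerSeries.mk fun m => ∑ i ∈ range (m + 1), l ^ (m - i) * ν i) = PowerSeries.mk ν := by
  ext n
  rw [sub_mul, one_mul, mul_assoc, map_sub, PowerSeries.coeff_C_mul]
  cases n with
  | zero => simp
  | succ n =>
    rw [PowerSeries.coeff_succ_X_mul, PowerSeries.coeff_mk, PowerSeries.coeff_mk,
      PowerSeries.coeff_mk, sum_range_succ, Nat.sub_self, pow_zero, one_mul, mul_sum]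
    have e : ∑ i ∈ range (n + 1), l ^ (n + 1 - i) * ν i =
        ∑ i ∈ range (n + 1), l * (l ^ (n - i) * ν i) := by
      refine sum_congr rfl fun i hi => ?_
      rw [mem_range] at hi
      rw [show n + 1 - i = n - i + 1 by omega]
      ring
    rw [e]
    ring

omit [CharZero K] in
theorem Zero_tp (y : K) (a : Fin 3) :
    tp y a * (1 - C (lv y a) * X) = (1 - X) * (1 - C y * X) := by
  fin_cases a
  · simp [tp, lv]
  · show (1 - C y * X) * (1 - C (1 : K) * X) = (1 - X) * (1 - C y * X)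
    rw [map_one]
    ring
  · simp [tp, lv]

theorem DS_st (y : K) (a : Fin 3) (s e x : K) (ν : ℕ → K) :
    DS y (PowerSeries.X * PowerSeries.mk (st (lv y a) s e x ν)) =
      ((C x * (C (lv y a) * X * tp y a - C e * (X * (1 - C y * X))) : K[X]) : PowerSeries K) -
        ((C s * tp y a : K[X]) : PowerSeries K) * (PowerSeries.X * PowerSeries.mk ν) := by
  have h1 : PowerSeries.derivative K (PowerSeries.X * PowerSeries.mk (st (lv y a) s e x ν)) =
      PowerSeries.C (lv y a) * PowerSeries.C x * (PowerSeries.mk fun m => lv y a ^ m) -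
        PowerSeries.C e * PowerSeries.C x * (PowerSeries.mk fun m => (1 : K) ^ m) -
        PowerSeries.C s * PowerSeries.mk fun m => ∑ i ∈ range (m + 1), lv y a ^ (m - i) * ν i := by
    ext n
    rw [PowerSeries.coeff_derivative, PowerSeries.coeff_succ_X_mul, PowerSeries.coeff_mk]
    simp only [← map_mul, map_sub, PowerSeries.coeff_mk, PowerSeries.coeff_C_mul, st]
    have hn : (n : K) + 1 ≠ 0 := Nat.cast_add_one_ne_zero n
    rw [mul_comm, mul_inv_cancel_left₀ hn]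
    ring
  have g1 := geo_mul (lv y a)
  have g2 := geo_mul (1 : K)
  have g3 := Zero_cum (lv y a) ν
  have g4 := congrArg (fun q : K[X] => (q : PowerSeries K)) (Zero_tp y a)
  rw [map_one, one_mul] at g2
  simp only [DS, h1, Polynomial.coe_mul, Polynomial.coe_sub, Polynomial.coe_one, Polynomial.coe_X,
    Polynomial.coe_C] at g4 ⊢
  generalize (PowerSeries.mk fun m => lv y a ^ m) = A at g1 ⊢
  generalize (PowerSeries.mk fun m => (1 : K) ^ m) = B at g2 ⊢
  generalize (PowerSeries.mk fun m => ∑ i ∈ range (m + 1), lv y a ^ (m - i) * ν i) = D at g3 ⊢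
  linear_combination
    (tp y a : PowerSeries K) * PowerSeries.X * PowerSeries.C (lv y a) * PowerSeries.C x * g1 -
    (1 - PowerSeries.C y * PowerSeries.X) * PowerSeries.X * PowerSeries.C e * PowerSeries.C x * g2 -
    (tp y a : PowerSeries K) * PowerSeries.X * PowerSeries.C s * g3 -
    PowerSeries.X * (PowerSeries.C (lv y a) * PowerSeries.C x * A - PowerSeries.C s * D) * g4

/-- The inhomogeneous terms. -/
noncomputable def Zero_bt (y : K) (a : Fin 3) (e x : K) : K[X] :=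
  C x * (C (lv y a) * X * tp y a - C e * (X * (1 - C y * X)))

omit [CharZero K] in
theorem Zero_deg_tp (y : K) (a : Fin 3) : (tp y a).natDegree ≤ 2 := by
  fin_cases a
  · exact natDegree_TT y
  · show (1 - C y * X : K[X]).natDegree ≤ 2
    compute_degree
    omega
  · show (1 - X : K[X]).natDegree ≤ 2
    compute_degree
    omega

omit [CharZero K] in
theorem Zero_deg_bt (y : K) (a : Fin 3) (e x : K) : (Zero_bt y a e x).natDegree ≤ 2 := by
  have h2 : (C e * (X * (1 - C y * X)) : K[X]).natDegree ≤ 2 := by compute_degree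
  refine (natDegree_C_mul_le _ _).trans ((natDegree_sub_le _ _).trans (max_le ?_ h2))
  fin_cases a
  · simp [lv]
  · show (C (1 : K) * X * (1 - C y * X) : K[X]).natDegree ≤ 2
    compute_degree
  · show (C y * X * (1 - X) : K[X]).natDegree ≤ 2
    compute_degree

theorem Zero_DS (y : K) (ξ : ℕ → ℕ → Bool → K) (w u : ℕ) :
    DS y (PowerSeries.X * PowerSeries.mk (mu3 y ξ w u)) =
      (if w ≠ 0 then ((C (-(sg K (dg w) * ss K (sw (dg w)))) * tp y (sw (dg w)) : K[X]) :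
        PowerSeries K) * (PowerSeries.X * PowerSeries.mk (mu3 y ξ (w / 3) u)) else 0) +
      (if u ≠ 0 then ((C (ss K (dg u)) * tp y (dg u) : K[X]) : PowerSeries K) *
        (PowerSeries.X * PowerSeries.mk (mu3 y ξ w (u / 3))) else 0) +
      (((if w = 0 ∧ u = 0 then Zero_bt y 1 0 (ξ 0 0 false) else 0) +
        (if w ≠ 0 then C (sg K (dg w)) * Zero_bt y (sw (dg w)) 0 (ξ w u false) else 0) -
        (if u ≠ 0 then Zero_bt y (dg u) (if w = 0 then 1 else 0) (ξ w u true) else 0) : K[X]) :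
          PowerSeries K) := by
  have hC : ∀ (t : K) (f : PowerSeries K),
      DS y (PowerSeries.C t * f) = PowerSeries.C t * DS y f := by
    intro t f
    rw [DS_mul]
    simp [DS]
  have hDS : ∀ (b : Prop) [Decidable b] (f : PowerSeries K),
      DS y (if b then f else 0) = if b then DS y f else 0 := by
    intro b _ f
    split_ifs
    · rfl
    · simp [DS]
  have hsub : ∀ f g : PowerSeries K, DS y (f - g) = DS y f - DS y g := by
    intro f g
    simp only [DS, map_sub]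
    ring
  have h1 : PowerSeries.X * PowerSeries.mk (mu3 y ξ w u) =
      (if w = 0 ∧ u = 0 then PowerSeries.X * PowerSeries.mk (st (lv y 1) 0 0 (ξ 0 0 false) 0)
        else 0) +
      (if w ≠ 0 then PowerSeries.C (sg K (dg w)) * (PowerSeries.X * PowerSeries.mk
        (st (lv y (sw (dg w))) (ss K (sw (dg w))) 0 (ξ w u false) (mu3 y ξ (w / 3) u))) else 0) -
      (if u ≠ 0 then PowerSeries.X * PowerSeries.mk (st (lv y (dg u)) (ss K (dg u))
        (if w = 0 then 1 else 0) (ξ w u true) (mu3 y ξ w (u / 3))) else 0) := by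
    ext m
    cases m with
    | zero => split_ifs <;> simp
    | succ m =>
      have e : st (lv y 1) 0 0 (ξ 0 0 false) 0 m = ((m : K) + 1)⁻¹ * ξ 0 0 false := by
        simp [st, lv]
      rw [PowerSeries.coeff_succ_X_mul, PowerSeries.coeff_mk, mu3_eq, ← e]
      simp only [map_sub, map_add, apply_ite (PowerSeries.coeff (m + 1)), map_zero,
        PowerSeries.coeff_C_mul, PowerSeries.coeff_succ_X_mul, PowerSeries.coeff_mk]
  rw [h1]
  simp only [hsub, DS_add, hDS, hC, DS_st, Zero_bt, Polynomial.coe_add, Polynomial.coe_sub,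
    coe_ite, Polynomial.coe_mul, Polynomial.coe_C, map_neg, map_mul, map_zero,
    Polynomial.coe_neg, Polynomial.coe_zero]
  split_ifs <;> ring

theorem zero_est3 {y : K} (h0 : y ≠ 0) (h1 : y ≠ 1) {L : Type*} [Fintype L]
    (c : L → ℕ → ℕ → Bool → K) {N1 N2 n : ℕ} (hN : N2 * Fintype.card L < N1)
    (hn : 2 * (N2 * Fintype.card L + N1) ^ 2 < n) (a : Fin N2 × Fin n × L → K)
    (h : ∀ (w : Fin N1) (i : Fin n), ∑ t, a t * mu3 y (c t.2.2) w t.1 (i + t.2.1) = 0)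
    {u : Fin N2} (hu : ∀ v : Fin N2, sz v ≤ sz u) (j : Fin n) :
    ∑ l, a (u, j, l) * c l 0 0 false = 0 := by
  by_contra hx
  let G : Fin N1 → Fin N2 × L → PowerSeries K := fun w i =>
    PowerSeries.X * PowerSeries.mk (mu3 y (c i.2) w i.1)
  let β : Fin N1 → Fin N2 × L → K[X] := fun w i =>
    (if w.1 = 0 ∧ i.1.1 = 0 then Zero_bt y 1 0 (c i.2 0 0 false) else 0) +
    (if w.1 ≠ 0 then C (sg K (dg w)) * Zero_bt y (sw (dg w)) 0 (c i.2 w i.1 false) else 0) -
    (if i.1.1 ≠ 0 then Zero_bt y (dg i.1) (if w.1 = 0 then 1 else 0) (c i.2 w i.1 true) else 0)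
  let A : Fin N2 × L → K[X] := fun i => ∑ k : Fin n, C (a (i.1, k, i.2)) * X ^ (n - 1 - k.1)
  let Q : Fin N1 → K[X] := fun w => -PowerSeries.trunc n (∑ i, (A i : PowerSeries K) * G w i)
  have hss : ∀ b, ss K b ≠ 0 := fun b => by fin_cases b <;> simp [ss]
  have hsg : ∀ b, sg K b ≠ 0 := fun b => by fin_cases b <;> simp [sg]
  have hsw : Function.Bijective sw := by decide
  have hdeg : ∀ (t : K) (b : Fin 3), (C t * tp y b).natDegree ≤ 2 := fun t b =>
    (natDegree_C_mul_le _ _).trans (Zero_deg_tp y b)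
  have hm := mult_est3 (z := y) (τ1 := fun b => C (-(sg K b * ss K (sw b))) * tp y (sw b))
    (τ2 := fun b => C (ss K b) * tp y (id b))
    ((res_tp h0 h1).perm _ (fun b => neg_ne_zero.2 (mul_ne_zero (hsg b) (hss _))) sw hsw)
    ((res_tp h0 h1).perm _ hss id Function.bijective_id) (fun b => hdeg _ _) (fun b => hdeg _ _)
    (N1 := N1) (N2 := N2) (by omega) (fun l => c l 0 0 false) (β := β) (fun w i hw hi => ?_)
    (fun w i => ?_) (G := G) (fun w i => ?_) (A := A) (Q := Q) hu ?_ (n := n) (E := 2 * n)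
    (fun i => ?_) (fun w => ?_) fun w => ?_
  · generalize N2 * Fintype.card L = t at hN hn hm
    have h2 := Nat.mul_le_mul_right n (show t + N1 + 1 ≤ 2 * N1 by omega)
    nlinarith
  · simp [β, hw, hi, Zero_bt, lv, tp]
  · refine (natDegree_sub_le _ _).trans (max_le (natDegree_add_le_of_degree_le ?_ ?_) ?_)
    · split_ifs <;> simp [Zero_deg_bt]
    · split_ifs
      · exact (natDegree_C_mul_le _ _).trans (Zero_deg_bt _ _ _ _)
      · simp
    · split_ifs <;> simp [Zero_deg_bt]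
  · exact Zero_DS y (c i.2) w i.1
  · intro h2
    have h3 := congrArg (fun q => coeff q (n - 1 - j.1)) h2
    simp only [A, finsetSum_coeff, coeff_C_mul, coeff_X_pow, coeff_zero] at h3
    apply hx
    rw [← h3]
    refine sum_congr rfl fun l _ => ?_
    rw [sum_eq_single j]
    · simp [mul_comm]
    · intro i _ hi
      rw [if_neg, mul_zero]
      intro k
      exact hi (Fin.ext (by have := i.2; have := j.2; omega))
    · simp
  · exact natDegree_sum_le_of_forall_le univ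
      (fun k : Fin n => C (a (i.1, k, i.2)) * X ^ (n - 1 - k.1))
      fun k _ => (natDegree_C_mul_X_pow_le _ _).trans (by omega)
  · simp only [Q, natDegree_neg]
    exact natDegree_le_iff_degree_le.2 (PowerSeries.degree_trunc_lt _ _).le
  · rw [PowerSeries.X_pow_dvd_iff]
    intro m hm
    simp only [Q, map_add, Polynomial.coe_neg, map_neg, Polynomial.coeff_coe,
      PowerSeries.coeff_trunc]
    split_ifs with k
    · ring
    · obtain ⟨i, rfl⟩ : ∃ i, m = n + i := ⟨m - n, by omega⟩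
      rw [neg_zero, add_zero, ← h w ⟨i, by omega⟩, map_sum, Fintype.sum_prod_type,
        Fintype.sum_prod_type]
      refine sum_congr rfl fun v _ => ?_
      rw [Fintype.sum_prod_type, sum_comm]
      refine sum_congr rfl fun l _ => ?_
      simp only [A, MCV.coe_sum, sum_mul, map_sum, Polynomial.coe_mul, Polynomial.coe_C,
        Polynomial.coe_pow, Polynomial.coe_X, mul_assoc, PowerSeries.coeff_C_mul, G]
      refine sum_congr rfl fun t _ => ?_
      rw [show n + i = i + t.1 + 1 + (n - 1 - t.1) by have := t.2; omega,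
        PowerSeries.coeff_X_pow_mul, PowerSeries.coeff_succ_X_mul, PowerSeries.coeff_mk]

end MC3
end

-- merged part: Pool.Agent.Work.MP_80812c_nt.T3.Mu
section
/-!
Linearity, denominators and size of the formal moments.

PLAN: copy `mu_lin`, `mu_den`, `mu_bound` of `../Basic.lean`, with `pair_ind3`, `mu3_eq`, `sz_pos`.
All of `lv y a`, `ss K a`, `sg K a` lie in `O` and have norm at most one (`fin_cases a`).
`‖st l s e x ν m‖ ≤ 2 * ‖x‖ + B` if `‖l‖, ‖s‖, ‖e‖ ≤ 1` and `‖ν i‖ ≤ B`.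
-/

namespace MC3

open Finset MCV

variable {K : Type*} [Field K]

theorem Mu_st_lin {ι : Type*} (s : Finset ι) (b : ι → K) (l σ e : K) (x : ι → K)
    (ν : ι → ℕ → K) (m : ℕ) :
    st l σ e (∑ j ∈ s, b j * x j) (fun i => ∑ j ∈ s, b j * ν j i) m =
      ∑ j ∈ s, b j * st l σ e (x j) (ν j) m := by
  unfold st
  simp only [mul_sum]
  rw [sum_comm, ← sum_sub_distrib, mul_sum]
  refine sum_congr rfl fun j _ => ?_
  rw [mul_left_comm (b j), mul_sub (b j), mul_sum]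
  congr 2
  · ring
  · exact sum_congr rfl fun i _ => by ring

theorem mu3_lin {ι : Type*} (s : Finset ι) (b : ι → K) (y : K) (ξ : ℕ → ℕ → Bool → K)
    (c : ι → ℕ → ℕ → Bool → K) {N1 N2 : ℕ}
    (h : ∀ w < N1, ∀ u < N2, ∀ t, ξ w u t = ∑ l ∈ s, b l * c l w u t) (w u : ℕ) :
    w < N1 → u < N2 → mu3 y ξ w u = fun m => ∑ l ∈ s, b l * mu3 y (c l) w u m := by
  induction w, u using pair_ind3 with
  | _ w u h1 h2 =>
    intro hw hu
    funext m
    rw [mu3_eq, sum_congr rfl fun l _ => by rw [mu3_eq y (c l) w u m, mul_sub, mul_add],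
      sum_sub_distrib, sum_add_distrib]
    congr 1
    congr 1
    · by_cases h0 : w = 0 ∧ u = 0
      · simp only [if_pos h0]
        rw [h 0 (by omega) 0 (by omega), mul_sum]
        exact sum_congr rfl fun l _ => by ring
      · simp only [if_neg h0, mul_zero, sum_const_zero]
    · by_cases h0 : w ≠ 0
      · simp only [if_pos h0]
        rw [h w hw u hu, h1 h0 (by omega) hu, Mu_st_lin, mul_sum]
        exact sum_congr rfl fun l _ => by ring
      · simp only [if_neg h0, mul_zero, sum_const_zero]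
    · by_cases h0 : u ≠ 0
      · simp only [if_pos h0]
        rw [h w hw u hu, h2 h0 hw (by omega), Mu_st_lin]
      · simp only [if_neg h0, mul_zero, sum_const_zero]

theorem Mu_inv_den [CharZero K] (O : Subring K) {c x : K} {m d : ℕ} (hx : c * x ∈ O)
    (hd : m + 1 ∣ d) : c * d * (((m : K) + 1)⁻¹ * x) ∈ O := by
  obtain ⟨e, rfl⟩ := hd
  have h0 : (m : K) + 1 ≠ 0 := Nat.cast_add_one_ne_zero m
  have h : c * ((m + 1) * e : ℕ) * (((m : K) + 1)⁻¹ * x) = e * (c * x) := by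
    push_cast
    field_simp
  rw [h]
  exact O.mul_mem (natCast_mem O e) hx

theorem Mu_st_den [CharZero K] (O : Subring K) {l σ e x c : K} (hl : l ∈ O) (hσ : σ ∈ O)
    (he : e ∈ O) (hx : x ∈ O) (hc : c ∈ O) {ν : ℕ → K} {m d : ℕ} (hν : ∀ i ≤ m, c * ν i ∈ O)
    (hd : m + 1 ∣ d) : c * d * st l σ e x ν m ∈ O := by
  refine Mu_inv_den O ?_ hd
  rw [mul_sub, mul_left_comm c σ, mul_sum]
  refine O.sub_mem (O.mul_mem hc (O.mul_mem (O.sub_mem (O.pow_mem hl _) he) hx))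
    (O.mul_mem hσ (O.sum_mem fun i hi => ?_))
  rw [mul_left_comm]
  exact O.mul_mem (O.pow_mem hl _) (hν i (Nat.lt_succ_iff.1 (mem_range.1 hi)))

theorem Mu_mem (O : Subring K) {y : K} (hy : y ∈ O) (a : Fin 3) :
    lv y a ∈ O ∧ ss K a ∈ O ∧ sg K a ∈ O := by
  fin_cases a
  · exact ⟨O.zero_mem, O.neg_mem O.one_mem, O.one_mem⟩
  · exact ⟨O.one_mem, O.one_mem, O.one_mem⟩
  · exact ⟨hy, O.one_mem, O.neg_mem O.one_mem⟩

theorem mu3_den [CharZero K] (O : Subring K) {y : K} (hy : y ∈ O) {ξ : ℕ → ℕ → Bool → K}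
    (hξ : ∀ w u t, ξ w u t ∈ O) {M d : ℕ} (hd : ∀ m < M, m + 1 ∣ d) (w u : ℕ) :
    ∀ e, sz w + sz u < e → ∀ m < M, (d : K) ^ e * mu3 y ξ w u m ∈ O := by
  induction w, u using pair_ind3 with
  | _ w u h1 h2 =>
    intro e he m hm
    obtain ⟨e, rfl⟩ : ∃ e', e = e' + 1 := ⟨e - 1, by omega⟩
    have hc : (d : K) ^ e ∈ O := O.pow_mem (natCast_mem O d) e
    rw [mu3_eq, mul_sub, mul_add, pow_succ]
    refine O.sub_mem (O.add_mem ?_ ?_) ?_
    · split_ifs
      · exact Mu_inv_den O (O.mul_mem hc (hξ _ _ _)) (hd m hm)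
      · rw [mul_zero]
        exact O.zero_mem
    · by_cases h0 : w ≠ 0
      · rw [if_pos h0, mul_left_comm]
        refine O.mul_mem (Mu_mem O hy _).2.2 (Mu_st_den O (Mu_mem O hy _).1 (Mu_mem O hy _).2.1
          O.zero_mem (hξ _ _ _) hc (fun i hi => h1 h0 e ?_ i (by omega)) (hd m hm))
        rw [sz_pos h0] at he
        omega
      · rw [if_neg h0, mul_zero]
        exact O.zero_mem
    · by_cases h0 : u ≠ 0
      · rw [if_pos h0]
        refine Mu_st_den O (Mu_mem O hy _).1 (Mu_mem O hy _).2.1 ?_ (hξ _ _ _) hc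
          (fun i hi => h2 h0 e ?_ i (by omega)) (hd m hm)
        · split_ifs
          · exact O.one_mem
          · exact O.zero_mem
        · rw [sz_pos h0] at he
          omega
      · rw [if_neg h0, mul_zero]
        exact O.zero_mem

theorem Mu_norm {y : ℂ} (hy : ‖y‖ ≤ 1) (a : Fin 3) :
    ‖lv y a‖ ≤ 1 ∧ ‖ss ℂ a‖ ≤ 1 ∧ ‖sg ℂ a‖ ≤ 1 := by
  fin_cases a <;> simp [lv, ss, sg, hy]

theorem Mu_inv_norm (m : ℕ) {x : ℂ} {B : ℝ} (h : ‖x‖ ≤ ((m : ℝ) + 1) * B) :
    ‖((m : ℂ) + 1)⁻¹ * x‖ ≤ B := by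
  have h1 : ‖((m : ℂ) + 1)‖ = (m : ℝ) + 1 := by
    rw [← Nat.cast_succ, Complex.norm_natCast, Nat.cast_succ]
  rw [norm_mul, norm_inv, h1, inv_mul_le_iff₀ (by positivity)]
  exact h

theorem Mu_st_bound {l σ e : ℂ} (hl : ‖l‖ ≤ 1) (hσ : ‖σ‖ ≤ 1) (he : ‖e‖ ≤ 1) (x : ℂ)
    {ν : ℕ → ℂ} {B : ℝ} (hν : ∀ i, ‖ν i‖ ≤ B) (m : ℕ) : ‖st l σ e x ν m‖ ≤ 2 * ‖x‖ + B := by
  refine Mu_inv_norm m ((norm_sub_le _ _).trans ?_)
  have hm : (0 : ℝ) ≤ m := Nat.cast_nonneg m
  have h2 : ∀ k : ℕ, ‖l ^ k‖ ≤ 1 := fun k => by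
    rw [norm_pow]
    exact pow_le_one₀ (norm_nonneg _) hl
  have hx := norm_nonneg x
  have h3 : ‖∑ i ∈ range (m + 1), l ^ (m - i) * ν i‖ ≤ ((m : ℝ) + 1) * B := by
    refine (norm_sum_le _ _).trans ((sum_le_sum (g := fun _ => B) fun i _ => ?_).trans ?_)
    · rw [norm_mul]
      exact (mul_le_of_le_one_left (norm_nonneg _) (h2 _)).trans (hν i)
    · simp
  have h4 : ‖l ^ (m + 1) - e‖ ≤ 2 := (norm_sub_le _ _).trans (by linarith [h2 (m + 1)])
  have h5 := (mul_le_of_le_one_left (norm_nonneg _) hσ).trans h3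
  rw [norm_mul, norm_mul]
  nlinarith [mul_le_mul_of_nonneg_right h4 hx, mul_nonneg hm hx]

theorem mu3_bound {y : ℂ} (hy : ‖y‖ ≤ 1) (ξ : ℕ → ℕ → Bool → ℂ) (w u : ℕ) :
    ∃ B : ℝ, ∀ m, ‖mu3 y ξ w u m‖ ≤ B := by
  induction w, u using pair_ind3 with
  | _ w u h1 h2 =>
    have k0 : ∃ B : ℝ, ∀ m : ℕ,
        ‖if w = 0 ∧ u = 0 then ((m : ℂ) + 1)⁻¹ * ξ 0 0 false else 0‖ ≤ B := by
      split_ifs
      · exact ⟨‖ξ 0 0 false‖, fun m => Mu_inv_norm m
          (le_mul_of_one_le_left (norm_nonneg _) (by simp))⟩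
      · exact ⟨0, by simp⟩
    have k1 : ∃ B : ℝ, ∀ m, ‖if w ≠ 0 then sg ℂ (dg w) * st (lv y (sw (dg w)))
        (ss ℂ (sw (dg w))) 0 (ξ w u false) (mu3 y ξ (w / 3) u) m else 0‖ ≤ B := by
      split_ifs with h0
      · obtain ⟨B, hB⟩ := h1 h0
        refine ⟨2 * ‖ξ w u false‖ + B, fun m => ?_⟩
        rw [norm_mul]
        exact (mul_le_of_le_one_left (norm_nonneg _) (Mu_norm hy _).2.2).trans
          (Mu_st_bound (Mu_norm hy _).1 (Mu_norm hy _).2.1 (by simp) _ hB m)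
      · exact ⟨0, by simp⟩
    have k2 : ∃ B : ℝ, ∀ m, ‖if u ≠ 0 then st (lv y (dg u)) (ss ℂ (dg u))
        (if w = 0 then 1 else 0) (ξ w u true) (mu3 y ξ w (u / 3)) m else 0‖ ≤ B := by
      by_cases h0 : u ≠ 0
      · obtain ⟨B, hB⟩ := h2 h0
        refine ⟨2 * ‖ξ w u true‖ + B, fun m => ?_⟩
        rw [if_pos h0]
        exact Mu_st_bound (Mu_norm hy _).1 (Mu_norm hy _).2.1 (by split_ifs <;> simp) _ hB m
      · exact ⟨0, fun m => by rw [if_neg h0, norm_zero]⟩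
    obtain ⟨B0, h0⟩ := k0
    obtain ⟨B1, h1⟩ := k1
    obtain ⟨B2, h2⟩ := k2
    refine ⟨B0 + B1 + B2, fun m => ?_⟩
    rw [mu3_eq]
    exact (norm_sub_le _ _).trans
      (add_le_add ((norm_add_le _ _).trans (add_le_add (h0 m) (h1 m))) (h2 m))

end MC3
end

-- merged part: Pool.Agent.Work.MP_80812c_nt.T3.Fin
section
/-!
The lower bound for the dimension of a rational space that contains all boundary values.
-/

namespace MC3

open Finset MCV Module

theorem nonneg_of_sq {A x : ℝ} (hA : 0 ≤ A) {N n0 : ℕ}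
    (h : ∀ n ≥ n0, 1 ≤ (A * n) ^ (N * n) * Real.exp (x * n ^ 2)) : 0 ≤ x := by
  by_contra hx
  have hN : (0 : ℝ) < N + 1 := by positivity
  set δ : ℝ := -x / (N + 1) with hδ
  have h0 : 0 < δ := div_pos (by linarith) hN
  have h1 : δ * (N + 1) = -x := div_mul_cancel₀ _ hN.ne'
  obtain ⟨m, hm⟩ := exists_nat_ge (2 * A / δ ^ 2)
  set n := m + n0 + 1 with hn
  have h2 : (m : ℝ) ≤ n := by exact_mod_cast (by omega : m ≤ n)
  have h3 : (1 : ℝ) ≤ n := by exact_mod_cast (by omega : 1 ≤ n)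
  have h4 : 2 * A ≤ n * δ ^ 2 := (div_le_iff₀ (by positivity)).1 (hm.trans h2)
  have h5 : A * n ≤ Real.exp (δ * n) := by
    refine le_trans ?_ (Real.quadratic_le_exp_of_nonneg (by positivity))
    nlinarith [mul_nonneg h0.le (zero_le_one.trans h3)]
  have h6 := (h n (by omega)).trans (mul_le_mul_of_nonneg_right
    (pow_le_pow_left₀ (by positivity) h5 _) (Real.exp_pos _).le)
  rw [← Real.exp_nat_mul, ← Real.exp_add, Real.one_le_exp_iff] at h6
  push_cast at h6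
  have h7 : (N : ℝ) * n * (δ * n) + x * n ^ 2 = -(δ * n ^ 2) := by linear_combination n ^ 2 * h1
  have h8 : 0 < δ * n ^ 2 := by positivity
  linarith

theorem norm_one_sub_om : ‖1 - om‖ = 1 := by
  have h := congrArg norm (show om * (1 - om) = 1 by linear_combination -om_sq)
  rwa [norm_mul, norm_om, one_mul, norm_one] at h

theorem lower_forms3 {L : Type*} [Fintype L] [DecidableEq L] (g : ℕ) (l0 : L) (b : L → ℂ)
    (hb : b l0 = 1) (c : L → ℕ → ℕ → Bool → ℂ) (hc : ∀ l w u t, c l w u t ∈ OO)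
    (h0 : ∀ l, c l 0 0 false = if l = l0 then 1 else 0)
    (hξ : ∀ w < 3 ^ (2 * g + 2), ∀ u < 3 ^ (g + 2), ∀ t, xi3 w u t = ∑ l, b l * c l w u t) :
    (3 : ℝ) ^ g ≤ 300 * (g + 2) * Fintype.card L := by
  set N1 := 3 ^ (2 * g + 2) with hN1
  set N2 := 3 ^ (g + 2) with hN2
  set D := Fintype.card L with hD
  have hg0 : (0 : ℝ) ≤ g := Nat.cast_nonneg g
  have hD0 : (0 : ℝ) ≤ D := Nat.cast_nonneg D
  rcases le_or_gt (3 ^ g) D with hlt | hlt
  · have : (3 : ℝ) ^ g ≤ D := by exact_mod_cast hlt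
    nlinarith
  have hN : N2 * D < N1 := by
    rw [hN1, show 2 * g + 2 = g + 2 + g by ring, pow_add _ (g + 2)]
    exact Nat.mul_lt_mul_of_pos_left hlt (by positivity)
  have hy0 : (1 - om) ≠ 0 := norm_pos_iff.1 (by simp [norm_one_sub_om])
  have hy1 : (1 - om) ≠ 1 := fun h => by
    have := norm_om
    rw [sub_eq_self.1 h, norm_zero] at this
    exact zero_ne_one this
  obtain ⟨B0, hB0, hB1⟩ := exists_bound
    (fun t : L × Fin N1 × Fin N2 => mu3 (1 - om) (c t.1) t.2.1 t.2.2)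
    fun t => mu3_bound norm_one_sub_om.le _ _ _
  obtain ⟨C0, hC0, hC1⟩ := gain N1 N2
  have hN1r : (1 : ℝ) ≤ N1 := by exact_mod_cast Nat.one_le_pow _ _ (by norm_num)
  have hBC : 1 ≤ B0 * C0 := one_le_mul_of_one_le_of_one_le hB0 hC0
  have key := nonneg_of_sq (A := 2 * N1 * (B0 * C0)) (by positivity) (N := N1 + N2 * D)
    (n0 := 2 * (N2 * D + N1) ^ 2 + 1)
    (x := 3 ^ g * (9 * D * (36 * g + 63) - 4 / 3 * 3 ^ g)) fun n hn => ?_
  · have h3 : (0 : ℝ) < 3 ^ g := by positivity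
    have h4 := (mul_nonneg_iff_of_pos_left h3).1 key
    nlinarith [mul_nonneg hg0 hD0]
  have hn1 : (1 : ℝ) ≤ n := by exact_mod_cast (by omega : 1 ≤ n)
  obtain ⟨E, hE, hE1⟩ := hC1 n (3 ^ g * n)
  set d : ℂ := (Nat.lcmUpto (2 * n) : ℂ) ^ (3 * g + 5) with hd
  have hd0 : d ≠ 0 := pow_ne_zero _ (Nat.cast_ne_zero.2 (Nat.lcmUpto_ne_zero _))
  have hd1 : ‖d‖ ≤ Real.exp ((36 * g + 60) * n) := by
    rw [hd, norm_pow, Complex.norm_natCast]
    refine (pow_le_pow_left₀ (Nat.cast_nonneg _) (lcmUpto_le _) _).trans_eq ?_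
    rw [← Real.exp_nat_mul]
    congr 1
    push_cast
    ring
  have h9 : (9 : ℝ) ^ n ≤ Real.exp (3 * n) := by
    rw [mul_comm, Real.exp_nat_mul]
    refine pow_le_pow_left₀ (by norm_num) (le_trans ?_ (Real.sum_le_exp_of_nonneg (by norm_num) 4)) _
    norm_num [sum_range_succ, Nat.factorial]
  set G := Real.exp ((36 * g + 63) * n) with hG
  have hG1 : ‖d‖ * 9 ^ n ≤ G := by
    refine (mul_le_mul hd1 h9 (by positivity) (by positivity)).trans_eq ?_
    rw [← Real.exp_add, hG]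
    congr 1
    ring
  have h91 : (1 : ℝ) ≤ 9 ^ n := one_le_pow₀ (by norm_num)
  have hG2 : 1 ≤ G := Real.one_le_exp (by positivity)
  have hG3 : ‖d‖ * (C0 * 9 ^ n) ≤ B0 * C0 * G := by
    calc _ = 1 * C0 * (‖d‖ * 9 ^ n) := by ring
      _ ≤ _ := by gcongr
  let u0 : Fin N2 := ⟨3 ^ (g + 1), Nat.pow_lt_pow_right (by norm_num) (by omega)⟩
  let a : Fin N2 × Fin n × L → Fin N1 × Fin n → ℂ := fun s t =>
    d * mu3 (1 - om) (c s.2.2) t.1 s.1 (t.2 + s.2.1)
  have h1 := crit3 OO one_le_norm_OO a (fun s t => ?_) (Ici u0 ×ˢ univ ×ˢ {l0}) (fun y hy s hs => ?_)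
    (fun s t => d * MomL (wd t.1) (wd s.1) (t.2 + s.2.1)) (fun s hs => ?_) E hE
    (H := B0 * C0 * G) (ε := (2 / 3) ^ (3 ^ g * n)) (one_le_mul_of_one_le_of_one_le hBC hG2)
    (by positivity) (pow_le_one₀ (by norm_num) (by norm_num)) (fun s t => ?_) fun s _ => ?_
  · refine h1.trans ?_
    have k0 : #(Ici u0 ×ˢ (univ : Finset (Fin n)) ×ˢ ({l0} : Finset L)) - 2 * (3 ^ g * n) =
        4 * (3 ^ g * n) := by
      rw [card_product, card_product, card_singleton, card_univ, Fintype.card_fin, Fin.card_Ici,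
        show N2 - u0 = 6 * 3 ^ g by simp only [u0, hN2, pow_succ]; omega, mul_one, mul_assoc]
      omega
    have k1 : ((2 / 3 : ℝ) ^ (3 ^ g * n)) ^ (4 * (3 ^ g * n)) ≤
        Real.exp (-(4 / 3 * 3 ^ g * 3 ^ g * n ^ 2)) := by
      rw [← pow_mul]
      refine (pow_le_pow_left₀ (by norm_num) (show (2 / 3 : ℝ) ≤ Real.exp (-(1 / 3)) by
        linarith [Real.add_one_le_exp (-(1 / 3) : ℝ)]) _).trans_eq ?_
      rw [← Real.exp_nat_mul]
      congr 1
      push_cast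
      ring
    have k2 : Real.exp (3 ^ g * (9 * D * (36 * g + 63) - 4 / 3 * 3 ^ g) * n ^ 2) =
        G ^ (N2 * (n * D)) * Real.exp (-(4 / 3 * 3 ^ g * 3 ^ g * n ^ 2)) := by
      rw [hG, ← Real.exp_nat_mul, ← Real.exp_add, hN2]
      congr 1
      push_cast
      ring
    have k3 : ((N1 * n).factorial : ℝ) ≤ (N1 * n) ^ (N1 * n) := by
      exact_mod_cast Nat.factorial_le_pow (N1 * n)
    have k4 : (2 : ℝ) ^ (N1 * n) * (N1 * n) ^ (N1 * n) ≤ (2 * N1 * (B0 * C0) * n) ^ (N1 * n) := by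
      rw [← mul_pow]
      refine pow_le_pow_left₀ (by positivity) ?_ _
      calc _ = 2 * N1 * 1 * (n : ℝ) := by ring
        _ ≤ _ := by gcongr
    have k5 : (B0 * C0) ^ (N2 * (n * D)) ≤ (2 * N1 * (B0 * C0) * n) ^ (N2 * (n * D)) := by
      refine pow_le_pow_left₀ (by positivity) ?_ _
      calc _ = 1 * 1 * (B0 * C0) * 1 := by ring
        _ ≤ _ := by gcongr; norm_num
    rw [k0, k2, Fintype.card_prod, Fintype.card_prod, Fintype.card_prod, Fintype.card_fin,
      Fintype.card_fin, Fintype.card_fin, ← hD, show (N1 + N2 * D) * n = N1 * n + N2 * (n * D) by ring,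
      pow_add, mul_pow (B0 * C0) G]
    calc _ ≤ 2 ^ (N1 * n) * (N1 * n) ^ (N1 * n) * ((B0 * C0) ^ (N2 * (n * D)) * G ^ (N2 * (n * D))) *
          Real.exp (-(4 / 3 * 3 ^ g * 3 ^ g * n ^ 2)) := by gcongr
      _ ≤ (2 * N1 * (B0 * C0) * n) ^ (N1 * n) * ((2 * N1 * (B0 * C0) * n) ^ (N2 * (n * D)) *
          G ^ (N2 * (n * D))) * Real.exp (-(4 / 3 * 3 ^ g * 3 ^ g * n ^ 2)) := by gcongr
      _ = _ := by ring
  · refine mu3_den OO (OO.sub_mem OO.one_mem om_mem) (hc s.2.2) (M := 2 * n)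
      (fun m hm => dvd_lcmUpto hm) _ _ _ ?_ _ (by have := t.2.2; have := s.2.1.2; omega)
    have k1 := (sz_le_iff _ _).2 t.1.2
    have k2 := (sz_le_iff _ _).2 s.1.2
    omega
  · obtain ⟨u, j, l⟩ := s
    simp only [mem_product, mem_Ici, mem_univ, mem_singleton, true_and] at hs
    have k1 := zero_est3 hy0 hy1 c hN (n := n) hn y (fun w i => ?_) (u := u) (fun v => ?_) j
    · simpa [h0, hs.2] using k1
    · have k2 := hy (w, i)
      simp only [a, mul_left_comm _ d, ← mul_sum] at k2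
      exact (mul_eq_zero.1 k2).resolve_left hd0
    · have k2 := (sz_le_iff _ _).2 v.2
      have k3 : ¬ sz u ≤ g + 1 := fun k => absurd ((sz_le_iff _ _).1 k) (not_lt.2 hs.1)
      omega
  · obtain ⟨u, j, l⟩ := s
    simp only [mem_product, mem_Ici, mem_univ, mem_singleton, true_and] at hs
    obtain ⟨-, rfl⟩ := hs
    have k1 : (fun t : Fin N1 × Fin n => d * MomL (wd t.1) (wd u) (t.2 + j)) - a (u, j, l) =
        ∑ l' ∈ univ.erase l, b l' • a (u, j, l') := by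
      funext t
      simp only [Pi.sub_apply, Finset.sum_apply, Pi.smul_apply, smul_eq_mul, a]
      rw [mom_eq, mu3_lin univ b _ _ c hξ _ _ t.1.2 u.2]
      beta_reduce
      rw [← add_sum_erase _ _ (mem_univ l), hb]
      simp only [mul_left_comm _ d, ← mul_sum]
      ring
    rw [k1]
    refine Submodule.sum_mem _ fun l' hl' => Submodule.smul_mem _ _
      (Submodule.subset_span ⟨(u, j, l'), ?_, rfl⟩)
    simp only [Set.mem_ofPred_eq, mem_product, mem_singleton, (mem_erase.1 hl').1, and_false,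
      not_false_eq_true]
  · simp only [a, norm_mul]
    calc _ ≤ ‖d‖ * B0 := mul_le_mul_of_nonneg_left (hB1 (s.2.2, t.1, s.1) _) (norm_nonneg _)
      _ = B0 * 1 * (‖d‖ * 1) := by ring
      _ ≤ B0 * C0 * (‖d‖ * 9 ^ n) := by gcongr
      _ ≤ _ := by gcongr
  · obtain ⟨p, hp, hp1⟩ := hE1 s.1 s.2.1
    refine ⟨d • p, E.smul_mem _ hp, fun t => ?_⟩
    rw [Pi.smul_apply, smul_eq_mul, ← mul_sub, norm_mul, norm_mul]
    refine ⟨(mul_le_mul_of_nonneg_left (hp1 t).1 (norm_nonneg _)).trans hG3,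
      (mul_le_mul_of_nonneg_left (hp1 t).2 (norm_nonneg _)).trans ?_⟩
    rw [mul_left_comm]
    exact mul_le_mul_of_nonneg_left hG3 (by positivity)

theorem lower_W3 (g : ℕ) (W : Submodule ℚ ℂ) [FiniteDimensional ℚ W]
    (hW : ∀ w < 3 ^ (2 * g + 2), ∀ u < 3 ^ (g + 2), ∀ t, xi3 w u t ∈ W) :
    (3 : ℝ) ^ g ≤ 300 * (g + 2) * (finrank ℚ W + 1) := by
  let bs := Module.finBasis ℚ W
  obtain ⟨q, hq, a, ha⟩ := clear_den (A := ℤ) (F := ℚ)
    fun t : (Fin (3 ^ (2 * g + 2)) × Fin (3 ^ (g + 2)) × Bool) × Fin (finrank ℚ W) =>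
      bs.repr ⟨_, hW _ t.1.1.2 _ t.1.2.1.2 t.1.2.2⟩ t.2
  have h1 := lower_forms3 (L := Option (Fin (finrank ℚ W))) g none
    (fun l => l.elim 1 fun l => (bs l : ℂ) / q) rfl
    (fun l w u t => if w = 0 ∧ u = 0 ∧ t = false then (if l = none then 1 else 0) else
      l.elim 0 fun l => if k : w < 3 ^ (2 * g + 2) ∧ u < 3 ^ (g + 2) then
        (a ((⟨w, k.1⟩, ⟨u, k.2⟩, t), l) : ℂ) else 0)
    (fun l w u t => by
      cases l <;> simp only [Option.elim] <;> split_ifs <;>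
        first | exact OO.one_mem | exact OO.zero_mem | exact intCast_mem OO _)
    (fun l => if_pos ⟨rfl, rfl, rfl⟩)
    fun w hw u hu t => by
      by_cases k0 : w = 0 ∧ u = 0 ∧ t = false
      · obtain ⟨rfl, rfl, rfl⟩ := k0
        simp [xi3]
      have k1 := congrArg Subtype.val (bs.sum_repr ⟨_, hW w hw u hu t⟩)
      simp only [AddSubmonoidClass.coe_finsetSum, SetLike.val_smul] at k1
      rw [← k1, Fintype.sum_option]
      simp only [if_neg k0, Option.elim, mul_zero, zero_add]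
      refine sum_congr rfl fun l _ => ?_
      have k2 := congrArg (fun x : ℚ => (x : ℂ)) (ha ((⟨w, hw⟩, ⟨u, hu⟩, t), l))
      simp only [eq_intCast, Rat.cast_intCast, Rat.cast_mul] at k2
      have k3 : (q : ℂ) ≠ 0 := Int.cast_ne_zero.2 hq
      rw [dif_pos ⟨hw, hu⟩, k2, Rat.smul_def]
      field_simp
  simpa using h1

theorem lower_min3 : ∃ c : ℝ, 0 < c ∧ ∀ k : ℕ, 2 ≤ k →
    c * 3 ^ ((k : ℝ) / 3) / k ^ 2 ≤ (min (finrank ℚ (CC k)) (finrank ℚ (GG k)) : ℕ) := by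
  refine ⟨1 / (27 * 900), by positivity, fun k hk => ?_⟩
  set m := min (finrank ℚ (CC k)) (finrank ℚ (GG k)) with hm
  have hm1 : 1 ≤ m := one_le_GG.trans (MCV.le_min hk).1
  have hm2 : (1 : ℝ) ≤ m := by exact_mod_cast hm1
  have hk2 : (2 : ℝ) ≤ k := by exact_mod_cast hk
  obtain ⟨g, h1, h2⟩ : ∃ g, (g = 0 ∨ 3 * g + 6 ≤ k) ∧ k ≤ 3 * g + 9 :=
    ⟨(k - 6) / 3, by omega, by omega⟩
  have h3 : (3 : ℝ) ^ g ≤ 300 * k * (3 * k * m) := by
    rcases h1 with rfl | hh
    · rw [pow_zero]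
      exact one_le_mul_of_one_le_of_one_le (by nlinarith) (by nlinarith)
    have k1 := lower_W3 g (WW (3 * g + 5)) fun w hw u hu t => xi3_mem (by
      have a1 := (sz_le_iff _ _).2 hw
      have a2 := (sz_le_iff _ _).2 hu
      omega) t
    have k2 : finrank ℚ (WW (3 * g + 5)) ≤ (3 * g + 5) * (m + m) := by
      refine (finrank_WW _).trans ((sum_le_card_nsmul _ _ (m + m) fun j hj => ?_).trans_eq ?_)
      · have := MCV.le_min (j := j) (K := k) (by have := mem_range.1 hj; omega)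
        exact (finrank_VV j).trans (add_le_add this.1 this.2)
      · simp
    have k3 : finrank ℚ (WW (3 * g + 5)) + 1 ≤ 3 * k * m := by nlinarith
    have k4 : (g : ℝ) + 2 ≤ k := by exact_mod_cast (by omega : g + 2 ≤ k)
    refine k1.trans ?_
    gcongr
    exact_mod_cast k3
  have h4 : (3 : ℝ) ^ ((k : ℝ) / 3) ≤ 27 * 3 ^ g := by
    have k1 : (k : ℝ) ≤ 3 * g + 9 := by exact_mod_cast h2
    refine (Real.rpow_le_rpow_of_exponent_le (by norm_num)
      (show (k : ℝ) / 3 ≤ ((g + 3 : ℕ) : ℝ) by push_cast; linarith)).trans_eq ?_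
    rw [Real.rpow_natCast]
    ring
  rw [div_le_iff₀ (by positivity), one_div, inv_mul_le_iff₀ (by positivity)]
  nlinarith

end MC3
end
end
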