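import Mathlib

-- merged part: Pool.Agent.Work.MP_80812c_nt.ZeroC
section
-- merged part: Pool.Agent.Work.MP_80812c_nt.Basic
section
/-!
Words in two letters are coded by natural numbers (binary digits, the lowest digit is the outer
letter, `0` is the empty word). `mu z ξ w u m` is the moment `∫₀^z x^m L_w L_u dx` computed by
integration by parts; it is linear in the boundary values `ξ`.
-/

namespace MCV

open Finset

theorem pair_ind {P : ℕ → ℕ → Prop}
    (h : ∀ w u, (w ≠ 0 → P (w / 2) u) → (u ≠ 0 → P w (u / 2)) → P w u) (w u : ℕ) : P w u := by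
  induction hn : w + u using Nat.strong_induction_on generalizing w u with
  | _ n ih =>
    exact h w u (fun hw => ih _ (by omega) _ _ rfl) (fun hu => ih _ (by omega) _ _ rfl)

theorem size_half {w : ℕ} (hw : w ≠ 0) : Nat.size w = Nat.size (w / 2) + 1 := by
  apply le_antisymm
  · rw [Nat.size_le, pow_succ]
    have := Nat.lt_size_self (w / 2)
    omega
  · have h1 := Nat.lt_size_self w
    obtain ⟨k, hk⟩ : ∃ k, Nat.size w = k + 1 :=
      Nat.exists_eq_succ_of_ne_zero (by rwa [Ne, Nat.size_eq_zero])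
    rw [hk, pow_succ] at h1
    rw [hk, Nat.add_le_add_iff_right, Nat.size_le]
    omega

section
variable {R : Type*} [CommRing R] [Algebra ℚ R]

/-- One integration by parts. -/
noncomputable def step (z : R) (a : ℕ) (x : R) (ν : ℕ → R) (m : ℕ) : R :=
  ((m + 1 : ℚ)⁻¹) • (if a = 0 then z ^ (m + 1) * x - ν m
    else (z ^ (m + 1) - 1) * x + ∑ i ∈ range (m + 1), ν i)

/-- The moments. -/
noncomputable def mu (z : R) (ξ : ℕ → ℕ → Bool → R) (w u : ℕ) : ℕ → R := fun m =>
  (if w = 0 ∧ u = 0 then step z 0 (ξ 0 0 false) 0 m else 0) +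
    (if _h : w ≠ 0 then step z (w % 2) (ξ w u false) (mu z ξ (w / 2) u) m else 0) +
    (if _h : u ≠ 0 then step z (u % 2) (ξ w u true) (mu z ξ w (u / 2)) m else 0)
termination_by w + u
decreasing_by all_goals omega

theorem mu_eq (z : R) (ξ : ℕ → ℕ → Bool → R) (w u m : ℕ) : mu z ξ w u m =
    (if w = 0 ∧ u = 0 then step z 0 (ξ 0 0 false) 0 m else 0) +
    (if w ≠ 0 then step z (w % 2) (ξ w u false) (mu z ξ (w / 2) u) m else 0) +
    (if u ≠ 0 then step z (u % 2) (ξ w u true) (mu z ξ w (u / 2)) m else 0) := by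
  rw [mu]
  simp only [dite_eq_ite]

theorem step_mul (z : R) (a : ℕ) (x : R) (ν : ℕ → R) (m : ℕ) :
    ((m : R) + 1) * step z a x ν m = if a = 0 then z ^ (m + 1) * x - ν m
      else (z ^ (m + 1) - 1) * x + ∑ i ∈ range (m + 1), ν i := by
  have h : ((m : R) + 1) = algebraMap ℚ R (m + 1) := by simp
  rw [step, h, ← Algebra.smul_def, smul_smul, mul_inv_cancel₀ (by positivity), one_smul]

variable {S : Type*} [CommRing S] [Algebra ℚ S]

theorem step_map (f : R →+* S) (z : R) (a : ℕ) (x : R) (ν : ℕ → R) (m : ℕ) :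
    f (step z a x ν m) = step (f z) a (f x) (fun i => f (ν i)) m := by
  unfold step
  rw [map_rat_smul]
  split_ifs <;> simp

theorem mu_map (f : R →+* S) (z : R) (ξ : ℕ → ℕ → Bool → R) (w u : ℕ) :
    (fun m => f (mu z ξ w u m)) = mu (f z) (fun w u b => f (ξ w u b)) w u := by
  induction w, u using pair_ind with
  | _ w u h1 h2 =>
    funext m
    rw [mu_eq, mu_eq, map_add, map_add]
    congr 1
    congr 1
    · split_ifs
      · rw [step_map]
        congr 1
        funext i
        simp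
      · simp
    · split_ifs with h
      · rw [step_map, h1 h]
      · simp
    · split_ifs with h
      · rw [step_map, h2 h]
      · simp

theorem step_lin {ι : Type*} (s : Finset ι) (b : ι → R) (z : R) (a : ℕ) (x : ι → R)
    (ν : ι → ℕ → R) (m : ℕ) :
    step z a (∑ l ∈ s, b l * x l) (fun i => ∑ l ∈ s, b l * ν l i) m =
      ∑ l ∈ s, b l * step z a (x l) (ν l) m := by
  unfold step
  simp only [mul_smul_comm, ← smul_sum]
  congr 1
  split_ifs
  · rw [mul_sum, ← sum_sub_distrib]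
    exact sum_congr rfl fun l _ => by ring
  · rw [mul_sum, sum_comm, ← sum_add_distrib]
    exact sum_congr rfl fun l _ => by rw [← mul_sum]; ring

theorem mu_lin {ι : Type*} (s : Finset ι) (b : ι → R) (z : R) (ξ : ℕ → ℕ → Bool → R)
    (c : ι → ℕ → ℕ → Bool → R) {N : ℕ}
    (h : ∀ w < N, ∀ u < N, ∀ t, ξ w u t = ∑ l ∈ s, b l * c l w u t) (w u : ℕ) :
    w < N → u < N → mu z ξ w u = fun m => ∑ l ∈ s, b l * mu z (c l) w u m := by
  induction w, u using pair_ind with
  | _ w u h1 h2 =>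
    intro hw hu
    funext m
    rw [mu_eq, sum_congr rfl fun l _ => by rw [mu_eq z (c l) w u m, mul_add, mul_add],
      sum_add_distrib, sum_add_distrib]
    congr 1
    congr 1
    · split_ifs
      · rw [h 0 (by omega) 0 (by omega), ← step_lin]
        congr 1
        funext i
        simp
      · simp
    · split_ifs with h0
      · rw [h w hw u hu, h1 h0 (by omega) hu, step_lin]
      · simp
    · split_ifs with h0
      · rw [h w hw u hu, h2 h0 hw (by omega), step_lin]
      · simp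

theorem step_den (O : Subring R) {z : R} (hz : z ∈ O) (a : ℕ) {x : R} (hx : x ∈ O) {c : R}
    (hc : c ∈ O) {ν : ℕ → R} {m d : ℕ} (hν : ∀ i ≤ m, c * ν i ∈ O) (hd : m + 1 ∣ d) :
    c * d * step z a x ν m ∈ O := by
  obtain ⟨e, rfl⟩ := hd
  have h : c * ((m + 1) * e : ℕ) * step z a x ν m = e * (c * (((m : R) + 1) * step z a x ν m)) := by
    push_cast
    ring
  rw [h, step_mul]
  refine O.mul_mem (natCast_mem O e) ?_
  split_ifs
  · rw [mul_sub]
    exact O.sub_mem (O.mul_mem hc (O.mul_mem (O.pow_mem hz _) hx)) (hν m le_rfl)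
  · rw [mul_add, mul_sum]
    exact O.add_mem (O.mul_mem hc (O.mul_mem (O.sub_mem (O.pow_mem hz _) O.one_mem) hx))
      (O.sum_mem fun i hi => hν i (by simpa [Nat.lt_succ_iff] using hi))

theorem mu_den (O : Subring R) {z : R} (hz : z ∈ O) {ξ : ℕ → ℕ → Bool → R} {N : ℕ}
    (hξ : ∀ w < N, ∀ u < N, ∀ t, ξ w u t ∈ O) {M d : ℕ} (hd : ∀ m < M, m + 1 ∣ d) (w u : ℕ) :
    w < N → u < N → ∀ e, Nat.size w + Nat.size u < e → ∀ m < M,
      (d : R) ^ e * mu z ξ w u m ∈ O := by
  induction w, u using pair_ind with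
  | _ w u h1 h2 =>
    intro hw hu e he m hm
    obtain ⟨e, rfl⟩ : ∃ e', e = e' + 1 := ⟨e - 1, by omega⟩
    have hc : (d : R) ^ e ∈ O := O.pow_mem (natCast_mem O d) e
    rw [mu_eq, mul_add, mul_add, pow_succ]
    refine O.add_mem (O.add_mem ?_ ?_) ?_
    · split_ifs
      · exact step_den O hz _ (hξ 0 (by omega) 0 (by omega) _) hc (fun i _ => by simp) (hd m hm)
      · simp
    · split_ifs with h0
      · refine step_den O hz _ (hξ w hw u hu _) hc
          (fun i hi => h1 h0 (by omega) hu e ?_ i (by omega)) (hd m hm)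
        rw [size_half h0] at he
        omega
      · simp
    · split_ifs with h0
      · refine step_den O hz _ (hξ w hw u hu _) hc
          (fun i hi => h2 h0 hw (by omega) e ?_ i (by omega)) (hd m hm)
        rw [size_half h0] at he
        omega
      · simp

end

theorem step_bound {z : ℂ} (hz : ‖z‖ ≤ 1) (a : ℕ) (x : ℂ) {ν : ℕ → ℂ} {B : ℝ}
    (hν : ∀ i, ‖ν i‖ ≤ B) (m : ℕ) : ‖step z a x ν m‖ ≤ 2 * ‖x‖ + B := by
  have h := congrArg norm (step_mul z a x ν m)
  have h1 : ‖((m : ℂ) + 1)‖ = (m : ℝ) + 1 := by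
    rw [← Nat.cast_succ, Complex.norm_natCast, Nat.cast_succ]
  have hB : 0 ≤ B := (norm_nonneg _).trans (hν 0)
  have hm : (0 : ℝ) ≤ m := Nat.cast_nonneg m
  have h2 : ‖z ^ (m + 1)‖ ≤ 1 := by
    rw [norm_pow]
    exact pow_le_one₀ (norm_nonneg _) hz
  have hx := norm_nonneg x
  rw [norm_mul, h1] at h
  refine le_of_mul_le_mul_left (a := (m : ℝ) + 1) ?_ (by positivity)
  rw [h]
  split_ifs
  · refine (norm_sub_le _ _).trans ?_
    rw [norm_mul]
    linarith only [hx, hν, h2, hm, hB, hν m, mul_le_mul_of_nonneg_right h2 hx, mul_nonneg hm hx, mul_nonneg hm hB]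
  · refine (norm_add_le _ _).trans ?_
    have h3 : ‖∑ i ∈ range (m + 1), ν i‖ ≤ ((m : ℝ) + 1) * B := by
      refine (norm_sum_le _ _).trans ((sum_le_sum fun i _ => hν i).trans ?_)
      simp
    have h4 : ‖z ^ (m + 1) - 1‖ ≤ 2 := by
      refine (norm_sub_le _ _).trans ?_
      rw [norm_one]
      linarith
    rw [norm_mul]
    linarith only [h3, h4, hx, hm, mul_le_mul_of_nonneg_right h4 hx, mul_nonneg hm hx]

theorem mu_bound {z : ℂ} (hz : ‖z‖ ≤ 1) (ξ : ℕ → ℕ → Bool → ℂ) (w u : ℕ) :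
    ∃ B : ℝ, ∀ m, ‖mu z ξ w u m‖ ≤ B := by
  induction w, u using pair_ind with
  | _ w u h1 h2 =>
    have k0 : ∃ B : ℝ, ∀ m, ‖if w = 0 ∧ u = 0 then step z 0 (ξ 0 0 false) 0 m else 0‖ ≤ B := by
      split_ifs
      · exact ⟨_, step_bound (B := 0) hz _ _ fun i => by simp⟩
      · exact ⟨0, by simp⟩
    have k1 : ∃ B : ℝ, ∀ m,
        ‖if w ≠ 0 then step z (w % 2) (ξ w u false) (mu z ξ (w / 2) u) m else 0‖ ≤ B := by
      split_ifs with h0
      · obtain ⟨B, hB⟩ := h1 h0
        exact ⟨_, step_bound hz _ _ hB⟩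
      · exact ⟨0, by simp⟩
    have k2 : ∃ B : ℝ, ∀ m,
        ‖if u ≠ 0 then step z (u % 2) (ξ w u true) (mu z ξ w (u / 2)) m else 0‖ ≤ B := by
      split_ifs with h0
      · obtain ⟨B, hB⟩ := h2 h0
        exact ⟨_, step_bound hz _ _ hB⟩
      · exact ⟨0, by simp⟩
    obtain ⟨B0, k0⟩ := k0
    obtain ⟨B1, k1⟩ := k1
    obtain ⟨B2, k2⟩ := k2
    refine ⟨B0 + B1 + B2, fun m => ?_⟩
    rw [mu_eq]
    exact (norm_add₃_le).trans (add_le_add (add_le_add (k0 m) (k1 m)) (k2 m))

end MCV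
end

-- merged part: Pool.Agent.Work.MP_80812c_nt.ZeroA
section
/-!
The unipotent connection on `K[X]^N` and its stable submodules.
-/

namespace MCV

open Finset Polynomial

variable {K : Type*} [Field K] [CharZero K]

theorem X_sub_mul_derivative (α : K) (f : ℕ) (p : K[X]) :
    (X - C α) * derivative ((X - C α) ^ f * p) =
      (X - C α) ^ f * (C (f : K) * p + (X - C α) * derivative p) := by
  rw [derivative_mul, derivative_pow]
  cases f with
  | zero => simp
  | succ f =>
    simp only [derivative_sub, derivative_X, derivative_C, sub_zero, mul_one, Nat.add_sub_cancel]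
    ring

/-- The derivative of a rational function has no simple pole. -/
theorem residue_zero {α : K} {D p q M : K[X]} (hD : D.eval α ≠ 0) (hq : q ≠ 0)
    (h : (X - C α) * D * (derivative p * q - p * derivative q) = M * q ^ 2) : M.eval α = 0 := by
  have hX : (X - C α : K[X]) ≠ 0 := X_sub_C_ne_zero α
  by_cases hp : p = 0
  · subst hp
    have : M = 0 := by simpa [hq] using h.symm
    simp [this]
  obtain ⟨q1, hq1, hq2⟩ := exists_eq_pow_rootMultiplicity_mul_and_not_dvd q hq α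
  obtain ⟨p1, hp1, hp2⟩ := exists_eq_pow_rootMultiplicity_mul_and_not_dvd p hp α
  generalize rootMultiplicity α q = e at hq1
  generalize rootMultiplicity α p = f at hp1
  rw [dvd_iff_isRoot, IsRoot.def] at hq2 hp2
  have h1 := X_sub_mul_derivative α e q1
  have h2 := X_sub_mul_derivative α f p1
  rw [← hq1] at h1
  rw [← hp1] at h2
  have h3 : (X - C α) ^ e * ((X - C α) ^ f * (D * ((C (f : K) - C (e : K)) * p1 * q1 +
      (X - C α) * (derivative p1 * q1 - p1 * derivative q1)))) =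
      (X - C α) ^ e * ((X - C α) ^ e * (M * q1 ^ 2)) := by
    have h4 : M * q ^ 2 = (X - C α) ^ e * ((X - C α) ^ e * (M * q1 ^ 2)) := by
      rw [hq1]
      ring
    rw [← h4, ← h]
    have h5 : (X - C α) * D * (derivative p * q - p * derivative q) =
        D * (((X - C α) * derivative p) * q - p * ((X - C α) * derivative q)) := by ring
    rw [h5, h1, h2]
    conv_rhs => rw [hq1, hp1]
    ring
  have h4 := mul_left_cancel₀ (pow_ne_zero e hX) h3
  rcases lt_trichotomy f e with k | k | k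
  · obtain ⟨g, rfl⟩ := Nat.exists_eq_add_of_lt k
    rw [add_assoc, pow_add, mul_assoc ((X - C α) ^ f)] at h4
    have h5 := congrArg (eval α) (mul_left_cancel₀ (pow_ne_zero f hX) h4)
    simp [hD, hq2, hp2] at h5
    exact absurd (by linear_combination -h5) (Nat.cast_add_one_ne_zero (R := K) g)
  · subst k
    have h5 := congrArg (eval α) (mul_left_cancel₀ (pow_ne_zero f hX) h4)
    simpa [hq2] using h5.symm
  · obtain ⟨g, rfl⟩ := Nat.exists_eq_add_of_lt k
    rw [add_assoc, pow_add, mul_assoc] at h4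
    have h5 := congrArg (eval α) (mul_left_cancel₀ (pow_ne_zero e hX) h4)
    simpa [hq2] using h5.symm

theorem coeff_X_mul_derivative (p : K[X]) (n : ℕ) :
    (X * derivative p).coeff n = n * p.coeff n := by
  cases n with
  | zero => simp
  | succ n => rw [coeff_X_mul, coeff_derivative]; push_cast; ring

theorem natDegree_X_mul_derivative (p : K[X]) : (X * derivative p).natDegree ≤ p.natDegree := by
  rw [natDegree_le_iff_coeff_eq_zero]
  intro n hn
  rw [coeff_X_mul_derivative, coeff_eq_zero_of_natDegree_lt hn, mul_zero]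

theorem natDegree_eq_of_wr {c p : K[X]} (hc : c ≠ 0) (hp : p ≠ 0)
    (h : c * derivative p = derivative c * p) : p.natDegree = c.natDegree := by
  have h1 : c * (X * derivative p) = (X * derivative c) * p := by linear_combination X * h
  have h2 : (c * (X * derivative p)).coeff (c.natDegree + p.natDegree) =
      ((X * derivative c) * p).coeff (c.natDegree + p.natDegree) := by rw [h1]
  rw [coeff_mul_add_eq_of_natDegree_le le_rfl (natDegree_X_mul_derivative p),
    coeff_mul_add_eq_of_natDegree_le (natDegree_X_mul_derivative c) le_rfl,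
    coeff_X_mul_derivative, coeff_X_mul_derivative] at h2
  have h3 : c.coeff c.natDegree ≠ 0 := leadingCoeff_ne_zero.2 hc
  have h4 : p.coeff p.natDegree ≠ 0 := leadingCoeff_ne_zero.2 hp
  have h5 : (p.natDegree : K) = c.natDegree := by
    refine mul_left_cancel₀ (mul_ne_zero h3 h4) ?_
    linear_combination h2
  exact_mod_cast h5

theorem exists_const_of_wr {c p : K[X]} (hc : c ≠ 0)
    (h : c * derivative p = derivative c * p) : ∃ κ : K, p = C κ * c := by
  refine ⟨p.coeff c.natDegree / c.coeff c.natDegree, ?_⟩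
  set κ := p.coeff c.natDegree / c.coeff c.natDegree with hκ
  by_contra hne
  have h1 : p - C κ * c ≠ 0 := sub_ne_zero.2 hne
  have h2 := natDegree_eq_of_wr hc h1 (by
    simp only [derivative_sub, derivative_mul, derivative_C, zero_mul, zero_add]
    linear_combination h)
  have h3 : c.coeff c.natDegree ≠ 0 := leadingCoeff_ne_zero.2 hc
  apply leadingCoeff_ne_zero.2 h1
  rw [leadingCoeff, h2, coeff_sub, coeff_C_mul, hκ, div_mul_cancel₀ _ h3, sub_self]

/-- The derivation `(1 - X)(1 - zX) X d/dX`. -/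
noncomputable def DD (z : K) (p : K[X]) : K[X] := (1 - X) * (1 - C z * X) * (X * derivative p)

/-- The coefficients of the connection. -/
noncomputable def tau (z : K) (a : ℕ) : K[X] :=
  if a = 0 then -((1 - X) * (1 - C z * X)) else 1 - C z * X

omit [CharZero K] in
theorem DD_mul (z : K) (p q : K[X]) : DD z (p * q) = DD z p * q + p * DD z q := by
  simp only [DD, derivative_mul]
  ring

omit [CharZero K] in
theorem DD_add (z : K) (p q : K[X]) : DD z (p + q) = DD z p + DD z q := by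
  simp only [DD, derivative_add]
  ring

omit [CharZero K] in
theorem DD_zero (z : K) : DD z 0 = 0 := by simp [DD]

omit [CharZero K] in
theorem DD_sum {ι : Type*} (z : K) (s : Finset ι) (p : ι → K[X]) :
    DD z (∑ i ∈ s, p i) = ∑ i ∈ s, DD z (p i) := by
  simp only [DD, derivative_sum, mul_sum]

omit [CharZero K] in
theorem one_sub_C_mul_X_ne (z : K) : (1 - C z * X : K[X]) ≠ 0 := fun h => by
  simpa using congrArg (eval 0) h

omit [CharZero K] in
theorem one_sub_X_ne : (1 - X : K[X]) ≠ 0 := fun h => by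
  simpa using congrArg (eval 0) h

variable {N : ℕ}

/-- The connection on the first factor. -/
noncomputable def nab1 (z : K) (P : Fin N → K[X]) : Fin N → K[X] := fun w =>
  DD z (P w) + ∑ v : Fin N, if v.1 ≠ 0 ∧ v.1 / 2 = w.1 then tau z (v.1 % 2) * P v else 0

theorem step1 (z : K) (U : Submodule K[X] (Fin N → K[X])) (hU : ∀ m ∈ U, nab1 z m ∈ U)
    (hne : ∃ m ∈ U, m ≠ 0) :
    ∃ m ∈ U, m ≠ 0 ∧ ∀ w : Fin N, w.1 ≠ 0 → m w = 0 := by
  classical
  have hex : ∃ b : ℕ, ∃ m ∈ U, m ≠ 0 ∧ ∀ w : Fin N, b < w.1 → m w = 0 := by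
    obtain ⟨m, h1, h2⟩ := hne
    exact ⟨N, m, h1, h2, fun w hw => absurd w.2 (by omega)⟩
  obtain ⟨m, hm, hm0, hb⟩ := Nat.find_spec hex
  have hmin := fun b => Nat.find_min hex (m := b)
  generalize Nat.find hex = b at hb hmin
  rcases Nat.eq_zero_or_pos b with rfl | hpos
  · exact ⟨m, hm, hm0, fun w hw => hb w (by omega)⟩
  exfalso
  have hz : ∀ m' ∈ U, (∀ w : Fin N, b ≤ w.1 → m' w = 0) → m' = 0 := fun m' h1 h2 => by
    by_contra h3
    exact hmin (b - 1) (by omega) ⟨m', h1, h3, fun w hw => h2 w (by omega)⟩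
  obtain ⟨w0, hw0, hc⟩ : ∃ w0 : Fin N, w0.1 = b ∧ m w0 ≠ 0 := by
    by_contra h
    push Not at h
    refine hm0 (hz m hm fun w hw => ?_)
    rcases hw.eq_or_lt with k | k
    · exact h w k.symm
    · exact hb w k
  set c := m w0 with hcd
  have hleaf : ∀ w : Fin N, w.1 ≠ 0 → b < 2 * w.1 → nab1 z m w = DD z (m w) := fun w h1 h2 => by
    rw [nab1, sum_eq_zero, add_zero]
    intro v _
    split_ifs with h
    · rw [hb v (by omega), mul_zero]
    · rfl
  have h0 : c • nab1 z m - DD z c • m = 0 := by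
    refine hz _ (U.sub_mem (U.smul_mem _ (hU m hm)) (U.smul_mem _ hm)) fun w hw => ?_
    simp only [Pi.sub_apply, Pi.smul_apply, smul_eq_mul]
    rw [hleaf w (by omega) (by omega)]
    rcases hw.eq_or_lt with k | k
    · rw [show w = w0 from Fin.ext (by omega)]
      ring
    · rw [hb w k, DD_zero]
      ring
  have h1 : ∀ w, c * nab1 z m w = DD z c * m w := fun w => by
    have := congrFun h0 w
    simp only [Pi.sub_apply, Pi.smul_apply, smul_eq_mul, Pi.zero_apply] at this
    exact sub_eq_zero.1 this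
  have hT : (1 - X) * (1 - C z * X) * X ≠ (0 : K[X]) :=
    mul_ne_zero (mul_ne_zero one_sub_X_ne (one_sub_C_mul_X_ne z)) X_ne_zero
  have h2 : ∀ v : Fin N, ∃ κ : K, v.1 ≠ 0 ∧ v.1 / 2 = b / 2 → m v = C κ * c := fun v => by
    by_cases hv : v.1 ≠ 0 ∧ v.1 / 2 = b / 2
    · have h3 := h1 v
      rw [hleaf v hv.1 (by omega)] at h3
      obtain ⟨κ, hκ⟩ := exists_const_of_wr (p := m v) hc (mul_left_cancel₀ hT (by
        simp only [DD] at h3
        linear_combination h3))
      exact ⟨κ, fun _ => hκ⟩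
    · exact ⟨0, fun h => absurd h hv⟩
  choose κ hκ using h2
  let p : Fin N := ⟨b / 2, by have := w0.2; omega⟩
  let Ka : ℕ → K := fun a =>
    ∑ v : Fin N, if (v.1 ≠ 0 ∧ v.1 / 2 = b / 2) ∧ v.1 % 2 = a then κ v else 0
  have h3 : nab1 z m p = DD z (m p) + (C (Ka 0) * tau z 0 + C (Ka 1) * tau z 1) * c := by
    simp only [nab1, Ka, map_sum, sum_mul, add_mul, ← sum_add_distrib]
    congr 1
    refine sum_congr rfl fun v _ => ?_
    by_cases hv : v.1 ≠ 0 ∧ v.1 / 2 = b / 2
    · rw [if_pos hv, hκ v hv]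
      rcases Nat.mod_two_eq_zero_or_one v.1 with k | k
      · rw [if_pos ⟨hv, k⟩, if_neg (by omega), k, C_0]
        ring
      · rw [if_neg (by omega), if_pos ⟨hv, k⟩, k, C_0]
        ring
    · rw [if_neg hv, if_neg (by tauto), if_neg (by tauto), C_0]
      ring
  have h4 : (1 - X) * X * (derivative (m p) * c - m p * derivative c) =
      (C (Ka 0) * (1 - X) - C (Ka 1)) * c ^ 2 := by
    have h5 := h1 p
    rw [h3] at h5
    refine mul_left_cancel₀ (one_sub_C_mul_X_ne z) ?_
    simp only [DD, tau, if_pos, one_ne_zero, if_false] at h5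
    linear_combination h5
  have h5 := residue_zero (α := 1) (D := -X) (p := m p) (M := C (Ka 0) * (1 - X) - C (Ka 1))
    (by simp) hc (by rw [← h4, C_1]; ring)
  have h6 := residue_zero (α := 0) (D := 1 - X) (p := m p) (M := C (Ka 0) * (1 - X) - C (Ka 1))
    (by simp) hc (by rw [← h4, C_0]; ring)
  simp only [eval_sub, eval_mul, eval_C, eval_one, eval_X, sub_self, mul_zero, zero_sub,
    neg_eq_zero, sub_zero, mul_one] at h5 h6
  have h7 : Ka (b % 2) = κ w0 := by
    simp only [Ka]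
    rw [sum_eq_single w0, if_pos (by omega)]
    · intro v _ hv
      rw [if_neg]
      intro h
      exact hv (Fin.ext (by omega))
    · simp
  have h8 : κ w0 = 0 := by
    rw [← h7]
    rcases Nat.mod_two_eq_zero_or_one b with k | k
    · rw [k, ← h6, h5, sub_zero]
    · rw [k, h5]
  have h9 := hκ w0 (by omega)
  rw [h8, C_0, zero_mul] at h9
  exact hc h9

end MCV
end

-- merged part: Pool.Agent.Work.MP_80812c_nt.ZeroB
section
/-!
The connection on `K[X]^N × K[X]^N`: a stable submodule with nonzero first projection has a second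
part of full rank.
-/

namespace MCV

open Finset Polynomial

variable {K : Type*} [Field K] {N : ℕ}

/-- The parent of a word. -/
def par (u : Fin N) : Fin N := ⟨u.1 / 2, lt_of_le_of_lt (Nat.div_le_self _ _) u.2⟩

/-- The dual connection. -/
noncomputable def nab2 (z : K) (q : Fin N → K[X]) : Fin N → K[X] := fun u =>
  DD z (q u) - if u.1 ≠ 0 then tau z (u.1 % 2) * q (par u) else 0

/-- The full connection. -/
noncomputable def nab (z : K) (β : Fin N → Fin N → K[X])
    (m : (Fin N → K[X]) × (Fin N → K[X])) : (Fin N → K[X]) × (Fin N → K[X]) :=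
  (nab1 z m.1, fun u => nab2 z m.2 u + ∑ w, β w u * m.1 w)

theorem sum_child {R : Type*} [CommRing R] (f : Fin N → Fin N → R) :
    ∑ w : Fin N, ∑ v : Fin N, (if v.1 ≠ 0 ∧ v.1 / 2 = w.1 then f v w else 0) =
      ∑ v : Fin N, if v.1 ≠ 0 then f v (par v) else 0 := by
  rw [sum_comm]
  refine sum_congr rfl fun v _ => ?_
  rw [sum_eq_single (par v)]
  · simp [par]
  · intro w _ hw
    rw [if_neg]
    exact fun h => hw (Fin.ext h.2.symm)
  · simp

theorem nab_dual (z : K) (P q : Fin N → K[X]) :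
    DD z (∑ u, P u * q u) = ∑ u, nab1 z P u * q u + ∑ u, P u * nab2 z q u := by
  have h := sum_child (fun v w : Fin N => tau z (v.1 % 2) * P v * q w)
  simp only [DD_sum, DD_mul, nab1, nab2, add_mul, sum_mul, ite_mul, zero_mul, sum_add_distrib,
    mul_sub, sum_sub_distrib, mul_ite, mul_zero, h]
  have h2 : ∑ v : Fin N, (if v.1 ≠ 0 then tau z (v.1 % 2) * P v * q (par v) else 0) =
      ∑ v : Fin N, if v.1 ≠ 0 then P v * (tau z (v.1 % 2) * q (par v)) else 0 :=
    sum_congr rfl fun v _ => by split_ifs <;> ring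
  rw [h2]
  ring

theorem nab_add (z : K) (β : Fin N → Fin N → K[X]) (m m' : (Fin N → K[X]) × (Fin N → K[X])) :
    nab z β (m + m') = nab z β m + nab z β m' := by
  refine Prod.ext (funext fun w => ?_) (funext fun u => ?_)
  · simp only [nab, nab1, Prod.fst_add, Pi.add_apply, DD_add]
    rw [add_add_add_comm, ← sum_add_distrib]
    congr 1
    exact sum_congr rfl fun v _ => by split_ifs <;> ring
  · simp only [nab, nab2, Prod.snd_add, Prod.fst_add, Pi.add_apply, DD_add, mul_add,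
      sum_add_distrib]
    split_ifs <;> ring

theorem nab_smul (z : K) (β : Fin N → Fin N → K[X]) (a : K[X])
    (m : (Fin N → K[X]) × (Fin N → K[X])) :
    nab z β (a • m) = DD z a • m + a • nab z β m := by
  refine Prod.ext (funext fun w => ?_) (funext fun u => ?_)
  · simp only [nab, nab1, Prod.fst_add, Prod.smul_fst, Pi.add_apply, Pi.smul_apply, smul_eq_mul,
      DD_mul, mul_add, mul_sum]
    rw [add_assoc]
    congr 2
    exact sum_congr rfl fun v _ => by split_ifs <;> ring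
  · simp only [nab, nab2, Prod.snd_add, Prod.smul_fst, Prod.smul_snd, Pi.add_apply, Pi.smul_apply,
      smul_eq_mul, DD_mul, mul_add, mul_sum, mul_sub]
    rw [sum_congr rfl fun w _ => mul_left_comm (β w u) a (m.1 w)]
    split_ifs <;> ring

theorem nab_zero (z : K) (β : Fin N → Fin N → K[X]) : nab z β 0 = 0 := by
  simpa [DD_zero] using nab_smul z β 0 0

theorem nab_sum {ι : Type*} (z : K) (β : Fin N → Fin N → K[X]) (s : Finset ι)
    (m : ι → (Fin N → K[X]) × (Fin N → K[X])) :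
    nab z β (∑ i ∈ s, m i) = ∑ i ∈ s, nab z β (m i) := by
  classical
  induction s using Finset.induction_on with
  | empty => simpa using nab_zero z β
  | insert i s hi ih => rw [sum_insert hi, sum_insert hi, nab_add, ih]

theorem step23 [CharZero K] {z x : K} (hz : z ≠ 0) (hx : x ≠ 0) {β : Fin N → Fin N → K[X]}
    {r : Fin N} (hr : r.1 = 0) (hβ : β r r = C x * (C z * X * (1 - X)))
    (U : Submodule K[X] ((Fin N → K[X]) × (Fin N → K[X]))) (hU : ∀ m ∈ U, nab z β m ∈ U)
    (hne : ∃ m ∈ U, m.1 ≠ 0) (P : Fin N → K[X])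
    (hP : ∀ q, ((0 : Fin N → K[X]), q) ∈ U → ∑ u, P u * q u = 0) : P = 0 := by
  have hroot : ∀ {p : Fin N → K[X]}, p ≠ 0 → (∀ w : Fin N, w.1 ≠ 0 → p w = 0) → p r ≠ 0 :=
    fun {p} h1 h2 h3 => h1 (funext fun w => by
      by_cases h : w.1 = 0
      · rwa [show w = r from Fin.ext (by omega)]
      · exact h2 w h)
  have hsum : ∀ {p : Fin N → K[X]}, (∀ w : Fin N, w.1 ≠ 0 → p w = 0) → ∀ f : Fin N → K[X],
      ∑ w, f w * p w = f r * p r := fun {p} h f => by
    refine sum_eq_single r (fun w _ hw => ?_) (by simp)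
    rw [h w fun k => hw (Fin.ext (by omega)), mul_zero]
  obtain ⟨p, ⟨m, hm, rfl⟩, h1, h2⟩ := step1 z (U.map (LinearMap.fst K[X] _ _))
    (by
      rintro _ ⟨m, hm, rfl⟩
      exact ⟨_, hU m hm, rfl⟩)
    (by
      obtain ⟨m, h1, h2⟩ := hne
      exact ⟨_, ⟨m, h1, rfl⟩, h2⟩)
  simp only [LinearMap.fst_apply] at h1 h2
  have hc := hroot h1 h2
  set c := m.1 r with hcd
  have h3 : c • nab z β m - DD z c • m ∈ U := U.sub_mem (U.smul_mem _ (hU m hm)) (U.smul_mem _ hm)
  have h4 : (c • nab z β m - DD z c • m).1 = 0 := by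
    funext w
    simp only [nab, nab1, Prod.fst_sub, Prod.smul_fst, Pi.sub_apply, Pi.smul_apply, smul_eq_mul,
      Pi.zero_apply]
    rw [sum_eq_zero fun v _ => by
      split_ifs with h
      · rw [h2 v h.1, mul_zero]
      · rfl]
    by_cases h : w.1 = 0
    · rw [show w = r from Fin.ext (by omega)]
      ring
    · rw [h2 w h, DD_zero]
      ring
  have h5 : (c • nab z β m - DD z c • m).2 r ≠ 0 := by
    intro h
    simp only [nab, nab2, Prod.snd_sub, Prod.smul_snd, Pi.sub_apply, Pi.smul_apply, smul_eq_mul,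
      hr, ne_eq, not_true_eq_false, if_false, sub_zero, hsum h2, hβ, DD] at h
    have h6 : (X - C z⁻¹) * C (-z) * (derivative (m.2 r) * c - m.2 r * derivative c) =
        C (-(x * z)) * c ^ 2 := by
      have h7 : (X - C z⁻¹) * C (-z) = (1 - C z * X : K[X]) := by
        rw [sub_mul, ← C_mul, mul_neg, inv_mul_cancel₀ hz]
        simp only [map_neg, map_one]
        ring
      rw [h7]
      refine mul_left_cancel₀ (mul_ne_zero one_sub_X_ne X_ne_zero) ?_
      simp only [map_neg, map_mul]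
      linear_combination h
    have h8 := residue_zero (by simpa using hz) hc h6
    simp [hx, hz] at h8
  set q := (c • nab z β m - DD z c • m).2 with hq
  have h6 : ((0 : Fin N → K[X]), q) ∈ U := by
    rw [← h4]
    exact h3
  let A : Submodule K[X] (Fin N → K[X]) :=
    { carrier := {P | ∀ q, ((0 : Fin N → K[X]), q) ∈ U → ∑ u, P u * q u = 0}
      add_mem' := fun ha hb q hq => by
        simp only [Pi.add_apply, add_mul, sum_add_distrib, ha q hq, hb q hq, add_zero]
      zero_mem' := fun q _ => by simp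
      smul_mem' := fun a P hP q hq => by
        simp only [Pi.smul_apply, smul_eq_mul, mul_assoc, ← mul_sum, hP q hq, mul_zero] }
  by_contra hP0
  obtain ⟨p, h7, h8, h9⟩ := step1 z A
    (by
      intro P hP q hq
      have h7 : nab z β (0, q) = (0, nab2 z q) := by
        refine Prod.ext (funext fun w => ?_) (funext fun u => ?_) <;> simp [nab, nab1, DD_zero]
      have h8 := nab_dual z P q
      rw [hP q hq, hP _ (h7 ▸ hU _ hq), DD_zero, add_zero] at h8
      exact h8.symm)
    ⟨P, hP, hP0⟩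
  have h10 := h7 q h6
  rw [sum_congr rfl fun u _ => mul_comm (p u) (q u), hsum h9] at h10
  exact mul_ne_zero h5 (hroot h8 h9) h10

theorem exists_coords {F ι : Type*} [Field F] [Fintype ι] (W : Submodule F (ι → F)) :
    ∃ S : Finset ι, S.card ≤ Module.finrank F W ∧ ∀ x ∈ W, (∀ i ∈ S, x i = 0) → x = 0 := by
  classical
  induction hn : Module.finrank F W using Nat.strong_induction_on generalizing W with
  | _ n ih =>
    by_cases h : ∀ x ∈ W, x = 0
    · exact ⟨∅, by simp, fun x hx _ => h x hx⟩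
    push Not at h
    obtain ⟨x, hx, hx0⟩ := h
    obtain ⟨i, hi⟩ := Function.ne_iff.1 hx0
    have hlt : W ⊓ LinearMap.ker (LinearMap.proj i : (ι → F) →ₗ[F] F) < W :=
      lt_of_le_of_ne inf_le_left fun h => hi (h ▸ hx : x ∈ W ⊓ _).2
    have h1 := Submodule.finrank_lt_finrank_of_lt hlt
    obtain ⟨S, h2, h3⟩ := ih _ (hn ▸ h1) _ rfl
    refine ⟨insert i S, (card_insert_le _ _).trans (by omega), fun y hy h4 => ?_⟩
    exact h3 y ⟨hy, h4 i (mem_insert_self _ _)⟩ fun j hj => h4 j (mem_insert_of_mem hj)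

theorem clear_den {A F ι : Type*} [CommRing A] [IsDomain A] [Field F] [Algebra A F]
    [IsFractionRing A F] [Finite ι] (f : ι → F) :
    ∃ c : A, c ≠ 0 ∧ ∃ a : ι → A, ∀ i, algebraMap A F (a i) = algebraMap A F c * f i := by
  obtain ⟨b, hb⟩ := IsLocalization.exist_integer_multiples_of_finite (nonZeroDivisors A) f
  choose a ha using hb
  exact ⟨b, nonZeroDivisors.ne_zero b.2, a, fun i => by rw [ha i, Algebra.smul_def]⟩

theorem exists_first_dep {F V : Type*} [Field F] [AddCommGroup V] [Module F V]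
    [FiniteDimensional F V] (w : ℕ → V) : ∃ r ≤ Module.finrank F V,
      LinearIndependent F (fun i : Fin r => w i) ∧
        w r ∈ Submodule.span F (Set.range fun i : Fin r => w i) := by
  classical
  have key : ∀ j, (∀ i < j, w i ∉ Submodule.span F (Set.range fun l : Fin i => w l)) →
      LinearIndependent F (fun i : Fin j => w i) := by
    intro j
    induction j with
    | zero => exact fun _ => linearIndependent_empty_type
    | succ j ih =>
      intro h
      rw [linearIndependent_finSucc']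
      exact ⟨ih fun i hi => h i (by omega), h j (by omega)⟩
  have hex : ∃ r, w r ∈ Submodule.span F (Set.range fun l : Fin r => w l) := by
    by_contra h
    push Not at h
    have := (key (Module.finrank F V + 1) fun i _ => h i).fintype_card_le_finrank
    simp at this
  have h1 := key _ fun i hi => Nat.find_min hex hi
  exact ⟨_, by simpa using h1.fintype_card_le_finrank, h1, Nat.find_spec hex⟩

end MCV
end

-- merged part: Pool.Agent.Work.MP_80812c_nt.ZeroC
section
/-!
The multiplicity estimate.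
-/

namespace MCV

open Finset Polynomial

variable {K : Type*} [Field K] {N : ℕ}

/-- The derivation on power series. -/
noncomputable def DS (z : K) (f : PowerSeries K) : PowerSeries K :=
  (((1 - X) * (1 - C z * X) : K[X]) : PowerSeries K) * (PowerSeries.X * PowerSeries.derivative K f)

theorem DS_coe (z : K) (p : K[X]) : DS z (p : PowerSeries K) = (DD z p : K[X]) := by
  simp only [DS, DD, PowerSeries.derivative_coe, Polynomial.coe_mul, Polynomial.coe_X]

theorem DS_mul (z : K) (f g : PowerSeries K) : DS z (f * g) = DS z f * g + f * DS z g := by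
  simp only [DS, Derivation.leibniz, smul_eq_mul]
  ring

theorem DS_add (z : K) (f g : PowerSeries K) : DS z (f + g) = DS z f + DS z g := by
  simp only [DS, map_add]
  ring

theorem DS_sum {ι : Type*} (z : K) (s : Finset ι) (f : ι → PowerSeries K) :
    DS z (∑ i ∈ s, f i) = ∑ i ∈ s, DS z (f i) := by
  simp only [DS, map_sum, mul_sum]

theorem coeff_X_mul_deriv (f : PowerSeries K) (n : ℕ) :
    PowerSeries.coeff n (PowerSeries.X * PowerSeries.derivative K f) =
      n * PowerSeries.coeff n f := by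
  cases n with
  | zero => simp
  | succ n => rw [PowerSeries.coeff_succ_X_mul, PowerSeries.coeff_derivative]; push_cast; ring

theorem DS_dvd (z : K) {E : ℕ} {f : PowerSeries K} (h : PowerSeries.X ^ E ∣ f) :
    PowerSeries.X ^ E ∣ DS z f := by
  refine Dvd.dvd.mul_left ?_ _
  rw [PowerSeries.X_pow_dvd_iff] at h ⊢
  intro m hm
  rw [coeff_X_mul_deriv, h m hm, mul_zero]

theorem coe_sum {ι : Type*} (s : Finset ι) (p : ι → K[X]) :
    ((∑ i ∈ s, p i : K[X]) : PowerSeries K) = ∑ i ∈ s, (p i : PowerSeries K) :=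
  map_sum Polynomial.coeToPowerSeries.ringHom p s

theorem coe_ite (c : Prop) [Decidable c] (p : K[X]) :
    ((if c then p else 0 : K[X]) : PowerSeries K) = if c then (p : PowerSeries K) else 0 := by
  split_ifs <;> simp

/-- The remainder series. -/
noncomputable def hh (G : Fin N → Fin N → PowerSeries K)
    (m : (Fin N → K[X]) × (Fin N → K[X])) (u : Fin N) : PowerSeries K :=
  ∑ w, (m.1 w : PowerSeries K) * G w u + m.2 u

theorem hh_nab {z : K} {β : Fin N → Fin N → K[X]} {G : Fin N → Fin N → PowerSeries K}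
    (hG : ∀ w u, DS z (G w u) =
      (if w.1 ≠ 0 then (tau z (w.1 % 2) : PowerSeries K) * G (par w) u else 0) +
      (if u.1 ≠ 0 then (tau z (u.1 % 2) : PowerSeries K) * G w (par u) else 0) + β w u)
    (m : (Fin N → K[X]) × (Fin N → K[X])) (u : Fin N) :
    hh G (nab z β m) u = DS z (hh G m u) -
      if u.1 ≠ 0 then (tau z (u.1 % 2) : PowerSeries K) * hh G m (par u) else 0 := by
  have h := sum_child (fun v w : Fin N => (tau z (v.1 % 2) : PowerSeries K) * m.1 v * G w u)
  simp only [hh, nab, nab1, nab2, DS_add, DS_sum, DS_mul, DS_coe, hG, Polynomial.coe_add,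
    Polynomial.coe_sub, coe_sum, coe_ite, Polynomial.coe_mul, add_mul, sum_mul, ite_mul, zero_mul,
    sum_add_distrib, mul_add, mul_ite, mul_zero, h]
  have h2 : ∑ v : Fin N, (if v.1 ≠ 0 then (tau z (v.1 % 2) : PowerSeries K) * m.1 v * G (par v) u
      else 0) = ∑ v : Fin N, if v.1 ≠ 0 then (m.1 v : PowerSeries K) *
        ((tau z (v.1 % 2) : PowerSeries K) * G (par v) u) else 0 :=
    sum_congr rfl fun v _ => by split_ifs <;> ring
  rw [h2, sum_congr rfl fun w _ => mul_comm (β w u : PowerSeries K) (m.1 w)]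
  split_ifs
  · rw [mul_sum, sum_congr rfl fun w _ =>
      mul_left_comm (tau z (u.1 % 2) : PowerSeries K) (m.1 w) (G w (par u))]
    ring
  · simp only [sum_const_zero]
    ring

theorem natDegree_TT (z : K) : ((1 - X) * (1 - C z * X) : K[X]).natDegree ≤ 2 := by
  compute_degree

theorem natDegree_tau (z : K) (a : ℕ) : (tau z a).natDegree ≤ 2 := by
  unfold tau
  split_ifs
  · rw [natDegree_neg]
    exact natDegree_TT z
  · compute_degree
    omega

theorem natDegree_nab [CharZero K] (z : K) {β : Fin N → Fin N → K[X]}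
    (hβ : ∀ w u, (β w u).natDegree ≤ 2) {m : (Fin N → K[X]) × (Fin N → K[X])} {d : ℕ}
    (h : (∀ w, (m.1 w).natDegree ≤ d) ∧ ∀ w, (m.2 w).natDegree ≤ d) :
    (∀ w, ((nab z β m).1 w).natDegree ≤ d + 2) ∧ ∀ w, ((nab z β m).2 w).natDegree ≤ d + 2 := by
  have h1 : ∀ {p q : K[X]}, p.natDegree ≤ 2 → q.natDegree ≤ d → (p * q).natDegree ≤ d + 2 :=
    fun hp hq => natDegree_mul_le.trans (by omega)
  have h2 : ∀ {p : K[X]}, p.natDegree ≤ d → (DD z p).natDegree ≤ d + 2 := fun hp =>
    h1 (natDegree_TT z) ((natDegree_X_mul_derivative _).trans hp)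
  refine ⟨fun w => ?_, fun u => ?_⟩
  · refine natDegree_add_le_of_degree_le (h2 (h.1 w))
      (natDegree_sum_le_of_forall_le _ _ fun v _ => ?_)
    split_ifs
    · exact h1 (natDegree_tau _ _) (h.1 v)
    · simp
  · refine natDegree_add_le_of_degree_le ((natDegree_sub_le _ _).trans (max_le (h2 (h.2 u)) ?_))
      (natDegree_sum_le_of_forall_le _ _ fun v _ => h1 (hβ _ _) (h.1 v))
    split_ifs
    · exact h1 (natDegree_tau _ _) (h.2 _)
    · simp

/-- Passage to the fraction field. -/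
noncomputable def toF (F : Type*) [Field F] [Algebra K[X] F] :
    ((Fin N → K[X]) × (Fin N → K[X])) →ₗ[K[X]] ((Fin N → F) × (Fin N → F)) :=
  LinearMap.prodMap ((Algebra.linearMap K[X] F).compLeft _) ((Algebra.linearMap K[X] F).compLeft _)

theorem mult_est [CharZero K] {z x : K} (hz : z ≠ 0) (hx : x ≠ 0) {β : Fin N → Fin N → K[X]}
    {r0 : Fin N} (hr : r0.1 = 0) (hβ : β r0 r0 = C x * (C z * X * (1 - X)))
    (hβd : ∀ w u, (β w u).natDegree ≤ 2) {G : Fin N → Fin N → PowerSeries K}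
    (hG : ∀ w u, DS z (G w u) =
      (if w.1 ≠ 0 then (tau z (w.1 % 2) : PowerSeries K) * G (par w) u else 0) +
      (if u.1 ≠ 0 then (tau z (u.1 % 2) : PowerSeries K) * G w (par u) else 0) + β w u)
    {m0 : (Fin N → K[X]) × (Fin N → K[X])} (h0 : m0.1 ≠ 0) {n E : ℕ}
    (hd : (∀ w, (m0.1 w).natDegree ≤ n) ∧ ∀ w, (m0.2 w).natDegree ≤ n)
    (hE : ∀ u, PowerSeries.X ^ E ∣ hh G m0 u) : E ≤ 2 * n + 8 * N := by
  classical
  let F := FractionRing K[X]
  have hinj : Function.Injective (algebraMap K[X] F) := IsFractionRing.injective _ _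
  let φ := toF (K := K) (N := N) F
  have hφ1 : ∀ m w, (φ m).1 w = algebraMap K[X] F (m.1 w) := fun _ _ => rfl
  have hφ2 : ∀ m w, (φ m).2 w = algebraMap K[X] F (m.2 w) := fun _ _ => rfl
  have hφ : Function.Injective φ := fun a b h =>
    Prod.ext (funext fun w => hinj (by rw [← hφ1, h, hφ1]))
      (funext fun w => hinj (by rw [← hφ2, h, hφ2]))
  have hφs : ∀ (a : K[X]) m, φ (a • m) = algebraMap K[X] F a • φ m := fun a m => by
    rw [map_smul, algebraMap_smul]
  let v : ℕ → (Fin N → K[X]) × (Fin N → K[X]) := fun j => (nab z β)^[j] m0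
  have hv : ∀ j, v (j + 1) = nab z β (v j) := fun j => Function.iterate_succ_apply' _ _ _
  have hvd : ∀ j, (∀ w, ((v j).1 w).natDegree ≤ n + 2 * j) ∧
      ∀ w, ((v j).2 w).natDegree ≤ n + 2 * j := fun j => by
    induction j with
    | zero => exact hd
    | succ j ih => rw [hv]; exact natDegree_nab z hβd ih
  have hvE : ∀ j u, PowerSeries.X ^ E ∣ hh G (v j) u := fun j => by
    induction j with
    | zero => exact hE
    | succ j ih =>
      intro u
      rw [hv, hh_nab hG]
      refine dvd_sub (DS_dvd z (ih u)) ?_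
      split_ifs
      · exact (ih _).mul_left _
      · exact dvd_zero _
  obtain ⟨r, hrN, hli, hdep⟩ := exists_first_dep (F := F) fun j => φ (v j)
  set W := Submodule.span F (Set.range fun i : Fin r => φ (v i)) with hW
  have hmem : ∀ j ≤ r, φ (v j) ∈ W := fun j hj => by
    rcases hj.eq_or_lt with k | k
    · rwa [k]
    · exact Submodule.subset_span ⟨⟨j, k⟩, rfl⟩
  let U : Submodule K[X] ((Fin N → K[X]) × (Fin N → K[X])) := (W.restrictScalars K[X]).comap φ
  have hUm : ∀ m, m ∈ U ↔ φ m ∈ W := fun _ => Iff.rfl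
  have hU : ∀ m ∈ U, nab z β m ∈ U := fun m hm => by
    obtain ⟨f, hf⟩ := (Submodule.mem_span_range_iff_exists_fun F).1 ((hUm m).1 hm)
    obtain ⟨c, hc, a, ha⟩ := clear_den (A := K[X]) f
    have h1 : c • m = ∑ i, a i • v i := hφ (by
      rw [hφs, ← hf, map_sum, smul_sum]
      exact sum_congr rfl fun i _ => by rw [hφs, ha, smul_smul])
    have h2 : nab z β (c • m) ∈ U := by
      rw [h1, nab_sum]
      refine U.sum_mem fun i _ => ?_
      rw [nab_smul, ← hv]
      exact U.add_mem (U.smul_mem _ (hmem i i.2.le)) (U.smul_mem _ (hmem _ i.2))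
    rw [nab_smul] at h2
    have h3 := (U.add_mem_iff_right (U.smul_mem _ hm)).1 h2
    rw [hUm, hφs] at h3
    exact (W.smul_mem_iff (by simpa using hc)).1 h3
  have htop : W.comap (LinearMap.inr F (Fin N → F) (Fin N → F)) = ⊤ := by
    by_contra hne
    obtain ⟨f, hf0, hf⟩ := Submodule.exists_le_ker_of_lt_top _ (lt_top_iff_ne_top.2 hne)
    obtain ⟨c, hc, a, ha⟩ := clear_den (A := K[X]) fun u => f (Pi.single u 1)
    have hf1 : ∀ q, f q = ∑ u, q u * f (Pi.single u 1) := fun q => by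
      conv_lhs => rw [pi_eq_sum_univ' q]
      simp only [map_sum, map_smul, smul_eq_mul]
    have h1 := step23 hz hx hr hβ U hU ⟨m0, hmem 0 (Nat.zero_le _), h0⟩ a fun q hq => by
      apply hinj
      have h2 : f (φ (0, q)).2 = 0 := hf (show ((0 : Fin N → F), (φ (0, q)).2) ∈ W by
        convert (hUm _).1 hq using 1
        exact Prod.ext (funext fun w => by simp [hφ1]) rfl)
      rw [hf1] at h2
      simp only [map_sum, map_mul, ha, map_zero, mul_assoc, ← mul_sum]
      rw [sum_congr rfl fun u _ => mul_comm (f (Pi.single u 1)) _]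
      exact mul_eq_zero_of_right _ h2
    apply hf0
    ext u
    have h3 := ha u
    rw [h1] at h3
    simpa [hc] using h3.symm
  obtain ⟨S, hS1, hS2⟩ := exists_coords (W.map (LinearMap.fst F (Fin N → F) (Fin N → F)))
  have hrank : S.card + N ≤ r := by
    have h1 := ((LinearMap.fst F (Fin N → F) (Fin N → F)).domRestrict W).finrank_range_add_finrank_ker
    rw [LinearMap.range_domRestrict, finrank_span_eq_card hli, Fintype.card_fin] at h1
    have hq : ∀ q : Fin N → F, ((0 : Fin N → F), q) ∈ W := fun q =>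
      (htop ▸ Submodule.mem_top : q ∈ W.comap (LinearMap.inr F (Fin N → F) (Fin N → F)))
    let ι := ((LinearMap.inr F (Fin N → F) (Fin N → F)).codRestrict W hq).codRestrict
      (LinearMap.ker ((LinearMap.fst F (Fin N → F) (Fin N → F)).domRestrict W)) fun q => rfl
    have h2 := LinearMap.finrank_le_finrank_of_injective (f := ι) fun a b h =>
      congrArg (fun t => t.1.1.2) h
    rw [Module.finrank_fin_fun] at h2
    omega
  let L := n + 2 * r
  let Lm := Fintype.linearCombination K fun t : Fin r × Fin E => (X ^ t.2.1 : K[X]) • v t.1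
  have hLm : ∀ a, Lm a = ∑ j : Fin r, (∑ t : Fin E, C (a (j, t)) * X ^ t.1) • v j := fun a => by
    simp only [Lm, Fintype.linearCombination_apply, Fintype.sum_prod_type, sum_smul, mul_smul,
      ← Polynomial.algebraMap_eq, algebraMap_smul]
  have hdeg : ∀ (a : Fin r × Fin E → K) (j : Fin r) (p : K[X]), p.natDegree ≤ n + 2 * j →
      ∀ i, E + L ≤ i → ((∑ t : Fin E, C (a (j, t)) * X ^ t.1) * p).coeff i = 0 :=
    fun a j p hp i hi => by
      rw [sum_mul, finsetSum_coeff]
      refine sum_eq_zero fun t _ => coeff_eq_zero_of_natDegree_lt ?_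
      have h1 := (natDegree_mul_le (p := C (a (j, t)) * X ^ t.1) (q := p)).trans
        (add_le_add (natDegree_C_mul_X_pow_le _ _) hp)
      have := t.2
      have := j.2
      omega
  let Φ : (Fin r × Fin E → K) →ₗ[K] (S × Fin (E + L) → K) × (Fin N × Fin L → K) :=
    (LinearMap.pi fun t => lcoeff K t.2.1 ∘ₗ LinearMap.proj t.1.1 ∘ₗ LinearMap.fst K _ _ ∘ₗ Lm).prod
    (LinearMap.pi fun t => lcoeff K (E + t.2.1) ∘ₗ LinearMap.proj t.1 ∘ₗ LinearMap.snd K _ _ ∘ₗ Lm)
  have hΦ : Function.Injective Φ := by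
    rw [injective_iff_map_eq_zero]
    intro a ha
    have h1 : ∀ s ∈ S, ∀ t < E + L, ((Lm a).1 s).coeff t = 0 := fun s hs t ht =>
      congrFun (congrArg Prod.fst ha) (⟨s, hs⟩, ⟨t, ht⟩)
    have h2 : ∀ u, ∀ t < L, ((Lm a).2 u).coeff (E + t) = 0 := fun u t ht =>
      congrFun (congrArg Prod.snd ha) (u, ⟨t, ht⟩)
    have h3 : Lm a ∈ U := by
      rw [hLm]
      exact U.sum_mem fun j _ => U.smul_mem _ (hmem j j.2.le)
    have h4 : (Lm a).1 = 0 := by
      have h5 := hS2 _ ⟨_, h3, rfl⟩ fun s hs => by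
        have h6 : (Lm a).1 s = 0 := by
          ext t
          rcases lt_or_ge t (E + L) with k | k
          · exact h1 s hs t k
          · rw [hLm, Prod.fst_sum, Finset.sum_apply, finsetSum_coeff]
            exact sum_eq_zero fun j _ => hdeg a j _ ((hvd j).1 s) t k
        rw [LinearMap.fst_apply, hφ1, h6, map_zero]
      funext w
      exact hinj (by rw [← hφ1, Pi.zero_apply, map_zero]; exact congrFun h5 w)
    have h5 : ∀ u, PowerSeries.X ^ E ∣ hh G (Lm a) u := fun u => by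
      have h6 : hh G (Lm a) u = ∑ j : Fin r,
          ((∑ t : Fin E, C (a (j, t)) * X ^ t.1 : K[X]) : PowerSeries K) * hh G (v j) u := by
        rw [hLm]
        simp only [hh, Prod.fst_sum, Prod.snd_sum, Finset.sum_apply, Prod.smul_fst, Prod.smul_snd,
          Pi.smul_apply, smul_eq_mul, coe_sum (s := (univ : Finset (Fin r))), Polynomial.coe_mul,
          mul_add, sum_add_distrib, mul_sum (s := (univ : Finset (Fin N))),
          sum_mul (s := (univ : Finset (Fin r))), mul_assoc]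
        rw [sum_comm]
      rw [h6]
      exact dvd_sum fun j _ => (hvE j u).mul_left _
    have h6 : (Lm a).2 = 0 := by
      funext u
      ext t
      rcases lt_or_ge t E with k | k
      · have h7 := PowerSeries.X_pow_dvd_iff.1 (h5 u) t k
        simpa [hh, h4] using h7
      · rcases lt_or_ge t (E + L) with k' | k'
        · have := h2 u (t - E) (by omega)
          rwa [add_tsub_cancel_of_le k] at this
        · rw [hLm, Prod.snd_sum, Finset.sum_apply, finsetSum_coeff]
          exact sum_eq_zero fun j _ => hdeg a j _ ((hvd j).2 u) t k'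
    have h7 : φ (Lm a) = 0 := by rw [show Lm a = 0 from Prod.ext h4 h6, map_zero]
    rw [hLm, map_sum, sum_congr rfl fun j _ => hφs _ _] at h7
    funext ⟨j, t⟩
    have h8 := congrArg (fun p => coeff p t.1)
      (hinj ((Fintype.linearIndependent_iff.1 hli _ h7 j).trans (map_zero _).symm))
    simp only [finsetSum_coeff, coeff_C_mul, coeff_X_pow, coeff_zero, Fin.val_inj, mul_ite,
      mul_one, mul_zero, sum_ite_eq, mem_univ, if_true] at h8
    exact h8
  have h1 := LinearMap.finrank_le_finrank_of_injective hΦ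
  simp only [Module.finrank_prod, Module.finrank_fintype_fun_eq_card, Fintype.card_prod,
    Fintype.card_fin, Fintype.card_coe] at h1 hrN
  have hN : 0 < N := r0.pos
  refine le_of_mul_le_mul_left ?_ hN
  have h2 : N * E ≤ r * L := by nlinarith only [h1, hrank]
  have h3 : r * L ≤ (N + N) * (n + 2 * (N + N)) := Nat.mul_le_mul hrN (by omega)
  linarith only [h2, h3]

end MCV
end
end

-- merged part: Pool.Agent.Work.MP_80812c_nt.Bridge
section
-- merged part: Pool.Agent.Work.MP_80812c_nt.ZeroD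
section
/-!
The zero estimate for the moments.
-/

namespace MCV

open Finset Polynomial

variable {K : Type*} [Field K]

theorem geo_mul {R : Type*} [CommRing R] (z : R) :
    (1 - PowerSeries.C z * PowerSeries.X) * (PowerSeries.mk fun m => z ^ m) = 1 := by
  ext n
  rw [sub_mul, one_mul, mul_assoc, map_sub, PowerSeries.coeff_C_mul]
  cases n with
  | zero => simp
  | succ n => simp [PowerSeries.coeff_succ_X_mul, PowerSeries.coeff_one, pow_succ']

theorem cum_mul {R : Type*} [CommRing R] (ν : ℕ → R) :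
    (1 - PowerSeries.X) * (PowerSeries.mk fun m => ∑ i ∈ range (m + 1), ν i) =
      PowerSeries.mk ν := by
  ext n
  rw [sub_mul, one_mul, map_sub]
  cases n with
  | zero => simp
  | succ n => simp [PowerSeries.coeff_succ_X_mul, sum_range_succ]

/-- The inhomogeneous terms. -/
noncomputable def bet (z : K) (a : ℕ) (x : K) : K[X] :=
  if a = 0 then C x * (C z * X * (1 - X)) else C x * (X * (C z - 1))

theorem natDegree_bet (z : K) (a : ℕ) (x : K) : (bet z a x).natDegree ≤ 2 := by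
  unfold bet
  split_ifs
  · compute_degree
  · compute_degree
    omega

variable [CharZero K]

theorem DS_step (z : K) (a : ℕ) (x : K) (ν : ℕ → K) :
    DS z (PowerSeries.X * PowerSeries.mk (step z a x ν)) =
      (tau z a : PowerSeries K) * (PowerSeries.X * PowerSeries.mk ν) +
        (bet z a x : PowerSeries K) := by
  have h1 : PowerSeries.derivative K (PowerSeries.X * PowerSeries.mk (step z a x ν)) =
      PowerSeries.mk fun m : ℕ => ((m : K) + 1) * step z a x ν m := by
    ext n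
    rw [PowerSeries.coeff_derivative, PowerSeries.coeff_succ_X_mul, PowerSeries.coeff_mk,
      PowerSeries.coeff_mk, mul_comm]
  have g1 := geo_mul z
  have g2 := geo_mul (1 : K)
  have g3 := cum_mul ν
  rw [map_one, one_mul] at g2
  simp only [DS, h1, step_mul, tau, bet]
  split_ifs
  · have h2 : (PowerSeries.mk fun m : ℕ => z ^ (m + 1) * x - ν m) =
        PowerSeries.C z * PowerSeries.C x * (PowerSeries.mk fun m => z ^ m) -
          PowerSeries.mk ν := by
      ext n
      simp only [← map_mul, map_sub, PowerSeries.coeff_mk, PowerSeries.coeff_C_mul]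
      ring
    simp only [h2, Polynomial.coe_mul, Polynomial.coe_sub, Polynomial.coe_one, Polynomial.coe_X,
      Polynomial.coe_C, Polynomial.coe_neg]
    linear_combination
      (1 - PowerSeries.X) * PowerSeries.X * PowerSeries.C z * PowerSeries.C x * g1
  · have h2 : (PowerSeries.mk fun m : ℕ => (z ^ (m + 1) - 1) * x + ∑ i ∈ range (m + 1), ν i) =
        PowerSeries.C z * PowerSeries.C x * (PowerSeries.mk fun m => z ^ m) -
          PowerSeries.C x * (PowerSeries.mk fun m => (1 : K) ^ m) +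
          PowerSeries.mk fun m => ∑ i ∈ range (m + 1), ν i := by
      ext n
      simp only [← map_mul, map_sub, map_add, PowerSeries.coeff_mk, PowerSeries.coeff_C_mul]
      ring
    simp only [h2, Polynomial.coe_mul, Polynomial.coe_sub, Polynomial.coe_one, Polynomial.coe_X,
      Polynomial.coe_C]
    linear_combination
      (1 - PowerSeries.X) * PowerSeries.X * PowerSeries.C z * PowerSeries.C x * g1 -
      (1 - PowerSeries.C z * PowerSeries.X) * PowerSeries.X * PowerSeries.C x * g2 +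
      (1 - PowerSeries.C z * PowerSeries.X) * PowerSeries.X * g3

theorem zero_est {z : K} (hz : z ≠ 0) (ξ : ℕ → ℕ → Bool → K) {N n : ℕ} (hn : 8 * N ≤ n)
    (p : Fin N × Fin (n + 1) → K) (hp : p ≠ 0)
    (hI : ∀ u : Fin N, ∀ j < 2 * n, ∑ t, p t * mu z ξ t.1 u (t.2 + j) = 0) :
    ξ 0 0 false = 0 := by
  by_contra hx
  obtain ⟨⟨w0, i0⟩, h0⟩ := Function.ne_iff.1 hp
  let G : Fin N → Fin N → PowerSeries K := fun w u => PowerSeries.X * PowerSeries.mk (mu z ξ w u)
  let β : Fin N → Fin N → K[X] := fun w u =>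
    (if w.1 = 0 ∧ u.1 = 0 then bet z 0 (ξ 0 0 false) else 0) +
    (if w.1 ≠ 0 then bet z (w.1 % 2) (ξ w u false) else 0) +
    (if u.1 ≠ 0 then bet z (u.1 % 2) (ξ w u true) else 0)
  let P : Fin N → K[X] := fun w => ∑ i : Fin (n + 1), C (p (w, i)) * X ^ (n - i.1)
  let Q : Fin N → K[X] := fun u =>
    -PowerSeries.trunc (n + 1) (∑ w, (P w : PowerSeries K) * G w u)
  have hmk : ∀ (c : Prop) [Decidable c] (f : ℕ → K), (PowerSeries.X * PowerSeries.mk fun m =>
      if c then f m else 0) = if c then PowerSeries.X * PowerSeries.mk f else 0 := by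
    intro c _ f
    split_ifs
    · rfl
    · ext n
      cases n <;> simp [PowerSeries.coeff_succ_X_mul]
  have hDS : ∀ (c : Prop) [Decidable c] (f : PowerSeries K),
      DS z (if c then f else 0) = if c then DS z f else 0 := by
    intro c _ f
    split_ifs
    · rfl
    · simp [DS]
  have h := mult_est (E := 3 * n + 1) (n := n) hz hx (β := β) (r0 := ⟨0, w0.pos⟩) rfl
    (by simp [β, bet]) (fun w u => ?_) (G := G) (fun w u => ?_) (m0 := (P, Q)) ?_
    ⟨fun w => ?_, fun u => ?_⟩ fun u => ?_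
  · omega
  · refine natDegree_add_le_of_degree_le (natDegree_add_le_of_degree_le ?_ ?_) ?_ <;>
      split_ifs <;> simp [natDegree_bet]
  · have h1 : G w u =
        (if w.1 = 0 ∧ u.1 = 0 then PowerSeries.X * PowerSeries.mk (step z 0 (ξ 0 0 false) 0)
          else 0) +
        (if w.1 ≠ 0 then PowerSeries.X * PowerSeries.mk
          (step z (w.1 % 2) (ξ w u false) (mu z ξ (w.1 / 2) u)) else 0) +
        (if u.1 ≠ 0 then PowerSeries.X * PowerSeries.mk
          (step z (u.1 % 2) (ξ w u true) (mu z ξ w (u.1 / 2))) else 0) := by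
      rw [← hmk, ← hmk, ← hmk, ← mul_add, ← mul_add]
      refine congrArg (PowerSeries.X * ·) ?_
      ext m
      simp only [map_add, PowerSeries.coeff_mk]
      exact mu_eq _ _ _ _ _
    have h2 : (PowerSeries.mk (0 : ℕ → K)) = 0 := by
      ext m
      simp
    rw [h1]
    simp only [DS_add, hDS, DS_step, β, Polynomial.coe_add, coe_ite, h2, G, par]
    split_ifs <;> ring
  · intro h1
    have h2 := congrArg (fun q => coeff q (n - i0.1)) (congrFun h1 w0)
    simp only [P, finsetSum_coeff, coeff_C_mul, coeff_X_pow, Pi.zero_apply, coeff_zero] at h2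
    rw [sum_eq_single i0] at h2
    · exact h0 (by simpa using h2)
    · intro i _ hi
      rw [if_neg, mul_zero]
      intro k
      exact hi (Fin.ext (by have := i.2; have := i0.2; omega))
    · simp
  · exact natDegree_sum_le_of_forall_le univ (fun i : Fin (n + 1) => C (p (w, i)) * X ^ (n - i.1))
      fun i _ => (natDegree_C_mul_X_pow_le _ _).trans (Nat.sub_le _ _)
  · simp only [Q, natDegree_neg]
    exact Nat.lt_succ_iff.1 (PowerSeries.natDegree_trunc_lt _ _)
  · rw [PowerSeries.X_pow_dvd_iff]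
    intro m hm
    simp only [hh, Q, map_add, Polynomial.coe_neg, map_neg, Polynomial.coeff_coe,
      PowerSeries.coeff_trunc]
    split_ifs with k
    · ring
    · obtain ⟨j, rfl⟩ : ∃ j, m = n + 1 + j := ⟨m - (n + 1), by omega⟩
      rw [neg_zero, add_zero, ← hI u j (by omega), map_sum, Fintype.sum_prod_type]
      refine sum_congr rfl fun w _ => ?_
      simp only [P, coe_sum, sum_mul, map_sum, Polynomial.coe_mul, Polynomial.coe_C,
        Polynomial.coe_pow, Polynomial.coe_X, mul_assoc, PowerSeries.coeff_C_mul, G]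
      refine sum_congr rfl fun i _ => ?_
      rw [show n + 1 + j = i.1 + j + 1 + (n - i.1) by have := i.2; omega,
        PowerSeries.coeff_X_pow_mul, PowerSeries.coeff_succ_X_mul, PowerSeries.coeff_mk]

end MCV
end

-- merged part: Pool.Agent.Work.MP_80812c_nt.Ser
section
/-!
Weighted norms and evaluation of complex power series.
-/

namespace MCV

open Finset PowerSeries

/-- Absolute convergence at radius `ρ`. -/
def Sm (ρ : ℝ) (f : ℂ⟦X⟧) : Prop := Summable fun t => ‖coeff t f‖ * ρ ^ t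

/-- The weighted norm. -/
noncomputable def nm (ρ : ℝ) (f : ℂ⟦X⟧) : ℝ := ∑' t, ‖coeff t f‖ * ρ ^ t

/-- Evaluation. -/
noncomputable def ev (y : ℂ) (f : ℂ⟦X⟧) : ℂ := ∑' t, coeff t f * y ^ t

variable {ρ : ℝ} {f g : ℂ⟦X⟧} {y : ℂ}

theorem nm_nonneg (hρ : 0 ≤ ρ) (f : ℂ⟦X⟧) : 0 ≤ nm ρ f := tsum_nonneg fun t => by positivity

theorem Sm.mono {σ : ℝ} (h : Sm ρ f) (h0 : 0 ≤ σ) (h1 : σ ≤ ρ) : Sm σ f :=
  Summable.of_nonneg_of_le (fun t => by positivity) (fun t => by gcongr) h

theorem Sm.norm (h : Sm ρ f) (hy : ‖y‖ ≤ ρ) : Summable fun t => ‖coeff t f * y ^ t‖ := by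
  simpa only [Sm, norm_mul, norm_pow] using h.mono (norm_nonneg y) hy

theorem Sm.of_le (hρ : 0 ≤ ρ) {a : ℕ → ℝ} (ha : Summable a) (h : ∀ t, ‖coeff t f‖ * ρ ^ t ≤ a t) :
    Sm ρ f ∧ nm ρ f ≤ ∑' t, a t := by
  have h1 : Sm ρ f := Summable.of_nonneg_of_le (fun t => by positivity) h ha
  exact ⟨h1, Summable.tsum_le_tsum h h1 ha⟩

theorem Sm.add' (hρ : 0 ≤ ρ) (hf : Sm ρ f) (hg : Sm ρ g) :
    Sm ρ (f + g) ∧ nm ρ (f + g) ≤ nm ρ f + nm ρ g := by
  rw [show nm ρ f + nm ρ g = _ from (Summable.tsum_add hf hg).symm]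
  refine Sm.of_le hρ (Summable.add hf hg) fun t => ?_
  rw [map_add, ← add_mul]
  gcongr
  exact norm_add_le _ _

theorem Sm.mul' (hρ : 0 ≤ ρ) (hf : Sm ρ f) (hg : Sm ρ g) :
    Sm ρ (f * g) ∧ nm ρ (f * g) ≤ nm ρ f * nm ρ g := by
  have h1 : Summable fun t => ‖‖coeff t f‖ * ρ ^ t‖ := Summable.norm hf
  have h2 : Summable fun t => ‖‖coeff t g‖ * ρ ^ t‖ := Summable.norm hg
  rw [show nm ρ f * nm ρ g = _ from tsum_mul_tsum_eq_tsum_sum_antidiagonal_of_summable_norm h1 h2]
  refine Sm.of_le hρ (summable_norm_sum_mul_antidiagonal_of_summable_norm h1 h2).of_norm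
    fun t => ?_
  rw [coeff_mul]
  refine (mul_le_mul_of_nonneg_right (norm_sum_le _ _) (by positivity)).trans ?_
  rw [sum_mul]
  refine sum_le_sum fun x hx => le_of_eq ?_
  rw [← mem_antidiagonal.1 hx, norm_mul, pow_add]
  ring

theorem sm_C (ρ : ℝ) (a : ℂ) : Sm ρ (C a) ∧ nm ρ (C a) = ‖a‖ ∧ ev y (C a) = a := by
  refine ⟨summable_of_ne_finset_zero (s := {0}) fun t ht => ?_, ?_, ?_⟩
  · rw [coeff_C, if_neg (by simpa using ht)]
    simp
  · rw [nm, tsum_eq_single 0 fun t ht => by simp [coeff_C, ht]]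
    simp
  · rw [ev, tsum_eq_single 0 fun t ht => by simp [coeff_C, ht]]
    simp

theorem sm_X (ρ : ℝ) : Sm ρ X ∧ ev y X = y := by
  refine ⟨summable_of_ne_finset_zero (s := {1}) fun t ht => ?_, ?_⟩
  · rw [coeff_X, if_neg (by simpa using ht)]
    simp
  · rw [ev, tsum_eq_single 1 fun t ht => by simp [coeff_X, ht]]
    simp

/-- The algebra of series that converge absolutely at radius `ρ`. -/
def Bs (ρ : ℝ) (hρ : 0 ≤ ρ) : Subalgebra ℚ ℂ⟦X⟧ where
  carrier := {f | Sm ρ f}
  mul_mem' hf hg := (Sm.mul' hρ hf hg).1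
  add_mem' hf hg := (Sm.add' hρ hf hg).1
  algebraMap_mem' q := by
    rw [PowerSeries.algebraMap_apply]
    exact (sm_C (y := 0) ρ (algebraMap ℚ ℂ q)).1

theorem ev_add (hf : Sm ‖y‖ f) (hg : Sm ‖y‖ g) : ev y (f + g) = ev y f + ev y g := by
  simp only [ev, map_add, add_mul]
  exact Summable.tsum_add (hf.norm le_rfl).of_norm (hg.norm le_rfl).of_norm

theorem ev_mul (hf : Sm ‖y‖ f) (hg : Sm ‖y‖ g) : ev y (f * g) = ev y f * ev y g := by
  rw [ev, ev, ev, tsum_mul_tsum_eq_tsum_sum_antidiagonal_of_summable_norm (hf.norm le_rfl)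
    (hg.norm le_rfl)]
  refine tsum_congr fun t => ?_
  rw [coeff_mul, sum_mul]
  refine sum_congr rfl fun x hx => ?_
  rw [← mem_antidiagonal.1 hx, pow_add]
  ring

/-- Evaluation as a ring homomorphism. -/
noncomputable def evH (y : ℂ) : Bs ‖y‖ (norm_nonneg y) →+* ℂ where
  toFun f := ev y f.1
  map_one' := (sm_C 0 1).2.2
  map_zero' := by simp [ev]
  map_mul' f g := ev_mul f.2 g.2
  map_add' f g := ev_add f.2 g.2

theorem ev_zero_left (f : ℂ⟦X⟧) : ev 0 f = constantCoeff f := by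
  rw [ev, tsum_eq_single 0 fun t ht => by simp [ht]]
  simp

theorem sm_geo {z : ℂ} (hz : ‖z‖ ≤ 1) (h0 : 0 ≤ ρ) (h1 : ρ < 1) : Sm ρ (mk fun m => z ^ m) :=
  (Sm.of_le h0 (summable_geometric_of_lt_one h0 h1) fun t => by
    rw [coeff_mk, norm_pow]
    exact mul_le_of_le_one_left (by positivity) (pow_le_one₀ (norm_nonneg _) hz)).1

theorem Sm.nm_sum {ι : Type*} (hρ : 0 ≤ ρ) (s : Finset ι) {f : ι → ℂ⟦X⟧}
    (h : ∀ i ∈ s, Sm ρ (f i)) : nm ρ (∑ i ∈ s, f i) ≤ ∑ i ∈ s, nm ρ (f i) := by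
  classical
  induction s using Finset.induction_on with
  | empty => simp [nm]
  | insert i s hi ih =>
    rw [sum_insert hi, sum_insert hi]
    have h1 : ∀ j ∈ s, Sm ρ (f j) := fun j hj => h j (mem_insert_of_mem hj)
    exact (Sm.add' hρ (h i (mem_insert_self _ _)) ((Bs ρ hρ).sum_mem h1)).2.trans
      (add_le_add le_rfl (ih h1))

theorem Sm.nm_pow (hρ : 0 ≤ ρ) (hf : Sm ρ f) (i : ℕ) : nm ρ (f ^ i) ≤ nm ρ f ^ i := by
  induction i with
  | zero => simpa using (sm_C (y := 0) ρ 1).2.1.le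
  | succ i ih =>
    rw [pow_succ, pow_succ]
    exact (Sm.mul' hρ ((Bs ρ hρ).pow_mem hf i) hf).2.trans
      (mul_le_mul_of_nonneg_right ih (nm_nonneg hρ _))

theorem Sm.coeff_le (hρ : 0 ≤ ρ) (hf : Sm ρ f) (t : ℕ) : ‖coeff t f‖ * ρ ^ t ≤ nm ρ f :=
  Summable.le_tsum hf t fun _ _ => by positivity

theorem Sm.small {σ : ℝ} (hρ : 0 ≤ ρ) (hf : Sm ρ f) (h0 : 0 ≤ σ) (h1 : σ ≤ 1) (hy : ‖y‖ ≤ σ * ρ)
    {M : ℕ} (hM : X ^ M ∣ f) : ‖ev y f‖ ≤ σ ^ M * nm ρ f := by
  have h2 : ‖y‖ ≤ ρ := hy.trans (mul_le_of_le_one_left hρ h1)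
  refine (norm_tsum_le_tsum_norm (hf.norm h2)).trans ?_
  rw [nm, ← tsum_mul_left]
  refine Summable.tsum_le_tsum (fun t => ?_) (hf.norm h2) (Summable.mul_left _ hf)
  rcases lt_or_ge t M with k | k
  · simp [X_pow_dvd_iff.1 hM t k]
  · rw [norm_mul, norm_pow, mul_left_comm]
    gcongr
    calc ‖y‖ ^ t ≤ (σ * ρ) ^ t := by gcongr
      _ = σ ^ t * ρ ^ t := mul_pow _ _ _
      _ ≤ σ ^ M * ρ ^ t := by gcongr ?_ * _; exact pow_le_pow_of_le_one h0 h1 k

theorem sm_of_deriv (h0 : 0 ≤ ρ) (h1 : ρ ≤ 1) (hc : constantCoeff f = 0)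
    (hf : Sm ρ (derivative ℂ f)) : Sm ρ f ∧ nm ρ f ≤ nm ρ (derivative ℂ f) := by
  have h2 : ∀ t, ‖coeff (t + 1) f‖ * ρ ^ (t + 1) ≤ ‖coeff t (derivative ℂ f)‖ * ρ ^ t := fun t => by
    rw [coeff_derivative, norm_mul, ← Nat.cast_succ, Complex.norm_natCast, pow_succ]
    have h3 : (1 : ℝ) ≤ (t.succ : ℕ) := by exact_mod_cast Nat.succ_pos t
    have h4 : 0 ≤ ‖coeff (t + 1) f‖ * ρ ^ t := by positivity
    linarith only [h1, h4, h3, mul_nonneg_of_nonpos_of_nonpos (Mathlib.Tactic.Linarith.sub_nonpos_of_le h1) (Mathlib.Tactic.Linarith.sub_nonpos_of_le h4), mul_nonneg_of_nonpos_of_nonpos (Mathlib.Tactic.Linarith.sub_nonpos_of_le h3) (Mathlib.Tactic.Linarith.sub_nonpos_of_le h4)]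
  have h3 : Summable fun t => ‖coeff (t + 1) f‖ * ρ ^ (t + 1) :=
    Summable.of_nonneg_of_le (fun t => by positivity) h2 hf
  have h4 : Sm ρ f := (summable_nat_add_iff 1).1 h3
  refine ⟨h4, ?_⟩
  rw [nm, Summable.tsum_eq_zero_add h4, coeff_zero_eq_constantCoeff_apply, hc, norm_zero, zero_mul,
    zero_add]
  exact Summable.tsum_le_tsum h2 h3 hf

theorem dvd_of_deriv (hc : constantCoeff f = 0) {M : ℕ} (h : X ^ M ∣ derivative ℂ f) :
    X ^ M ∣ f := by
  rw [X_pow_dvd_iff] at h ⊢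
  intro t ht
  cases t with
  | zero => simpa using hc
  | succ t =>
    have h1 := h t (by omega)
    rw [coeff_derivative] at h1
    exact (mul_eq_zero.1 h1).resolve_right (Nat.cast_add_one_ne_zero t)

theorem Sm.deriv {σ : ℝ} (hf : Sm ρ f) (h0 : 0 ≤ σ) (h1 : σ < ρ) : Sm σ (derivative ℂ f) := by
  have hρ : 0 < ρ := h0.trans_lt h1
  have h2 : σ / ρ < 1 := (div_lt_one hρ).2 h1
  have h3 : 0 ≤ σ / ρ := by positivity
  have h4 : Summable fun t : ℕ => ((t : ℝ) + 1) * (σ / ρ) ^ t := by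
    simp only [add_mul, one_mul]
    refine Summable.add ?_ (summable_geometric_of_lt_one h3 h2)
    simpa using summable_pow_mul_geometric_of_norm_lt_one 1 (r := σ / ρ) (by rwa [Real.norm_of_nonneg h3])
  refine (Sm.of_le h0 (h4.mul_left (nm ρ f / ρ)) fun t => ?_).1
  have h5 := hf.coeff_le hρ.le (t + 1)
  rw [coeff_derivative, norm_mul, ← Nat.cast_succ, Complex.norm_natCast, Nat.cast_succ]
  have h6 : ‖coeff (t + 1) f‖ * ((t : ℝ) + 1) * σ ^ t =
      ‖coeff (t + 1) f‖ * ρ ^ (t + 1) / ρ * (((t : ℝ) + 1) * (σ / ρ) ^ t) := by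
    rw [div_pow, pow_succ]
    field_simp
  rw [h6]
  gcongr

theorem Sm.hasDerivAt (hf : Sm ρ f) (hy : ‖y‖ < ρ) :
    HasDerivAt (fun z => ev z f) (ev y (derivative ℂ f)) y := by
  obtain ⟨σ, h1, h2⟩ := exists_between hy
  have h0 : 0 < σ := (norm_nonneg y).trans_lt h1
  have h3 := hf.deriv h0.le h2
  have h4 : Summable fun t : ℕ => ‖coeff t f‖ * (t * σ ^ (t - 1)) := by
    rw [← summable_nat_add_iff 1]
    refine h3.congr fun t => ?_
    rw [coeff_derivative, norm_mul, ← Nat.cast_succ, Complex.norm_natCast, Nat.add_sub_cancel,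
      mul_assoc]
  have h5 := hasDerivAt_tsum_of_isPreconnected h4 (Metric.isOpen_ball (x := (0 : ℂ)) (ε := σ))
    (convex_ball _ _).isPreconnected (g := fun t z => coeff t f * z ^ t)
    (g' := fun t z => coeff t f * (t * z ^ (t - 1)))
    (fun t z _ => (hasDerivAt_pow t z).const_mul _)
    (fun t z hz => by
      rw [norm_mul, norm_mul, norm_pow, Complex.norm_natCast]
      have : ‖z‖ ≤ σ := by simpa using (Metric.mem_ball.1 hz).le
      gcongr)
    (y₀ := y) (by simpa using h1) (hf.norm hy.le).of_norm (y := y) (by simpa using h1)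
  have h6 : Summable fun t : ℕ => coeff t f * (t * y ^ (t - 1)) := by
    refine Summable.of_norm_bounded h4 fun t => ?_
    rw [norm_mul, norm_mul, norm_pow, Complex.norm_natCast]
    gcongr
  have h7 : ev y (derivative ℂ f) = ∑' t : ℕ, coeff t f * (t * y ^ (t - 1)) := by
    rw [Summable.tsum_eq_zero_add h6, ev]
    simp [coeff_derivative, mul_assoc]
  rw [h7]
  exact h5

end MCV
end

-- merged part: Pool.Agent.Work.MP_80812c_nt.Ell
section
/-!
The multiple polylogarithms in the variable `y = x / (2 - x)`, as formal power series.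
-/

namespace MCV

open Finset PowerSeries

/-- The primitive without constant term. -/
noncomputable def prim (g : ℂ⟦X⟧) : ℂ⟦X⟧ := X * PowerSeries.mk fun t => coeff t g / (t + 1)

/-- Division by the variable. -/
noncomputable def shf (f : ℂ⟦X⟧) : ℂ⟦X⟧ := mk fun t => coeff (t + 1) f

/-- The series of `1 / (1 + y)`. -/
noncomputable def G1 : ℂ⟦X⟧ := mk fun m => (-1 : ℂ) ^ m

/-- The series of `1 / (1 - y)`. -/
noncomputable def G2 : ℂ⟦X⟧ := mk fun m => (1 : ℂ) ^ m

/-- The series of `x = 2y / (1 + y)`. -/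
noncomputable def XX : ℂ⟦X⟧ := 2 * X * G1

/-- The kernels `dx / x` and `dx / (1 - x)`. -/
noncomputable def kern (a : ℕ) (f : ℂ⟦X⟧) : ℂ⟦X⟧ := if a = 0 then shf f * G1 else (G1 + G2) * f

/-- Integration against a kernel. -/
noncomputable def II (a : ℕ) (f : ℂ⟦X⟧) : ℂ⟦X⟧ := prim (kern a f)

/-- The polylogarithm of a word. -/
noncomputable def ell (w : ℕ) : ℂ⟦X⟧ := if _h : w = 0 then 1 else II (w % 2) (ell (w / 2))
termination_by w
decreasing_by omega

/-- The boundary terms. -/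
noncomputable def xiS (w u : ℕ) (b : Bool) : ℂ⟦X⟧ :=
  if b then (if u ≠ 0 then II (u % 2) (ell w * ell (u / 2)) else 0)
  else if w ≠ 0 then II (w % 2) (ell (w / 2) * ell u) else if u = 0 then 1 else 0

theorem ell_zero : ell 0 = 1 := by rw [ell, dif_pos rfl]

theorem ell_pos {w : ℕ} (hw : w ≠ 0) : ell w = II (w % 2) (ell (w / 2)) := by rw [ell, dif_neg hw]

theorem deriv_prim (g : ℂ⟦X⟧) : derivative ℂ (prim g) = g := by
  ext t
  rw [coeff_derivative, prim, coeff_succ_X_mul, coeff_mk,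
    div_mul_cancel₀ _ (Nat.cast_add_one_ne_zero t)]

theorem const_prim (g : ℂ⟦X⟧) : constantCoeff (prim g) = 0 := by simp [prim]

theorem deriv_II (a : ℕ) (f : ℂ⟦X⟧) : derivative ℂ (II a f) = kern a f := deriv_prim _

theorem const_II (a : ℕ) (f : ℂ⟦X⟧) : constantCoeff (II a f) = 0 := const_prim _

theorem const_ell {w : ℕ} (hw : w ≠ 0) : constantCoeff (ell w) = 0 := by
  rw [ell_pos hw, const_II]

theorem X_mul_shf {f : ℂ⟦X⟧} (h : constantCoeff f = 0) : X * shf f = f := by
  have := eq_X_mul_shift_add_const f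
  rw [h, map_zero, add_zero] at this
  exact this.symm

theorem G1_mul : (1 + X) * G1 = 1 := by simpa [G1] using geo_mul (-1 : ℂ)

theorem G2_mul : (1 - X) * G2 = 1 := by simpa [G2] using geo_mul (1 : ℂ)

theorem deriv_XX : derivative ℂ XX = 2 * G1 ^ 2 := by
  have h1 := congrArg (derivative ℂ) G1_mul
  have h2 : (2 : ℂ⟦X⟧) = C 2 := (map_ofNat C 2).symm
  have h3 : derivative ℂ (2 : ℂ⟦X⟧) = 0 := by rw [h2, derivative_C]
  simp only [Derivation.leibniz, map_add, Derivation.map_one_eq_zero, derivative_X, smul_eq_mul,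
    XX, h3] at h1 ⊢
  linear_combination (2 * X * G1) * h1 - (2 * G1 + 2 * X * derivative ℂ G1) * G1_mul

theorem kern_mul {a : ℕ} {f : ℂ⟦X⟧} (h : a = 0 → constantCoeff f = 0) (g : ℂ⟦X⟧) :
    kern a (f * g) = kern a f * g := by
  unfold kern
  split_ifs with ha
  · have h1 := X_mul_shf (h ha)
    have h2 := X_mul_shf (f := f * g) (by simp [h ha])
    refine mul_left_cancel₀ (X_ne_zero (R := ℂ)) ?_
    linear_combination G1 * h2 - G1 * g * h1
  · ring

theorem kern_eq {a : ℕ} {f : ℂ⟦X⟧} (h : a = 0 → constantCoeff f = 0) :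
    (if a = 0 then XX else 1 - XX) * kern a f = derivative ℂ XX * f := by
  rw [deriv_XX]
  unfold kern XX
  split_ifs with ha
  · linear_combination 2 * G1 ^ 2 * X_mul_shf (h ha)
  · linear_combination (-(G1 + G2) * f - G1 * f) * G1_mul + G1 * f * G2_mul

theorem const_half {w : ℕ} (hw : w ≠ 0) (h : w % 2 = 0) : constantCoeff (ell (w / 2)) = 0 :=
  const_ell (by omega)

theorem ell_mul (w u : ℕ) : ell w * ell u = (if w = 0 ∧ u = 0 then 1 else 0) +
    (if w ≠ 0 then II (w % 2) (ell (w / 2) * ell u) else 0) +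
    (if u ≠ 0 then II (u % 2) (ell w * ell (u / 2)) else 0) := by
  by_cases hw : w = 0
  · by_cases hu : u = 0
    · simp [hw, hu, ell_zero]
    · simp [hw, hu, ell_zero, ← ell_pos hu]
  · by_cases hu : u = 0
    · simp [hw, hu, ell_zero, ← ell_pos hw]
    · rw [if_neg (by tauto), if_pos hw, if_pos hu, zero_add]
      refine derivative.ext ?_ (by simp [const_II, const_ell hw])
      rw [map_add, deriv_II, deriv_II, kern_mul (const_half hw), mul_comm (ell w) (ell (u / 2)),
        kern_mul (const_half hu), Derivation.leibniz, ← deriv_II, ← deriv_II, ← ell_pos hw,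
        ← ell_pos hu, smul_eq_mul, smul_eq_mul]
      ring

theorem const_XX : constantCoeff XX = 0 := by simp [XX]

theorem step_deriv {a : ℕ} {x Φ : ℂ⟦X⟧} {ν : ℕ → ℂ⟦X⟧}
    (hx : (if a = 0 then XX else 1 - XX) * derivative ℂ x = derivative ℂ XX * Φ)
    (hc : a ≠ 0 → constantCoeff x = 0)
    (hν : ∀ m, derivative ℂ (ν m) = derivative ℂ XX * XX ^ m * Φ ∧ constantCoeff (ν m) = 0)
    (m : ℕ) : derivative ℂ (step XX a x ν m) = derivative ℂ XX * XX ^ m * x ∧
      constantCoeff (step XX a x ν m) = 0 := by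
  have h := step_mul XX a x ν m
  have h0 : ((m : ℂ⟦X⟧) + 1) = C ((m : ℂ) + 1) := by simp
  have h1 := congrArg (derivative ℂ) h
  have h2 := congrArg constantCoeff h
  have h3 : ((m : ℂ) + 1) ≠ 0 := Nat.cast_add_one_ne_zero m
  have h4 : ((m : ℂ⟦X⟧) + 1) ≠ 0 := fun k => h3 (by simpa using congrArg constantCoeff k)
  have h5 : derivative ℂ (XX ^ (m + 1)) = ((m : ℂ⟦X⟧) + 1) * XX ^ m * derivative ℂ XX := by
    rw [Derivation.leibniz_pow]
    simp only [Nat.add_sub_cancel, nsmul_eq_mul, smul_eq_mul, Nat.cast_succ, mul_assoc]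
  rw [Derivation.leibniz, h0, derivative_C, smul_zero, add_zero, ← h0, smul_eq_mul] at h1
  rw [map_mul, h0, constantCoeff_C] at h2
  refine ⟨mul_left_cancel₀ h4 ?_, (mul_eq_zero.1 (h2.trans ?_)).resolve_left h3⟩
  · rw [h1]
    split_ifs at hx ⊢ with ha
    · rw [map_sub, Derivation.leibniz, h5, (hν m).1, smul_eq_mul, smul_eq_mul]
      linear_combination XX ^ m * hx
    · rw [map_add, Derivation.leibniz, map_sub, h5, map_sum, sum_congr rfl fun i _ => (hν i).1,
        Derivation.map_one_eq_zero, smul_eq_mul, smul_eq_mul, ← sum_mul, ← mul_sum]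
      linear_combination -(∑ i ∈ range (m + 1), XX ^ i) * hx -
        derivative ℂ x * geom_sum_mul XX (m + 1)
  · split_ifs with ha
    · simp [const_XX, (hν m).2]
    · simp [hc ha, (hν _).2]

theorem mu_deriv (w u : ℕ) : ∀ m, derivative ℂ (mu XX xiS w u m) =
    derivative ℂ XX * XX ^ m * (ell w * ell u) ∧ constantCoeff (mu XX xiS w u m) = 0 := by
  induction w, u using pair_ind with
  | _ w u h1 h2 =>
    intro m
    have k0 := step_deriv (a := 0) (x := xiS 0 0 false) (Φ := 0) (ν := 0) (by simp [xiS])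
      (by simp) (by simp) m
    have k1 := fun hw : w ≠ 0 => step_deriv (a := w % 2) (x := xiS w u false)
      (by simp only [xiS, if_pos hw, Bool.false_eq_true, if_false, deriv_II]
          exact kern_eq fun h => by simp [const_half hw h])
      (fun _ => by simp only [xiS, if_pos hw, Bool.false_eq_true, if_false, const_II]) (h1 hw) m
    have k2 := fun hu : u ≠ 0 => step_deriv (a := u % 2) (x := xiS w u true)
      (by simp only [xiS, if_pos hu, if_true, deriv_II]
          exact kern_eq fun h => by simp [const_half hu h])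
      (fun _ => by simp only [xiS, if_pos hu, if_true, const_II]) (h2 hu) m
    rw [mu_eq, ell_mul, map_add, map_add, map_add, map_add, mul_add, mul_add]
    constructor
    · congr 1
      congr 1
      · split_ifs
        · rw [k0.1]
          simp [xiS]
        · simp
      · split_ifs with h
        · rw [(k1 h).1]
          simp [xiS, h]
        · simp
      · split_ifs with h
        · rw [(k2 h).1]
          simp [xiS, h]
        · simp
    · have h3 : ∀ (c : Prop) [Decidable c] (f : ℂ⟦X⟧), (c → constantCoeff f = 0) →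
          constantCoeff (if c then f else 0) = 0 := fun c _ f h => by
        split_ifs with k
        · exact h k
        · simp
      rw [h3 _ _ fun _ => k0.2, h3 _ _ fun h => (k1 h).2, h3 _ _ fun h => (k2 h).2]
      simp

theorem II_add (a : ℕ) (f g : ℂ⟦X⟧) : II a (f + g) = II a f + II a g := by
  refine derivative.ext ?_ (by simp [const_II])
  rw [map_add, deriv_II, deriv_II, deriv_II]
  unfold kern
  split_ifs
  · rw [← add_mul]
    refine congrArg (· * G1) ?_
    ext t
    simp [shf]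
  · ring

theorem II_smul (a : ℕ) (q : ℚ) (f : ℂ⟦X⟧) : II a (q • f) = q • II a f := by
  have h : ∀ f : ℂ⟦X⟧, q • f = C (q : ℂ) * f := fun f => by
    rw [Algebra.smul_def, PowerSeries.algebraMap_apply, eq_ratCast]
  rw [h, h]
  refine derivative.ext ?_ (by simp [const_II])
  rw [Derivation.leibniz, deriv_II, deriv_II, derivative_C, smul_zero, add_zero, smul_eq_mul]
  unfold kern
  split_ifs
  · rw [← mul_assoc]
    congr 1
    ext t
    simp [shf]
  · ring

/-- The span of the polylogarithms of weight `j`. -/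
noncomputable def AA (j : ℕ) : Submodule ℚ ℂ⟦X⟧ := Submodule.span ℚ (ell '' {v | Nat.size v = j})

theorem II_mem {a j : ℕ} (ha : a < 2) (h : a = 0 → j ≠ 0) {f : ℂ⟦X⟧} (hf : f ∈ AA j) :
    II a f ∈ AA (j + 1) := by
  induction hf using Submodule.span_induction with
  | mem f hf =>
    obtain ⟨v, hv, rfl⟩ := hf
    have h0 : 2 * v + a ≠ 0 := fun k => h (by omega) (by
      rw [← show Nat.size v = j from hv, show v = 0 by omega, Nat.size_zero])
    refine Submodule.subset_span ⟨2 * v + a, ?_, ?_⟩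
    · rw [Set.mem_ofPred_eq, size_half h0, show (2 * v + a) / 2 = v by omega, hv]
    · rw [ell_pos h0, show (2 * v + a) / 2 = v by omega, show (2 * v + a) % 2 = a by omega]
  | zero =>
    rw [show II a 0 = 0 by simpa using II_smul a 0 0]
    exact zero_mem _
  | add f g _ _ h1 h2 => rw [II_add]; exact add_mem h1 h2
  | smul q f _ h1 => rw [II_smul]; exact Submodule.smul_mem _ _ h1

theorem one_mem_AA : (1 : ℂ⟦X⟧) ∈ AA 0 := Submodule.subset_span ⟨0, Nat.size_zero, ell_zero⟩

theorem II_mem1 {w u : ℕ} (hw : w ≠ 0)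
    (h : ell (w / 2) * ell u ∈ AA (Nat.size (w / 2) + Nat.size u)) :
    II (w % 2) (ell (w / 2) * ell u) ∈ AA (Nat.size w + Nat.size u) := by
  rw [size_half hw, add_right_comm]
  refine II_mem (by omega) (fun k => ?_) h
  have := Nat.size_pos.2 (show 0 < w / 2 by omega)
  omega

theorem ell_mul_mem (w u : ℕ) : ell w * ell u ∈ AA (Nat.size w + Nat.size u) := by
  induction w, u using pair_ind with
  | _ w u h1 h2 =>
    rw [ell_mul]
    refine add_mem (add_mem ?_ ?_) ?_
    · split_ifs with h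
      · rw [h.1, h.2]
        exact one_mem_AA
      · exact zero_mem _
    · split_ifs with h
      · exact II_mem1 h (h1 h)
      · exact zero_mem _
    · split_ifs with h
      · rw [add_comm, mul_comm]
        exact II_mem1 h (by rw [add_comm, mul_comm]; exact h2 h)
      · exact zero_mem _

theorem xiS_mem (w u : ℕ) (b : Bool) : xiS w u b ∈ AA (Nat.size w + Nat.size u) := by
  unfold xiS
  split_ifs with h1 h2 h3 h4
  · rw [add_comm, mul_comm]
    exact II_mem1 h2 (ell_mul_mem _ _)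
  · exact zero_mem _
  · exact II_mem1 h3 (ell_mul_mem _ _)
  · rw [not_not.1 h3, h4]
    exact one_mem_AA
  · exact zero_mem _

section
variable {ρ : ℝ} (h0 : 0 < ρ) (h1 : ρ < 1)
include h0 h1

theorem sm_G1 : Sm ρ G1 := sm_geo (by simp) h0.le h1

theorem sm_G2 : Sm ρ G2 := sm_geo (by simp) h0.le h1

theorem sm_XX : Sm ρ XX :=
  (Bs ρ h0.le).mul_mem ((Bs ρ h0.le).mul_mem (ofNat_mem _ 2) (sm_X (y := 0) ρ).1) (sm_G1 h0 h1)

theorem sm_kern (a : ℕ) {f : ℂ⟦X⟧} (hf : Sm ρ f) : Sm ρ (kern a f) := by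
  unfold kern
  split_ifs
  · refine (Bs ρ h0.le).mul_mem ?_ (sm_G1 h0 h1)
    refine (((summable_nat_add_iff 1).2 hf).mul_right ρ⁻¹).congr fun t => ?_
    rw [shf, coeff_mk, pow_succ, mul_assoc, mul_inv_cancel_right₀ h0.ne']
  · exact (Bs ρ h0.le).mul_mem ((Bs ρ h0.le).add_mem (sm_G1 h0 h1) (sm_G2 h0 h1)) hf

theorem sm_ell (w : ℕ) : Sm ρ (ell w) := by
  induction w using Nat.strong_induction_on with
  | _ w ih =>
    by_cases hw : w = 0
    · rw [hw, ell_zero]
      exact (Bs ρ h0.le).one_mem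
    · rw [ell_pos hw]
      refine (sm_of_deriv h0.le h1.le (const_II _ _) ?_).1
      rw [deriv_II]
      exact sm_kern h0 h1 _ (ih _ (by omega))

theorem sm_AA {j : ℕ} {f : ℂ⟦X⟧} (hf : f ∈ AA j) : Sm ρ f :=
  (Submodule.span_le (p := Subalgebra.toSubmodule (Bs ρ h0.le))).2
    (by rintro _ ⟨v, _, rfl⟩; exact sm_ell h0 h1 v) hf

end

end MCV
end

-- merged part: Pool.Agent.Work.MP_80812c_nt.Sieg
section
/-!
Denominators and the auxiliary polynomials given by Siegel's lemma.
-/

namespace MCV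

open Finset PowerSeries

theorem int_mul {c : ℂ} {f g : ℂ⟦X⟧} {M : ℕ} (hf : ∀ t ≤ M, c * coeff t f ∈ (⊥ : Subring ℂ))
    (hg : ∀ t, coeff t g ∈ (⊥ : Subring ℂ)) : ∀ t ≤ M, c * coeff t (f * g) ∈ (⊥ : Subring ℂ) := by
  intro t ht
  rw [coeff_mul, mul_sum]
  refine Subring.sum_mem _ fun x hx => ?_
  rw [← mul_assoc]
  exact Subring.mul_mem _ (hf _ (by have := mem_antidiagonal.1 hx; omega)) (hg _)

theorem int_G1 (t : ℕ) : coeff t G1 ∈ (⊥ : Subring ℂ) := by
  rw [G1, coeff_mk]
  exact Subring.pow_mem _ (Subring.neg_mem _ (Subring.one_mem _)) _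

theorem int_G2 (t : ℕ) : coeff t G2 ∈ (⊥ : Subring ℂ) := by
  rw [G2, coeff_mk]
  exact Subring.pow_mem _ (Subring.one_mem _) _

theorem int_one (t : ℕ) : coeff t (1 : ℂ⟦X⟧) ∈ (⊥ : Subring ℂ) := by
  rw [coeff_one]
  split_ifs
  · exact Subring.one_mem _
  · exact Subring.zero_mem _

theorem int_XX (t : ℕ) : coeff t XX ∈ (⊥ : Subring ℂ) := by
  rw [XX, mul_assoc, two_mul, map_add]
  have : coeff t (X * G1) ∈ (⊥ : Subring ℂ) := by
    cases t with
    | zero => simp
    | succ t => rw [coeff_succ_X_mul]; exact int_G1 t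
  exact Subring.add_mem _ this this

theorem int_XX_pow (i t : ℕ) : coeff t (XX ^ i) ∈ (⊥ : Subring ℂ) := by
  induction i generalizing t with
  | zero => exact int_one t
  | succ i ih =>
    simpa [pow_succ] using int_mul (c := 1) (M := t) (fun s _ => by simpa using ih s) int_XX t le_rfl

theorem int_ell {M d : ℕ} (hd : ∀ m < M, m + 1 ∣ d) (w : ℕ) : ∀ e, Nat.size w ≤ e → ∀ t ≤ M,
    (d : ℂ) ^ e * coeff t (ell w) ∈ (⊥ : Subring ℂ) := by
  induction w using Nat.strong_induction_on with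
  | _ w ih =>
    intro e he t ht
    by_cases hw : w = 0
    · rw [hw, ell_zero]
      exact Subring.mul_mem _ (Subring.pow_mem _ (natCast_mem _ d) _) (int_one t)
    rw [size_half hw] at he
    obtain ⟨e, rfl⟩ : ∃ e', e = e' + 1 := ⟨e - 1, by omega⟩
    have h1 := ih (w / 2) (by omega) e (by omega)
    cases t with
    | zero => simp [const_ell hw]
    | succ t =>
      obtain ⟨c, hc⟩ := hd t (by omega)
      have h2 : (d : ℂ) ^ e * coeff t (kern (w % 2) (ell (w / 2))) ∈ (⊥ : Subring ℂ) := by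
        unfold kern
        split_ifs
        · refine int_mul (M := t) (fun s hs => ?_) int_G1 t le_rfl
          rw [shf, coeff_mk]
          exact h1 _ (by omega)
        · rw [mul_comm (G1 + G2)]
          refine int_mul h1 (fun s => ?_) t (by omega)
          rw [map_add]
          exact Subring.add_mem _ (int_G1 s) (int_G2 s)
      have h3 : (d : ℂ) ^ (e + 1) * coeff (t + 1) (ell w) =
          c * ((d : ℂ) ^ e * coeff t (kern (w % 2) (ell (w / 2)))) := by
        have h4 : (d : ℂ) = (t + 1) * c := by rw [hc]; push_cast; ring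
        have h5 : ((t : ℂ) + 1) ≠ 0 := Nat.cast_add_one_ne_zero t
        rw [ell_pos hw, II, prim, coeff_succ_X_mul, coeff_mk, pow_succ, mul_assoc]
        nth_rewrite 2 [h4]
        field_simp
      rw [h3]
      exact Subring.mul_mem _ (natCast_mem _ c) h2

theorem dvd_lcmUpto {M m : ℕ} (h : m < M) : m + 1 ∣ Nat.lcmUpto M :=
  Finset.dvd_lcm (f := id) (mem_Icc.2 ⟨by omega, h⟩)

theorem lcmUpto_le (M : ℕ) : (Nat.lcmUpto M : ℝ) ≤ Real.exp (6 * M) := by
  have h0 : (0 : ℝ) < Nat.lcmUpto M := by exact_mod_cast Nat.lcmUpto_pos M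
  rw [← Real.log_le_iff_le_exp h0, ← Chebyshev.psi_eq_log_lcmUpto]
  refine (Chebyshev.psi_le_const_mul_self (Nat.cast_nonneg M)).trans ?_
  have : Real.log 4 ≤ 2 := by
    rw [show (4 : ℝ) = 2 ^ 2 by norm_num, Real.log_pow]
    have := Real.log_two_lt_d9
    push_cast
    linarith only [this]
  gcongr
  linarith

/-- An exponent bounding the norm of `x` as a series in `y`. -/
noncomputable def la : ℝ := nm (2 / 3) XX

theorem la_nonneg : 0 ≤ la := nm_nonneg (by norm_num) _

theorem nm_XX_pow (i : ℕ) : Sm (2 / 3) (XX ^ i) ∧ nm (2 / 3) (XX ^ i) ≤ Real.exp (la * i) := by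
  have h := sm_XX (ρ := 2 / 3) (by norm_num) (by norm_num)
  refine ⟨(Bs _ (by norm_num)).pow_mem h i, (h.nm_pow (by norm_num) i).trans ?_⟩
  rw [mul_comm, Real.exp_nat_mul]
  exact pow_le_pow_left₀ la_nonneg (by linarith only [Real.add_one_le_exp la, show nm (2 / 3) XX = la from rfl]) i

/-- A bound for the norms of the first `N` polylogarithms. -/
noncomputable def cE (N : ℕ) : ℝ := 1 + ∑ w ∈ range N, nm (2 / 3) (ell w)

theorem one_le_cE (N : ℕ) : 1 ≤ cE N :=
  le_add_of_nonneg_right (sum_nonneg fun _ _ => nm_nonneg (by norm_num) _)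

theorem nm_ell_le {N w : ℕ} (h : w < N) : nm (2 / 3) (ell w) ≤ cE N :=
  (single_le_sum (f := fun w => nm (2 / 3) (ell w)) (fun _ _ => nm_nonneg (by norm_num) _)
    (mem_range.2 h)).trans (le_add_of_nonneg_left zero_le_one)

theorem nm_XX_ell {N w : ℕ} (h : w < N) (i : ℕ) : Sm (2 / 3) (XX ^ i * ell w) ∧
    nm (2 / 3) (XX ^ i * ell w) ≤ Real.exp (la * i) * cE N := by
  have h1 := Sm.mul' (by norm_num) (nm_XX_pow i).1 (sm_ell (by norm_num) (by norm_num) w)
  exact ⟨h1.1, h1.2.trans (mul_le_mul (nm_XX_pow i).2 (nm_ell_le h) (nm_nonneg (by norm_num) _)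
    (Real.exp_pos _).le)⟩

attribute [local instance] Matrix.seminormedAddCommGroup in
theorem siegel {h : ℕ} (hh : 1 ≤ h) {n : ℕ} (hn : 1 ≤ n) :
    ∃ p : Fin (4 ^ h) × Fin (n + 1) → ℤ, p ≠ 0 ∧
      (∀ t, ‖(p t : ℂ)‖ ≤ 4 ^ h * cE (4 ^ h) * Real.exp (2 * (12 + la) * (h + 1) * n)) ∧
      X ^ (2 ^ h * n) ∣ ∑ t, C (p t : ℂ) * (XX ^ t.2.1 * ell t.1) := by
  set M := 2 ^ h * n with hM
  set d := Nat.lcmUpto M with hd
  have h4 : 4 ^ h = 2 ^ h * 2 ^ h := by rw [← mul_pow]; norm_num
  have h2 : 2 ≤ 2 ^ h := by simpa using Nat.pow_le_pow_right two_pos hh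
  have hA : ∀ (s : Fin M) (t : Fin (4 ^ h) × Fin (n + 1)), ∃ z : ℤ,
      (z : ℂ) = (d : ℂ) ^ (2 * h) * coeff s (XX ^ t.2.1 * ell t.1) := fun s t => by
    rw [← Subring.mem_bot, mul_comm (XX ^ _)]
    refine int_mul (int_ell (fun m hm => dvd_lcmUpto hm) t.1 _ ?_) (int_XX_pow _) s s.2.le
    rw [Nat.size_le, pow_mul]
    exact t.1.2
  choose A hA using hA
  obtain ⟨p, h0, h1, h3⟩ := Int.Matrix.exists_ne_zero_int_vec_norm_le (Matrix.of A)
    (by simp only [Fintype.card_fin, Fintype.card_prod]; rw [h4]; nlinarith only [hn, hM, h2])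
    (by simp only [Fintype.card_fin]; positivity)
  refine ⟨p, h0, fun t => ?_, ?_⟩
  · have hla := la_nonneg
    have hc := one_le_cE (4 ^ h)
    have hΩ : (2 : ℝ) ≤ 2 ^ h := by exact_mod_cast h2
    have hn' : (1 : ℝ) ≤ n := by exact_mod_cast hn
    have hMr : (M : ℝ) = 2 ^ h * n := by rw [hM]; push_cast; ring
    have hnM : (n : ℝ) ≤ M := by rw [hMr]; linarith only [hn', hΩ, mul_nonneg_of_nonpos_of_nonpos (Mathlib.Tactic.Linarith.sub_nonpos_of_le (Mathlib.Tactic.Linarith.natCast_nonneg ℝ n)) (Mathlib.Tactic.Linarith.sub_nonpos_of_le hΩ)]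
    have hh0 : (0 : ℝ) ≤ h := Nat.cast_nonneg h
    have k1 : ‖Matrix.of A‖ ≤ cE (4 ^ h) * Real.exp ((12 * h + 1 + la) * M) := by
      rw [Matrix.norm_le_iff (by positivity)]
      intro s t
      rw [Matrix.of_apply, Int.norm_eq_abs, ← Complex.norm_intCast, hA, norm_mul, norm_pow, Complex.norm_natCast]
      have k2 := nm_XX_ell t.1.2 t.2.1
      have k3 := (k2.1.coeff_le (by norm_num) s).trans k2.2
      have k4 : (d : ℝ) ^ (2 * h) ≤ Real.exp (12 * h * M) := by
        refine (pow_le_pow_left₀ (Nat.cast_nonneg _) (lcmUpto_le M) _).trans (le_of_eq ?_)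
        rw [← Real.exp_nat_mul]
        congr 1
        push_cast
        ring
      have k5 : 1 ≤ (2 / 3 : ℝ) ^ s.1 * Real.exp M := by
        have k6 : Real.exp s.1 ≤ Real.exp M := Real.exp_le_exp.2 (by exact_mod_cast s.2.le)
        have k7 : 1 ≤ (2 / 3 : ℝ) ^ s.1 * Real.exp s.1 := by
          rw [← Real.exp_one_pow, ← mul_pow]
          exact one_le_pow₀ (by linarith only [Real.add_one_le_exp 1])
        exact k7.trans (by gcongr)
      have k6 : Real.exp (la * t.2.1) ≤ Real.exp (la * M) := by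
        have : (t.2.1 : ℝ) ≤ n := by exact_mod_cast Nat.lt_succ_iff.1 t.2.2
        exact Real.exp_le_exp.2 (mul_le_mul_of_nonneg_left (this.trans hnM) hla)
      calc _ ≤ Real.exp (12 * h * M) * (‖coeff s.1 (XX ^ t.2.1 * ell t.1)‖ *
            ((2 / 3 : ℝ) ^ s.1 * Real.exp M)) := by
            gcongr
            exact le_mul_of_one_le_right (norm_nonneg _) k5
        _ ≤ Real.exp (12 * h * M) * (Real.exp (la * M) * cE (4 ^ h) * Real.exp M) := by
            rw [← mul_assoc ‖_‖]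
            gcongr _ * (?_ * _)
            exact k3.trans (mul_le_mul_of_nonneg_right k6 (by linarith only [hc]))
        _ = _ := by
            rw [add_mul, add_mul, Real.exp_add, Real.exp_add, one_mul]
            ring
    have k2 : 1 ≤ Real.exp ((12 * h + 1 + la) * M) := Real.one_le_exp (by positivity)
    have k3 : ((Fintype.card (Fin (4 ^ h) × Fin (n + 1)) : ℕ) : ℝ) * max 1 ‖Matrix.of A‖ ≤
        (4 ^ h * cE (4 ^ h)) * Real.exp ((12 * h + 2 + la) * M) := by
      have k4 : (n : ℝ) + 1 ≤ Real.exp M := (Real.add_one_le_exp _).trans (Real.exp_le_exp.2 hnM)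
      calc _ ≤ (4 ^ h * Real.exp M) * (cE (4 ^ h) * Real.exp ((12 * h + 1 + la) * M)) := by
            simp only [Fintype.card_prod, Fintype.card_fin]
            push_cast
            gcongr
            exact max_le (one_le_mul_of_one_le_of_one_le hc k2) k1
        _ = _ := by
            rw [show (12 * h + 2 + la) * M = M + (12 * h + 1 + la) * M by ring, Real.exp_add]
            ring
    have k4 : ((Fintype.card (Fin M) : ℕ) : ℝ) / (((Fintype.card (Fin (4 ^ h) × Fin (n + 1)) : ℕ) : ℝ)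
        - (Fintype.card (Fin M) : ℕ)) ≤ 2 / 2 ^ h := by
      simp only [Fintype.card_prod, Fintype.card_fin]
      have k5 : ((4 ^ h * (n + 1) : ℕ) : ℝ) = 2 ^ h * 2 ^ h * (n + 1) := by
        rw [h4]; push_cast; ring
      rw [k5, hMr]
      generalize (2 : ℝ) ^ h = Ω at hΩ
      have k6 : 0 ≤ Ω * n * (Ω - 2) := by
        have : 0 ≤ Ω - 2 := by linarith only [hΩ]
        positivity
      rw [div_le_div_iff₀ (by linarith only [hn', k6, hΩ, mul_self_nonneg Ω, mul_nonneg_of_nonpos_of_nonpos (Mathlib.Tactic.Linarith.sub_nonpos_of_le (Mathlib.Tactic.Linarith.natCast_nonneg ℝ n)) (Mathlib.Tactic.Linarith.sub_nonpos_of_le hΩ)]) (by linarith only [hΩ])]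
      linarith only [k6, mul_self_nonneg Ω]
    have k5 : (1 : ℝ) ≤ 4 ^ h * cE (4 ^ h) :=
      one_le_mul_of_one_le_of_one_le (one_le_pow₀ (by norm_num)) hc
    have k6 : 1 ≤ Real.exp ((12 * h + 2 + la) * M) := Real.one_le_exp (by positivity)
    have k7 : (1 : ℝ) ≤ ((Fintype.card (Fin (4 ^ h) × Fin (n + 1)) : ℕ) : ℝ) *
        max 1 ‖Matrix.of A‖ := by
      refine one_le_mul_of_one_le_of_one_le ?_ (le_max_left _ _)
      have : 0 < Fintype.card (Fin (4 ^ h) × Fin (n + 1)) := by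
        simp only [Fintype.card_prod, Fintype.card_fin]
        positivity
      exact_mod_cast this
    rw [Complex.norm_intCast, ← Int.norm_eq_abs]
    calc _ ≤ ‖p‖ := norm_le_pi_norm p t
      _ ≤ _ := h3
      _ ≤ _ := Real.rpow_le_rpow_of_exponent_le k7 k4
      _ ≤ ((4 ^ h * cE (4 ^ h)) * Real.exp ((12 * h + 2 + la) * M)) ^ (2 / 2 ^ h : ℝ) := by
          gcongr
      _ ≤ _ := by
          rw [Real.mul_rpow (by positivity) (by positivity), ← Real.exp_mul]
          refine mul_le_mul ?_ (Real.exp_le_exp.2 ?_) (Real.exp_pos _).le (by positivity)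
          · refine (Real.rpow_le_rpow_of_exponent_le k5 ?_).trans_eq (Real.rpow_one _)
            rw [div_le_one (by positivity)]
            exact hΩ
          · rw [hMr]
            have k8 : (12 * h + 2 + la) * (2 ^ h * n) * (2 / 2 ^ h) =
                2 * (12 * h + 2 + la) * n := by
              field_simp
            rw [k8]
            refine mul_le_mul_of_nonneg_right ?_ (by positivity)
            linarith only [hla, hh0, mul_nonneg hla hh0]
  · rw [X_pow_dvd_iff]
    intro s hs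
    have k1 := congrArg (fun z : ℤ => (z : ℂ)) (congrFun h1 ⟨s, hs⟩)
    simp only [Matrix.mulVec, dotProduct, Matrix.of_apply, Int.cast_sum, Int.cast_mul, hA,
      Pi.zero_apply, Int.cast_zero, mul_assoc, ← mul_sum] at k1
    have k2 : (d : ℂ) ^ (2 * h) ≠ 0 :=
      pow_ne_zero _ (Nat.cast_ne_zero.2 (Nat.lcmUpto_ne_zero M))
    rw [map_sum, ← (mul_eq_zero.1 k1).resolve_left k2]
    exact sum_congr rfl fun t _ => by rw [coeff_C_mul, mul_comm]

end MCV
end

-- merged part: Pool.Agent.Work.MP_80812c_nt.Crit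
section
/-!
A determinant criterion, the ring of Eisenstein integers, smallness of the forms.
-/

namespace MCV

open Finset PowerSeries

theorem crit {T ι : Type*} [Fintype ι] (O : Subring ℂ) (hO : ∀ x ∈ O, x ≠ 0 → 1 ≤ ‖x‖)
    (a : T → ι → ℂ) (ha : ∀ t l, a t l ∈ O) (e b : ι → ℂ) {B α : ℝ} (hB1 : 1 ≤ B) (hα0 : 0 ≤ α)
    (hB : ∀ t l, ‖a t l‖ ≤ B) (he : ∀ l, ‖e l‖ ≤ B) (hα : ∀ t, ‖∑ l, a t l * b l‖ ≤ α)
    (hz : ∀ y : ι → ℂ, (∀ t, ∑ l, a t l * y l = 0) → ∑ l, e l * y l = 0) :
    ‖∑ l, e l * b l‖ ≤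
      Fintype.card ι * ((Fintype.card ι).factorial * B ^ Fintype.card ι * α) := by
  classical
  obtain ⟨s, hs1, hs2, hs3⟩ := exists_linearIndependent ℂ (Set.range a)
  have hs4 : LinearIndepOn ℂ id s := hs3
  have ht : ⊤ ≤ Submodule.span ℂ (s ∪ Set.range (Pi.basisFun ℂ ι)) :=
    (Pi.basisFun ℂ ι).span_eq.ge.trans (Submodule.span_mono Set.subset_union_right)
  let bs := Module.Basis.extendLe hs4 Set.subset_union_left ht
  let v := bs.reindex (bs.indexEquiv (Pi.basisFun ℂ ι))
  have hr : Set.range v = Set.range bs := bs.range_reindex _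
  have h1 : s ⊆ Set.range v := hr ▸ Module.Basis.subset_extendLe _ _ _
  have h2 : ∀ i, v i ∈ s ∪ Set.range (Pi.basisFun ℂ ι) := fun i =>
    Module.Basis.extendLe_subset hs4 Set.subset_union_left ht (hr ▸ ⟨i, rfl⟩ : v i ∈ Set.range bs)
  have h3 : ∀ i l, v i l ∈ O ∧ ‖v i l‖ ≤ B := fun i l => by
    rcases h2 i with k | ⟨j, k⟩
    · obtain ⟨t, k⟩ := hs1 k
      exact k ▸ ⟨ha t l, hB t l⟩
    · rw [← k, Pi.basisFun_apply, Pi.single_apply]
      split_ifs
      · exact ⟨O.one_mem, by simpa using hB1⟩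
      · exact ⟨O.zero_mem, by simpa using zero_le_one.trans hB1⟩
  let A : Matrix ι ι ℂ := Matrix.of fun i l => v i l
  have h4 : 1 ≤ ‖A.det‖ := by
    refine hO _ ?_ ((Matrix.isUnit_iff_isUnit_det A).1
      (Matrix.linearIndependent_rows_iff_isUnit.1 v.linearIndependent)).ne_zero
    rw [Matrix.det_apply']
    exact O.sum_mem fun σ _ => O.mul_mem (intCast_mem O _) (O.prod_mem fun i _ => (h3 _ _).1)
  have h5 : ∀ i, ‖v.repr e i‖ ≤ (Fintype.card ι).factorial * B ^ Fintype.card ι := fun i => by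
    have k1 := Matrix.det_updateRow_sum A i (v.repr e)
    rw [show ∑ k, v.repr e k • A k = e from v.sum_repr e, smul_eq_mul] at k1
    have k2 := Matrix.det_le (A := A.updateRow i e) (abv := NormedField.toAbsoluteValue ℂ) (x := B)
      fun j l => by
        rw [Matrix.updateRow_apply]
        split_ifs
        · exact he l
        · exact (h3 j l).2
    rw [k1, nsmul_eq_mul] at k2
    refine le_trans ?_ k2
    show _ ≤ ‖v.repr e i * A.det‖
    rw [norm_mul]
    exact le_mul_of_one_le_right (norm_nonneg _) h4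
  have h6 : ∀ i, v i ∉ s → v.repr e i = 0 := fun i hi => by
    have k1 : ∀ x : ι → ℂ, v.coord i x = ∑ l, x l * v.coord i (Pi.single l 1) := fun x => by
      conv_lhs => rw [pi_eq_sum_univ' x]
      simp only [map_sum, map_smul, smul_eq_mul]
    rw [← v.coord_apply, k1]
    refine hz _ fun t => ?_
    rw [← k1]
    have k2 : Submodule.span ℂ s ≤ LinearMap.ker (v.coord i) := Submodule.span_le.2 fun x hx => by
      obtain ⟨j, rfl⟩ := h1 hx
      have : j ≠ i := fun k => hi (k ▸ hx)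
      simp [this]
    exact k2 (hs2 ▸ Submodule.subset_span ⟨t, rfl⟩)
  have h7 : ∑ l, e l * b l = ∑ i, v.repr e i * ∑ l, v i l * b l := by
    conv_lhs => rw [← v.sum_repr e]
    simp only [Finset.sum_apply, Pi.smul_apply, smul_eq_mul, sum_mul, mul_sum, mul_assoc]
    exact sum_comm
  rw [h7, ← nsmul_eq_mul, ← card_univ]
  refine (norm_sum_le _ _).trans (sum_le_card_nsmul _ _ _ fun i _ => ?_)
  by_cases hi : v i ∈ s
  · obtain ⟨t, k⟩ := hs1 hi
    rw [norm_mul, ← k]
    exact mul_le_mul (h5 i) (hα t) (norm_nonneg _) (by positivity)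
  · rw [h6 i hi, zero_mul, norm_zero]
    positivity

/-- The point `exp (i π / 3)`. -/
noncomputable def om : ℂ := Complex.exp (((Real.pi / 3 : ℝ) : ℂ) * Complex.I)

theorem om_re : om.re = 1 / 2 := by rw [om, Complex.exp_ofReal_mul_I_re, Real.cos_pi_div_three]

theorem om_im : om.im = √3 / 2 := by rw [om, Complex.exp_ofReal_mul_I_im, Real.sin_pi_div_three]

theorem norm_om : ‖om‖ = 1 := Complex.norm_exp_ofReal_mul_I _

theorem om_sq : om * om = om - 1 := by
  have h : √3 * √3 = 3 := Real.mul_self_sqrt (by norm_num)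
  apply Complex.ext <;> simp [om_re, om_im]
  · linarith only [h]
  · ring

/-- The Eisenstein integers. -/
def OO : Subring ℂ where
  carrier := {x | ∃ a b : ℤ, x = a + b * om}
  mul_mem' := by
    rintro _ _ ⟨a, b, rfl⟩ ⟨c, d, rfl⟩
    exact ⟨a * c - b * d, a * d + b * c + b * d, by push_cast; linear_combination b * d * om_sq⟩
  one_mem' := ⟨1, 0, by simp⟩
  add_mem' := by
    rintro _ _ ⟨a, b, rfl⟩ ⟨c, d, rfl⟩
    exact ⟨a + c, b + d, by push_cast; ring⟩
  zero_mem' := ⟨0, 0, by simp⟩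
  neg_mem' := by
    rintro _ ⟨a, b, rfl⟩
    exact ⟨-a, -b, by push_cast; ring⟩

theorem om_mem : om ∈ OO := ⟨0, 1, by simp⟩

theorem one_le_norm_OO : ∀ x ∈ OO, x ≠ 0 → 1 ≤ ‖x‖ := by
  rintro _ ⟨a, b, rfl⟩ h
  have h3 : √3 * √3 = 3 := Real.mul_self_sqrt (by norm_num)
  have h1 : ‖(a : ℂ) + b * om‖ ^ 2 = ((a ^ 2 + a * b + b ^ 2 : ℤ) : ℝ) := by
    rw [Complex.sq_norm, Complex.normSq_apply]
    simp [om_re, om_im]
    linear_combination (b : ℝ) ^ 2 / 4 * h3
  have h2 : 0 < ‖(a : ℂ) + b * om‖ := norm_pos_iff.2 h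
  have h4 : (1 : ℤ) ≤ a ^ 2 + a * b + b ^ 2 := by
    have : (0 : ℝ) < ((a ^ 2 + a * b + b ^ 2 : ℤ) : ℝ) := by rw [← h1]; positivity
    exact_mod_cast this
  have h5 : (1 : ℝ) ≤ ‖(a : ℂ) + b * om‖ ^ 2 := by rw [h1]; exact_mod_cast h4
  (refine le_of_not_gt fun h_nl => ?_; linarith only [h_nl, h5, h2, mul_pos_of_neg_of_neg (Mathlib.Tactic.Linarith.sub_neg_of_lt h2) (Mathlib.Tactic.Linarith.sub_neg_of_lt h_nl)])

/-- The point `ω` in the variable `y`. -/
noncomputable def y0 : ℂ := om / (2 - om)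

theorem norm_y0 : ‖y0‖ ≤ 7 / 8 * (2 / 3) := by
  have h3 : √3 * √3 = 3 := Real.mul_self_sqrt (by norm_num)
  have h1 : ‖2 - om‖ ^ 2 = 3 := by
    rw [Complex.sq_norm, Complex.normSq_apply]
    simp [om_re, om_im]
    linarith only [h3]
  have h2 := norm_nonneg (2 - om)
  have h4 : 12 / 7 ≤ ‖2 - om‖ := by (refine le_of_not_gt fun h_nl => ?_; linarith only [h_nl, h1, h2, mul_nonneg_of_nonpos_of_nonpos (Mathlib.Tactic.Linarith.sub_nonpos_of_le h2) (le_of_lt (Mathlib.Tactic.Linarith.sub_neg_of_lt h_nl))])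
  rw [y0, norm_div, norm_om, div_le_iff₀ (by linarith only [h4])]
  linarith only [h4]

theorem two_sub_ne {x : ℂ} (h : ‖x‖ ≤ 1) : 2 - x ≠ 0 := fun k => by
  rw [← sub_eq_zero.1 k] at h
  norm_num at h

theorem y0_pos : 0 < ‖y0‖ :=
  norm_pos_iff.2 (div_ne_zero (norm_pos_iff.1 (by simp [norm_om])) (two_sub_ne norm_om.le))

theorem y0_lt : ‖y0‖ < 1 := norm_y0.trans_lt (by norm_num)

theorem ev_XX : ev y0 XX = om := by
  have h1 := congrArg (evH y0) (show (1 + ⟨X, (sm_X (y := 0) _).1⟩) * ⟨XX, sm_XX y0_pos y0_lt⟩ =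
    (2 * ⟨X, (sm_X (y := 0) _).1⟩ : Bs ‖y0‖ (norm_nonneg _)) from Subtype.ext (by
      show (1 + X) * XX = 2 * X
      rw [XX]
      linear_combination 2 * X * G1_mul))
  simp only [map_mul, map_add, map_one, map_ofNat] at h1
  have h2 : (1 + ev y0 X) * ev y0 XX = 2 * ev y0 X := h1
  have h3 := two_sub_ne norm_om.le
  generalize ev y0 XX = t at h2 ⊢
  rw [(sm_X 0).2, y0] at h2
  field_simp at h2
  linear_combination h2 / 2

/-- The boundary values. -/
noncomputable def xiV (w u : ℕ) (b : Bool) : ℂ := ev y0 (xiS w u b)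

theorem mu_ev (w u m : ℕ) : Sm ‖y0‖ (mu XX xiS w u m) ∧
    mu om xiV w u m = ev y0 (mu XX xiS w u m) := by
  let z : Bs ‖y0‖ (norm_nonneg _) := ⟨XX, sm_XX y0_pos y0_lt⟩
  let ξ : ℕ → ℕ → Bool → Bs ‖y0‖ (norm_nonneg _) := fun w u b =>
    ⟨xiS w u b, sm_AA y0_pos y0_lt (xiS_mem w u b)⟩
  have h1 : (mu z ξ w u m).1 = mu XX xiS w u m :=
    congrFun (mu_map (Bs ‖y0‖ (norm_nonneg _)).val.toRingHom z ξ w u) m
  have h2 := congrFun (mu_map (evH y0) z ξ w u) m
  refine ⟨h1 ▸ (mu z ξ w u m).2, ?_⟩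
  rw [← h1, ← ev_XX]
  exact h2.symm

theorem ev_sum {ι : Type*} {y : ℂ} (s : Finset ι) (c : ι → ℂ) {f : ι → ℂ⟦X⟧}
    (hf : ∀ i, Sm ‖y‖ (f i)) : ev y (∑ i ∈ s, C (c i) * f i) = ∑ i ∈ s, c i * ev y (f i) := by
  have h := map_sum (evH y) (fun i => ⟨C (c i), (sm_C (y := 0) _ _).1⟩ * ⟨f i, hf i⟩) s
  simp only [map_mul] at h
  convert h using 1
  · show _ = ev y _
    congr 1
    simp
  · exact sum_congr rfl fun i _ => congrArg (· * ev y (f i)) (sm_C (y := y) 0 (c i)).2.2.symm

theorem small {N n M : ℕ} (p : Fin N × Fin (n + 1) → ℂ) {H : ℝ} (hp : ∀ t, ‖p t‖ ≤ H)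
    (hM : X ^ M ∣ ∑ t, C (p t) * (XX ^ t.2.1 * ell t.1)) (u : Fin N) (j : ℕ) :
    ‖∑ t, p t * mu om xiV t.1 u (t.2 + j)‖ ≤ (7 / 8) ^ M * (nm (2 / 3) (derivative ℂ XX) *
      (Real.exp (la * j) * cE N) * (N * (n + 1) * (H * (Real.exp (la * n) * cE N)))) := by
  have h0 : (0 : ℝ) ≤ 2 / 3 := by norm_num
  set R := ∑ t : Fin N × Fin (n + 1), C (p t) * (XX ^ t.2.1 * ell t.1) with hR
  set Ψ := ∑ t : Fin N × Fin (n + 1), C (p t) * mu XX xiS t.1 u (t.2 + j) with hΨ
  have h1 : derivative ℂ Ψ = derivative ℂ XX * (XX ^ j * ell u) * R := by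
    rw [hΨ, hR, map_sum, mul_sum]
    refine sum_congr rfl fun t _ => ?_
    rw [Derivation.leibniz, derivative_C, smul_zero, add_zero, smul_eq_mul, (mu_deriv _ _ _).1]
    ring
  have h2 : constantCoeff Ψ = 0 := by simp [hΨ, (mu_deriv _ _ _).2]
  have h3 : ∀ t : Fin N × Fin (n + 1), Sm (2 / 3) (C (p t) * (XX ^ t.2.1 * ell t.1)) ∧
      nm (2 / 3) (C (p t) * (XX ^ t.2.1 * ell t.1)) ≤ H * (Real.exp (la * n) * cE N) := fun t => by
    have k1 := nm_XX_ell t.1.2 t.2.1
    have k2 := Sm.mul' h0 (sm_C (y := 0) _ (p t)).1 k1.1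
    refine ⟨k2.1, k2.2.trans ?_⟩
    rw [(sm_C (y := 0) _ _).2.1]
    refine mul_le_mul (hp t) (k1.2.trans ?_) (nm_nonneg h0 _) ((norm_nonneg _).trans (hp t))
    have k3 : (t.2.1 : ℝ) ≤ n := by exact_mod_cast Nat.lt_succ_iff.1 t.2.2
    exact mul_le_mul_of_nonneg_right (Real.exp_le_exp.2 (mul_le_mul_of_nonneg_left k3 la_nonneg))
      (zero_le_one.trans (one_le_cE N))
  have h4 : Sm (2 / 3) R := (Bs _ h0).sum_mem fun t _ => (h3 t).1
  have h5 : nm (2 / 3) R ≤ N * (n + 1) * (H * (Real.exp (la * n) * cE N)) := by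
    refine (Sm.nm_sum h0 _ fun t _ => (h3 t).1).trans
      ((sum_le_card_nsmul _ _ _ fun t _ => (h3 t).2).trans_eq ?_)
    simp
  have h6 : Sm (2 / 3) (derivative ℂ XX) :=
    (sm_XX (ρ := 3 / 4) (by norm_num) (by norm_num)).deriv h0 (by norm_num)
  have h7 := nm_XX_ell u.2 j
  have h8 := Sm.mul' h0 h6 h7.1
  have h9 := Sm.mul' h0 h8.1 h4
  rw [← h1] at h9
  have h10 := sm_of_deriv h0 (by norm_num) h2 h9.1
  have h11 := h10.1.small h0 (by norm_num) (by norm_num) norm_y0
    (dvd_of_deriv h2 (h1 ▸ hM.mul_left _))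
  rw [sum_congr rfl fun t _ => by rw [(mu_ev _ _ _).2], ← ev_sum _ _ fun t => (mu_ev _ _ _).1]
  refine h11.trans (mul_le_mul_of_nonneg_left (h10.2.trans (h9.2.trans ?_)) (by positivity))
  have h12 := h8.2.trans (mul_le_mul_of_nonneg_left h7.2 (nm_nonneg h0 _))
  exact mul_le_mul h12 h5 (nm_nonneg h0 _) ((nm_nonneg h0 _).trans h12)

end MCV
end

-- merged part: Pool.Agent.Work.MP_80812c_nt.Low
section
/-!
The lower bound for the dimension of a rational space that contains all boundary values.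
-/

namespace MCV

open Finset PowerSeries

theorem nonneg_of_exp {C x : ℝ} {n0 : ℕ} (h : ∀ n ≥ n0, 1 ≤ C * Real.exp (x * n)) : 0 ≤ x := by
  by_contra hx
  have h1 : Filter.Tendsto (fun n : ℕ => C * Real.exp (x * n)) Filter.atTop (nhds (C * 0)) :=
    (Real.tendsto_exp_atBot.comp (tendsto_natCast_atTop_atTop.const_mul_atTop_of_neg
      (not_le.1 hx))).const_mul C
  have h2 := ge_of_tendsto h1 (Filter.eventually_atTop.2 ⟨n0, h⟩)
  linarith

theorem exists_bound {ι : Type*} [Finite ι] (f : ι → ℕ → ℂ) (h : ∀ i, ∃ B : ℝ, ∀ m, ‖f i m‖ ≤ B) :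
    ∃ B : ℝ, 1 ≤ B ∧ ∀ i m, ‖f i m‖ ≤ B := by
  choose B hB using h
  obtain ⟨C, hC⟩ := Finite.exists_le B
  exact ⟨max 1 C, le_max_left _ _, fun i m => ((hB i m).trans (hC i)).trans (le_max_right _ _)⟩

theorem lower_forms {ι : Type*} [Fintype ι] {h : ℕ} (hh : 1 ≤ h) (b : ι → ℂ)
    (c : ι → ℕ → ℕ → Bool → ℂ) (hc : ∀ l w u t, c l w u t ∈ OO)
    (hξ : ∀ w < 4 ^ h, ∀ u < 4 ^ h, ∀ t, xiV w u t = ∑ l, b l * c l w u t) :
    (2 : ℝ) ^ h ≤ 8 * (97 + 5 * la) * (h + 1) * (Fintype.card ι + 1) := by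
  set N := 4 ^ h with hN
  set D := Fintype.card ι with hD
  have hN0 : 0 < N := by positivity
  obtain ⟨B0, hB0, hB1⟩ := exists_bound (fun t : ι × Fin N × Fin N => mu om (c t.1) t.2.1 t.2.2)
    fun t => mu_bound norm_om.le _ _ _
  obtain ⟨B2, hB2, hB3⟩ := exists_bound (fun (l : ι) (_ : ℕ) => c l 0 0 false)
    fun l => ⟨_, fun _ => le_rfl⟩
  have hla := la_nonneg
  have hE := one_le_cE N
  have hh0 : (0 : ℝ) ≤ h := Nat.cast_nonneg h
  have hNr : (1 : ℝ) ≤ N := by exact_mod_cast hN0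
  have hX := nm_nonneg (ρ := 2 / 3) (by norm_num) (derivative ℂ XX)
  set C1 : ℝ := N * (N * cE N) * B0 * B2 with hC1
  set C2 : ℝ := nm (2 / 3) (derivative ℂ XX) * cE N * (N * (N * cE N) * cE N) with hC2
  have hC3 : B2 ≤ C1 := le_mul_of_one_le_left (by linarith only [hB2])
    (one_le_mul_of_one_le_of_one_le (one_le_mul_of_one_le_of_one_le hNr
      (one_le_mul_of_one_le_of_one_le hNr hE)) hB0)
  have key := nonneg_of_exp (n0 := 8 * N) (C := D * (D.factorial * C1 ^ D * C2))
    (x := (97 + 5 * la) * (h + 1) * (D + 1) - 2 ^ h / 8) fun n hn => ?_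
  · linarith only [key]
  have hn1 : 1 ≤ n := by omega
  have hn0 : (0 : ℝ) ≤ n := Nat.cast_nonneg n
  obtain ⟨p, hp0, hp1, hp2⟩ := siegel hh hn1
  set d := Nat.lcmUpto (3 * n) with hd
  have hd0 : (d : ℂ) ^ (4 * h + 1) ≠ 0 := pow_ne_zero _ (Nat.cast_ne_zero.2 (Nat.lcmUpto_ne_zero _))
  have hd1 : ‖(d : ℂ) ^ (4 * h + 1)‖ ≤ Real.exp (72 * (h + 1) * n) := by
    rw [norm_pow, Complex.norm_natCast]
    refine (pow_le_pow_left₀ (Nat.cast_nonneg _) (lcmUpto_le _) _).trans ?_
    rw [← Real.exp_nat_mul, Real.exp_le_exp]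
    push_cast
    linarith only []
  have hn2 : (n : ℝ) + 1 ≤ Real.exp ((h + 1) * n) :=
    (Real.add_one_le_exp _).trans (Real.exp_le_exp.2 (by linarith only [mul_nonneg_of_nonpos_of_nonpos (Mathlib.Tactic.Linarith.sub_nonpos_of_le (Mathlib.Tactic.Linarith.natCast_nonneg ℝ h)) (Mathlib.Tactic.Linarith.sub_nonpos_of_le (Mathlib.Tactic.Linarith.natCast_nonneg ℝ n))]))
  have h4N : (4 : ℝ) ^ h = N := by rw [hN]; push_cast; ring
  rw [h4N] at hp1
  set G := Real.exp ((97 + 5 * la) * (h + 1) * n) with hG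
  have hG1 : 1 ≤ G := Real.one_le_exp (by positivity)
  have hG2 : Real.exp (72 * (h + 1) * n) * Real.exp ((h + 1) * n) *
      Real.exp (2 * (12 + la) * (h + 1) * n) * Real.exp (3 * la * n) ≤ G := by
    rw [← Real.exp_add, ← Real.exp_add, ← Real.exp_add, hG, Real.exp_le_exp]
    linarith only [hla, hh0, hn0, mul_nonneg (mul_nonneg hla hh0) hn0]
  have hG3 : 1 ≤ Real.exp (3 * la * n) := Real.one_le_exp (by positivity)
  let a : Fin N × Fin (2 * n) → ι → ℂ := fun s l => (d : ℂ) ^ (4 * h + 1) *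
    ∑ t : Fin N × Fin (n + 1), (p t : ℂ) * mu om (c l) t.1 s.1 (t.2 + s.2)
  have hsum : ∀ (y : ι → ℂ) (ξ : ℕ → ℕ → Bool → ℂ),
      (∀ w < N, ∀ u < N, ∀ t, ξ w u t = ∑ l, y l * c l w u t) → ∀ s, ∑ l, a s l * y l =
      (d : ℂ) ^ (4 * h + 1) * ∑ t : Fin N × Fin (n + 1), (p t : ℂ) * mu om ξ t.1 s.1 (t.2 + s.2) :=
    fun y ξ hy s => by
      simp only [a, mul_assoc, ← mul_sum, sum_mul]
      rw [sum_comm]
      refine congrArg _ (sum_congr rfl fun t _ => ?_)
      rw [mu_lin univ y om ξ c hy _ _ t.1.2 s.1.2, mul_sum]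
      exact sum_congr rfl fun l _ => by ring
  have h1 := crit OO one_le_norm_OO a (fun s l => ?_) (fun l => c l 0 0 false) b (B := C1 * G)
    (α := (7 / 8) ^ (2 ^ h * n) * (C2 * G))
    (one_le_mul_of_one_le_of_one_le (hB2.trans hC3) hG1) (by positivity) (fun s l => ?_)
    (fun l => ((hB3 l 0).trans hC3).trans (le_mul_of_one_le_right (by linarith only [hB2, hC3]) hG1))
    (fun s => ?_) fun y hy => ?_
  · rw [sum_congr rfl fun l _ => mul_comm (c l 0 0 false) (b l), ← hξ 0 hN0 0 hN0,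
      show xiV 0 0 false = 1 from by simpa [xiV, xiS] using (sm_C (y := y0) 0 1).2.2,
      norm_one] at h1
    refine h1.trans ?_
    have k1 : (7 / 8 : ℝ) ^ (2 ^ h * n) ≤ Real.exp (-(2 ^ h / 8) * n) := by
      refine (pow_le_pow_left₀ (by norm_num) (show (7 / 8 : ℝ) ≤ Real.exp (-(1 / 8)) by
        linarith only [Real.add_one_le_exp (-(1 / 8) : ℝ)]) _).trans_eq ?_
      rw [← Real.exp_nat_mul]
      congr 1
      push_cast
      ring
    have k2 : Real.exp (((97 + 5 * la) * (h + 1) * (D + 1) - 2 ^ h / 8) * n) =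
        G ^ (D + 1) * Real.exp (-(2 ^ h / 8) * n) := by
      rw [hG, ← Real.exp_nat_mul, ← Real.exp_add]
      congr 1
      push_cast
      ring
    rw [k2]
    calc _ ≤ D * (D.factorial * (C1 * G) ^ D * (Real.exp (-(2 ^ h / 8) * n) * (C2 * G))) := by
          gcongr
      _ = _ := by ring
  · simp only [a, mul_sum, mul_left_comm ((d : ℂ) ^ (4 * h + 1))]
    refine OO.sum_mem fun t _ => OO.mul_mem (intCast_mem OO _) ?_
    refine mu_den OO om_mem (N := N) (fun w _ u _ t => hc l w u t) (M := 3 * n)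
      (fun m hm => dvd_lcmUpto hm) _ _ t.1.2 s.1.2 _ ?_ _ (by have := t.2.2; have := s.2.2; omega)
    have k1 : Nat.size t.1 ≤ 2 * h := by rw [Nat.size_le, pow_mul]; exact t.1.2
    have k2 : Nat.size s.1 ≤ 2 * h := by rw [Nat.size_le, pow_mul]; exact s.1.2
    omega
  · have k1 : ‖∑ t : Fin N × Fin (n + 1), (p t : ℂ) * mu om (c l) t.1 s.1 (t.2 + s.2)‖ ≤
        N * (n + 1) * (N * cE N * Real.exp (2 * (12 + la) * (h + 1) * n) * B0) := by
      refine (norm_sum_le _ _).trans ((sum_le_card_nsmul _ _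
        (N * cE N * Real.exp (2 * (12 + la) * (h + 1) * n) * B0) fun t _ => ?_).trans_eq ?_)
      · rw [norm_mul]
        exact mul_le_mul (hp1 t) (hB1 (l, t.1, s.1) _) (norm_nonneg _) (by positivity)
      · simp
    simp only [a, norm_mul]
    calc _ ≤ Real.exp (72 * (h + 1) * n) * (N * Real.exp ((h + 1) * n) *
          (N * cE N * Real.exp (2 * (12 + la) * (h + 1) * n) * B0)) :=
          mul_le_mul hd1 (k1.trans (by gcongr)) (norm_nonneg _) (by positivity)
      _ = N * (N * cE N) * B0 * 1 * (Real.exp (72 * (h + 1) * n) * Real.exp ((h + 1) * n) *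
          Real.exp (2 * (12 + la) * (h + 1) * n) * 1) := by ring
      _ ≤ _ := mul_le_mul (by rw [hC1]; gcongr) (le_trans (by gcongr) hG2) (by positivity)
          (by positivity)
  · rw [hsum b xiV hξ, norm_mul]
    have k1 := small (fun t => (p t : ℂ)) hp1 hp2 s.1 s.2
    have k2 : Real.exp (la * s.2.1) ≤ Real.exp (2 * la * n) := by
      have : (s.2.1 : ℝ) ≤ 2 * n := by exact_mod_cast s.2.2.le
      rw [Real.exp_le_exp]
      linarith only [hla, this, mul_nonneg_of_nonpos_of_nonpos (Mathlib.Tactic.Linarith.sub_nonpos_of_le hla) (Mathlib.Tactic.Linarith.sub_nonpos_of_le this)]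
    calc _ ≤ Real.exp (72 * (h + 1) * n) * ((7 / 8) ^ (2 ^ h * n) *
          (nm (2 / 3) (derivative ℂ XX) * (Real.exp (2 * la * n) * cE N) *
          (N * Real.exp ((h + 1) * n) * (N * cE N * Real.exp (2 * (12 + la) * (h + 1) * n) *
            (Real.exp (la * n) * cE N))))) :=
          mul_le_mul hd1 (k1.trans (by gcongr)) (norm_nonneg _) (by positivity)
      _ = (7 / 8) ^ (2 ^ h * n) * (C2 * (Real.exp (72 * (h + 1) * n) * Real.exp ((h + 1) * n) *
          Real.exp (2 * (12 + la) * (h + 1) * n) * Real.exp (3 * la * n))) := by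
          rw [hC2, show 3 * la * n = 2 * la * n + la * n by ring, Real.exp_add]
          ring
      _ ≤ _ := by gcongr
  · have k1 := zero_est (z := om) (norm_pos_iff.1 (by simp [norm_om]))
      (fun w u t => ∑ l, y l * c l w u t) hn (fun t => (p t : ℂ))
      (fun k => hp0 (funext fun t => by simpa using congrFun k t)) fun u j hj => by
        have k2 := hy (u, ⟨j, hj⟩)
        rw [hsum y _ fun _ _ _ _ _ => rfl] at k2
        exact (mul_eq_zero.1 k2).resolve_left hd0
    rw [← k1]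
    exact sum_congr rfl fun l _ => mul_comm _ _

theorem lower_W {h : ℕ} (hh : 1 ≤ h) (W : Submodule ℚ ℂ) [FiniteDimensional ℚ W]
    (hW : ∀ w < 4 ^ h, ∀ u < 4 ^ h, ∀ t, xiV w u t ∈ W) :
    (2 : ℝ) ^ h ≤ 8 * (97 + 5 * la) * (h + 1) * (Module.finrank ℚ W + 1) := by
  let bs := Module.finBasis ℚ W
  obtain ⟨q, hq, a, ha⟩ := clear_den (A := ℤ) (F := ℚ)
    fun t : (Fin (4 ^ h) × Fin (4 ^ h) × Bool) × Fin (Module.finrank ℚ W) =>
      bs.repr ⟨_, hW _ t.1.1.2 _ t.1.2.1.2 t.1.2.2⟩ t.2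
  have h1 := lower_forms hh (fun l => (bs l : ℂ) / q)
    (fun l w u t => if k : w < 4 ^ h ∧ u < 4 ^ h then (a ((⟨w, k.1⟩, ⟨u, k.2⟩, t), l) : ℂ) else 0)
    (fun l w u t => by
      split_ifs
      · exact intCast_mem OO _
      · exact OO.zero_mem)
    fun w hw u hu t => by
      have k1 := congrArg Subtype.val (bs.sum_repr ⟨_, hW w hw u hu t⟩)
      simp only [AddSubmonoidClass.coe_finsetSum, SetLike.val_smul] at k1
      rw [← k1]
      refine sum_congr rfl fun l _ => ?_
      have k2 := congrArg (fun x : ℚ => (x : ℂ)) (ha ((⟨w, hw⟩, ⟨u, hu⟩, t), l))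
      simp only [eq_intCast, Rat.cast_intCast, Rat.cast_mul] at k2
      have k3 : (q : ℂ) ≠ 0 := Int.cast_ne_zero.2 hq
      rw [dif_pos ⟨hw, hu⟩, k2, Rat.smul_def]
      field_simp
  simpa using h1

end MCV
end

-- merged part: Pool.Agent.Work.MP_80812c_nt.Link
section
/-!
The Taylor coefficients at `x = 0`, convergence at `ω`, and the identification of the limit.
-/

namespace MCV

open Finset PowerSeries Filter Topology

/-- The Taylor coefficients of the polylogarithm of a word. -/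
noncomputable def cw (w : ℕ) : ℕ → ℝ :=
  if _h : w = 0 then fun m => if m = 0 then 1 else 0
  else fun m => (if w % 2 = 0 then cw (w / 2) m else ∑ i ∈ range m, cw (w / 2) i) / m
termination_by w
decreasing_by all_goals omega

theorem cw_zero (m : ℕ) : cw 0 m = if m = 0 then 1 else 0 := by rw [cw, dif_pos rfl]

theorem cw_pos {w : ℕ} (hw : w ≠ 0) (m : ℕ) :
    cw w m = (if w % 2 = 0 then cw (w / 2) m else ∑ i ∈ range m, cw (w / 2) i) / m := by
  rw [cw, dif_neg hw]

theorem sum_inv_sqrt (m : ℕ) : ∑ i ∈ range m, 1 / √((i : ℝ) + 1) ≤ 2 * √m := by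
  induction m with
  | zero => simp
  | succ m ih =>
    rw [sum_range_succ, Nat.cast_succ]
    have h1 : √(m : ℝ) * √m = m := Real.mul_self_sqrt (Nat.cast_nonneg m)
    have h2 : √((m : ℝ) + 1) * √(m + 1) = m + 1 := Real.mul_self_sqrt (by positivity)
    have h3 : 0 < √((m : ℝ) + 1) := by positivity
    have h4 : 1 / √((m : ℝ) + 1) ≤ 2 * √(m + 1) - 2 * √m := by
      rw [div_le_iff₀ h3]
      linarith only [h1, h2, sq_nonneg (√((m : ℝ) + 1) - √m), sq_nonneg (√(↑m + (1 : ℝ)) - √↑m)]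
    linarith only [ih, h4]

theorem sum_cw_le {c : ℕ → ℝ} {C : ℝ} (hC : 0 ≤ C) (h : ∀ m, c m ≤ C / √((m : ℝ) + 1)) (m : ℕ) :
    ∑ i ∈ range m, c i ≤ 2 * C * √m := by
  refine (sum_le_sum fun i _ => h i).trans ?_
  simp only [div_eq_mul_one_div C, ← mul_sum]
  linarith only [hC, mul_le_mul_of_nonneg_left (sum_inv_sqrt m) hC]

theorem cw_bound (w : ℕ) : ∃ C : ℝ, 0 ≤ C ∧ ∀ m, 0 ≤ cw w m ∧ cw w m ≤ C / √((m : ℝ) + 1) := by
  induction w using Nat.strong_induction_on with
  | _ w ih =>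
    by_cases hw : w = 0
    · refine ⟨1, zero_le_one, fun m => ?_⟩
      rw [hw, cw_zero]
      split_ifs with h
      · simp [h]
      · exact ⟨le_rfl, by positivity⟩
    obtain ⟨C, hC, h⟩ := ih (w / 2) (by omega)
    refine ⟨4 * C, by positivity, fun m => ?_⟩
    rw [cw_pos hw]
    rcases Nat.eq_zero_or_pos m with rfl | hm
    · simpa using hC
    have h1 : (1 : ℝ) ≤ m := by exact_mod_cast hm
    have h3 : 0 < √((m : ℝ) + 1) := by positivity
    split_ifs
    · refine ⟨div_nonneg (h m).1 (by positivity), (div_le_self (h m).1 h1).trans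
        ((h m).2.trans ?_)⟩
      gcongr
      linarith only [hC]
    · refine ⟨div_nonneg (sum_nonneg fun i _ => (h i).1) (by positivity), ?_⟩
      have h4 := sum_cw_le hC (fun i => (h i).2) m
      have h5 : √(m : ℝ) * √m = m := Real.mul_self_sqrt (Nat.cast_nonneg m)
      have h6 : √((m : ℝ) + 1) ≤ 2 * √m := by
        rw [Real.sqrt_le_left (by positivity)]
        linarith only [h1, h5]
      rw [div_le_div_iff₀ (by positivity) h3]
      calc _ ≤ 2 * C * √m * (2 * √m) := by gcongr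
        _ = _ := by linear_combination 4 * C * h5

theorem summable_32 : Summable fun m : ℕ => 1 / ((m : ℝ) * √m) := by
  refine (Real.summable_one_div_nat_rpow.2 (show (1 : ℝ) < 1 + 1 / 2 by norm_num)).congr
    fun m => ?_
  rw [Real.rpow_add' (Nat.cast_nonneg m) (by norm_num), Real.rpow_one, Real.sqrt_eq_rpow]

theorem summable_cw_div (w : ℕ) : Summable fun m : ℕ => cw w m / m := by
  obtain ⟨C, hC, h⟩ := cw_bound w
  refine Summable.of_nonneg_of_le (fun m => div_nonneg (h m).1 (Nat.cast_nonneg m))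
    (fun m => ?_) (summable_32.mul_left C)
  rcases Nat.eq_zero_or_pos m with rfl | hm
  · simp
  have h1 : (0 : ℝ) < m := by exact_mod_cast hm
  calc _ ≤ C / √m / m := by
        gcongr
        exact (h m).2.trans (by gcongr; linarith only [])
    _ = _ := by field_simp

theorem summable_cw_sub {w : ℕ} (hw : w ≠ 0) : Summable fun m => cw w (m + 1) - cw w m := by
  by_cases h2 : w % 2 = 0
  · have h1 : Summable (cw w) := (summable_cw_div (w / 2)).congr fun m => by
      rw [cw_pos hw, if_pos h2]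
    exact ((summable_nat_add_iff 1).2 h1).sub h1
  obtain ⟨C, hC, h⟩ := cw_bound (w / 2)
  have h3 : Summable fun m : ℕ => cw (w / 2) m / (m + 1) := by
    refine Summable.of_nonneg_of_le (fun m => div_nonneg (h m).1 (by positivity))
      (fun m => ?_) (((summable_nat_add_iff 1).2 summable_32).mul_left C)
    calc _ ≤ C / √(m + 1) / (m + 1) := by gcongr; exact (h m).2
      _ = _ := by push_cast; field_simp
  have h4 : Summable fun m : ℕ => (∑ i ∈ range m, cw (w / 2) i) / (m * (m + 1)) := by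
    refine Summable.of_nonneg_of_le
      (fun m => div_nonneg (sum_nonneg fun i _ => (h i).1) (by positivity))
      (fun m => ?_) (summable_32.mul_left (2 * C))
    rcases Nat.eq_zero_or_pos m with rfl | hm
    · simp
    have h1 : (0 : ℝ) < m := by exact_mod_cast hm
    have h5 : √(m : ℝ) * √m = m := Real.mul_self_sqrt h1.le
    calc _ ≤ 2 * C * √m / (m * (√m * √m)) := by
          gcongr
          · exact sum_cw_le hC (fun i => (h i).2) m
          · linarith only [h5]
      _ = _ := by field_simp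
  refine (h3.sub h4).congr fun m => ?_
  rw [cw_pos hw, cw_pos hw, if_neg h2, if_neg h2, sum_range_succ]
  rcases Nat.eq_zero_or_pos m with rfl | hm
  · simp
  have h1 : (0 : ℝ) < m := by exact_mod_cast hm
  push_cast
  field_simp
  ring

theorem om_ne_one : 1 - om ≠ 0 := fun h => by
  have := congrArg Complex.re h
  simp [om_re] at this
  norm_num at this

theorem exists_lim {w : ℕ} (hw : w ≠ 0) :
    ∃ l, Tendsto (fun N => ∑ m ∈ range N, (cw w m : ℂ) * om ^ m) atTop (𝓝 l) := by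
  have h1 : ∀ N, ∑ m ∈ range (N + 1), (cw w m : ℂ) * om ^ m = (cw w 0 + ∑ m ∈ range N,
      ((cw w (m + 1) - cw w m : ℝ) : ℂ) * om ^ (m + 1) - cw w N * om ^ (N + 1)) / (1 - om) := by
    intro N
    rw [eq_div_iff om_ne_one]
    induction N with
    | zero => simp; ring
    | succ N ih =>
      rw [sum_range_succ, add_mul, ih, sum_range_succ]
      push_cast
      ring
  have h2 : Summable fun m => ((cw w (m + 1) - cw w m : ℝ) : ℂ) * om ^ (m + 1) := by
    refine Summable.of_norm ((summable_cw_sub hw).norm.congr fun m => ?_)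
    rw [norm_mul, norm_pow, norm_om, one_pow, mul_one, Complex.norm_real]
  have h3 : Tendsto (fun N => (cw w N : ℂ) * om ^ (N + 1)) atTop (𝓝 0) := by
    obtain ⟨C, -, h⟩ := cw_bound w
    refine squeeze_zero_norm (a := fun N : ℕ => C / √((N : ℝ) + 1)) (fun N => ?_) ?_
    · rw [norm_mul, norm_pow, norm_om, one_pow, mul_one, Complex.norm_real,
        Real.norm_of_nonneg (h N).1]
      exact (h N).2
    · exact tendsto_const_nhds.div_atTop (Real.tendsto_sqrt_atTop.comp
        (tendsto_atTop_add_const_right _ 1 tendsto_natCast_atTop_atTop))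
  have h4 := ((h2.hasSum.tendsto_sum_nat.const_add (cw w 0 : ℂ)).sub h3).div_const (1 - om)
  simp only [← h1] at h4
  exact ⟨_, (tendsto_add_atTop_iff_nat 1).1 h4⟩

/-- The polylogarithm as a series in `x`. -/
noncomputable def LL (w : ℕ) : ℂ⟦X⟧ := PowerSeries.mk fun m => (cw w m : ℂ)

/-- Radius of convergence at least one. -/
def Rad (f : ℂ⟦X⟧) : Prop := ∀ ρ : ℝ, 0 ≤ ρ → ρ < 1 → Sm ρ f

theorem rad_of_pos {f : ℂ⟦X⟧} (h : ∀ ρ : ℝ, 0 < ρ → ρ < 1 → Sm ρ f) : Rad f := fun ρ h0 h1 =>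
  (h ((ρ + 1) / 2) (by linarith only [h0]) (by linarith)).mono h0 (by linarith)

theorem Rad.deriv {f : ℂ⟦X⟧} (h : Rad f) : Rad (derivative ℂ f) := fun ρ h0 h1 =>
  (h ((ρ + 1) / 2) (by linarith only [h0]) (by linarith)).deriv h0 (by linarith)

theorem Rad.hasDerivAt {f : ℂ⟦X⟧} (h : Rad f) {y : ℂ} (hy : ‖y‖ < 1) :
    HasDerivAt (fun z => ev z f) (ev y (derivative ℂ f)) y :=
  (h ((‖y‖ + 1) / 2) (by positivity) (by linarith only [hy])).hasDerivAt (by linarith)

theorem rad_LL (w : ℕ) : Rad (LL w) := fun ρ h0 h1 => by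
  obtain ⟨C, hC, h⟩ := cw_bound w
  refine (Sm.of_le h0 ((summable_geometric_of_lt_one h0 h1).mul_left C) fun t => ?_).1
  rw [LL, coeff_mk, Complex.norm_real, Real.norm_of_nonneg (h t).1]
  gcongr
  exact (h t).2.trans (div_le_self hC (Real.one_le_sqrt.2 (by simp)))

theorem rad_ell (w : ℕ) : Rad (ell w) := rad_of_pos fun _ h0 h1 => sm_ell h0 h1 w

theorem LL_ode {w : ℕ} (hw : w ≠ 0) :
    (if w % 2 = 0 then X else 1 - X) * derivative ℂ (LL w) = LL (w / 2) := by
  split_ifs with h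
  · ext t
    rw [coeff_X_mul_deriv, LL, LL, coeff_mk, coeff_mk, cw_pos hw, if_pos h]
    rcases Nat.eq_zero_or_pos t with rfl | ht
    · rw [cw_pos (by omega)]
      simp
    · have : (t : ℂ) ≠ 0 := Nat.cast_ne_zero.2 ht.ne'
      push_cast
      field_simp
  · rw [LL, LL, ← cum_mul fun m => (cw (w / 2) m : ℂ)]
    congr 1
    ext t
    rw [coeff_derivative, coeff_mk, coeff_mk, cw_pos hw, if_neg h]
    push_cast
    exact div_mul_cancel₀ _ (Nat.cast_add_one_ne_zero t)

theorem norm_Y_lt {x : ℂ} (hx : ‖x‖ < 1) : ‖x / (2 - x)‖ < 1 := by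
  have h := norm_sub_norm_le (2 : ℂ) x
  rw [Complex.norm_two] at h
  rw [norm_div, div_lt_one (by linarith)]
  linarith

theorem ev_one (y : ℂ) : ev y 1 = 1 := (sm_C (y := y) 0 1).2.2

theorem ev_LL_ode {w : ℕ} (hw : w ≠ 0) {x : ℂ} (hx : ‖x‖ < 1) :
    (if w % 2 = 0 then x else 1 - x) * ev x (derivative ℂ (LL w)) = ev x (LL (w / 2)) := by
  let a : Bs ‖x‖ (norm_nonneg _) := ⟨X, (sm_X (y := 0) _).1⟩
  let b : Bs ‖x‖ (norm_nonneg _) := ⟨_, (rad_LL w).deriv _ (norm_nonneg _) hx⟩
  let c : Bs ‖x‖ (norm_nonneg _) := ⟨_, rad_LL (w / 2) _ (norm_nonneg _) hx⟩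
  have ha : evH x a = x := (sm_X 0).2
  have h := LL_ode hw
  show _ * evH x b = evH x c
  split_ifs at h ⊢
  · simpa only [map_mul, ha] using congrArg (evH x) (show a * b = c from Subtype.ext h)
  · simpa only [map_mul, map_sub, map_one, ha] using
      congrArg (evH x) (show (1 - a) * b = c from Subtype.ext h)

theorem ev_ell_ode {w : ℕ} (hw : w ≠ 0) {x : ℂ} (hx : ‖x‖ < 1) :
    (if w % 2 = 0 then x else 1 - x) * (ev (x / (2 - x)) (derivative ℂ (ell w)) *
      (2 / (2 - x) ^ 2)) = ev (x / (2 - x)) (ell (w / 2)) := by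
  have hy := norm_Y_lt hx
  have h2 := two_sub_ne hx.le
  set y := x / (2 - x) with hyd
  let a : Bs ‖y‖ (norm_nonneg _) := ⟨X, (sm_X (y := 0) _).1⟩
  let g : Bs ‖y‖ (norm_nonneg _) := ⟨G1, rad_of_pos (fun _ => sm_G1) _ (norm_nonneg _) hy⟩
  let b : Bs ‖y‖ (norm_nonneg _) := ⟨_, (rad_ell w).deriv _ (norm_nonneg _) hy⟩
  let c : Bs ‖y‖ (norm_nonneg _) := ⟨_, rad_ell (w / 2) _ (norm_nonneg _) hy⟩
  have ha : evH y a = y := (sm_X 0).2
  have hg : evH y g = (2 - x) / 2 := by
    have k := congrArg (evH y) (show (1 + a) * g = 1 from Subtype.ext G1_mul)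
    simp only [map_mul, map_add, map_one, ha] at k
    generalize evH y g = t at k
    rw [hyd] at k
    field_simp at k ⊢
    linear_combination k
  have hx2 : 2 * y * ((2 - x) / 2) = x := by
    rw [hyd]
    field_simp
  have h := kern_eq (a := w % 2) (f := ell (w / 2)) (const_half hw)
  rw [← deriv_II, ← ell_pos hw, deriv_XX, XX] at h
  show _ * (evH y b * _) = evH y c
  split_ifs at h ⊢
  · have k := congrArg (evH y) (show 2 * a * g * b = 2 * g ^ 2 * c from Subtype.ext h)
    simp only [map_mul, map_pow, map_ofNat, ha, hg, hx2] at k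
    field_simp
    linear_combination 2 * k
  · have k := congrArg (evH y) (show (1 - 2 * a * g) * b = 2 * g ^ 2 * c from Subtype.ext h)
    simp only [map_mul, map_sub, map_one, map_pow, map_ofNat, ha, hg, hx2] at k
    field_simp
    linear_combination 2 * k

theorem hasDerivAt_Y {x : ℂ} (h : 2 - x ≠ 0) :
    HasDerivAt (fun z : ℂ => z / (2 - z)) (2 / (2 - x) ^ 2) x := by
  have h1 := (hasDerivAt_id x).div ((hasDerivAt_id x).const_sub 2) h
  refine h1.congr_deriv ?_
  simp

theorem ev_LL (w : ℕ) : ∀ x : ℂ, ‖x‖ < 1 → ev x (LL w) = ev (x / (2 - x)) (ell w) := by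
  induction w using Nat.strong_induction_on with
  | _ w ih =>
    by_cases hw : w = 0
    · intro x _
      rw [hw, ell_zero, show LL 0 = 1 from ?_, ev_one, ev_one]
      ext t
      rw [LL, coeff_mk, cw_zero, coeff_one]
      split_ifs <;> simp
    have hc : ∀ {f : ℂ⟦X⟧}, Rad f → ∀ {x : ℂ}, ‖x‖ < 1 → HasDerivAt (fun z => ev (z / (2 - z)) f)
        (ev (x / (2 - x)) (derivative ℂ f) * (2 / (2 - x) ^ 2)) x := fun hf x hx =>
      HasDerivAt.comp (h₂ := fun z => ev z _) (h := fun z : ℂ => z / (2 - z)) _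
        (hf.hasDerivAt (norm_Y_lt hx)) (hasDerivAt_Y (two_sub_ne hx.le))
    let D : ℂ → ℂ := fun x => ev x (derivative ℂ (LL w)) -
      ev (x / (2 - x)) (derivative ℂ (ell w)) * (2 / (2 - x) ^ 2)
    have h1 : ∀ x : ℂ, ‖x‖ < 1 → x ≠ 0 → D x = 0 := fun x hx h0 => by
      have k : (if w % 2 = 0 then x else 1 - x) ≠ 0 := by
        split_ifs
        · exact h0
        · intro k
          rw [← sub_eq_zero.1 k] at hx
          simp at hx
      refine (mul_eq_zero.1 ?_).resolve_left k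
      rw [mul_sub, ev_LL_ode hw hx, ev_ell_ode hw hx, ih _ (by omega) x hx, sub_self]
    have h2 : D 0 = 0 := by
      have k1 : ContinuousAt D 0 :=
        ((rad_LL w).deriv.hasDerivAt (by simp)).continuousAt.sub
          ((hc (rad_ell w).deriv (by simp)).continuousAt.mul
            (continuousAt_const.div (by fun_prop) (by norm_num)))
      refine tendsto_nhds_unique (k1.tendsto.mono_left (nhdsWithin_le_nhds (s := {0}ᶜ)))
        (tendsto_const_nhds.congr' ?_)
      filter_upwards [self_mem_nhdsWithin,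
        nhdsWithin_le_nhds (Metric.ball_mem_nhds (0 : ℂ) one_pos)] with x k2 k3
      exact (h1 x (by simpa using k3) k2).symm
    have h3 : ∀ x ∈ Metric.ball (0 : ℂ) 1,
        HasDerivAt (fun z => ev z (LL w) - ev (z / (2 - z)) (ell w)) 0 x := fun x hx => by
      have k1 : ‖x‖ < 1 := by simpa using hx
      have k2 := ((rad_LL w).hasDerivAt k1).sub (hc (rad_ell w) k1)
      have k3 : D x = 0 := by
        by_cases k : x = 0
        · rw [k, h2]
        · exact h1 x k1 k
      exact k3 ▸ k2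
    intro x hx
    have h4 := Metric.isOpen_ball.is_const_of_deriv_eq_zero (convex_ball (0 : ℂ) 1).isPreconnected
      (fun z hz => (h3 z hz).differentiableAt.differentiableWithinAt)
      (fun z hz => (h3 z hz).deriv) (x := x) (y := 0) (by simpa using hx) (by simp)
    rw [zero_div, ev_zero_left, ev_zero_left, const_ell hw, LL, constantCoeff_mk, cw_pos hw] at h4
    simpa [sub_eq_zero, LL] using h4

/-- The value at `ω`. -/
noncomputable def th (w : ℕ) : ℂ := ev y0 (ell w)

theorem tendsto_th {w : ℕ} (hw : w ≠ 0) :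
    Tendsto (fun N => ∑ m ∈ range N, (cw w m : ℂ) * om ^ m) atTop (𝓝 (th w)) := by
  obtain ⟨l, hl⟩ := exists_lim hw
  have h1 := Complex.tendsto_tsum_powerSeries_nhdsWithin_lt hl
  rw [tendsto_map'_iff] at h1
  have h2 : ContinuousAt (fun r : ℝ => ev (om * r / (2 - om * r)) (ell w)) 1 := by
    have k1 : ContinuousAt (fun r : ℝ => om * r / (2 - om * r)) 1 :=
      ContinuousAt.div (by fun_prop) (by fun_prop) (by simpa using two_sub_ne norm_om.le)
    exact ContinuousAt.comp_of_eq (g := fun z => ev z (ell w))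
      ((rad_ell w).hasDerivAt y0_lt).continuousAt k1 (by simp [y0])
  have h3 := h2.tendsto.mono_left (nhdsWithin_le_nhds (s := Set.Iio 1))
  have h4 : l = th w := by
    refine (tendsto_nhds_unique h1 (h3.congr' ?_)).trans (by simp [th, y0])
    filter_upwards [Ioo_mem_nhdsLT (show (0 : ℝ) < 1 by norm_num)] with r hr
    rw [← ev_LL w _ (by simpa [norm_om, abs_of_pos hr.1] using hr.2)]
    simp only [ev, LL, coeff_mk, Function.comp, mul_pow, mul_assoc]
  exact h4 ▸ hl

end MCV
end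

-- merged part: Pool.Agent.Work.MP_80812c_nt.Bridge
section
/-!
Sums over strictly decreasing tuples; the values in weights one and two.
-/

namespace MCV

open Finset Filter Topology

/-- Strictly decreasing tuples. -/
def TT (d N : ℕ) : Finset (Fin d → ℕ) :=
  (Fintype.piFinset (fun _ : Fin d => Finset.Icc 1 N)).filter
    (fun n => ∀ i j : Fin d, i < j → n j < n i)

theorem mem_TT {d N : ℕ} {n : Fin d → ℕ} :
    n ∈ TT d N ↔ (∀ j, 1 ≤ n j ∧ n j ≤ N) ∧ ∀ i j : Fin d, i < j → n j < n i := by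
  simp [TT, Fintype.mem_piFinset]

theorem sup_TT {d N : ℕ} {n : Fin (d + 1) → ℕ} (h : n ∈ TT (d + 1) N) : univ.sup n = n 0 := by
  refine le_antisymm (Finset.sup_le fun j _ => ?_) (le_sup (mem_univ 0))
  rcases (Fin.zero_le j).eq_or_lt with k | k
  · rw [← k]
  · exact ((mem_TT.1 h).2 0 j k).le

theorem sum_TT {d N : ℕ} (g : (Fin (d + 1) → ℕ) → ℂ) : ∑ n ∈ TT (d + 1) N, g n =
    ∑ m ∈ range N, ∑ n ∈ TT d m, g (Fin.cons (m + 1) n) := by
  rw [sum_sigma']
  refine sum_nbij' (fun n => ⟨n 0 - 1, Fin.tail n⟩) (fun x => Fin.cons (x.1 + 1) x.2)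
    (fun n hn => ?_) (fun x hx => ?_) (fun n hn => ?_) (fun x _ => ?_) (fun n hn => ?_)
  · obtain ⟨h1, h2⟩ := mem_TT.1 hn
    refine mem_sigma.2 ⟨mem_range.2 (by have := h1 0; simp only; omega), mem_TT.2 ⟨fun j => ⟨(h1 _).1, ?_⟩,
      fun i j hij => h2 _ _ (Fin.succ_lt_succ_iff.2 hij)⟩⟩
    have := h2 0 j.succ j.succ_pos
    simp only [Fin.tail]
    omega
  · obtain ⟨h0, h⟩ := mem_sigma.1 hx
    obtain ⟨h1, h2⟩ := mem_TT.1 h
    have h3 := mem_range.1 h0
    refine mem_TT.2 ⟨fun j => ?_, fun i j hij => ?_⟩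
    · refine Fin.cases ?_ (fun j => ?_) j
      · simp only [Fin.cons_zero]
        omega
      · have := h1 j
        simp only [Fin.cons_succ]
        omega
    · obtain ⟨j, rfl⟩ := Fin.exists_succ_eq.2 (hij.ne_bot)
      revert hij
      refine Fin.cases (fun _ => ?_) (fun i hij => ?_) i
      · have := h1 j
        simp only [Fin.cons_zero, Fin.cons_succ]
        omega
      · simpa only [Fin.cons_succ] using h2 _ _ (Fin.succ_lt_succ_iff.1 hij)
  · have := ((mem_TT.1 hn).1 0).1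
    simp only [Nat.sub_add_cancel this, Fin.cons_self_tail]
  · simp
  · have := ((mem_TT.1 hn).1 0).1
    simp only [Nat.sub_add_cancel this, Fin.cons_self_tail]

theorem bridge (w : ℕ) : ∃ (d : ℕ) (s : Fin d → ℕ), (∀ j, 1 ≤ s j) ∧ ∑ j, s j = Nat.size w ∧
    (w ≠ 0 → d ≠ 0) ∧ ∀ (N : ℕ) (f : ℕ → ℂ),
      ∑ n ∈ TT d N, f (univ.sup n) / ∏ j, ((n j : ℂ) ^ (s j)) =
        ∑ m ∈ range (N + 1), f m * cw w m := by
  induction w using Nat.strong_induction_on with
  | _ w ih =>
    by_cases hw : w = 0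
    · refine ⟨0, Fin.elim0, fun j => j.elim0, by simp [hw], fun h => absurd hw h, fun N f => ?_⟩
      rw [hw, sum_range_succ', sum_eq_zero (s := range N) fun m _ => by simp [cw_zero]]
      simp [TT, cw_zero]
    obtain ⟨d, s, h1, h2, h3, h4⟩ := ih (w / 2) (by omega)
    by_cases h : w % 2 = 0
    · obtain ⟨d, rfl⟩ := Nat.exists_eq_succ_of_ne_zero (h3 (by omega))
      refine ⟨d + 1, Fin.cons (s 0 + 1) (Fin.tail s), fun j => ?_, ?_, by simp, fun N f => ?_⟩
      · exact Fin.cases (by simp) (fun j => h1 j.succ) j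
      · rw [size_half hw, ← h2, Fin.sum_univ_succ, Fin.sum_univ_succ]
        simp only [Fin.cons_zero, Fin.cons_succ, Fin.tail]
        ring
      · rw [sum_congr rfl fun m _ => show f m * cw w m = f m / m * cw (w / 2) m by
          rw [cw_pos hw, if_pos h]; push_cast; ring, ← h4 N fun m => f m / m]
        refine sum_congr rfl fun n hn => ?_
        rw [sup_TT hn, Fin.prod_univ_succ, Fin.prod_univ_succ, div_div]
        simp only [Fin.cons_zero, Fin.cons_succ, Fin.tail]
        ring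
    · refine ⟨d + 1, Fin.cons 1 s, fun j => Fin.cases (by simp) h1 j, ?_, by simp, fun N f => ?_⟩
      · rw [size_half hw, ← h2, Fin.sum_univ_succ, add_comm]
        simp only [Fin.cons_zero, Fin.cons_succ]
      · rw [sum_congr rfl fun n hn => by rw [sup_TT hn], sum_TT, sum_range_succ', cw_pos hw 0]
        simp only [Nat.cast_zero, div_zero, Complex.ofReal_zero, mul_zero, add_zero]
        refine sum_congr rfl fun m _ => ?_
        have h5 := h4 m fun _ => 1
        simp only [one_mul] at h5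
        rw [cw_pos hw, if_neg h]
        push_cast
        rw [← h5, sum_div, mul_sum]
        refine sum_congr rfl fun n _ => ?_
        rw [Fin.prod_univ_succ]
        simp only [Fin.cons_zero, Fin.cons_succ]
        push_cast
        rw [pow_one, div_div, mul_one_div, mul_comm]

theorem tendsto_TT {w : ℕ} (hw : w ≠ 0) : ∃ (d : ℕ) (s : Fin d → ℕ), (∀ j, 1 ≤ s j) ∧
    ∑ j, s j = Nat.size w ∧ Tendsto (fun N => ∑ n ∈ TT d N,
      om ^ (univ.sup n) / ∏ j, ((n j : ℂ) ^ (s j))) atTop (𝓝 (th w)) := by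
  obtain ⟨d, s, h1, h2, -, h4⟩ := bridge w
  refine ⟨d, s, h1, h2, ((tendsto_add_atTop_iff_nat 1).2 (tendsto_th hw)).congr fun N => ?_⟩
  rw [h4 N fun m => om ^ m]
  exact sum_congr rfl fun m _ => mul_comm _ _

theorem finite_lim (k : ℕ) (F : (d : ℕ) → (Fin d → ℕ) → ℕ → ℝ) :
    {x : ℝ | ∃ (d : ℕ) (s : Fin d → ℕ), (∀ j, 1 ≤ s j) ∧ ∑ j, s j = k ∧
      Tendsto (F d s) atTop (𝓝 x)}.Finite := by
  refine ((range (k + 1)).finite_toSet.biUnion fun d _ =>
    (Fintype.piFinset fun _ : Fin d => range (k + 1)).finite_toSet.biUnion fun s _ =>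
      Set.Subsingleton.finite (s := {x | Tendsto (F d s) atTop (𝓝 x)})
        fun x hx y hy => tendsto_nhds_unique hx hy).subset ?_
  rintro x ⟨d, s, h1, h2, h3⟩
  simp only [Set.mem_iUnion, mem_coe, mem_range, Fintype.mem_piFinset]
  refine ⟨d, ?_, s, fun j => ?_, h3⟩
  · have := sum_le_sum (s := univ) fun j _ => h1 j
    simp only [sum_const, card_univ, Fintype.card_fin, smul_eq_mul, mul_one] at this
    omega
  · have := single_le_sum (f := s) (fun _ _ => Nat.zero_le _) (mem_univ j)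
    omega

theorem cw_one (m : ℕ) : cw 1 m = 1 / m := by
  rw [cw_pos one_ne_zero, if_neg (by norm_num)]
  cases m with
  | zero => simp
  | succ m => simp [cw_zero]

theorem cw_two (m : ℕ) : cw 2 m = 1 / (m : ℝ) ^ 2 := by
  rw [cw_pos two_ne_zero, if_pos rfl, cw_one, div_div, sq]

theorem th_zero : th 0 = 1 := by rw [th, ell_zero, ev_one]

theorem th_one : th 1 = ((Real.pi / 3 : ℝ) : ℂ) * Complex.I := by
  have h1 := Complex.tendsto_tsum_powerSeries_nhdsWithin_lt (tendsto_th one_ne_zero)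
  rw [tendsto_map'_iff] at h1
  have h0 : 1 - om = Complex.exp (-(((Real.pi / 3 : ℝ) : ℂ) * Complex.I)) := by
    rw [Complex.exp_neg]
    exact eq_inv_of_mul_eq_one_left (by rw [← om]; linear_combination -om_sq)
  have h2 : ContinuousAt (fun r : ℝ => -Complex.log (1 - om * r)) 1 :=
    (ContinuousAt.clog (by fun_prop) (Or.inl (by simp [om_re]; norm_num))).neg
  have h3 := h2.tendsto.mono_left (nhdsWithin_le_nhds (s := Set.Iio 1))
  refine (tendsto_nhds_unique h1 (h3.congr' ?_)).trans ?_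
  · filter_upwards [Ioo_mem_nhdsLT (show (0 : ℝ) < 1 by norm_num)] with r hr
    rw [← (Complex.hasSum_taylorSeries_neg_log (z := om * r)
      (by simpa [norm_om, abs_of_pos hr.1] using hr.2)).tsum_eq]
    refine tsum_congr fun m => ?_
    rw [cw_one, mul_pow]
    push_cast
    ring
  · have := Real.pi_pos
    rw [Complex.ofReal_one, mul_one, h0, Complex.log_exp, neg_neg] <;> simp <;> linarith only [this]

theorem th_two_re : (th 2).re = Real.pi ^ 2 / 36 := by
  have h1 := (Complex.continuous_re.tendsto _).comp (tendsto_th two_ne_zero)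
  have h2 := (hasSum_one_div_nat_pow_mul_cos one_ne_zero (x := 1 / 6)
    ⟨by norm_num, by norm_num⟩).tendsto_sum_nat
  refine (tendsto_nhds_unique h1 (h2.congr fun N => ?_)).trans ?_
  · simp only [Function.comp, Complex.re_sum, Complex.re_ofReal_mul, cw_two, om]
    refine sum_congr rfl fun m _ => ?_
    rw [← Complex.exp_nat_mul, ← mul_assoc, ← Complex.ofReal_natCast, ← Complex.ofReal_mul,
      Complex.exp_ofReal_mul_I_re]
    congr 2
    ring
  · simp [Polynomial.bernoulli, sum_range_succ, bernoulli_eq_bernoulli'_of_ne_one,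
      Nat.factorial]
    ring

theorem th_two_im : 0 < (th 2).im := by
  have h1 := ((Complex.continuous_im.tendsto _).comp (tendsto_th two_ne_zero)).add
    hasSum_zeta_two.tendsto_sum_nat
  have h2 : √3 / 2 + 1 ≤ (th 2).im + Real.pi ^ 2 / 6 := by
    refine ge_of_tendsto h1 (eventually_atTop.2 ⟨2, fun N hN => ?_⟩)
    simp only [Function.comp, Complex.im_sum, Complex.im_ofReal_mul, cw_two, ← sum_add_distrib]
    refine le_trans ?_ (single_le_sum (a := 1) (fun m _ => ?_) (mem_range.2 hN))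
    · simp [om_im]
    · have k1 : |(om ^ m).im| ≤ 1 := by simpa [norm_om] using Complex.abs_im_le_norm (om ^ m)
      have k2 : 0 ≤ 1 / (m : ℝ) ^ 2 := by positivity
      linarith only [k2, k1, (abs_le.1 k1).1, mul_nonneg_of_nonpos_of_nonpos (Mathlib.Tactic.Linarith.sub_nonpos_of_le k2) (Mathlib.Tactic.Linarith.sub_nonpos_of_le (abs_le.mp k1).left)]
  have h3 : 1.7 ≤ √3 := Real.le_sqrt_of_sq_le (by norm_num)
  linarith only [h2, h3, Real.pi_lt_d2, Real.pi_pos, mul_pos_of_neg_of_neg (Mathlib.Tactic.Linarith.sub_neg_of_lt Real.pi_lt_d2) (Mathlib.Tactic.Linarith.sub_neg_of_lt Real.pi_pos)]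

end MCV
end
end

-- merged part: Pool.Agent.Work.MP_80812c_nt.T3.Mult
section
-- merged part: Pool.Agent.Work.MP_80812c_nt.Mono
section
/-!
The spaces of values of a fixed weight, monotonicity of the dimensions, the final estimate.
-/

namespace MCV

open Finset PowerSeries Module Complex

/-- Normalised values of weight `j`. -/
noncomputable def VV (j : ℕ) : Submodule ℚ ℂ :=
  Submodule.span ℚ ((fun v => th v * (-I) ^ j) '' {v | Nat.size v = j})

instance (j : ℕ) : FiniteDimensional ℚ (VV j) :=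
  FiniteDimensional.span_of_finite ℚ (Set.Finite.image _
    ((range (2 ^ j)).finite_toSet.subset fun _ hv =>
      mem_coe.2 (mem_range.2 (Nat.size_le.1 (le_of_eq hv)))))

theorem ev_mem {j : ℕ} {f : ℂ⟦X⟧} (hf : f ∈ AA j) : ev y0 f * (-I) ^ j ∈ VV j := by
  induction hf using Submodule.span_induction with
  | mem f hf =>
    obtain ⟨v, hv, rfl⟩ := hf
    exact Submodule.subset_span ⟨v, hv, rfl⟩
  | zero => simp [ev]
  | add f g hf hg h1 h2 =>
    rw [ev_add (sm_AA y0_pos y0_lt hf) (sm_AA y0_pos y0_lt hg), add_mul]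
    exact add_mem h1 h2
  | smul q f hf h1 =>
    have h3 := map_rat_smul (evH y0) q ⟨f, sm_AA y0_pos y0_lt hf⟩
    have h2 : ev y0 (q • f) = q • ev y0 f := h3
    rw [h2, smul_mul_assoc]
    exact Submodule.smul_mem _ _ h1

theorem VV_mul {i j : ℕ} {x y : ℂ} (hx : x ∈ VV i) (hy : y ∈ VV j) : x * y ∈ VV (i + j) := by
  have h : VV i * VV j ≤ VV (i + j) := by
    rw [VV, VV, Submodule.span_mul_span, Submodule.span_le]
    rintro _ ⟨_, ⟨v, hv, rfl⟩, _, ⟨w, hw, rfl⟩, rfl⟩
    have h1 := ev_mem (ell_mul_mem v w)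
    rw [ev_mul (sm_ell y0_pos y0_lt v) (sm_ell y0_pos y0_lt w), show Nat.size v = i from hv,
      show Nat.size w = j from hw] at h1
    have h2 : th v * (-I) ^ i * (th w * (-I) ^ j) = th v * th w * (-I) ^ (i + j) := by
      rw [pow_add]
      ring
    show th v * (-I) ^ i * (th w * (-I) ^ j) ∈ VV (i + j)
    rw [h2]
    exact h1
  exact h (Submodule.mul_mem_mul hx hy)

/-- Real parts. -/
noncomputable def GG (j : ℕ) : Submodule ℚ ℝ := (VV j).map (reLm.restrictScalars ℚ)

/-- Imaginary parts. -/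
noncomputable def CC (j : ℕ) : Submodule ℚ ℝ := (VV j).map (imLm.restrictScalars ℚ)

instance (j : ℕ) : FiniteDimensional ℚ (GG j) := Module.Finite.map _ _

instance (j : ℕ) : FiniteDimensional ℚ (CC j) := Module.Finite.map _ _

theorem finrank_VV (j : ℕ) : finrank ℚ (VV j) ≤ finrank ℚ (GG j) + finrank ℚ (CC j) := by
  rw [← finrank_prod]
  refine LinearMap.finrank_le_finrank_of_injective (f := LinearMap.prod
    ((reLm.restrictScalars ℚ).submoduleMap (VV j)) ((imLm.restrictScalars ℚ).submoduleMap (VV j)))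
    fun a b h => Subtype.ext (Complex.ext ?_ ?_)
  · exact congrArg (fun t => t.1.1) h
  · exact congrArg (fun t => t.2.1) h

theorem finrank_le_of_mul {r : ℝ} (hr : r ≠ 0) {S T : Submodule ℚ ℝ} [FiniteDimensional ℚ T]
    (h : ∀ x ∈ S, r * x ∈ T) : finrank ℚ S ≤ finrank ℚ T :=
  LinearMap.finrank_le_finrank_of_injective (f := (LinearMap.mulLeft ℚ r).restrict h)
    fun _ _ k => Subtype.ext (mul_left_cancel₀ hr (congrArg Subtype.val k))

theorem pi_mem : ((Real.pi / 3 : ℝ) : ℂ) ∈ VV 1 := by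
  refine Submodule.subset_span ⟨1, Nat.size_one, ?_⟩
  simp only [th_one, pow_one, mul_assoc, mul_neg, I_mul_I, neg_neg, mul_one]

theorem eta_mem : (((th 2).im : ℝ) : ℂ) * I ∈ VV 2 := by
  have h1 : th 2 * (-I) ^ 2 ∈ VV 2 := Submodule.subset_span
    (Set.mem_image_of_mem (fun v => th v * (-I) ^ 2) (show Nat.size 2 = 2 by
      rw [size_half two_ne_zero, Nat.size_one]))
  have h0 : ((Real.pi / 3 : ℝ) : ℂ) * ((Real.pi / 3 : ℝ) : ℂ) ∈ VV 2 :=
    VV_mul (i := 1) (j := 1) pi_mem pi_mem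
  have h2 := (VV 2).neg_mem ((VV 2).add_mem h1 ((VV 2).smul_mem (1 / 4 : ℚ) h0))
  have h3 : (((th 2).im : ℝ) : ℂ) * I = -(th 2 * (-I) ^ 2 +
      (1 / 4 : ℚ) • (((Real.pi / 3 : ℝ) : ℂ) * ((Real.pi / 3 : ℝ) : ℂ))) := by
    rw [neg_sq, I_sq, Rat.smul_def]
    nth_rewrite 2 [← re_add_im (th 2)]
    rw [th_two_re]
    push_cast
    ring
  rw [h3]
  exact h2

theorem GG_succ (j : ℕ) : finrank ℚ (GG j) ≤ finrank ℚ (GG (j + 1)) := by
  refine finrank_le_of_mul (r := Real.pi / 3) (by positivity) ?_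
  rintro _ ⟨z, hz, rfl⟩
  exact ⟨((Real.pi / 3 : ℝ) : ℂ) * z, add_comm 1 j ▸ VV_mul pi_mem hz, re_ofReal_mul _ z⟩

theorem CC_succ (j : ℕ) : finrank ℚ (CC j) ≤ finrank ℚ (CC (j + 1)) := by
  refine finrank_le_of_mul (r := Real.pi / 3) (by positivity) ?_
  rintro _ ⟨z, hz, rfl⟩
  exact ⟨((Real.pi / 3 : ℝ) : ℂ) * z, add_comm 1 j ▸ VV_mul pi_mem hz, im_ofReal_mul _ z⟩

theorem GG_CC (j : ℕ) : finrank ℚ (GG j) ≤ finrank ℚ (CC (j + 2)) := by
  refine finrank_le_of_mul th_two_im.ne' ?_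
  rintro _ ⟨z, hz, rfl⟩
  exact ⟨_, add_comm 2 j ▸ VV_mul eta_mem hz, by simp⟩

theorem CC_GG (j : ℕ) : finrank ℚ (CC j) ≤ finrank ℚ (GG (j + 2)) := by
  refine finrank_le_of_mul (neg_ne_zero.2 th_two_im.ne') ?_
  rintro _ ⟨z, hz, rfl⟩
  exact ⟨_, add_comm 2 j ▸ VV_mul eta_mem hz, by simp⟩

theorem one_le_GG : 1 ≤ finrank ℚ (GG 0) := by
  rw [Nat.one_le_iff_ne_zero, Ne, Submodule.finrank_eq_zero]
  intro h
  have h1 : (1 : ℝ) ∈ GG 0 :=
    ⟨1, Submodule.subset_span ⟨0, Nat.size_zero, by simp [th_zero]⟩, by simp⟩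
  simp [h] at h1

theorem le_min {j K : ℕ} (h : j + 2 ≤ K) :
    finrank ℚ (GG j) ≤ min (finrank ℚ (CC K)) (finrank ℚ (GG K)) ∧
      finrank ℚ (CC j) ≤ min (finrank ℚ (CC K)) (finrank ℚ (GG K)) := by
  have h1 := monotone_nat_of_le_succ GG_succ
  have h2 := monotone_nat_of_le_succ CC_succ
  exact ⟨_root_.le_min ((GG_CC j).trans (h2 h)) (h1 (by omega : j ≤ K)),
    _root_.le_min (h2 (by omega : j ≤ K)) ((CC_GG j).trans (h1 h))⟩

/-- All values of weight less than `K`. -/
noncomputable def WW (K : ℕ) : Submodule ℚ ℂ :=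
  (range K).sup fun j => (VV j).map (LinearMap.mulRight ℚ (I ^ j))

instance (K : ℕ) : FiniteDimensional ℚ (WW K) := Submodule.finiteDimensional_finset_sup _ _

theorem finrank_WW (K : ℕ) : finrank ℚ (WW K) ≤ ∑ j ∈ range K, finrank ℚ (VV j) := by
  induction K with
  | zero => rw [WW, range_zero, sup_empty, finrank_bot, sum_empty]
  | succ K ih =>
    rw [WW, range_add_one, sup_insert, sum_insert notMem_range_self]
    exact (Submodule.finrank_add_le_finrank_add_finrank _ (WW K)).trans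
      (add_le_add (Submodule.finrank_map_le _ _) ih)

theorem xiV_mem {w u K : ℕ} (h : Nat.size w + Nat.size u < K) (t : Bool) : xiV w u t ∈ WW K := by
  refine le_sup (f := fun j => (VV j).map (LinearMap.mulRight ℚ (I ^ j))) (mem_range.2 h)
    ⟨_, ev_mem (xiS_mem w u t), ?_⟩
  rw [LinearMap.mulRight_apply, mul_assoc, ← mul_pow]
  simp [xiV]

theorem lower_min : ∃ c : ℝ, 0 < c ∧ ∀ k : ℕ, 2 ≤ k →
    c * 2 ^ ((k : ℝ) / 4) / k ^ 2 ≤ (min (finrank ℚ (CC k)) (finrank ℚ (GG k)) : ℕ) := by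
  have hla := la_nonneg
  set γ : ℝ := 8 * (97 + 5 * la) with hγ
  have hγ1 : 1 ≤ γ := by linarith only [hla]
  refine ⟨1 / (8 * γ), by positivity, fun k hk => ?_⟩
  set m := min (finrank ℚ (CC k)) (finrank ℚ (GG k)) with hm
  have hm1 : 1 ≤ m := one_le_GG.trans (le_min hk).1
  have hm2 : (1 : ℝ) ≤ m := by exact_mod_cast hm1
  have hk2 : (2 : ℝ) ≤ k := by exact_mod_cast hk
  obtain ⟨h, h1, h2⟩ : ∃ h, 4 * h + 2 ≤ k ∧ k ≤ 4 * h + 8 := ⟨(k - 2) / 4, by omega, by omega⟩
  have h3 : (2 : ℝ) ^ h ≤ γ * k * (2 * k * m) := by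
    rcases Nat.eq_zero_or_pos h with rfl | hh
    · rw [pow_zero]
      exact one_le_mul_of_one_le_of_one_le (by linarith only [hk2, hla, mul_nonneg_of_nonpos_of_nonpos (Mathlib.Tactic.Linarith.sub_nonpos_of_le (Mathlib.Tactic.Linarith.natCast_nonneg ℝ k)) (Mathlib.Tactic.Linarith.sub_nonpos_of_le hla)]) (by linarith only [hk2, hm2, mul_nonneg_of_nonpos_of_nonpos (Mathlib.Tactic.Linarith.sub_nonpos_of_le (Mathlib.Tactic.Linarith.natCast_nonneg ℝ k)) (Mathlib.Tactic.Linarith.sub_nonpos_of_le hm2)])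
    have k1 := lower_W hh (WW (4 * h + 1)) fun w hw u hu t => xiV_mem (by
      have a1 : Nat.size w ≤ 2 * h := by rw [Nat.size_le, pow_mul]; exact hw
      have a2 : Nat.size u ≤ 2 * h := by rw [Nat.size_le, pow_mul]; exact hu
      omega) t
    have k2 : finrank ℚ (WW (4 * h + 1)) ≤ (4 * h + 1) * (m + m) := by
      refine (finrank_WW _).trans ((sum_le_card_nsmul _ _ (m + m) fun j hj => ?_).trans_eq ?_)
      · have := le_min (j := j) (K := k) (by have := mem_range.1 hj; omega)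
        exact (finrank_VV j).trans (add_le_add this.1 this.2)
      · simp
    have k3 : finrank ℚ (WW (4 * h + 1)) + 1 ≤ 2 * k * m := by nlinarith only [hm1, k2, h1]
    have k4 : (h : ℝ) + 1 ≤ k := by exact_mod_cast (by omega : h + 1 ≤ k)
    refine k1.trans ?_
    gcongr
    exact_mod_cast k3
  have h4 : (2 : ℝ) ^ ((k : ℝ) / 4) ≤ 4 * 2 ^ h := by
    have k1 : (k : ℝ) ≤ 4 * h + 8 := by exact_mod_cast h2
    refine (Real.rpow_le_rpow_of_exponent_le one_le_two
      (show (k : ℝ) / 4 ≤ ((h + 2 : ℕ) : ℝ) by push_cast; linarith only [k1])).trans_eq ?_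
    rw [Real.rpow_natCast]
    ring
  rw [div_le_iff₀ (by positivity), one_div, inv_mul_le_iff₀ (by positivity)]
  linarith only [h3, h4]

theorem twist (k : ℕ) (z : ℂ) : ∃ q q' : ℚ,
    (z * (-I) ^ k).im = q • (if Even k then im else re) z ∧
      (z * (-I) ^ k).re = q' • (if Even k then re else im) z := by
  have h : ∀ a : ℕ, (-I) ^ (2 * a) = (((-1 : ℝ) ^ a : ℝ) : ℂ) := fun a => by
    rw [pow_mul, neg_sq, I_sq]
    push_cast
    rfl
  rcases Nat.even_or_odd' k with ⟨a, rfl | rfl⟩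
  · refine ⟨(-1) ^ a, (-1) ^ a, ?_⟩
    rw [if_pos (even_two_mul a), if_pos (even_two_mul a), h, mul_comm, im_ofReal_mul,
      re_ofReal_mul]
    simp [Rat.smul_def]
  · refine ⟨-(-1) ^ a, (-1) ^ a, ?_⟩
    have h1 : ¬ Even (2 * a + 1) := by simp
    rw [if_neg h1, if_neg h1, pow_succ, h, mul_left_comm, im_ofReal_mul, re_ofReal_mul]
    simp [Rat.smul_def]

theorem map_le {k : ℕ} (hk : k ≠ 0) (φ : ℂ →ₗ[ℚ] ℝ) (ψ : ℂ → ℝ) (hψ : Continuous ψ)
    (h : ∀ z, ∃ q : ℚ, φ (z * (-I) ^ k) = q • ψ z) :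
    finrank ℚ ((VV k).map φ) ≤ finrank ℚ (Submodule.span ℚ {x : ℝ | ∃ (d : ℕ) (s : Fin d → ℕ),
      (∀ j, 1 ≤ s j) ∧ ∑ j, s j = k ∧ Filter.Tendsto (fun N : ℕ => ψ (∑ n ∈ TT d N,
        om ^ (univ.sup n) / ∏ j, ((n j : ℂ) ^ (s j)))) Filter.atTop (nhds x)}) := by
  have := FiniteDimensional.span_of_finite ℚ (finite_lim k fun d s N => ψ (∑ n ∈ TT d N,
    om ^ (univ.sup n) / ∏ j, ((n j : ℂ) ^ (s j))))
  refine Submodule.finrank_mono ?_
  rw [VV, Submodule.map_span, Submodule.span_le]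
  rintro _ ⟨_, ⟨v, hv, rfl⟩, rfl⟩
  have hv' : Nat.size v = k := hv
  obtain ⟨d, s, h1, h2, h3⟩ := tendsto_TT (w := v) fun e => hk (by rw [← hv', e, Nat.size_zero])
  obtain ⟨q, hq⟩ := h (th v)
  rw [hq]
  exact Submodule.smul_mem _ _
    (Submodule.subset_span ⟨d, s, h1, h2.trans hv', (hψ.tendsto _).comp h3⟩)

end MCV
end

-- merged part: Pool.Agent.Work.MP_80812c_nt.T3.Df
section
/-!
Definitions for the three letter lower bound. Words in three letters are coded by natural numbers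
(digits in base three, the lowest digit is the outer letter, `0` is the empty word) or by lists.
-/

namespace MC3

open Finset MCV

/-- The outer letter. -/
def dg (w : ℕ) : Fin 3 := ⟨w % 3, Nat.mod_lt _ (by norm_num)⟩

/-- The word coded by a number. -/
def wd (w : ℕ) : List (Fin 3) := if _h : w = 0 then [] else dg w :: wd (w / 3)
termination_by w
decreasing_by omega

/-- The length of the word coded by a number. -/
def sz (w : ℕ) : ℕ := (wd w).length

/-- The innermost letter is not zero. -/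
def Adm : List (Fin 3) → Prop
  | [] => True
  | [a] => a ≠ 0
  | _ :: b :: v => Adm (b :: v)

theorem wd_zero : wd 0 = [] := by rw [wd, dif_pos rfl]

theorem wd_pos {w : ℕ} (hw : w ≠ 0) : wd w = dg w :: wd (w / 3) := by rw [wd, dif_neg hw]

theorem sz_zero : sz 0 = 0 := by rw [sz, wd_zero, List.length_nil]

theorem sz_pos {w : ℕ} (hw : w ≠ 0) : sz w = sz (w / 3) + 1 := by
  rw [sz, wd_pos hw, List.length_cons, sz]

theorem sz_le_iff (h : ℕ) : ∀ w, sz w ≤ h ↔ w < 3 ^ h := by
  induction h with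
  | zero =>
    intro w
    by_cases hw : w = 0
    · simp [hw, sz_zero]
    · rw [sz_pos hw]
      omega
  | succ h ih =>
    intro w
    by_cases hw : w = 0
    · simp [hw, sz_zero]
    · rw [sz_pos hw, Nat.add_le_add_iff_right, ih, pow_succ]
      omega

theorem adm_wd (w : ℕ) : Adm (wd w) := by
  induction w using Nat.strong_induction_on with
  | _ w ih =>
    by_cases hw : w = 0
    · rw [hw, wd_zero]
      trivial
    rw [wd_pos hw]
    by_cases h3 : w / 3 = 0
    · rw [h3, wd_zero]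
      intro h
      have := congrArg Fin.val h
      simp only [dg, Fin.val_zero] at this
      omega
    · have := ih (w / 3) (by omega)
      rw [wd_pos h3] at this ⊢
      exact this

theorem pair_ind3 {P : ℕ → ℕ → Prop}
    (h : ∀ w u, (w ≠ 0 → P (w / 3) u) → (u ≠ 0 → P w (u / 3)) → P w u) (w u : ℕ) : P w u := by
  induction hn : w + u using Nat.strong_induction_on generalizing w u with
  | _ n ih =>
    exact h w u (fun hw => ih _ (by omega) _ _ rfl) (fun hu => ih _ (by omega) _ _ rfl)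

/-- The parent of a word. -/
def pr {N : ℕ} (u : Fin N) : Fin N := ⟨u.1 / 3, lt_of_le_of_lt (Nat.div_le_self _ _) u.2⟩

/-- The exchange of the letters `0` and `1`. -/
def sw : Fin 3 → Fin 3 := ![1, 0, 2]

section
open Polynomial
variable {K : Type*} [Field K]

/-- The points `0, 1, y`. -/
def lv (y : K) : Fin 3 → K := ![0, 1, y]

/-- The signs of the kernels `1 / x`, `1 / (1 - x)`, `1 / (y - x)` against `1 / (a - x)`. -/
def ss (K : Type*) [Field K] : Fin 3 → K := ![-1, 1, 1]

/-- The signs in the change of chart. -/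
def sg (K : Type*) [Field K] : Fin 3 → K := ![1, 1, -1]

/-- One integration by parts. -/
noncomputable def st (l s e x : K) (ν : ℕ → K) (m : ℕ) : K :=
  ((m : K) + 1)⁻¹ * ((l ^ (m + 1) - e) * x - s * ∑ i ∈ range (m + 1), l ^ (m - i) * ν i)

/-- The formal moments, linear in the boundary values `ξ`. -/
noncomputable def mu3 (y : K) (ξ : ℕ → ℕ → Bool → K) (w u : ℕ) : ℕ → K := fun m =>
  (if w = 0 ∧ u = 0 then ((m : K) + 1)⁻¹ * ξ 0 0 false else 0) +
    (if _h : w ≠ 0 then sg K (dg w) * st (lv y (sw (dg w))) (ss K (sw (dg w))) 0 (ξ w u false)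
      (mu3 y ξ (w / 3) u) m else 0) -
    (if _h : u ≠ 0 then st (lv y (dg u)) (ss K (dg u)) (if w = 0 then 1 else 0) (ξ w u true)
      (mu3 y ξ w (u / 3)) m else 0)
termination_by w + u
decreasing_by all_goals omega

theorem mu3_eq (y : K) (ξ : ℕ → ℕ → Bool → K) (w u m : ℕ) : mu3 y ξ w u m =
    (if w = 0 ∧ u = 0 then ((m : K) + 1)⁻¹ * ξ 0 0 false else 0) +
    (if w ≠ 0 then sg K (dg w) * st (lv y (sw (dg w))) (ss K (sw (dg w))) 0 (ξ w u false)
      (mu3 y ξ (w / 3) u) m else 0) -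
    (if u ≠ 0 then st (lv y (dg u)) (ss K (dg u)) (if w = 0 then 1 else 0) (ξ w u true)
      (mu3 y ξ w (u / 3)) m else 0) := by
  rw [mu3]
  simp only [dite_eq_ite]

/-- A nontrivial combination of the coefficients is not the derivative of a rational function. -/
def Res (z : K) (τ : Fin 3 → K[X]) : Prop := ∀ (κ : Fin 3 → K) (p c : K[X]), c ≠ 0 →
  c * DD z p - DD z c * p + (∑ a, C (κ a) * τ a) * c ^ 2 = 0 → ∀ a, κ a = 0

/-- The connection on several copies of the tree of words. -/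
noncomputable def nb1 {N : ℕ} {L : Type*} (z : K) (τ : Fin 3 → K[X]) (P : Fin N × L → K[X]) :
    Fin N × L → K[X] := fun i =>
  DD z (P i) + ∑ v : Fin N, if v.1 ≠ 0 ∧ v.1 / 3 = i.1.1 then τ (dg v.1) * P (v, i.2) else 0

/-- The polynomials `(1 - X)(1 - zX) / (1 - aX)` for `a = 0, 1, z`. -/
noncomputable def tp (z : K) : Fin 3 → K[X] := ![(1 - X) * (1 - C z * X), 1 - C z * X, 1 - X]

end

open PowerSeries

/-- The geometric series. -/
noncomputable def Geo (c : ℂ) : ℂ⟦X⟧ := PowerSeries.mk fun m => c ^ m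

/-- The kernel of the third letter. -/
noncomputable def k2 (c : ℂ) : ℂ⟦X⟧ := G1 + C c * Geo c

/-- The primitive as a linear map. -/
noncomputable def prL : ℂ⟦X⟧ →ₗ[ℂ] ℂ⟦X⟧ where
  toFun := prim
  map_add' f g := derivative.ext (by simp [deriv_prim]) (by simp [const_prim])
  map_smul' a f := derivative.ext (by simp [deriv_prim]) (by simp [const_prim])

/-- Division by the variable as a linear map. -/
noncomputable def shL : ℂ⟦X⟧ →ₗ[ℂ] ℂ⟦X⟧ where
  toFun := shf
  map_add' f g := by ext t; simp [shf]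
  map_smul' a f := by ext t; simp [shf]

/-- The kernels of the three letters of a chart, in the variable `x / (2 - x)`. -/
noncomputable def kn (c : ℂ) : Fin 3 → ℂ⟦X⟧ →ₗ[ℂ] ℂ⟦X⟧ :=
  ![LinearMap.mulLeft ℂ G1 ∘ₗ shL, LinearMap.mulLeft ℂ (G1 + G2), LinearMap.mulLeft ℂ (k2 c)]

/-- The kernels of the three letters of the other chart. -/
noncomputable def kx (c : ℂ) : Fin 3 → ℂ⟦X⟧ →ₗ[ℂ] ℂ⟦X⟧ :=
  ![LinearMap.mulLeft ℂ (G1 + G2), LinearMap.mulLeft ℂ G1 ∘ₗ shL, LinearMap.mulLeft ℂ (-k2 c)]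

theorem prL_apply (f : ℂ⟦X⟧) : prL f = prim f := rfl

theorem kn_zero (c : ℂ) (f : ℂ⟦X⟧) : kn c 0 f = G1 * shf f := rfl

theorem kn_one (c : ℂ) (f : ℂ⟦X⟧) : kn c 1 f = (G1 + G2) * f := rfl

theorem kn_two (c : ℂ) (f : ℂ⟦X⟧) : kn c 2 f = k2 c * f := rfl

theorem kx_zero (c : ℂ) (f : ℂ⟦X⟧) : kx c 0 f = (G1 + G2) * f := rfl

theorem kx_one (c : ℂ) (f : ℂ⟦X⟧) : kx c 1 f = G1 * shf f := rfl

theorem kx_two (c : ℂ) (f : ℂ⟦X⟧) : kx c 2 f = -k2 c * f := rfl

theorem exists_E : ∃ E : ℂ⟦X⟧ →ₗ[ℂ] ℂ, ∀ f, Sm (1 / 3) f → E f = ev (1 / 3) f := by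
  have h3 : ‖(1 / 3 : ℂ)‖ = 1 / 3 := by simp
  have hs : ∀ (a : ℂ) {f : ℂ⟦X⟧}, Sm (1 / 3) f → Sm (1 / 3) (a • f) := fun a f hf => by
    rw [smul_eq_C_mul]
    exact (Sm.mul' (by norm_num) (sm_C (y := 0) _ a).1 hf).1
  let S : Submodule ℂ ℂ⟦X⟧ :=
    { carrier := {f | Sm (1 / 3) f}
      add_mem' := fun hf hg => (Sm.add' (by norm_num) hf hg).1
      zero_mem' := (Bs (1 / 3) (by norm_num)).zero_mem
      smul_mem' := fun a _ hf => hs a hf }
  let φ : S →ₗ[ℂ] ℂ :=
    { toFun := fun f => ev (1 / 3) f.1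
      map_add' := fun f g => ev_add (h3 ▸ f.2) (h3 ▸ g.2)
      map_smul' := fun a f => by
        show ev (1 / 3) (a • f.1) = a * ev (1 / 3) f.1
        rw [smul_eq_C_mul, ev_mul (sm_C (y := 0) _ a).1 (h3 ▸ f.2), (sm_C 0 a).2.2] }
  obtain ⟨E, hE⟩ := φ.exists_extend
  exact ⟨E, fun f hf => LinearMap.congr_fun hE ⟨f, hf⟩⟩

/-- Evaluation at `1 / 3` (that is `x = 1 / 2`), extended linearly to all series. -/
noncomputable def EE : ℂ⟦X⟧ →ₗ[ℂ] ℂ := exists_E.choose

theorem EE_eq {f : ℂ⟦X⟧} (hf : Sm (1 / 3) f) : EE f = ev (1 / 3) f := exists_E.choose_spec f hf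

/-- Iterated integrals from the origin of a chart. -/
noncomputable def It (c : ℂ) : List (Fin 3) → ℂ⟦X⟧
  | [] => 1
  | a :: u => prL (kn c a (It c u))

/-- Integration against a letter of the other chart. -/
noncomputable def JJ (c : ℂ) (b : Fin 3) : ℂ⟦X⟧ →ₗ[ℂ] ℂ⟦X⟧ := prL ∘ₗ kx c b

/-- `HS c c' u G` is `G(0) L_u(0)` plus the integral of `G' L_u` from the origin of the chart `c` to
the midpoint, where `L_u` is the iterated integral from the origin of the chart `c'`. -/
noncomputable def HS (c c' : ℂ) : List (Fin 3) → ℂ⟦X⟧ →ₗ[ℂ] ℂ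
  | [] => EE
  | b :: v => EE (It c' (b :: v)) • EE + HS c c' v ∘ₗ JJ c b

theorem HS_nil (c c' : ℂ) (G : ℂ⟦X⟧) : HS c c' [] G = EE G := rfl

theorem HS_cons (c c' : ℂ) (b : Fin 3) (v : List (Fin 3)) (G : ℂ⟦X⟧) :
    HS c c' (b :: v) G = EE (It c' (b :: v)) * EE G + HS c c' v (prL (kx c b G)) := rfl

/-- The parameter of the chart at `x = 0`, for the third letter `1 / z`. -/
noncomputable def c0 (z : ℂ) : ℂ := 2 * z - 1

/-- The parameter of the chart at `x = 1`. -/
noncomputable def c1 (z : ℂ) : ℂ := (z + 1) / (z - 1)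

/-- The iterated integral from `0` to `1` with letters `0, 1, 1 / z`. -/
noncomputable def zt (z : ℂ) (u : List (Fin 3)) : ℂ := HS (c1 z) (c0 z) u 1

/-- Derivative of `It` along a family of kernels, `d` being the derivative of `k2`. -/
noncomputable def DI (c : ℂ) (d : ℂ⟦X⟧) : List (Fin 3) → ℂ⟦X⟧
  | [] => 0
  | a :: u => prL ((if a = 2 then d * It c u else 0) + kn c a (DI c d u))

/-- Derivative of `HS` along a family; `d` is the derivative of `-k2 c`, `d'` that of `k2 c'`,
`G'` that of `G`. -/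
noncomputable def DH (c c' : ℂ) (d d' : ℂ⟦X⟧) : List (Fin 3) → ℂ⟦X⟧ → ℂ⟦X⟧ → ℂ
  | [], _, G' => EE G'
  | b :: v, G, G' => EE (DI c' d' (b :: v)) * EE G + EE (It c' (b :: v)) * EE G' +
      DH c c' d d' v (prL (kx c b G)) (prL ((if b = 2 then d * G else 0) + kx c b G'))

section
variable {M : Type*} [AddCommGroup M] [Module ℂ M]

/-- The terms from two adjacent letters. -/
def corr (b0 : ℂ) (a b : Fin 3) (pa pb : M) : M :=
  if a = 0 ∧ b = 2 then pa + pb else if a = 2 ∧ b = 0 then -pa - pb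
  else if (a = 1 ∧ b = 2) ∨ (a = 2 ∧ b = 1) then b0 • (pa - pb) else 0

/-- The inner terms of the derivative of an iterated integral in the third letter. -/
def NN (b0 : ℂ) : List (Fin 3) → (List (Fin 3) → M) → M
  | [], _ => 0
  | [a], φ => if a = 2 then -φ [] else 0
  | a :: b :: v, φ => NN b0 (b :: v) (fun w => φ (a :: w)) + corr b0 a b (φ (a :: v)) (φ (b :: v))

/-- The boundary term of the derivative in the third letter. -/
def hd2 : List (Fin 3) → (List (Fin 3) → M) → M
  | [], _ => 0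
  | a :: v, φ => if a = 2 then φ v else 0

end

/-- The derivative in `z` of `k2 (c0 z)`. -/
noncomputable def e0 (z : ℂ) : ℂ⟦X⟧ := C 2 * Geo (c0 z) ^ 2

/-- The derivative in `z` of `-k2 (c1 z)`. -/
noncomputable def e1 (z : ℂ) : ℂ⟦X⟧ := C (2 / (z - 1) ^ 2) * Geo (c1 z) ^ 2

/-- The parameter domain. -/
def UU : Set ℂ := {z | ‖2 * z - 1‖ < 19 / 10 ∧ ‖z + 1‖ < 19 / 10 * ‖z - 1‖}

/-- The integral of a letter against two iterated integrals, at `z = ω`. -/
noncomputable def IntL (l : Fin 3) (w u : List (Fin 3)) : ℂ :=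
  HS (c0 om) (c1 om) w (It (c0 om) (l :: u)) +
    HS (c1 om) (c0 om) u (prL (kx (c1 om) l (It (c1 om) w)))

/-- The moments, at `z = ω`. -/
noncomputable def MomL (w u : List (Fin 3)) (m : ℕ) : ℂ :=
  HS (c0 om) (c1 om) w (prL (derivative ℂ XX * XX ^ m * It (c0 om) u)) +
    HS (c1 om) (c0 om) u (prL (derivative ℂ XX * (1 - XX) ^ m * It (c1 om) w))

/-- The boundary values. -/
noncomputable def xi3 (w u : ℕ) (t : Bool) : ℂ :=
  if t then (if u = 0 ∨ (w ≠ 0 ∧ dg u = 0) ∨ (w = 0 ∧ dg u = 1) then 0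
    else IntL (dg u) (wd w) (wd (u / 3)))
  else if w ≠ 0 then (if dg w = 1 then 0 else IntL (sw (dg w)) (wd (w / 3)) (wd u))
  else if u = 0 then 1 else 0

/-- The span of the two letter values of weight `j`. -/
noncomputable def WV (j : ℕ) : Submodule ℚ ℂ :=
  (VV j).comap (LinearMap.mulRight ℚ ((-Complex.I) ^ j))

/-- The two letter polylogarithm as a function. -/
noncomputable def Lz (w : ℕ) (x : ℂ) : ℂ := ev (x / (2 - x)) (ell w)

end MC3
end

-- merged part: Pool.Agent.Work.MP_80812c_nt.T3.Det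
section
/-!
An interpolation determinant.

PLAN. `det_split`: `Matrix.detRowAlternating` is multilinear, `MultilinearMap.map_add_univ` writes
the determinant as the sum over `s : Finset κ` of the determinants with rows `s.piecewise p q`. If
`m < (s ∩ T).card` the rows are dependent (too many of them in `E`), so the term is zero
(`AlternatingMap.map_linearDependent`, `LinearIndependent.fintype_card_le_finrank` in `E`). Else
at least `T.card - m` rows are rows of `q`, and `Matrix.det_apply'` bounds the term by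
`card! * ∏ B i * ε ^ (card of the complement of s)`.
`crit3` (compare `crit` of `../Crit.lean`): take an independent `s0 ⊆ a '' {i | i ∉ T}` with the same
span (`exists_linearIndependent`); by `hT` the map `a` is injective on `T`, `a '' T` is disjoint from
`s0`, and `s0 ∪ a '' T` is independent; extend it by unit vectors to a basis `v` indexed by `κ`. Its
matrix has a nonzero determinant in `O`. Replacing the rows `a i`, `i ∈ T`, by `r i` does not change
the determinant (expand again by `map_add_univ`, or induct over the rows with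
`Matrix.det_updateRow_add`: a row in the span of the rows from `s0` gives zero). Apply `det_split`
with `B = H` on the rows from `range a` (at most `card ι` of them) and `B = 1` on the unit rows.
-/

namespace MC3

open Finset MCV

theorem Det_exp {κ : Type*} [Fintype κ] [DecidableEq κ] (p q : κ → κ → ℂ) :
    (Matrix.of (p + q)).det = ∑ s : Finset κ, (Matrix.of (s.piecewise p q)).det :=
  (Matrix.detRowAlternating (n := κ) (R := ℂ)).map_add_univ p q

theorem Det_dep {κ : Type*} [Fintype κ] [DecidableEq κ] (v : κ → κ → ℂ)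
    (h : ¬ LinearIndependent ℂ v) : (Matrix.of v).det = 0 :=
  (Matrix.detRowAlternating (n := κ) (R := ℂ)).map_linearDependent v h

theorem Det_bound {κ : Type*} [Fintype κ] [DecidableEq κ] (A : κ → κ → ℂ) (c : κ → ℝ)
    (h : ∀ i j, ‖A i j‖ ≤ c i) :
    ‖(Matrix.of A).det‖ ≤ (Fintype.card κ).factorial * ∏ i, c i := by
  rw [Matrix.det_apply', ← Fintype.card_perm, ← nsmul_eq_mul, ← card_univ]
  refine (norm_sum_le _ _).trans (sum_le_card_nsmul _ _ _ fun σ _ => ?_)
  have e : ‖((Equiv.Perm.sign σ : ℤ) : ℂ)‖ = 1 := by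
    rcases Int.units_eq_one_or (Equiv.Perm.sign σ) with k | k <;> simp [k]
  rw [norm_mul, e, one_mul, norm_prod, ← Equiv.prod_comp σ c]
  exact prod_le_prod (fun i _ => norm_nonneg _) fun i _ => h _ _

theorem Det_add {κ : Type*} [Fintype κ] [DecidableEq κ] (v w : κ → κ → ℂ) (T : Finset κ)
    (h0 : ∀ k, k ∉ T → w k = 0) (h1 : ∀ k ∈ T, w k ∈ Submodule.span ℂ (v '' {j | j ∉ T})) :
    (Matrix.of (w + v)).det = (Matrix.of v).det := by
  rw [Det_exp, sum_eq_single ∅, piecewise_empty]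
  · intro s _ hs
    refine Det_dep _ fun hl => ?_
    by_cases h : s ⊆ T
    · obtain ⟨k, hk⟩ := nonempty_iff_ne_empty.2 hs
      refine hl.notMem_span_image (s := {j | j ∉ T}) (x := k) (fun a => a (h hk)) ?_
      rw [piecewise_eq_of_mem _ _ _ hk,
        Set.image_congr (g := v) (s := {j | j ∉ T}) fun j (hj : j ∉ T) =>
          piecewise_eq_of_notMem _ _ _ fun a => hj (h a)]
      exact h1 k (h hk)
    · obtain ⟨k, hk, hk'⟩ := not_subset.1 h
      exact hl.ne_zero k ((piecewise_eq_of_mem _ _ _ hk).trans (h0 k hk'))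
  · exact fun h => absurd (mem_univ _) h

theorem Det_basis {ι κ : Type*} [Fintype κ] [DecidableEq κ] (a : ι → κ → ℂ) {s : Set ι}
    (hs : LinearIndepOn ℂ a s) : ∃ f : κ → ι ⊕ κ, Function.Injective f ∧
      LinearIndependent ℂ ((Sum.elim a fun j => Pi.single j 1) ∘ f) ∧
      ∀ i ∈ s, ∃ k, f k = Sum.inl i := by
  obtain ⟨b, -, b1, b2, b3⟩ := exists_linearIndepOn_extension
    (LinearIndepOn.image_of_comp Sum.inl (Sum.elim a fun j => Pi.single j (1 : ℂ)) hs)
    (Set.subset_univ _)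
  have ht : ⊤ ≤ Submodule.span ℂ
      (Set.range fun x : b => (Sum.elim a fun j => Pi.single j (1 : ℂ)) x.1) := by
    rw [← Set.image_eq_range, ← (Pi.basisFun ℂ κ).span_eq, Submodule.span_le]
    rintro _ ⟨j, rfl⟩
    exact b2 ⟨Sum.inr j, trivial, (Pi.basisFun_apply ℂ κ j).symm⟩
  let e := (Pi.basisFun ℂ κ).indexEquiv (Module.Basis.mk b3 ht)
  refine ⟨fun k => (e k).1, Subtype.val_injective.comp e.injective,
    LinearIndependent.comp b3 e e.injective, fun i hi => ⟨e.symm ⟨_, b1 ⟨i, hi, rfl⟩⟩, ?_⟩⟩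
  simp only [Equiv.apply_symm_apply]

theorem det_split {κ : Type*} [Fintype κ] [DecidableEq κ] (p q : κ → κ → ℂ) (B : κ → ℝ)
    (T : Finset κ) (E : Submodule ℂ (κ → ℂ)) {m : ℕ} (hE : Module.finrank ℂ E ≤ m) {ε : ℝ}
    (h0 : 0 ≤ ε) (h1 : ε ≤ 1) (hp : ∀ i ∈ T, p i ∈ E) (hpB : ∀ i j, ‖p i j‖ ≤ B i)
    (hqB : ∀ i j, ‖q i j‖ ≤ ε * B i) :
    ‖(Matrix.of fun i j => p i j + q i j).det‖ ≤
      2 ^ Fintype.card κ * (Fintype.card κ).factorial * (∏ i, B i) * ε ^ (T.card - m) := by
  have hB : ∀ i, 0 ≤ B i := fun i => (norm_nonneg _).trans (hpB i i)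
  have hP : 0 ≤ ∏ i, B i := prod_nonneg fun i _ => hB i
  have e : (Matrix.of fun i j => p i j + q i j).det =
      ∑ s : Finset κ, (Matrix.of (s.piecewise p q)).det := Det_exp p q
  have k : ∀ s : Finset κ, ‖(Matrix.of (s.piecewise p q)).det‖ ≤
      (Fintype.card κ).factorial * (∏ i, B i) * ε ^ (T.card - m) := fun s => by
    by_cases hs : m < (s ∩ T).card
    · rw [Det_dep _ fun hl => ?_, norm_zero]
      · positivity
      let v : ↥(s ∩ T) → E := fun i => ⟨p i, hp i (mem_inter.1 i.2).2⟩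
      have h2 : LinearIndependent ℂ (E.subtype ∘ v) := by
        have h3 := hl.comp (fun i : ↥(s ∩ T) => i.1) Subtype.val_injective
        refine (funext fun i => ?_ : _ = E.subtype ∘ v) ▸ h3
        exact piecewise_eq_of_mem _ _ _ (mem_inter.1 i.2).1
      have h4 := (LinearIndependent.of_comp _ h2).fintype_card_le_finrank
      rw [Fintype.card_coe] at h4
      omega
    · have h2 : T.card ≤ (s ∩ T).card + sᶜ.card := by
        refine (card_le_card fun i hi => ?_).trans (card_union_le _ _)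
        by_cases h : i ∈ s
        · exact mem_union_left _ (mem_inter.2 ⟨h, hi⟩)
        · exact mem_union_right _ (mem_compl.2 h)
      refine (Det_bound _ (fun i => (if i ∈ sᶜ then ε else 1) * B i) fun i j => ?_).trans ?_
      · by_cases h : i ∈ s
        · rw [piecewise_eq_of_mem _ _ _ h, if_neg (by simpa using h), one_mul]
          exact hpB i j
        · rw [piecewise_eq_of_notMem _ _ _ h, if_pos (mem_compl.2 h)]
          exact hqB i j
      · rw [prod_mul_distrib, prod_ite_mem_eq, prod_const, mul_comm (ε ^ _), ← mul_assoc]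
        exact mul_le_mul_of_nonneg_left (pow_le_pow_of_le_one h0 h1 (by omega)) (by positivity)
  rw [e]
  refine (norm_sum_le _ _).trans ((sum_le_card_nsmul _ _ _ fun s _ => k s).trans_eq ?_)
  rw [card_univ, Fintype.card_finset, nsmul_eq_mul]
  push_cast
  ring

theorem crit3 {ι κ : Type*} [Fintype ι] [Fintype κ] (O : Subring ℂ)
    (hO : ∀ x ∈ O, x ≠ 0 → 1 ≤ ‖x‖) (a : ι → κ → ℂ) (ha : ∀ i j, a i j ∈ O) (T : Finset ι)
    (hT : ∀ y : ι → ℂ, (∀ j, ∑ i, y i * a i j = 0) → ∀ i ∈ T, y i = 0) (r : ι → κ → ℂ)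
    (hr : ∀ i ∈ T, r i - a i ∈ Submodule.span ℂ (a '' {i | i ∉ T}))
    (E : Submodule ℂ (κ → ℂ)) {m : ℕ} (hE : Module.finrank ℂ E ≤ m) {H ε : ℝ} (hH : 1 ≤ H)
    (h0 : 0 ≤ ε) (h1 : ε ≤ 1) (haH : ∀ i j, ‖a i j‖ ≤ H)
    (hp : ∀ i ∈ T, ∃ p ∈ E, ∀ j, ‖p j‖ ≤ H ∧ ‖r i j - p j‖ ≤ ε * H) :
    1 ≤ 2 ^ Fintype.card κ * (Fintype.card κ).factorial * H ^ Fintype.card ι *
      ε ^ (T.card - m) := by
  classical
  obtain ⟨s0, a1, -, a2, a3⟩ := exists_linearIndepOn_extension (linearIndepOn_empty ℂ a)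
    (Set.empty_subset {i | i ∉ T})
  have a4 : LinearIndepOn ℂ a (s0 ∪ T) := by
    rw [linearIndepOn_iff] at a3 ⊢
    intro l hl h
    refine a3 l (fun i hi => (hl hi).resolve_right fun k => ?_) h
    refine Finsupp.mem_support_iff.1 hi (hT l (fun j => ?_) i k)
    have k1 := congrFun h j
    rw [Finsupp.linearCombination_apply,
      Finsupp.sum_fintype l (fun i c => c • a i) fun _ => zero_smul _ _] at k1
    simpa only [Finset.sum_apply, Pi.smul_apply, smul_eq_mul, Pi.zero_apply] using k1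
  obtain ⟨f, f1, f2, f3⟩ := Det_basis a a4
  choose p p1 p2 using hp
  let u : ι ⊕ κ → κ → ℂ := Sum.elim a fun j => Pi.single j 1
  let P : ι ⊕ κ → κ → ℂ :=
    Sum.elim (fun i => if h : i ∈ T then p i h else a i) fun j => Pi.single j 1
  let R : ι ⊕ κ → κ → ℂ := Sum.elim (fun i => if i ∈ T then r i else a i) fun j => Pi.single j 1
  let B : ι ⊕ κ → ℝ := Sum.elim (fun _ => H) fun _ => 1
  let T' : Finset κ := univ.filter fun k => ∃ i ∈ T, f k = Sum.inl i
  have t1 : ∀ k, k ∈ T' ↔ ∃ i ∈ T, f k = Sum.inl i := fun k => by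
    simp only [T', mem_filter, mem_univ, true_and]
  have hB : ∀ x, 1 ≤ B x := fun x => by
    cases x
    exacts [hH, le_rfl]
  have d1 : 1 ≤ ‖(Matrix.of (u ∘ f)).det‖ := by
    refine hO _ ?_ ((Matrix.isUnit_iff_isUnit_det _).1
      (Matrix.linearIndependent_rows_iff_isUnit.1 f2)).ne_zero
    rw [Matrix.det_apply']
    refine O.sum_mem fun σ _ => O.mul_mem (intCast_mem O _) (O.prod_mem fun i _ => ?_)
    show u (f (σ i)) i ∈ O
    rcases f (σ i) with x | x
    · exact ha x i
    · show (Pi.single x 1 : κ → ℂ) i ∈ O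
      rw [Pi.single_apply]
      split_ifs
      exacts [O.one_mem, O.zero_mem]
  have d2 := Det_add (u ∘ f) (R ∘ f - u ∘ f) T' (fun k hk => by
      show R (f k) - u (f k) = 0
      rw [t1] at hk
      rcases hx : f k with x | x
      · show (if x ∈ T then r x else a x) - a x = 0
        rw [if_neg fun c => hk ⟨x, c, hx⟩, sub_self]
      · exact sub_self _) (fun k hk => by
      obtain ⟨i, hi, hx⟩ := (t1 k).1 hk
      show R (f k) - u (f k) ∈ _
      rw [hx]
      show (if i ∈ T then r i else a i) - a i ∈ _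
      rw [if_pos hi]
      refine Submodule.span_le.2 (a2.trans (Submodule.span_mono ?_)) (hr i hi)
      rintro _ ⟨j, hj, rfl⟩
      obtain ⟨l, hl⟩ := f3 j (Or.inl hj)
      refine ⟨l, fun c => ?_, ?_⟩
      · obtain ⟨j', c1, c2⟩ := (t1 l).1 c
        exact a1 hj (Sum.inl_injective (hl.symm.trans c2) ▸ c1)
      · show u (f l) = a j
        rw [hl]
        rfl)
  have d3 := det_split (fun k => P (f k)) (fun k => R (f k) - P (f k)) (fun k => B (f k)) T' E hE
    h0 h1 (fun k hk => by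
      obtain ⟨i, hi, hx⟩ := (t1 k).1 hk
      rw [hx]
      show (if h : i ∈ T then p i h else a i) ∈ E
      rw [dif_pos hi]
      exact p1 i hi) (fun k j => by
      rcases f k with x | x
      · show ‖(if h : x ∈ T then p x h else a x) j‖ ≤ H
        split_ifs with c
        exacts [(p2 x c j).1, haH x j]
      · show ‖(Pi.single x 1 : κ → ℂ) j‖ ≤ 1
        rw [Pi.single_apply]
        split_ifs <;> simp) (fun k j => by
      rcases f k with x | x
      · show ‖(if x ∈ T then r x else a x) j - (if h : x ∈ T then p x h else a x) j‖ ≤ ε * H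
        split_ifs with c
        · exact (p2 x c j).2
        · rw [sub_self, norm_zero]
          exact mul_nonneg h0 (zero_le_one.trans hH)
      · show ‖(Pi.single x 1 : κ → ℂ) j - (Pi.single x 1 : κ → ℂ) j‖ ≤ ε * 1
        rw [sub_self, norm_zero, mul_one]
        exact h0)
  have d4 : (Matrix.of fun k j => P (f k) j + (R (f k) - P (f k)) j) =
      Matrix.of (R ∘ f - u ∘ f + u ∘ f) := by
    rw [sub_add_cancel]
    ext k j
    simp only [Matrix.of_apply, Pi.sub_apply, add_sub_cancel, Function.comp]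
  rw [d4, d2] at d3
  have d5 : ∏ k, B (f k) ≤ H ^ Fintype.card ι := by
    rw [← prod_image (s := univ) (g := f) (f := B) f1.injOn]
    refine (prod_le_prod_of_subset_of_one_le (subset_univ _)
      (fun x _ => zero_le_one.trans (hB x)) fun x _ _ => hB x).trans_eq ?_
    simp [B, Fintype.prod_sum_type]
  have d6 : T.card ≤ T'.card := by
    rw [← card_image_of_injective T (Sum.inl_injective (β := κ))]
    refine (card_le_card fun x hx => ?_).trans (card_image_le (f := f))
    obtain ⟨i, hi, rfl⟩ := mem_image.1 hx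
    obtain ⟨k, hk⟩ := f3 i (Or.inr hi)
    exact mem_image.2 ⟨k, (t1 k).2 ⟨i, hi, hk⟩, hk⟩
  refine (d1.trans d3).trans (mul_le_mul (mul_le_mul_of_nonneg_left d5 (by positivity))
    (pow_le_pow_of_le_one h0 h1 (by omega)) (by positivity) ?_)
  have := zero_le_one.trans hH
  positivity

end MC3
end

-- merged part: Pool.Agent.Work.MP_80812c_nt.T3.Desc
section
/-!
Descent to the root in a stable submodule.

PLAN (compare `step1` of `../ZeroA.lean`). Write `B m u = ∑ l, C (e l) * m (u, l)`. Among all pairs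
`(m, u)` with `m ∈ U`, `m i = 0` whenever `sz u < sz i.1`, and `B m u ≠ 0`, take `k = sz u` minimal,
and then the number of `i` with `sz i.1 = k`, `m i ≠ 0` minimal. On level `k` one has
`nb1 m i = DD (m i)` (children have `sz = k + 1`, `sz_pos`), above level `k` it is zero. For each
`i0` of level `k` with `c = m i0 ≠ 0` the element `c • nb1 m - DD c • m` of `U` vanishes above `k`,
has smaller support on level `k`, hence `B` of it vanishes at `u`: `c * DD (B m u) = DD c * B m u`.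
By `exists_const_of_wr` (cancel `(1 - X)(1 - zX)X`) applied with the nonzero `c0 = B m u`, every
level `k` entry is `C (t i) * c0`. So `m' = c0 • nb1 m - DD c0 • m` vanishes on levels `≥ k`. If
`k = 0` we are done (`sz w = 0` iff `w = 0`; `∑ e l * t l = 1`). If `k ≥ 1`, minimality of `k` gives
`B m' (pr u) = 0`, which reads
`c0 * DD p - DD c0 * p + (∑ a, C (κ a) * τ a) * c0 ^ 2 = 0` with `p = B m (pr u)` and
`κ a = ∑ v, if (v ≠ 0 ∧ v / 3 = u / 3) ∧ dg v = a then ∑ l, e l * t (v, l) else 0`; `Res` gives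
`κ (dg u) = 0`, but `κ (dg u) = ∑ l, e l * t (u, l) = 1`.
-/

namespace MC3

open Finset MCV Polynomial

variable {K : Type*} [Field K] [CharZero K]

omit [CharZero K] in
theorem Desc_DD_C_mul (z a : K) (p : K[X]) : DD z (C a * p) = C a * DD z p := by
  simp only [DD, derivative_mul, derivative_C, zero_mul, zero_add]
  ring

omit [CharZero K] in
theorem Desc_leaf {z : K} {τ : Fin 3 → K[X]} {N : ℕ} {L : Type*} {m : Fin N × L → K[X]} {k : ℕ}
    (h : ∀ i, k < sz i.1 → m i = 0) {i : Fin N × L} (hi : k ≤ sz i.1) :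
    nb1 z τ m i = DD z (m i) := by
  rw [nb1, sum_eq_zero, add_zero]
  intro v _
  split_ifs with hv
  · rw [h (v, i.2), mul_zero]
    show k < sz v.1
    rw [sz_pos hv.1, hv.2]
    omega
  · rfl

theorem Desc_const {z : K} {c p : K[X]} (hc : c ≠ 0) (h : p * DD z c = DD z p * c) :
    ∃ κ : K, p = C κ * c := by
  have hT : (1 - X) * (1 - C z * X) * X ≠ (0 : K[X]) :=
    mul_ne_zero (mul_ne_zero one_sub_X_ne (one_sub_C_mul_X_ne z)) X_ne_zero
  refine exists_const_of_wr hc (mul_left_cancel₀ hT ?_)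
  simp only [DD] at h
  linear_combination -h

theorem Desc_sz_eq_zero {w : ℕ} (h : sz w = 0) : w = 0 := by
  by_contra hw
  rw [sz_pos hw] at h
  omega

omit [CharZero K] in
theorem Desc_B {L : Type*} [Fintype L] (z : K) (e : L → K) (c : K[X]) (f g : L → K[X]) :
    ∑ l, C (e l) * (c * (DD z (f l) + g l) - DD z c * f l) =
      c * DD z (∑ l, C (e l) * f l) - DD z c * (∑ l, C (e l) * f l) +
        c * ∑ l, C (e l) * g l := by
  rw [DD_sum, mul_sum, mul_sum, mul_sum, ← sum_sub_distrib, ← sum_add_distrib]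
  refine sum_congr rfl fun l _ => ?_
  rw [Desc_DD_C_mul]
  ring

theorem Desc_level {z : K} {τ : Fin 3 → K[X]} {N : ℕ} {L : Type*} [Fintype L] (e : L → K)
    (U : Submodule K[X] (Fin N × L → K[X])) (hU : ∀ m ∈ U, nb1 z τ m ∈ U) {u : Fin N}
    (hex : ∃ m ∈ U, (∀ i, sz u < sz i.1 → m i = 0) ∧ ∑ l, C (e l) * m (u, l) ≠ 0) :
    ∃ m ∈ U, (∀ i, sz u < sz i.1 → m i = 0) ∧ ∃ c : K[X], c ≠ 0 ∧ ∃ t : Fin N × L → K,
      ∑ l, e l * t (u, l) = 1 ∧ ∀ i, sz i.1 = sz u → m i = C (t i) * c := by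
  classical
  have hex' : ∃ n : ℕ, ∃ m ∈ U, (∀ i, sz u < sz i.1 → m i = 0) ∧ ∑ l, C (e l) * m (u, l) ≠ 0 ∧
      (univ.filter fun i : Fin N × L => sz i.1 = sz u ∧ m i ≠ 0).card = n := by
    obtain ⟨m, h1, h2, h3⟩ := hex
    exact ⟨_, m, h1, h2, h3, rfl⟩
  obtain ⟨m, hm, h1, h2, h3⟩ := Nat.find_spec hex'
  have hmin := fun n => Nat.find_min hex' (m := n)
  rw [← h3] at hmin
  set c0 := ∑ l, C (e l) * m (u, l) with hc0
  have h4 : ∀ i : Fin N × L, ∃ κ : K, sz i.1 = sz u → m i = C κ * c0 := fun i0 => by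
    by_cases hi : sz i0.1 = sz u
    swap
    · exact ⟨0, fun h => absurd h hi⟩
    by_cases hc : m i0 = 0
    · exact ⟨0, fun _ => by rw [hc, C_0, zero_mul]⟩
    have h5 : ∀ i : Fin N × L, sz u ≤ sz i.1 → (m i0 • nb1 z τ m - DD z (m i0) • m) i =
        m i0 * (DD z (m i) + 0) - DD z (m i0) * m i := fun i h => by
      simp only [Pi.sub_apply, Pi.smul_apply, smul_eq_mul]
      rw [Desc_leaf h1 h, add_zero]
    have h6 : ∑ l, C (e l) * (m i0 • nb1 z τ m - DD z (m i0) • m) (u, l) = 0 := by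
      by_contra hne
      refine hmin _ ?_ ⟨_, U.sub_mem (U.smul_mem _ (hU m hm)) (U.smul_mem _ hm),
        fun i h => ?_, hne, rfl⟩
      · refine card_lt_card ⟨fun i h => ?_, fun h => ?_⟩
        · rw [mem_filter] at h ⊢
          refine ⟨h.1, h.2.1, fun k => h.2.2 ?_⟩
          rw [h5 i h.2.1.ge, k, DD_zero]
          ring
        · have := h (mem_filter.2 ⟨mem_univ i0, hi, hc⟩)
          rw [mem_filter, h5 i0 hi.ge] at this
          exact this.2.2 (by ring)
      · rw [h5 i h.le, h1 i h, DD_zero]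
        ring
    rw [sum_congr rfl fun l _ => by rw [h5 (u, l) le_rfl],
      Desc_B z e (m i0) (fun l => m (u, l)) fun _ => 0] at h6
    simp only [mul_zero, sum_const_zero, add_zero] at h6
    obtain ⟨κ, hκ⟩ := Desc_const (z := z) (p := m i0) h2 (sub_eq_zero.1 h6)
    exact ⟨κ, fun _ => hκ⟩
  choose t ht using h4
  refine ⟨m, hm, h1, c0, h2, t, ?_, ht⟩
  have h5 : C (∑ l, e l * t (u, l)) * c0 = C 1 * c0 := by
    rw [C_1, one_mul, map_sum, sum_mul]
    conv_rhs => rw [hc0]
    refine sum_congr rfl fun l _ => ?_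
    rw [ht (u, l) rfl, C_mul, mul_assoc]
  exact C_injective (mul_right_cancel₀ h2 h5)

theorem desc {z : K} {τ : Fin 3 → K[X]} (hτ : Res z τ) {N : ℕ} {L : Type*} [Fintype L] (e : L → K)
    (U : Submodule K[X] (Fin N × L → K[X])) (hU : ∀ m ∈ U, nb1 z τ m ∈ U)
    {m : Fin N × L → K[X]} (hm : m ∈ U) {u : Fin N} (h1 : ∀ i, sz u < sz i.1 → m i = 0)
    (h2 : ∑ l, C (e l) * m (u, l) ≠ 0) :
    ∃ m ∈ U, ∃ c : K[X], c ≠ 0 ∧ ∃ t : L → K, ∑ l, e l * t l ≠ 0 ∧
      ∀ i, m i = if i.1.1 = 0 then C (t i.2) * c else 0 := by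
  classical
  induction hk : sz u using Nat.strong_induction_on generalizing m u with
  | _ k ih =>
  obtain ⟨m, hm, h1, c, hc, t, ht1, ht⟩ := Desc_level e U hU ⟨m, hm, h1, h2⟩
  by_cases hu : u.1 = 0
  · refine ⟨m, hm, c, hc, fun l => t (u, l), by rw [ht1]; exact one_ne_zero, fun i => ?_⟩
    split_ifs with hi
    · have h3 : i = (u, i.2) := Prod.ext (Fin.ext (by rw [hi, hu])) rfl
      show m i = C (t (u, i.2)) * c
      rw [ht i (by rw [hi, hu]), ← h3]
    · refine h1 i ?_
      rw [hu, sz_zero, sz_pos hi]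
      omega
  have hp : sz u = sz (pr u) + 1 := sz_pos hu
  refine ih (sz (pr u)) (by omega)
    (U.sub_mem (U.smul_mem c (hU m hm)) (U.smul_mem (DD z c) hm)) (u := pr u) (fun i hi => ?_) ?_ rfl
  · simp only [Pi.sub_apply, Pi.smul_apply, smul_eq_mul]
    rw [Desc_leaf h1 (by omega)]
    by_cases h : sz i.1 = sz u
    · rw [ht i h, Desc_DD_C_mul]
      ring
    · rw [h1 i (by omega), DD_zero]
      ring
  intro h0
  simp only [Pi.sub_apply, Pi.smul_apply, smul_eq_mul, nb1] at h0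
  rw [Desc_B z e c fun l => m (pr u, l)] at h0
  let κ : Fin 3 → K := fun a => ∑ v : Fin N,
    if (v.1 ≠ 0 ∧ v.1 / 3 = u.1 / 3) ∧ dg v.1 = a then ∑ l, e l * t (v, l) else 0
  have h3 : ∑ l, C (e l) * ∑ v : Fin N,
      (if v.1 ≠ 0 ∧ v.1 / 3 = (pr u).1 then τ (dg v.1) * m (v, l) else 0) =
      (∑ a, C (κ a) * τ a) * c := by
    simp only [κ, map_sum, mul_sum, sum_mul]
    rw [sum_comm, sum_comm (s := (univ : Finset (Fin 3)))]
    refine sum_congr rfl fun v _ => ?_
    by_cases hv : v.1 ≠ 0 ∧ v.1 / 3 = u.1 / 3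
    · have hv' : v.1 ≠ 0 ∧ v.1 / 3 = (pr u).1 := hv
      have hs : sz v.1 = sz u.1 := by rw [sz_pos hv.1, sz_pos hu, hv.2]
      rw [sum_eq_single (dg v.1), if_pos ⟨hv, rfl⟩, map_sum, sum_mul, sum_mul]
      · refine sum_congr rfl fun l _ => ?_
        rw [if_pos hv', ht (v, l) hs, C_mul]
        ring
      · intro a _ ha
        rw [if_neg fun h => ha h.2.symm, C_0, zero_mul, zero_mul]
      · simp
    · have hv' : ¬(v.1 ≠ 0 ∧ v.1 / 3 = (pr u).1) := hv
      rw [sum_eq_zero, sum_eq_zero]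
      · intro a _
        rw [if_neg fun h => hv h.1, C_0, zero_mul, zero_mul]
      · intro l _
        rw [if_neg hv', mul_zero]
  rw [h3] at h0
  have h4 := hτ κ (∑ l, C (e l) * m (pr u, l)) c hc (by linear_combination h0) (dg u.1)
  have h5 : κ (dg u.1) = ∑ l, e l * t (u, l) := by
    simp only [κ]
    rw [sum_eq_single u, if_pos ⟨⟨hu, rfl⟩, rfl⟩]
    · intro v _ hv
      rw [if_neg]
      intro h
      have h6 := congrArg Fin.val h.2
      simp only [dg] at h6
      exact hv (Fin.ext (by omega))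
    · simp
  rw [h5, ht1] at h4
  exact one_ne_zero h4

end MC3
end

-- merged part: Pool.Agent.Work.MP_80812c_nt.T3.Mult
section
/-!
The multiplicity estimate for approximations of the second kind.

PLAN: adapt `../ZeroB.lean` (`nab2`, `nab`, `nab_dual`, `nab_add`, `nab_smul`, `step23`) and
`../ZeroC.lean` (`hh_nab`, `natDegree_nab`, `mult_est`) to the module
`(Fin N2 × L → K[X]) × (Fin N1 → K[X])` with
`nb m = (nb1 z τ2 m.1, fun w => DD z (m.2 w) - (if w ≠ 0 then τ1 (dg w) * m.2 (pr w) else 0)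
  + ∑ i, β w i * m.1 i)` and `hh m w = ∑ i, m.1 i * G w i + m.2 w`. `U` is the saturated module
spanned by the iterates of `(A, Q)` as in `mult_est`. New `step23`: `desc` applied to
`U.map fst` and `A` gives `m ∈ U` with `m.1 = C (t l) * c` on the roots and zero elsewhere; then
`c • nb m - DD c • m = (0, q)` and at the root `r` of `Fin N1`
`q r = c * DD (m.2 r) - DD c * m.2 r + C (∑ e l * t l) * X * (1 - C z * X) * c ^ 2 ≠ 0` (cancel
`(1 - C z * X) * X`, then `residue_zero` at `α = 1`). The annihilator of `{q | (0, q) ∈ U}` is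
stable under `nb1 z τ1` (with `L = Unit`, `e = 1`; take `u` of maximal `sz` in the support), so if it
were nonzero `desc` would give an element `c' * e_r` of it, against `q r ≠ 0`. The count is that of
`mult_est`: `r * E ≤ S.card * (E + L') + N1 * L'`, `S.card + N1 ≤ r ≤ ρ`, `L' = n + 2 * r`.
`exists_coords`, `clear_den`, `exists_first_dep`, `DS_*`, `coe_sum`, `coe_ite` can be cited.
-/

namespace MC3

open Finset MCV Polynomial

variable {K : Type*} [Field K] [CharZero K]

section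
variable {N N1 N2 : ℕ} {L : Type*} [Fintype L]

/-- The dual connection. -/
noncomputable def Mult_n2 (z : K) (τ : Fin 3 → K[X]) (q : Fin N → K[X]) : Fin N → K[X] := fun w =>
  DD z (q w) - if w.1 ≠ 0 then τ (dg w.1) * q (pr w) else 0

/-- The full connection. -/
noncomputable def Mult_nb (z : K) (τ1 τ2 : Fin 3 → K[X]) (β : Fin N1 → Fin N2 × L → K[X])
    (m : (Fin N2 × L → K[X]) × (Fin N1 → K[X])) : (Fin N2 × L → K[X]) × (Fin N1 → K[X]) :=
  (nb1 z τ2 m.1, fun w => Mult_n2 z τ1 m.2 w + ∑ i, β w i * m.1 i)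

theorem Mult_child {R : Type*} [CommRing R] (f : Fin N × L → Fin N × L → R) :
    ∑ i : Fin N × L, ∑ v : Fin N, (if v.1 ≠ 0 ∧ v.1 / 3 = i.1.1 then f (v, i.2) i else 0) =
      ∑ i : Fin N × L, if i.1.1 ≠ 0 then f i (pr i.1, i.2) else 0 := by
  rw [Fintype.sum_prod_type_right, Fintype.sum_prod_type_right]
  refine sum_congr rfl fun l _ => ?_
  rw [sum_comm]
  refine sum_congr rfl fun v _ => ?_
  rw [sum_eq_single (pr v)]
  · simp [pr]
  · intro w _ hw
    rw [if_neg]
    exact fun h => hw (Fin.ext h.2.symm)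
  · simp

omit [CharZero K] in
theorem Mult_dual (z : K) (τ : Fin 3 → K[X]) (P : Fin N × L → K[X]) (q : Fin N → K[X]) :
    DD z (∑ i, P i * q i.1) = ∑ i, nb1 z τ P i * q i.1 + ∑ i, P i * Mult_n2 z τ q i.1 := by
  have h := Mult_child (fun v w : Fin N × L => τ (dg v.1.1) * P v * q w.1)
  simp only [DD_sum, DD_mul, nb1, Mult_n2, add_mul, sum_mul, ite_mul, zero_mul, sum_add_distrib,
    mul_sub, sum_sub_distrib, mul_ite, mul_zero, h]
  have h2 : ∑ v : Fin N × L, (if v.1.1 ≠ 0 then τ (dg v.1.1) * P v * q (pr v.1) else 0) =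
      ∑ v : Fin N × L, if v.1.1 ≠ 0 then P v * (τ (dg v.1.1) * q (pr v.1)) else 0 :=
    sum_congr rfl fun v _ => by split_ifs <;> ring
  rw [h2]
  ring

variable {z : K} {τ1 τ2 : Fin 3 → K[X]} {β : Fin N1 → Fin N2 × L → K[X]}

omit [CharZero K] in
theorem Mult_add (m m' : (Fin N2 × L → K[X]) × (Fin N1 → K[X])) :
    Mult_nb z τ1 τ2 β (m + m') = Mult_nb z τ1 τ2 β m + Mult_nb z τ1 τ2 β m' := by
  refine Prod.ext (funext fun w => ?_) (funext fun u => ?_)
  · simp only [Mult_nb, nb1, Prod.fst_add, Pi.add_apply, DD_add]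
    rw [add_add_add_comm, ← sum_add_distrib]
    congr 1
    exact sum_congr rfl fun v _ => by split_ifs <;> ring
  · simp only [Mult_nb, Mult_n2, Prod.snd_add, Prod.fst_add, Pi.add_apply, DD_add, mul_add,
      sum_add_distrib]
    split_ifs <;> ring

omit [CharZero K] in
theorem Mult_smul (a : K[X]) (m : (Fin N2 × L → K[X]) × (Fin N1 → K[X])) :
    Mult_nb z τ1 τ2 β (a • m) = DD z a • m + a • Mult_nb z τ1 τ2 β m := by
  refine Prod.ext (funext fun w => ?_) (funext fun u => ?_)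
  · simp only [Mult_nb, nb1, Prod.fst_add, Prod.smul_fst, Pi.add_apply, Pi.smul_apply, smul_eq_mul,
      DD_mul, mul_add, mul_sum]
    rw [add_assoc]
    congr 2
    exact sum_congr rfl fun v _ => by split_ifs <;> ring
  · simp only [Mult_nb, Mult_n2, Prod.snd_add, Prod.smul_fst, Prod.smul_snd, Pi.add_apply,
      Pi.smul_apply, smul_eq_mul, DD_mul, mul_add, mul_sum, mul_sub]
    rw [sum_congr rfl fun w _ => mul_left_comm (β u w) a (m.1 w)]
    split_ifs <;> ring

omit [CharZero K] in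
theorem Mult_sum {ι : Type*} (s : Finset ι) (m : ι → (Fin N2 × L → K[X]) × (Fin N1 → K[X])) :
    Mult_nb z τ1 τ2 β (∑ i ∈ s, m i) = ∑ i ∈ s, Mult_nb z τ1 τ2 β (m i) := by
  classical
  induction s using Finset.induction_on with
  | empty => simpa [DD_zero] using Mult_smul (z := z) (τ1 := τ1) (τ2 := τ2) (β := β) 0 0
  | insert i s hi ih => rw [sum_insert hi, sum_insert hi, Mult_add, ih]

omit [CharZero K] in
theorem Mult_root {r : Fin N} (hr : r.1 = 0) (f g : Fin N × L → K[X]) :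
    ∑ i, f i * (if i.1.1 = 0 then g i else 0) = ∑ l, f (r, l) * g (r, l) := by
  rw [Fintype.sum_prod_type_right]
  refine sum_congr rfl fun l _ => ?_
  rw [sum_eq_single r, if_pos hr]
  · intro w _ hw
    rw [if_neg fun k => hw (Fin.ext (k.trans hr.symm)), mul_zero]
  · simp

theorem Mult_step (h1 : Res z τ1) (h2 : Res z τ2) {r : Fin N1} (hr : r.1 = 0) (e : L → K)
    (hβ : ∀ w i, w.1 = 0 → i.1.1 = 0 → β w i = C (e i.2) * (X * (1 - C z * X)))
    (U : Submodule K[X] ((Fin N2 × L → K[X]) × (Fin N1 → K[X])))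
    (hU : ∀ m ∈ U, Mult_nb z τ1 τ2 β m ∈ U) {m0 : (Fin N2 × L → K[X]) × (Fin N1 → K[X])}
    (h0 : m0 ∈ U) {u : Fin N2} (hu : ∀ v : Fin N2, sz v ≤ sz u)
    (hB : ∑ l, C (e l) * m0.1 (u, l) ≠ 0) (P : Fin N1 → K[X])
    (hP : ∀ q, ((0 : Fin N2 × L → K[X]), q) ∈ U → ∑ u, P u * q u = 0) : P = 0 := by
  classical
  obtain ⟨p, ⟨m, hm, rfl⟩, c, hc, t, ht, h3⟩ := desc h2 e (U.map (LinearMap.fst K[X] _ _))
    (by
      rintro _ ⟨m, hm, rfl⟩
      exact ⟨_, hU m hm, rfl⟩) (m := m0.1) ⟨m0, h0, rfl⟩ (u := u)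
    (fun i hi => absurd (hu i.1) (not_le.2 hi)) hB
  simp only [LinearMap.fst_apply] at h3
  have h4 : c • Mult_nb z τ1 τ2 β m - DD z c • m ∈ U :=
    U.sub_mem (U.smul_mem _ (hU m hm)) (U.smul_mem _ hm)
  have h5 : (c • Mult_nb z τ1 τ2 β m - DD z c • m).1 = 0 := by
    funext i
    simp only [Mult_nb, nb1, Prod.fst_sub, Prod.smul_fst, Pi.sub_apply, Pi.smul_apply, smul_eq_mul,
      Pi.zero_apply]
    rw [sum_eq_zero fun v _ => by
      split_ifs with h
      · rw [h3, if_neg h.1, mul_zero]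
      · rfl, h3]
    split_ifs
    · simp only [DD, derivative_mul, derivative_C]
      ring
    · rw [DD_zero]
      ring
  have h6 : (c • Mult_nb z τ1 τ2 β m - DD z c • m).2 r ≠ 0 := by
    intro h
    have k1 : ∑ i, β r i * m.1 i = C (∑ l, e l * t l) * (X * (1 - C z * X)) * c := by
      rw [sum_congr rfl fun i _ => by rw [h3 i],
        Mult_root (r := (⟨0, u.pos⟩ : Fin N2)) rfl _ fun i => C (t i.2) * c, map_sum, sum_mul,
        sum_mul]
      refine sum_congr rfl fun l _ => ?_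
      rw [hβ r _ hr rfl, C_mul]
      ring
    simp only [Mult_nb, Mult_n2, Prod.snd_sub, Prod.smul_snd, Pi.sub_apply, Pi.smul_apply,
      smul_eq_mul, hr, ne_eq, not_true_eq_false, if_false, sub_zero, k1, DD] at h
    have k2 : (X - C 1) * 1 * (derivative (m.2 r) * c - m.2 r * derivative c) =
        C (∑ l, e l * t l) * c ^ 2 := by
      refine mul_left_cancel₀ (mul_ne_zero (one_sub_C_mul_X_ne z) X_ne_zero) ?_
      rw [C_1]
      linear_combination -h
    exact ht (eval_C.symm.trans (residue_zero (by simp) hc k2))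
  set q := (c • Mult_nb z τ1 τ2 β m - DD z c • m).2 with hq
  have h7 : ((0 : Fin N2 × L → K[X]), q) ∈ U := by
    rw [← h5]
    exact h4
  let A : Submodule K[X] (Fin N1 × Unit → K[X]) :=
    { carrier := {P | ∀ q, ((0 : Fin N2 × L → K[X]), q) ∈ U → ∑ i, P i * q i.1 = 0}
      add_mem' := fun ha hb q hq => by
        simp only [Pi.add_apply, add_mul, sum_add_distrib, ha q hq, hb q hq, add_zero]
      zero_mem' := fun q _ => by simp
      smul_mem' := fun a P hP q hq => by
        simp only [Pi.smul_apply, smul_eq_mul, mul_assoc, ← mul_sum, hP q hq, mul_zero] }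
  by_contra hP0
  obtain ⟨w0, hw0⟩ := Function.ne_iff.1 hP0
  obtain ⟨w, k1, k2⟩ := exists_max_image (univ.filter fun w => P w ≠ 0) (fun w => sz w.1)
    ⟨w0, mem_filter.2 ⟨mem_univ _, hw0⟩⟩
  obtain ⟨p, h8, c', hc', t', ht', h9⟩ := desc h1 (fun _ : Unit => (1 : K)) A
    (by
      intro P hP q hq
      have h7 : Mult_nb z τ1 τ2 β (0, q) = (0, Mult_n2 z τ1 q) := by
        refine Prod.ext (funext fun w => ?_) (funext fun u => ?_) <;> simp [Mult_nb, nb1, DD_zero]
      have h8 := Mult_dual z τ1 P q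
      rw [hP q hq, hP _ (h7 ▸ hU _ hq), DD_zero, add_zero] at h8
      exact h8.symm)
    (m := fun i => P i.1) (fun q hq => by
      rw [Fintype.sum_prod_type]
      simpa using hP q hq) (u := w)
    (fun i hi => by
      by_contra k
      exact absurd (k2 i.1 (mem_filter.2 ⟨mem_univ _, k⟩)) (not_le.2 hi))
    (by simpa using (mem_filter.1 k1).2)
  have h10 := h8 q h7
  rw [sum_congr rfl fun i _ => by rw [mul_comm, h9 i],
    Mult_root hr (fun i => q i.1) fun i => C (t' i.2) * c'] at h10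
  simp only [univ_unique, sum_singleton, one_mul] at h10 ht'
  exact mul_ne_zero h6 (mul_ne_zero (C_ne_zero.2 ht') hc') h10

/-- The remainder series. -/
noncomputable def Mult_hh (G : Fin N1 → Fin N2 × L → PowerSeries K)
    (m : (Fin N2 × L → K[X]) × (Fin N1 → K[X])) (w : Fin N1) : PowerSeries K :=
  ∑ i, (m.1 i : PowerSeries K) * G w i + m.2 w

omit [CharZero K] in
theorem Mult_hh_nb {G : Fin N1 → Fin N2 × L → PowerSeries K}
    (hG : ∀ w i, DS z (G w i) =
      (if w.1 ≠ 0 then (τ1 (dg w.1) : PowerSeries K) * G (pr w) i else 0) +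
      (if i.1.1 ≠ 0 then (τ2 (dg i.1.1) : PowerSeries K) * G w (pr i.1, i.2) else 0) +
      (β w i : PowerSeries K))
    (m : (Fin N2 × L → K[X]) × (Fin N1 → K[X])) (w : Fin N1) :
    Mult_hh G (Mult_nb z τ1 τ2 β m) w = DS z (Mult_hh G m w) -
      if w.1 ≠ 0 then (τ1 (dg w.1) : PowerSeries K) * Mult_hh G m (pr w) else 0 := by
  have h := Mult_child (fun v i : Fin N2 × L =>
    (τ2 (dg v.1.1) : PowerSeries K) * m.1 v * G w i)
  simp only [Mult_hh, Mult_nb, nb1, Mult_n2, DS_add, DS_sum, DS_mul, DS_coe, hG, Polynomial.coe_add,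
    Polynomial.coe_sub, MCV.coe_sum, coe_ite, Polynomial.coe_mul, add_mul, sum_mul, ite_mul, zero_mul,
    sum_add_distrib, mul_add, mul_ite, mul_zero, h]
  have h2 : ∑ v : Fin N2 × L, (if v.1.1 ≠ 0 then (τ2 (dg v.1.1) : PowerSeries K) * m.1 v *
      G w (pr v.1, v.2) else 0) = ∑ v : Fin N2 × L, if v.1.1 ≠ 0 then (m.1 v : PowerSeries K) *
        ((τ2 (dg v.1.1) : PowerSeries K) * G w (pr v.1, v.2)) else 0 :=
    sum_congr rfl fun v _ => by split_ifs <;> ring
  rw [h2, sum_congr rfl fun i _ => mul_comm (β w i : PowerSeries K) (m.1 i)]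
  split_ifs
  · rw [mul_sum, sum_congr rfl fun i _ =>
      mul_left_comm (τ1 (dg w.1) : PowerSeries K) (m.1 i) (G (pr w) i)]
    ring
  · simp only [sum_const_zero]
    ring

theorem Mult_deg (hd1 : ∀ a, (τ1 a).natDegree ≤ 2) (hd2 : ∀ a, (τ2 a).natDegree ≤ 2)
    (hβ : ∀ w u, (β w u).natDegree ≤ 2) {m : (Fin N2 × L → K[X]) × (Fin N1 → K[X])} {d : ℕ}
    (h : (∀ w, (m.1 w).natDegree ≤ d) ∧ ∀ w, (m.2 w).natDegree ≤ d) :
    (∀ w, ((Mult_nb z τ1 τ2 β m).1 w).natDegree ≤ d + 2) ∧
      ∀ w, ((Mult_nb z τ1 τ2 β m).2 w).natDegree ≤ d + 2 := by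
  have h1 : ∀ {p q : K[X]}, p.natDegree ≤ 2 → q.natDegree ≤ d → (p * q).natDegree ≤ d + 2 :=
    fun hp hq => natDegree_mul_le.trans (by omega)
  have h2 : ∀ {p : K[X]}, p.natDegree ≤ d → (DD z p).natDegree ≤ d + 2 := fun hp =>
    h1 (natDegree_TT z) ((natDegree_X_mul_derivative _).trans hp)
  refine ⟨fun w => ?_, fun u => ?_⟩
  · refine natDegree_add_le_of_degree_le (h2 (h.1 w))
      (natDegree_sum_le_of_forall_le _ _ fun v _ => ?_)
    split_ifs
    · exact h1 (hd2 _) (h.1 _)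
    · simp
  · refine natDegree_add_le_of_degree_le ((natDegree_sub_le _ _).trans (max_le (h2 (h.2 u)) ?_))
      (natDegree_sum_le_of_forall_le _ _ fun v _ => h1 (hβ _ _) (h.1 v))
    split_ifs
    · exact h1 (hd1 _) (h.2 _)
    · simp

end

theorem mult_est3 {z : K} {τ1 τ2 : Fin 3 → K[X]} (h1 : Res z τ1) (h2 : Res z τ2)
    (hd1 : ∀ a, (τ1 a).natDegree ≤ 2) (hd2 : ∀ a, (τ2 a).natDegree ≤ 2) {N1 N2 : ℕ} (hN : 0 < N1)
    {L : Type*} [Fintype L] (e : L → K) {β : Fin N1 → Fin N2 × L → K[X]}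
    (hβ : ∀ w i, w.1 = 0 → i.1.1 = 0 → β w i = C (e i.2) * (X * (1 - C z * X)))
    (hβd : ∀ w i, (β w i).natDegree ≤ 2) {G : Fin N1 → Fin N2 × L → PowerSeries K}
    (hG : ∀ w i, DS z (G w i) =
      (if w.1 ≠ 0 then (τ1 (dg w.1) : PowerSeries K) * G (pr w) i else 0) +
      (if i.1.1 ≠ 0 then (τ2 (dg i.1.1) : PowerSeries K) * G w (pr i.1, i.2) else 0) +
      (β w i : PowerSeries K))
    {A : Fin N2 × L → K[X]} {Q : Fin N1 → K[X]} {u : Fin N2} (hu : ∀ v : Fin N2, sz v ≤ sz u)
    (hB : ∑ l, C (e l) * A (u, l) ≠ 0) {n E : ℕ} (hA : ∀ i, (A i).natDegree ≤ n)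
    (hQ : ∀ w, (Q w).natDegree ≤ n)
    (hE : ∀ w, PowerSeries.X ^ E ∣ ∑ i, (A i : PowerSeries K) * G w i + (Q w : PowerSeries K)) :
    N1 * E ≤ (N2 * Fintype.card L + N1) * (n + 2 * (N2 * Fintype.card L + N1)) := by
  classical
  let F := FractionRing K[X]
  have hinj : Function.Injective (algebraMap K[X] F) := IsFractionRing.injective _ _
  let φ : ((Fin N2 × L → K[X]) × (Fin N1 → K[X])) →ₗ[K[X]] ((Fin N2 × L → F) × (Fin N1 → F)) :=
    LinearMap.prodMap ((Algebra.linearMap K[X] F).compLeft _)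
      ((Algebra.linearMap K[X] F).compLeft _)
  have hφ1 : ∀ m w, (φ m).1 w = algebraMap K[X] F (m.1 w) := fun _ _ => rfl
  have hφ2 : ∀ m w, (φ m).2 w = algebraMap K[X] F (m.2 w) := fun _ _ => rfl
  have hφ : Function.Injective φ := fun a b h =>
    Prod.ext (funext fun w => hinj (by rw [← hφ1, h, hφ1]))
      (funext fun w => hinj (by rw [← hφ2, h, hφ2]))
  have hφs : ∀ (a : K[X]) m, φ (a • m) = algebraMap K[X] F a • φ m := fun a m => by
    rw [map_smul, algebraMap_smul]
  let v : ℕ → (Fin N2 × L → K[X]) × (Fin N1 → K[X]) := fun j => (Mult_nb z τ1 τ2 β)^[j] (A, Q)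
  have hv : ∀ j, v (j + 1) = Mult_nb z τ1 τ2 β (v j) := fun j => Function.iterate_succ_apply' _ _ _
  have hvd : ∀ j, (∀ w, ((v j).1 w).natDegree ≤ n + 2 * j) ∧
      ∀ w, ((v j).2 w).natDegree ≤ n + 2 * j := fun j => by
    induction j with
    | zero => exact ⟨hA, hQ⟩
    | succ j ih => rw [hv]; exact Mult_deg hd1 hd2 hβd ih
  have hvE : ∀ j u, PowerSeries.X ^ E ∣ Mult_hh G (v j) u := fun j => by
    induction j with
    | zero => exact hE
    | succ j ih =>
      intro u
      rw [hv, Mult_hh_nb hG]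
      refine dvd_sub (DS_dvd z (ih u)) ?_
      split_ifs
      · exact (ih _).mul_left _
      · exact dvd_zero _
  obtain ⟨r, hrN, hli, hdep⟩ := exists_first_dep (F := F) fun j => φ (v j)
  set W := Submodule.span F (Set.range fun i : Fin r => φ (v i)) with hW
  have hmem : ∀ j ≤ r, φ (v j) ∈ W := fun j hj => by
    rcases hj.eq_or_lt with k | k
    · rwa [k]
    · exact Submodule.subset_span ⟨⟨j, k⟩, rfl⟩
  let U : Submodule K[X] ((Fin N2 × L → K[X]) × (Fin N1 → K[X])) :=
    (W.restrictScalars K[X]).comap φ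
  have hUm : ∀ m, m ∈ U ↔ φ m ∈ W := fun _ => Iff.rfl
  have hU : ∀ m ∈ U, Mult_nb z τ1 τ2 β m ∈ U := fun m hm => by
    obtain ⟨f, hf⟩ := (Submodule.mem_span_range_iff_exists_fun F).1 ((hUm m).1 hm)
    obtain ⟨c, hc, a, ha⟩ := clear_den (A := K[X]) f
    have h1 : c • m = ∑ i, a i • v i := hφ (by
      rw [hφs, ← hf, map_sum, smul_sum]
      exact sum_congr rfl fun i _ => by rw [hφs, ha, smul_smul])
    obtain h2 : Mult_nb z τ1 τ2 β (c • m) ∈ U := by
      rw [h1, Mult_sum]
      refine U.sum_mem fun i _ => ?_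
      rw [Mult_smul, ← hv]
      exact U.add_mem (U.smul_mem _ (hmem i i.2.le)) (U.smul_mem _ (hmem _ i.2))
    rw [Mult_smul] at h2
    have h3 := (U.add_mem_iff_right (U.smul_mem _ hm)).1 h2
    rw [hUm, hφs] at h3
    exact (W.smul_mem_iff (by simpa using hc)).1 h3
  obtain htop : W.comap (LinearMap.inr F (Fin N2 × L → F) (Fin N1 → F)) = ⊤ := by
    by_contra hne
    obtain ⟨f, hf0, hf⟩ := Submodule.exists_le_ker_of_lt_top _ (lt_top_iff_ne_top.2 hne)
    obtain ⟨c, hc, a, ha⟩ := clear_den (A := K[X]) fun u => f (Pi.single u 1)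
    have hf1 : ∀ q, f q = ∑ u, q u * f (Pi.single u 1) := fun q => by
      conv_lhs => rw [pi_eq_sum_univ' q]
      simp only [map_sum, map_smul, smul_eq_mul]
    have h1 := Mult_step h1 h2 (r := ⟨0, hN⟩) rfl e hβ U hU (m0 := (A, Q))
      (hmem 0 (Nat.zero_le _)) hu hB a fun q hq => by
      apply hinj
      have h2 : f (φ (0, q)).2 = 0 := hf (show ((0 : Fin N2 × L → F), (φ (0, q)).2) ∈ W by
        convert (hUm _).1 hq using 1
        exact Prod.ext (funext fun w => by simp [hφ1]) rfl)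
      rw [hf1] at h2
      simp only [map_sum, map_mul, ha, map_zero, mul_assoc, ← mul_sum]
      rw [sum_congr rfl fun u _ => mul_comm (f (Pi.single u 1)) _]
      exact mul_eq_zero_of_right _ h2
    apply hf0
    ext u
    have h3 := ha u
    rw [h1] at h3
    simpa [hc] using h3.symm
  obtain ⟨S, hS1, hS2⟩ := exists_coords (W.map (LinearMap.fst F (Fin N2 × L → F) (Fin N1 → F)))
  obtain hrank : S.card + N1 ≤ r := by
    have h1 := ((LinearMap.fst F (Fin N2 × L → F)
      (Fin N1 → F)).domRestrict W).finrank_range_add_finrank_ker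
    rw [LinearMap.range_domRestrict, finrank_span_eq_card hli, Fintype.card_fin] at h1
    have hq : ∀ q : Fin N1 → F, ((0 : Fin N2 × L → F), q) ∈ W := fun q =>
      (htop ▸ Submodule.mem_top : q ∈ W.comap (LinearMap.inr F (Fin N2 × L → F) (Fin N1 → F)))
    let ι := ((LinearMap.inr F (Fin N2 × L → F) (Fin N1 → F)).codRestrict W hq).codRestrict
      (LinearMap.ker ((LinearMap.fst F (Fin N2 × L → F) (Fin N1 → F)).domRestrict W)) fun q => rfl
    have h2 := LinearMap.finrank_le_finrank_of_injective (f := ι) fun a b h =>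
      congrArg (fun t => t.1.1.2) h
    rw [Module.finrank_fin_fun] at h2
    omega
  let M := n + 2 * r
  let Lm := Fintype.linearCombination K fun t : Fin r × Fin E => (X ^ t.2.1 : K[X]) • v t.1
  have hLm : ∀ a, Lm a = ∑ j : Fin r, (∑ t : Fin E, C (a (j, t)) * X ^ t.1) • v j := fun a => by
    simp only [Lm, Fintype.linearCombination_apply, Fintype.sum_prod_type, sum_smul, mul_smul,
      ← Polynomial.algebraMap_eq, algebraMap_smul]
  have hdeg : ∀ (a : Fin r × Fin E → K) (j : Fin r) (p : K[X]), p.natDegree ≤ n + 2 * j →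
      ∀ i, E + M ≤ i → ((∑ t : Fin E, C (a (j, t)) * X ^ t.1) * p).coeff i = 0 :=
    fun a j p hp i hi => by
      rw [sum_mul, finsetSum_coeff]
      refine sum_eq_zero fun t _ => coeff_eq_zero_of_natDegree_lt ?_
      have h1 := (natDegree_mul_le (p := C (a (j, t)) * X ^ t.1) (q := p)).trans
        (add_le_add (natDegree_C_mul_X_pow_le _ _) hp)
      have := t.2
      have := j.2
      omega
  let Φ : (Fin r × Fin E → K) →ₗ[K] (S × Fin (E + M) → K) × (Fin N1 × Fin M → K) :=
    (LinearMap.pi fun t => lcoeff K t.2.1 ∘ₗ LinearMap.proj t.1.1 ∘ₗ LinearMap.fst K _ _ ∘ₗ Lm).prod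
    (LinearMap.pi fun t => lcoeff K (E + t.2.1) ∘ₗ LinearMap.proj t.1 ∘ₗ LinearMap.snd K _ _ ∘ₗ Lm)
  obtain hΦ : Function.Injective Φ := by
    rw [injective_iff_map_eq_zero]
    intro a ha
    have h1 : ∀ s ∈ S, ∀ t < E + M, ((Lm a).1 s).coeff t = 0 := fun s hs t ht =>
      congrFun (congrArg Prod.fst ha) (⟨s, hs⟩, ⟨t, ht⟩)
    have h2 : ∀ u, ∀ t < M, ((Lm a).2 u).coeff (E + t) = 0 := fun u t ht =>
      congrFun (congrArg Prod.snd ha) (u, ⟨t, ht⟩)
    obtain h3 : Lm a ∈ U := by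
      rw [hLm]
      exact U.sum_mem fun j _ => U.smul_mem _ (hmem j j.2.le)
    obtain h4 : (Lm a).1 = 0 := by
      have h5 := hS2 _ ⟨_, h3, rfl⟩ fun s hs => by
        obtain h6 : (Lm a).1 s = 0 := by
          ext t
          rcases lt_or_ge t (E + M) with k | k
          · exact h1 s hs t k
          · rw [hLm, Prod.fst_sum, Finset.sum_apply, finsetSum_coeff]
            exact sum_eq_zero fun j _ => hdeg a j _ ((hvd j).1 s) t k
        rw [LinearMap.fst_apply, hφ1, h6, map_zero]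
      funext w
      exact hinj (by rw [← hφ1, Pi.zero_apply, map_zero]; exact congrFun h5 w)
    have h5 : ∀ u, PowerSeries.X ^ E ∣ Mult_hh G (Lm a) u := fun u => by
      obtain h6 : Mult_hh G (Lm a) u = ∑ j : Fin r,
          ((∑ t : Fin E, C (a (j, t)) * X ^ t.1 : K[X]) : PowerSeries K) * Mult_hh G (v j) u := by
        rw [hLm]
        simp only [Mult_hh, Prod.fst_sum, Prod.snd_sum, Finset.sum_apply, Prod.smul_fst,
          Prod.smul_snd, Pi.smul_apply, smul_eq_mul, MCV.coe_sum (s := (univ : Finset (Fin r))),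
          Polynomial.coe_mul, mul_add, sum_add_distrib,
          mul_sum (s := (univ : Finset (Fin N2 × L))),
          sum_mul (s := (univ : Finset (Fin r))), mul_assoc]
        rw [sum_comm]
      rw [h6]
      exact dvd_sum fun j _ => (hvE j u).mul_left _
    obtain h6 : (Lm a).2 = 0 := by
      funext u
      ext t
      rcases lt_or_ge t E with k | k
      · have h7 := PowerSeries.X_pow_dvd_iff.1 (h5 u) t k
        simpa [Mult_hh, h4] using h7
      · rcases lt_or_ge t (E + M) with k' | k'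
        · have := h2 u (t - E) (by omega)
          rwa [add_tsub_cancel_of_le k] at this
        · rw [hLm, Prod.snd_sum, Finset.sum_apply, finsetSum_coeff]
          exact sum_eq_zero fun j _ => hdeg a j _ ((hvd j).2 u) t k'
    have h7 : φ (Lm a) = 0 := by rw [show Lm a = 0 from Prod.ext h4 h6, map_zero]
    rw [hLm, map_sum, sum_congr rfl fun j _ => hφs _ _] at h7
    funext ⟨j, t⟩
    have h8 := congrArg (fun p => coeff p t.1)
      (hinj ((Fintype.linearIndependent_iff.1 hli _ h7 j).trans (map_zero _).symm))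
    simp only [finsetSum_coeff, coeff_C_mul, coeff_X_pow, coeff_zero, Fin.val_inj, mul_ite,
      mul_one, mul_zero, sum_ite_eq, mem_univ, if_true] at h8
    exact h8
  have h1 := LinearMap.finrank_le_finrank_of_injective hΦ
  simp only [Module.finrank_prod, Module.finrank_fintype_fun_eq_card, Fintype.card_prod,
    Fintype.card_fin, Fintype.card_coe] at h1 hrN
  have h2 : N1 * E ≤ r * M := by nlinarith only [h1, hrank]
  exact h2.trans (Nat.mul_le_mul hrN (by omega))

end MC3
end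
end
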